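import Pool.Agent.H.MP_86f3ed_an.Fac.Base

open scoped InnerProductSpace Topology
open Filter ContinuousLinearMap

namespace Pool.Agent.MP_86f3ed.Fac

open Pin Sf

variable {K : Type*} [NormedAddCommGroup K] [InnerProductSpace ℂ K] [CompleteSpace K]
  {𝔓 : StarSubalgebra ℂ (K →L[ℂ] K)}

/-- The polar decomposition of an operator of a von Neumann algebra. -/
theorem Layer_polar {x : K →L[ℂ] K} (hx : x ∈ Com 𝔓) :
    ∃ g ∈ Com 𝔓, ∃ v ∈ Com 𝔓, star g = g ∧ g * g = star x * x ∧ v * g = x ∧ ‖v‖ ≤ 1 ∧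
      star v * v * g = g ∧ ∀ q : K →L[ℂ] K, q * x = x → q * v = v := by
  obtain ⟨g, hg, hgs, hgg, hg0⟩ := exists_root 𝔓 (x := x) (mul_mem (star_mem hx) hx)
  have hadj : ∀ y z, ⟪g y, z⟫_ℂ = ⟪y, g z⟫_ℂ := by
    intro y z
    conv_lhs => rw [← hgs]
    rw [star_eq_adjoint, adjoint_inner_left]
  have hggb : ∀ y, g (g y) = star x (x y) := fun y =>
    congrArg (fun T : K →L[ℂ] K => T y) hgg
  have hnorm : ∀ y, ‖x y‖ = ‖g y‖ := by
    intro y
    have h1 : ⟪x y, x y⟫_ℂ = ⟪g y, g y⟫_ℂ := by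
      rw [hadj y (g y), hggb, star_eq_adjoint, adjoint_inner_right]
    rw [inner_self_eq_norm_sq_to_K, inner_self_eq_norm_sq_to_K] at h1
    have h2 : ‖x y‖ ^ 2 = ‖g y‖ ^ 2 := by exact_mod_cast h1
    exact (sq_eq_sq₀ (norm_nonneg _) (norm_nonneg _)).mp h2
  obtain ⟨w, hw1, hwg, hw0⟩ := exists_ext (g : K →ₗ[ℂ] K) (x : K →ₗ[ℂ] K) (C := 1)
    zero_le_one (fun v => by rw [one_mul]; exact (hnorm v).le)
  replace hwg : ∀ v, w (g v) = x v := hwg
  replace hw0 : ∀ y, (∀ v, ⟪g v, y⟫_ℂ = 0) → w y = 0 := hw0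
  have hcomg : ∀ m ∈ 𝔓, ∀ v, m (g v) = g (m v) := fun m hm v =>
    congrArg (fun T : K →L[ℂ] K => T v) (mem_Com.mp hg m hm)
  have hcomb : ∀ m ∈ 𝔓, ∀ v, m (x v) = x (m v) := fun m hm v =>
    congrArg (fun T : K →L[ℂ] K => T v) (mem_Com.mp hx m hm)
  have hwcom : w ∈ Com 𝔓 := by
    rw [mem_Com]
    intro m hm
    ext y
    exact (ext_comm (g : K →ₗ[ℂ] K) (x : K →ₗ[ℂ] K) hwg hw0 m m
      (fun v => ⟨m v, hcomg m hm v, hcomb m hm v⟩)
      (fun v => ⟨star m v, hcomg (star m) (star_mem hm) v⟩) y).symm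
  have hker : ∀ y, (∀ v, ⟪g v, y⟫_ℂ = 0) → g y = 0 := by
    intro y hy
    have h1 := hy (g y)
    rw [hadj] at h1
    exact inner_self_eq_zero.mp h1
  have hxw : star x * w = g := by
    refine polar_ext g (fun v => ?_) (fun y hy => ?_)
    · show star x (w (g v)) = g (g v)
      rw [hwg, hggb]
    · show star x (w y) = g y
      rw [hw0 y hy, hker y hy, map_zero]
  have hwx : star w * x = g := by
    have := congrArg star hxw
    rwa [star_mul, star_star, hgs] at this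
  have hwgx : w * g = x := ContinuousLinearMap.ext hwg
  refine ⟨g, hg, w, hwcom, hgs, hgg, hwgx, hw1, ?_, ?_⟩
  · rw [mul_assoc, hwgx, hwx]
  · intro q hq
    have h1 : ∀ v, q (x v) = x v := fun v => congrArg (fun T : K →L[ℂ] K => T v) hq
    refine polar_ext g (fun v => ?_) (fun y hy => ?_)
    · show q (w (g v)) = w (g v)
      rw [hwg, h1]
    · show q (w y) = w y
      rw [hw0 y hy, map_zero]

/-- A spectral projection of a positive level is supported by the range. -/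
theorem Layer_supp {k : K →L[ℂ] K} {q : ℝ → K →L[ℂ] K} (hq : SpecFam 𝔓 k q) {c : ℝ}
    (hc : 0 < c) {T : K →L[ℂ] K} (hT : k * T = 0) : q c * T = 0 := by
  ext y
  have h1 := hq.low c hc.le (T y)
  have h2 : k (q c (T y)) = 0 := by
    have h3 : k * q c * T = 0 := by
      rw [← hq.comm c hc.le, mul_assoc, hT, mul_zero]
    exact congrArg (fun S : K →L[ℂ] K => S y) h3
  rw [h2, inner_zero_right, map_zero] at h1
  have h4 : ‖q c (T y)‖ ^ 2 ≤ 0 := by
    by_contra h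
    push Not at h
    have := mul_pos hc h
    linarith
  have h5 : ‖q c (T y)‖ = 0 := by
    have := sq_nonneg ‖q c (T y)‖
    exact pow_eq_zero_iff (two_ne_zero) |>.mp (le_antisymm h4 this)
  exact norm_eq_zero.mp h5

/-- The form estimate. -/
theorem Layer_form {k : K →L[ℂ] K} {q : ℝ → K →L[ℂ] K} (hq : SpecFam 𝔓 k q)
    (hk0 : ∀ x, 0 ≤ RCLike.re ⟪x, k x⟫_ℂ) {ε : ℝ} (hε : 0 < ε) (m : ℕ) :
    ∀ y, q (ε * m) y = 0 →
      0 ≤ RCLike.re ⟪y, (k - (ε : ℂ) • ∑ j ∈ Finset.range m, q (ε * (j + 1))) y⟫_ℂ ∧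
      RCLike.re ⟪y, (k - (ε : ℂ) • ∑ j ∈ Finset.range m, q (ε * (j + 1))) y⟫_ℂ ≤
        ε * ‖y‖ ^ 2 := by
  induction m with
  | zero =>
    intro y hy
    have h0 : (0 : ℝ) ≤ ε * ((0 : ℕ) : ℝ) := by simp
    have h1 := hq.up (ε * ((0 : ℕ) : ℝ)) h0 y
    rw [hy, sub_zero] at h1
    simp only [Finset.range_zero, Finset.sum_empty, smul_zero, sub_zero]
    refine ⟨hk0 y, h1.trans ?_⟩
    have := mul_nonneg hε.le (sq_nonneg ‖y‖)
    simpa using this
  | succ m ih =>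
    intro y hy
    have hm0 : (0 : ℝ) ≤ ε * (m : ℝ) := mul_nonneg hε.le (Nat.cast_nonneg m)
    have hm1 : (0 : ℝ) ≤ ε * ((m + 1 : ℕ) : ℝ) := mul_nonneg hε.le (Nat.cast_nonneg _)
    have hmm : ε * (m : ℝ) ≤ ε * ((m + 1 : ℕ) : ℝ) :=
      mul_le_mul_of_nonneg_left (by push_cast; linarith) hε.le
    set P : K →L[ℂ] K := ∑ j ∈ Finset.range m, q (ε * (j + 1)) with hP
    set Q : K →L[ℂ] K := q (ε * (m : ℝ)) with hQ
    have hQs : star Q = Q := hq.star_q _ hm0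
    have hQi : Q * Q = Q := hq.idem _ hm0
    have hQc : Q * k = k * Q := hq.comm _ hm0
    have hPQ : P * Q = (m : ℂ) • Q := by
      rw [hP, Finset.sum_mul]
      rw [Finset.sum_congr rfl (g := fun _ => Q)]
      · rw [Finset.sum_const, Finset.card_range]
        exact (Nat.cast_smul_eq_nsmul ℂ m Q).symm
      · intro j hj
        have hj' : j + 1 ≤ m := Finset.mem_range.mp hj
        have hj1 : ((j : ℝ) + 1) ≤ m := by exact_mod_cast hj'
        exact (hq.nest (ε * (j + 1)) (ε * m) (mul_nonneg hε.le (by positivity))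
          (mul_le_mul_of_nonneg_left hj1 hε.le)).1
    have hQP : Q * P = (m : ℂ) • Q := by
      rw [hP, Finset.mul_sum]
      rw [Finset.sum_congr rfl (g := fun _ => Q)]
      · rw [Finset.sum_const, Finset.card_range]
        exact (Nat.cast_smul_eq_nsmul ℂ m Q).symm
      · intro j hj
        have hj' : j + 1 ≤ m := Finset.mem_range.mp hj
        have hj1 : ((j : ℝ) + 1) ≤ m := by exact_mod_cast hj'
        exact (hq.nest (ε * (j + 1)) (ε * m) (mul_nonneg hε.le (by positivity))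
          (mul_le_mul_of_nonneg_left hj1 hε.le)).2
    set D : K →L[ℂ] K := k - (ε : ℂ) • P with hD
    have hDQ : D * Q = Q * D := by
      rw [hD, sub_mul, mul_sub, hQc, smul_mul_assoc, mul_smul_comm, hPQ, hQP]
    have hy' : q (ε * ((m : ℝ) + 1)) y = 0 := by
      have : ε * ((m : ℝ) + 1) = ε * ((m + 1 : ℕ) : ℝ) := by push_cast; ring
      rw [this]
      exact hy
    have hDy : (k - (ε : ℂ) • ∑ j ∈ Finset.range (m + 1), q (ε * (j + 1))) y = D y := by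
      rw [Finset.sum_range_succ, ← hP, smul_add, hD]
      simp only [sub_apply, add_apply, smul_apply, hy', smul_zero, add_zero]
    rw [hDy]
    have hsplit : y = (y - Q y) + Q y := by abel
    have hQa : Q (y - Q y) = 0 := by
      have h1 : Q (Q y) = Q y := congrArg (fun S : K →L[ℂ] K => S y) hQi
      rw [map_sub, h1, sub_self]
    obtain ⟨ha1, ha2⟩ := ih (y - Q y) hQa
    have hadj : ∀ u v, ⟪Q u, v⟫_ℂ = ⟪u, Q v⟫_ℂ := by
      intro u v
      conv_lhs => rw [← hQs]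
      rw [star_eq_adjoint, adjoint_inner_left]
    have hQb : q (ε * ((m + 1 : ℕ) : ℝ)) (Q y) = 0 := by
      have h1 := (hq.nest _ _ hm0 hmm).2
      have h2 := congrArg (fun S : K →L[ℂ] K => S y) h1
      exact h2.trans hy
    have hDb : D (Q y) = k (Q y) - ((ε * m : ℝ) : ℂ) • Q y := by
      have h1 : D * Q = k * Q - ((ε * m : ℝ) : ℂ) • Q := by
        rw [hD, sub_mul, smul_mul_assoc, hPQ, smul_smul]
        push_cast
        rfl
      exact congrArg (fun S : K →L[ℂ] K => S y) h1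
    have hb1 := hq.low (ε * m) hm0 y
    have hb2 := hq.up (ε * ((m + 1 : ℕ) : ℝ)) hm1 (Q y)
    rw [hQb, sub_zero] at hb2
    have hbD : RCLike.re ⟪Q y, D (Q y)⟫_ℂ
        = RCLike.re ⟪Q y, k (Q y)⟫_ℂ - ε * m * ‖Q y‖ ^ 2 := by
      rw [hDb, inner_sub_right, inner_smul_right, inner_self_eq_norm_sq_to_K, map_sub]
      congr 1
      have : ((ε * m : ℝ) : ℂ) * ((‖Q y‖ : ℝ) : ℂ) ^ 2 = ((ε * m * ‖Q y‖ ^ 2 : ℝ) : ℂ) := by
        push_cast; ring
      have h5 : RCLike.re (((ε * m : ℝ) : ℂ) * ((‖Q y‖ : ℝ) : ℂ) ^ 2) = ε * m * ‖Q y‖ ^ 2 := by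
        rw [this]
        exact Complex.ofReal_re _
      exact h5
    have hc1 : ⟪Q y, D (y - Q y)⟫_ℂ = 0 := by
      have h1 : Q (D (y - Q y)) = 0 := by
        have h2 : Q (D (y - Q y)) = D (Q (y - Q y)) :=
          congrArg (fun S : K →L[ℂ] K => S (y - Q y)) hDQ.symm
        rw [h2, hQa, map_zero]
      rw [hadj, h1, inner_zero_right]
    have hc2 : ⟪y - Q y, D (Q y)⟫_ℂ = 0 := by
      have h1 : D (Q y) = Q (D y) := congrArg (fun S : K →L[ℂ] K => S y) hDQ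
      rw [h1, ← hadj, hQa, inner_zero_left]
    have hform : RCLike.re ⟪y, D y⟫_ℂ
        = RCLike.re ⟪y - Q y, D (y - Q y)⟫_ℂ + RCLike.re ⟪Q y, D (Q y)⟫_ℂ := by
      have h1 : ⟪y, D y⟫_ℂ = ⟪y - Q y, D (y - Q y)⟫_ℂ + ⟪Q y, D (Q y)⟫_ℂ := by
        conv_lhs => rw [hsplit]
        rw [map_add, inner_add_left, inner_add_right, inner_add_right, hc1, hc2]
        ring
      rw [h1, map_add]
    have hnsq : ‖y‖ ^ 2 = ‖y - Q y‖ ^ 2 + ‖Q y‖ ^ 2 := by
      have h1 : ⟪y - Q y, Q y⟫_ℂ = 0 := by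
        rw [← hadj, hQa, inner_zero_left]
      have h2 := norm_add_sq_eq_norm_sq_add_norm_sq_of_inner_eq_zero _ _ h1
      rw [← hsplit] at h2
      nlinarith [h2]
    rw [hform, hbD, hnsq]
    push_cast at hb2
    constructor
    · nlinarith
    · nlinarith

/-- Approximation of `star x * x` and `x * star x` by multiples of sums of equivalent
projections. -/
theorem exists_layer {x : K →L[ℂ] K} (hx : x ∈ Com 𝔓) {ε : ℝ} (hε : 0 < ε) :
    ∃ (n : ℕ) (w : Fin n → K →L[ℂ] K), (∀ j, w j ∈ Com 𝔓) ∧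
      (∀ j, w j * star (w j) * w j = w j) ∧
      ‖star x * x - (ε : ℂ) • ∑ j, star (w j) * w j‖ ≤ ε ∧
      ‖x * star x - (ε : ℂ) • ∑ j, w j * star (w j)‖ ≤ ε ∧
      (∀ p : K →L[ℂ] K, star p = p → x * p = x → ∀ j, w j * p = w j) ∧
      ∀ q : K →L[ℂ] K, q * x = x → ∀ j, q * w j = w j := by
  obtain ⟨g, hg, v, hv, hgs, hgg, hvg, hv1, hvvg, hvq⟩ := Layer_polar hx
  set k : K →L[ℂ] K := star x * x with hk
  have hkC : k ∈ Com 𝔓 := mul_mem (star_mem hx) hx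
  have hks : star k = k := by rw [hk, star_mul, star_star]
  have hkpos : ∀ y, 0 ≤ RCLike.re ⟪y, k y⟫_ℂ := by
    intro y
    have h1 : ⟪y, k y⟫_ℂ = ⟪x y, x y⟫_ℂ := by
      show ⟪y, star x (x y)⟫_ℂ = _
      rw [star_eq_adjoint, adjoint_inner_right]
    rw [h1]
    exact inner_self_nonneg
  obtain ⟨q, hq⟩ := exists_spec 𝔓 hkC hks hkpos
  obtain ⟨n, hn⟩ := exists_nat_ge (‖k‖ / ε)
  have hn' : ‖k‖ ≤ ε * n := by
    rw [div_le_iff₀ hε] at hn
    linarith
  have hpos : ∀ j : ℕ, 0 < ε * ((j : ℝ) + 1) := fun j => mul_pos hε (by positivity)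
  set s : K →L[ℂ] K := star v * v with hs
  have hss : star s = s := by rw [hs, star_mul, star_star]
  have hks' : k * s = k := by
    have h1 : s * k = k := by rw [← hgg, ← mul_assoc, hvvg]
    have h2 := congrArg star h1
    rwa [star_mul, hss, hks] at h2
  have hqs : ∀ j : ℕ, q (ε * ((j : ℝ) + 1)) * s = q (ε * ((j : ℝ) + 1)) := by
    intro j
    have h1 := Layer_supp hq (hpos j) (T := 1 - s) (by rw [mul_sub, mul_one, hks', sub_self])
    rw [mul_sub, mul_one, sub_eq_zero] at h1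
    exact h1.symm
  have hww : ∀ j : ℕ, star (v * q (ε * ((j : ℝ) + 1))) * (v * q (ε * ((j : ℝ) + 1)))
      = q (ε * ((j : ℝ) + 1)) := by
    intro j
    rw [star_mul, hq.star_q _ (hpos j).le]
    have h1 : q (ε * ((j : ℝ) + 1)) * star v * (v * q (ε * ((j : ℝ) + 1)))
        = q (ε * ((j : ℝ) + 1)) * s * q (ε * ((j : ℝ) + 1)) := by
      rw [hs]; noncomm_ring
    rw [h1, hqs, hq.idem _ (hpos j).le]
  have hnormk : ‖k - (ε : ℂ) • ∑ j : Fin n, q (ε * (((j : ℕ) : ℝ) + 1))‖ ≤ ε := by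
    rw [Fin.sum_univ_eq_sum_range (fun j : ℕ => q (ε * ((j : ℝ) + 1))) n]
    have hz : q (ε * n) = 0 := hq.zero _ (mul_nonneg hε.le (Nat.cast_nonneg n)) hn'
    have hF := Layer_form hq hkpos hε n
    set D : K →L[ℂ] K := k - (ε : ℂ) • ∑ j ∈ Finset.range n, q (ε * ((j : ℝ) + 1)) with hD
    have hDs : IsSelfAdjoint D := by
      show star D = D
      rw [hD, star_sub, star_smul, star_sum, hks]
      congr 1
      have h1 : star (ε : ℂ) = (ε : ℂ) := Complex.conj_ofReal ε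
      rw [h1]
      congr 1
      exact Finset.sum_congr rfl fun j _ => hq.star_q _ (hpos j).le
    have hD0 : 0 ≤ D := by
      rw [ContinuousLinearMap.nonneg_iff_isPositive, ContinuousLinearMap.isPositive_def']
      refine ⟨hDs, fun y => ?_⟩
      rw [reApplyInnerSelf_apply, inner_re_symm]
      exact (hF y (by rw [hz]; rfl)).1
    rw [CStarAlgebra.norm_le_iff_le_algebraMap D hε.le hD0]
    rw [← sub_nonneg, ContinuousLinearMap.nonneg_iff_isPositive,
      ContinuousLinearMap.isPositive_def']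
    refine ⟨?_, fun y => ?_⟩
    · refine IsSelfAdjoint.sub ?_ hDs
      exact IsSelfAdjoint.algebraMap _ (IsSelfAdjoint.all ε)
    · rw [reApplyInnerSelf_apply, inner_re_symm, sub_apply, inner_sub_right, map_sub]
      have h1 : (algebraMap ℝ (K →L[ℂ] K) ε) y = ((ε : ℝ) : ℂ) • y := rfl
      rw [h1, inner_smul_right, inner_self_eq_norm_sq_to_K]
      have h5 : RCLike.re (((ε : ℝ) : ℂ) * ((‖y‖ : ℝ) : ℂ) ^ 2) = ε * ‖y‖ ^ 2 := by
        have : ((ε : ℝ) : ℂ) * ((‖y‖ : ℝ) : ℂ) ^ 2 = ((ε * ‖y‖ ^ 2 : ℝ) : ℂ) := by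
          push_cast; ring
        rw [this]
        exact Complex.ofReal_re _
      have h6 := (hF y (by rw [hz]; rfl)).2
      have h7 : RCLike.re (((ε : ℝ) : ℂ) * ((RCLike.ofReal ‖y‖ : ℂ)) ^ 2) = ε * ‖y‖ ^ 2 := h5
      rw [h7]
      linarith
  refine ⟨n, fun j => v * q (ε * (((j : ℕ) : ℝ) + 1)), ?_, ?_, ?_, ?_, ?_, ?_⟩
  · intro j
    exact mul_mem hv (hq.mem _ (hpos j).le)
  · intro j
    show v * q (ε * (((j : ℕ) : ℝ) + 1)) * star (v * q (ε * (((j : ℕ) : ℝ) + 1)))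
      * (v * q (ε * (((j : ℕ) : ℝ) + 1))) = _
    rw [mul_assoc, hww, mul_assoc, hq.idem _ (hpos j).le]
  · simp only [hww]
    exact hnormk
  · have h1 : x * star x = v * k * star v := by
      rw [← hgg]
      have h2 : star x = g * star v := by rw [← hvg, star_mul, hgs]
      rw [h2, ← hvg]
      noncomm_ring
    have h3 : x * star x - (ε : ℂ) • ∑ j : Fin n, v * q (ε * (((j : ℕ) : ℝ) + 1)) *
          star (v * q (ε * (((j : ℕ) : ℝ) + 1)))
        = v * (k - (ε : ℂ) • ∑ j : Fin n, q (ε * (((j : ℕ) : ℝ) + 1))) * star v := by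
      rw [mul_sub, sub_mul, h1, mul_smul_comm, smul_mul_assoc, Finset.mul_sum, Finset.sum_mul]
      congr 2
      refine Finset.sum_congr rfl fun j _ => ?_
      rw [star_mul, hq.star_q _ (hpos j).le]
      have h4 := hq.idem _ (hpos (j : ℕ)).le
      calc v * q (ε * (((j : ℕ) : ℝ) + 1)) * (q (ε * (((j : ℕ) : ℝ) + 1)) * star v)
          = v * (q (ε * (((j : ℕ) : ℝ) + 1)) * q (ε * (((j : ℕ) : ℝ) + 1))) * star v := by
            noncomm_ring
        _ = v * q (ε * (((j : ℕ) : ℝ) + 1)) * star v := by rw [h4]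
    show ‖x * star x - (ε : ℂ) • ∑ j : Fin n, v * q (ε * (((j : ℕ) : ℝ) + 1)) *
          star (v * q (ε * (((j : ℕ) : ℝ) + 1)))‖ ≤ ε
    rw [h3]
    refine (norm_mul_le _ _).trans ?_
    have h5 : ‖star v‖ ≤ 1 := by rw [norm_star]; exact hv1
    have h6 := norm_mul_le v (k - (ε : ℂ) • ∑ j : Fin n, q (ε * (((j : ℕ) : ℝ) + 1)))
    have h7 : ‖v * (k - (ε : ℂ) • ∑ j : Fin n, q (ε * (((j : ℕ) : ℝ) + 1)))‖ ≤ ε := by
      refine h6.trans ?_
      calc ‖v‖ * ‖k - (ε : ℂ) • ∑ j : Fin n, q (ε * (((j : ℕ) : ℝ) + 1))‖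
          ≤ 1 * ε := mul_le_mul hv1 hnormk (norm_nonneg _) zero_le_one
        _ = ε := one_mul ε
    calc ‖v * (k - (ε : ℂ) • ∑ j : Fin n, q (ε * (((j : ℕ) : ℝ) + 1)))‖ * ‖star v‖
        ≤ ε * 1 := mul_le_mul h7 h5 (norm_nonneg _) hε.le
      _ = ε := mul_one ε
  · intro p hps hxp j
    have hkp : k * p = k := by rw [hk, mul_assoc, hxp]
    have h1 := Layer_supp hq (hpos j) (T := 1 - p) (by rw [mul_sub, mul_one, hkp, sub_self])
    rw [mul_sub, mul_one, sub_eq_zero] at h1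
    show v * q (ε * (((j : ℕ) : ℝ) + 1)) * p = v * q (ε * (((j : ℕ) : ℝ) + 1))
    rw [mul_assoc, ← h1]
  · intro r hr j
    show r * (v * q (ε * (((j : ℕ) : ℝ) + 1))) = v * q (ε * (((j : ℕ) : ℝ) + 1))
    rw [← mul_assoc, hvq r hr]

/-- The approximation step. -/
theorem Layer_approx {C : ℝ} {φ : (K →L[ℂ] K) →ₗ[ℂ] ℂ} (hφ : ∀ S, ‖φ S‖ ≤ C * ‖S‖)
    {ε : ℝ} {n : ℕ} (w : Fin n → K →L[ℂ] K) {k : K →L[ℂ] K}
    (h : ‖k - (ε : ℂ) • ∑ j, w j‖ ≤ ε) :
    |(φ k).re - ε * ∑ j, (φ (w j)).re| ≤ |C| * ε := by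
  have h1 : (φ k).re - ε * ∑ j, (φ (w j)).re = (φ (k - (ε : ℂ) • ∑ j, w j)).re := by
    rw [map_sub, map_smul, map_sum, Complex.sub_re, smul_eq_mul, Complex.re_ofReal_mul,
      Complex.re_sum]
  rw [h1]
  refine (Complex.abs_re_le_norm _).trans ((hφ _).trans ?_)
  refine mul_le_mul (le_abs_self C) h (norm_nonneg _) (abs_nonneg C)

/-- From equivalent projections to elements. -/
theorem layer_le {a C : ℝ} (ha : 0 ≤ a) {φ ψ : (K →L[ℂ] K) →ₗ[ℂ] ℂ} (hφ : ∀ S, ‖φ S‖ ≤ C * ‖S‖)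
    (hψ : ∀ S, ‖ψ S‖ ≤ C * ‖S‖) {r : K →L[ℂ] K} (hr : star r = r)
    (h : ∀ w ∈ Com 𝔓, w * star w * w = w → r * w = w → w * r = w →
      (φ (star w * w)).re ≤ a * (ψ (w * star w)).re)
    {x : K →L[ℂ] K} (hx : x ∈ Com 𝔓) (h1 : r * x = x) (h2 : x * r = x) :
    (φ (star x * x)).re ≤ a * (ψ (x * star x)).re := by
  have key : ∀ ε : ℝ, 0 < ε →
      (φ (star x * x)).re ≤ a * (ψ (x * star x)).re + (|C| + a * |C|) * ε := by
    intro ε hε
    obtain ⟨n, w, hw, hww, hw1, hw2, hwr, hwl⟩ := exists_layer hx hε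
    have e1 := abs_le.mp (Layer_approx hφ (fun j => star (w j) * w j) hw1)
    have e2 := abs_le.mp (Layer_approx hψ (fun j => w j * star (w j)) hw2)
    have e3 : ∑ j, (φ (star (w j) * w j)).re ≤ a * ∑ j, (ψ (w j * star (w j))).re := by
      rw [Finset.mul_sum]
      exact Finset.sum_le_sum fun j _ => h (w j) (hw j) (hww j) (hwl r h1 j) (hwr r hr h2 j)
    have e4 := mul_le_mul_of_nonneg_left e3 hε.le
    have e5 := mul_le_mul_of_nonneg_left e2.1 ha
    have e6 := mul_le_mul_of_nonneg_left e2.2 ha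
    nlinarith [e1.1, e1.2]
  refine le_of_forall_pos_le_add fun δ hδ => ?_
  have hM : 0 ≤ |C| + a * |C| := by positivity
  have h3 := key (δ / (|C| + a * |C| + 1)) (by positivity)
  have h4 : (|C| + a * |C|) * (δ / (|C| + a * |C| + 1)) ≤ δ := by
    rw [mul_div_assoc', div_le_iff₀ (by positivity)]
    nlinarith
  linarith

/-- From projections to elements. -/
theorem layer_le' {a C : ℝ} (ha : 0 ≤ a) {φ ψ : (K →L[ℂ] K) →ₗ[ℂ] ℂ}
    (hφ : ∀ S, ‖φ S‖ ≤ C * ‖S‖) (hψ : ∀ S, ‖ψ S‖ ≤ C * ‖S‖) {r : K →L[ℂ] K} (hr : star r = r)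
    (h : ∀ p, Pr 𝔓 p → r * p = p → (φ p).re ≤ a * (ψ p).re)
    {x : K →L[ℂ] K} (hx : x ∈ Com 𝔓) (h2 : x * r = x) :
    (φ (star x * x)).re ≤ a * (ψ (star x * x)).re := by
  have key : ∀ ε : ℝ, 0 < ε →
      (φ (star x * x)).re ≤ a * (ψ (star x * x)).re + (|C| + a * |C|) * ε := by
    intro ε hε
    obtain ⟨n, w, hw, hww, hw1, hw2, hwr, hwl⟩ := exists_layer hx hε
    have e1 := abs_le.mp (Layer_approx hφ (fun j => star (w j) * w j) hw1)
    have e2 := abs_le.mp (Layer_approx hψ (fun j => star (w j) * w j) hw1)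
    have e3 : ∑ j, (φ (star (w j) * w j)).re ≤ a * ∑ j, (ψ (star (w j) * w j)).re := by
      rw [Finset.mul_sum]
      refine Finset.sum_le_sum fun j _ => h _ (Pr.of_pi (hw j) (hww j)) ?_
      have h3 := congrArg star (hwr r hr h2 j)
      rw [star_mul, hr] at h3
      rw [← mul_assoc, h3]
    have e4 := mul_le_mul_of_nonneg_left e3 hε.le
    have e5 := mul_le_mul_of_nonneg_left e2.1 ha
    have e6 := mul_le_mul_of_nonneg_left e2.2 ha
    nlinarith [e1.1, e1.2]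
  refine le_of_forall_pos_le_add fun δ hδ => ?_
  have hM : 0 ≤ |C| + a * |C| := by positivity
  have h3 := key (δ / (|C| + a * |C| + 1)) (by positivity)
  have h4 : (|C| + a * |C|) * (δ / (|C| + a * |C| + 1)) ≤ δ := by
    rw [mul_div_assoc', div_le_iff₀ (by positivity)]
    nlinarith
  linarith

end Pool.Agent.MP_86f3ed.Fac
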