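import Pool.Agent.H.MP_86f3ed_an.Fac.Base
import Pool.Agent.H.MP_86f3ed_an.Sf.Ext

open scoped InnerProductSpace Topology
open Filter ContinuousLinearMap

namespace Pool.Agent.MP_86f3ed.Fac

open Pin Sf

variable {K : Type*} [NormedAddCommGroup K] [InnerProductSpace ℂ K] [CompleteSpace K]
  {𝔓 : StarSubalgebra ℂ (K →L[ℂ] K)}

/-- Operators agreeing on the range of `g` and on its orthogonal complement are equal. -/
private theorem Arch_ext {F : Type*} [NormedAddCommGroup F] [NormedSpace ℂ F] (g : K →L[ℂ] K)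
    {S S' : K →L[ℂ] F} (h1 : ∀ v, S (g v) = S' (g v))
    (h2 : ∀ x, (∀ v, ⟪g v, x⟫_ℂ = 0) → S x = S' x) : S = S' := by
  let L : Submodule ℂ K := (LinearMap.range (g : K →ₗ[ℂ] K)).topologicalClosure
  haveI : CompleteSpace L :=
    (LinearMap.range (g : K →ₗ[ℂ] K)).isClosed_topologicalClosure.completeSpace_coe
  have hL : ∀ x ∈ L, S x = S' x := by
    intro x hx
    have h : (L : Set K) ⊆ {x | S x = S' x} := by
      refine closure_minimal ?_ (isClosed_eq S.continuous S'.continuous)
      rintro _ ⟨v, rfl⟩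
      exact h1 v
    exact h hx
  ext x
  have hx : x = L.starProjection x + (x - L.starProjection x) := by abel
  have hx1 : S (L.starProjection x) = S' (L.starProjection x) :=
    hL _ (Submodule.starProjection_apply_mem L x)
  have hx2 : S (x - L.starProjection x) = S' (x - L.starProjection x) := by
    refine h2 _ fun v => ?_
    have h3 : x - L.starProjection x ∈ Lᗮ := L.sub_starProjection_mem_orthogonal x
    exact (Submodule.mem_orthogonal L _).mp h3 (g v)
      (Submodule.le_topologicalClosure _ ⟨v, rfl⟩)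
  rw [hx, map_add, map_add, hx1, hx2]

private theorem Arch_inner (A B : K →L[ℂ] K) (x y : K) :
    ⟪A x, B y⟫_ℂ = ⟪x, (star A * B) y⟫_ℂ := by
  rw [star_eq_adjoint]
  exact (adjoint_inner_right A x (B y)).symm

private theorem Arch_inner' (A : K →L[ℂ] K) (x y : K) :
    ⟪star A x, y⟫_ℂ = ⟪x, A y⟫_ℂ := by
  rw [star_eq_adjoint]
  exact adjoint_inner_left A y x

/-- The partial isometry between the ranges of two operators with the same modulus. -/
private theorem Arch_pi {A B : K →L[ℂ] K} (hA : A ∈ Com 𝔓) (hB : B ∈ Com 𝔓)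
    (h : star A * A = star B * B) :
    ∃ w ∈ Com 𝔓, (∀ v, w (A v) = B v) ∧ (∀ x, (∀ v, ⟪A v, x⟫_ℂ = 0) → w x = 0) ∧
      (∀ v, star w (B v) = A v) ∧ (∀ x, (∀ v, ⟪B v, x⟫_ℂ = 0) → star w x = 0) ∧
      w * star w * w = w := by
  have hn : ∀ v, ‖B v‖ ≤ 1 * ‖A v‖ := by
    intro v
    have h1 : ⟪A v, A v⟫_ℂ = ⟪B v, B v⟫_ℂ := by rw [Arch_inner, Arch_inner, h]
    rw [inner_self_eq_norm_sq_to_K, inner_self_eq_norm_sq_to_K] at h1
    have h2 : ‖A v‖ ^ 2 = ‖B v‖ ^ 2 := by exact_mod_cast h1
    rw [one_mul]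
    exact ((sq_eq_sq₀ (norm_nonneg _) (norm_nonneg _)).mp h2).ge
  obtain ⟨w, -, hw1, hw0⟩ := exists_ext (A : K →ₗ[ℂ] K) (B : K →ₗ[ℂ] K) zero_le_one hn
  replace hw1 : ∀ v, w (A v) = B v := hw1
  replace hw0 : ∀ x, (∀ v, ⟪A v, x⟫_ℂ = 0) → w x = 0 := hw0
  have h3 : ∀ v, star w (B v) = A v := by
    intro v
    have h4 : (innerSL ℂ (star w (B v)) : K →L[ℂ] ℂ) = innerSL ℂ (A v) := by
      refine Arch_ext A (fun u => ?_) fun x hx => ?_
      · show ⟪star w (B v), A u⟫_ℂ = ⟪A v, A u⟫_ℂ
        rw [Arch_inner', hw1, Arch_inner, Arch_inner, h]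
      · show ⟪star w (B v), x⟫_ℂ = ⟪A v, x⟫_ℂ
        rw [Arch_inner', hw0 x hx, inner_zero_right, hx v]
    have h5 : ∀ y, ⟪star w (B v), y⟫_ℂ = ⟪A v, y⟫_ℂ := fun y =>
      congrArg (fun f : K →L[ℂ] ℂ => f y) h4
    exact ext_inner_right ℂ h5
  have h4 : ∀ x, (∀ v, ⟪B v, x⟫_ℂ = 0) → star w x = 0 := by
    intro x hx
    have h4 : (innerSL ℂ (star w x) : K →L[ℂ] ℂ) = 0 := by
      refine Arch_ext A (fun u => ?_) fun y hy => ?_
      · show ⟪star w x, A u⟫_ℂ = 0
        rw [Arch_inner', hw1, ← inner_conj_symm, hx u, map_zero]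
      · show ⟪star w x, y⟫_ℂ = 0
        rw [Arch_inner', hw0 y hy, inner_zero_right]
    have h5 : ∀ y, ⟪star w x, y⟫_ℂ = 0 := fun y =>
      congrArg (fun f : K →L[ℂ] ℂ => f y) h4
    exact inner_self_eq_zero.mp (h5 (star w x))
  refine ⟨w, ?_, hw1, hw0, h3, h4, ?_⟩
  · rw [mem_Com]
    intro a ha
    have hA1 : ∀ b ∈ 𝔓, ∀ v, b (A v) = A (b v) := fun b hb v =>
      congrArg (fun S : K →L[ℂ] K => S v) (mem_Com.mp hA b hb)
    have hB1 : ∀ b ∈ 𝔓, ∀ v, b (B v) = B (b v) := fun b hb v =>
      congrArg (fun S : K →L[ℂ] K => S v) (mem_Com.mp hB b hb)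
    refine Arch_ext A (fun v => ?_) fun x hx => ?_
    · show a (w (A v)) = w (a (A v))
      rw [hw1, hA1 a ha, hw1, hB1 a ha]
    · show a (w x) = w (a x)
      rw [hw0 x hx, map_zero, hw0]
      intro v
      have h5 : ⟪A v, a x⟫_ℂ = ⟪star a (A v), x⟫_ℂ := (Arch_inner' a (A v) x).symm
      rw [h5, hA1 _ (star_mem ha), hx]
  · refine Arch_ext A (fun v => ?_) fun x hx => ?_
    · show w (star w (w (A v))) = w (A v)
      rw [hw1, h3, hw1]
    · show w (star w (w x)) = w x
      rw [hw0 x hx, map_zero, map_zero]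

/-- A finite projection does not contain infinitely many orthogonal equivalent copies of a nonzero
projection. -/
theorem no_seq {e p : K →L[ℂ] K} (he : Pr 𝔓 e) (hf : Fte 𝔓 e) (hp0 : p ≠ 0)
    (U : ℕ → K →L[ℂ] K) (hU : ∀ i, U i ∈ Com 𝔓)
    (hUU : ∀ i j, star (U i) * U j = if i = j then p else 0) (heU : ∀ i, e * U i = U i) :
    False := by
  have h0 : ∀ k, star (U k) * U k = star (U (k + 1)) * U (k + 1) := by
    intro k
    rw [hUU, hUU, if_pos rfl, if_pos rfl]
  choose w hwc hw1 hw0 hs1 hs0 hpi using fun k => Arch_pi (hU k) (hU (k + 1)) (h0 k)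
  have hort : ∀ i j, i ≠ j → ∀ u v, ⟪U i u, U j v⟫_ℂ = 0 := by
    intro i j hij u v
    rw [Arch_inner, hUU, if_neg hij, zero_apply, inner_zero_right]
  have heU' : ∀ i v, e (U i v) = U i v := fun i v =>
    congrArg (fun S : K →L[ℂ] K => S v) (heU i)
  have hew : ∀ i, e * w i = w i := by
    intro i
    refine Arch_ext (U i) (fun v => ?_) fun x hx => ?_
    · show e (w i (U i v)) = w i (U i v)
      rw [hw1, heU']
    · show e (w i x) = w i x
      rw [hw0 i x hx, map_zero]
  have hes : ∀ i, e * star (w i) = star (w i) := by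
    intro i
    refine Arch_ext (U (i + 1)) (fun v => ?_) fun x hx => ?_
    · show e (star (w i) (U (i + 1) v)) = star (w i) (U (i + 1) v)
      rw [hs1, heU']
    · show e (star (w i) x) = star (w i) x
      rw [hs0 i x hx, map_zero]
  have hwe : ∀ i, w i * e = w i := by
    intro i
    have h1 := congrArg star (hes i)
    rwa [star_mul, star_star, he.sa] at h1
  have h1 : ∀ i j, i ≠ j → star (w i) * w j = 0 := by
    intro i j hij
    refine Arch_ext (U j) (fun v => ?_) fun x hx => ?_
    · show star (w i) (w j (U j v)) = 0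
      rw [hw1, hs0]
      exact fun u => hort _ _ (fun h => hij (Nat.succ_injective h)) _ _
    · show star (w i) (w j x) = 0
      rw [hw0 j x hx, map_zero]
  have h2 : ∀ i j, i ≠ j → w i * star (w j) = 0 := by
    intro i j hij
    refine Arch_ext (U (j + 1)) (fun v => ?_) fun x hx => ?_
    · show w i (star (w j) (U (j + 1) v)) = 0
      rw [hs1, hw0]
      exact fun u => hort _ _ hij _ _
    · show w i (star (w j) x) = 0
      rw [hs0 j x hx, map_zero]
  obtain ⟨v, hv, -, hvv, hvv', hvpi⟩ := exists_osum w hpi h1 h2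
  have hvc : v ∈ Com 𝔓 := osum_mem 𝔓 w hwc hv
  have hev : e * v = v := by
    refine ContinuousLinearMap.ext fun x => ?_
    have h3 := ContinuousLinearMap.hasSum e (hv x)
    have h4 : (fun i => e (w i x)) = fun i => w i x := by
      funext i
      exact congrArg (fun S : K →L[ℂ] K => S x) (hew i)
    rw [h4] at h3
    exact h3.unique (hv x)
  have hve : v * e = v := by
    refine ContinuousLinearMap.ext fun x => ?_
    have h3 := hv (e x)
    have h4 : (fun i => w i (e x)) = fun i => w i x := by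
      funext i
      exact congrArg (fun S : K →L[ℂ] K => S x) (hwe i)
    rw [h4] at h3
    exact h3.unique (hv x)
  -- the initial projection of `v` contains its range
  have hin : ∀ j x, (star v * v) (U j x) = U j x := by
    intro j x
    have h3 : HasSum (fun i => (star (w i) * w i) (U j x)) ((star (w j) * w j) (U j x)) := by
      refine hasSum_single j fun i hi => ?_
      show star (w i) (w i (U j x)) = 0
      rw [hw0 i (U j x) fun u => hort _ _ hi _ _, map_zero]
    have h4 : (star (w j) * w j) (U j x) = U j x := by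
      show star (w j) (w j (U j x)) = U j x
      rw [hw1, hs1]
    rw [h4] at h3
    exact (hvv _).unique h3
  have hinw : ∀ j, star v * v * w j = w j := by
    intro j
    refine Arch_ext (U j) (fun x => ?_) fun x hx => ?_
    · show (star v * v) (w j (U j x)) = w j (U j x)
      rw [hw1, hin]
    · show (star v * v) (w j x) = w j x
      rw [hw0 j x hx, map_zero]
  have hvvv : star v * v * v = v := by
    refine ContinuousLinearMap.ext fun x => ?_
    have h3 := ContinuousLinearMap.hasSum (star v * v) (hv x)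
    have h4 : (fun i => (star v * v) (w i x)) = fun i => w i x := by
      funext i
      exact congrArg (fun S : K →L[ℂ] K => S x) (hinw i)
    rw [h4] at h3
    exact h3.unique (hv x)
  have hsve : star v * e = star v := by
    have h3 := congrArg star hev
    rwa [star_mul, he.sa] at h3
  have hesv : e * star v = star v := by
    have h3 := congrArg star hve
    rwa [star_mul, he.sa] at h3
  have hsvv : star v * (star v * v) = star v := by
    have h3 := congrArg star hvvv
    rwa [star_mul, star_mul, star_star] at h3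
  have hvsv : v * (star v * v) = v := by rw [← mul_assoc]; exact hvpi
  have hsvs : star v * v * star v = star v := by
    have h3 := congrArg star hvpi
    rw [star_mul, star_mul, star_star] at h3
    rw [mul_assoc]
    exact h3
  set u : K →L[ℂ] K := v + (e - star v * v) with hu
  have huc : u ∈ Com 𝔓 := add_mem hvc (sub_mem he.mem (mul_mem (star_mem hvc) hvc))
  have hsu : star u = star v + (e - star v * v) := by
    rw [hu, star_add, star_sub, he.sa, star_mul, star_star]
  have heu : e * u = u := by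
    rw [hu, mul_add, hev, mul_sub, he.idem, ← mul_assoc, hesv]
  have huu : star u * u = e := by
    have e1 : star v * (e - star v * v) = 0 := by rw [mul_sub, hsve, hsvv, sub_self]
    have e2 : (e - star v * v) * v = 0 := by rw [sub_mul, hev, hvvv, sub_self]
    have e3 : (e - star v * v) * (e - star v * v) = e - star v * v := by
      have e4 : (e - star v * v) * (star v * v) = 0 := by
        rw [sub_mul, ← mul_assoc e, hesv, ← mul_assoc (star v * v), hsvs, sub_self]
      have e5 : (e - star v * v) * e = e - star v * v := by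
        rw [sub_mul, he.idem, mul_assoc, hve]
      rw [mul_sub, e5, e4, sub_zero]
    rw [hsu, hu, add_mul, mul_add, mul_add, e1, e2, e3]
    abel
  have hfin := hf u huc huu heu
  have huu' : u * star u = v * star v + (e - star v * v) := by
    have e1 : v * (e - star v * v) = 0 := by rw [mul_sub, hve, hvsv, sub_self]
    have e2 : (e - star v * v) * star v = 0 := by rw [sub_mul, hesv, hsvs, sub_self]
    have e3 : (e - star v * v) * (e - star v * v) = e - star v * v := by
      have e4 : (e - star v * v) * (star v * v) = 0 := by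
        rw [sub_mul, ← mul_assoc e, hesv, ← mul_assoc (star v * v), hsvs, sub_self]
      have e5 : (e - star v * v) * e = e - star v * v := by
        rw [sub_mul, he.idem, mul_assoc, hve]
      rw [mul_sub, e5, e4, sub_zero]
    rw [hsu, hu, add_mul, mul_add, mul_add, e1, e2, e3]
    abel
  rw [huu'] at hfin
  have heq : v * star v = star v * v := by
    have h3 : v * star v - star v * v = 0 := by
      have h4 : v * star v - star v * v = (v * star v + (e - star v * v)) - e := by abel
      rw [h4, hfin, sub_self]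
    exact sub_eq_zero.mp h3
  have hU0 : U 0 = 0 := by
    refine ContinuousLinearMap.ext fun x => ?_
    have h3 : HasSum (fun i => (w i * star (w i)) (U 0 x)) 0 := by
      have h4 : (fun i => (w i * star (w i)) (U 0 x)) = fun _ => (0 : K) := by
        funext i
        show w i (star (w i) (U 0 x)) = 0
        rw [hs0 i (U 0 x) fun u => hort _ _ (Nat.succ_ne_zero i) _ _, map_zero]
      rw [h4]
      exact hasSum_zero
    have h5 := (hvv' (U 0 x)).unique h3
    rw [heq, hin] at h5
    exact h5
  have h6 := hUU 0 0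
  rw [if_pos rfl, hU0, mul_zero] at h6
  exact hp0 h6.symm

/-- The number of orthogonal copies of a nonzero projection below a finite one is bounded. -/
theorem arch (hF : Factor 𝔓) {e p : K →L[ℂ] K} (he : Pr 𝔓 e) (hf : Fte 𝔓 e) (hp : Pr 𝔓 p)
    (hp0 : p ≠ 0) :
    ∃ n : ℕ, ∀ (m : ℕ) (q : Fin m → K →L[ℂ] K), (∀ i, Pr 𝔓 (q i)) → (∀ i, e * q i = q i) →
      (∀ i j, i ≠ j → q i * q j = 0) → (∀ i, Eqv 𝔓 p (q i)) → m ≤ n := by
  by_cases hex : ∃ (n : ℕ) (V : Fin n → K →L[ℂ] K), (∀ i, V i ∈ Com 𝔓) ∧ (∀ i, ‖V i‖ ≤ 1) ∧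
      (∀ i, V i * p = V i) ∧ ∑ i, V i * star (V i) = e
  swap
  · exfalso
    push_neg at hex
    obtain ⟨U, hU, hUU, heU⟩ := exists_seq 𝔓 hF hp.mem hp.sa hp.idem hp0 he.mem he.sa he.idem
      (fun n V a b c => hex n V a b c)
    exact no_seq he hf hp0 U hU hUU heU
  obtain ⟨n, V, hV, -, hVp, hVe⟩ := hex
  refine ⟨n, fun m q hq hqe hqo hqp => ?_⟩
  by_contra hlt
  push_neg at hlt
  choose U hU hU1 hU2 using hqp
  have hUq : ∀ i, q i * U i = U i := by
    intro i
    rw [← hU2 i]
    exact (pi_of hp.idem (hU1 i)).1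
  have hqU : ∀ i j, i ≠ j → q i * U j = 0 := by
    intro i j hij
    rw [← hUq j, ← mul_assoc, hqo i j hij, zero_mul]
  have hUU : ∀ i j, i ≠ j → star (U i) * U j = 0 := by
    intro i j hij
    have h1 : star (U i) = star (U i) * q i := by
      have h2 := congrArg star (hUq i)
      rw [star_mul, (hq i).sa] at h2
      exact h2.symm
    rw [h1, mul_assoc, hqU i j hij, mul_zero]
  let c : Fin n → Fin m := Fin.castLE hlt.le
  have hc : Function.Injective c := Fin.castLE_injective hlt.le
  set w : K →L[ℂ] K := ∑ i, U (c i) * star (V i) with hw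
  have hwc : w ∈ Com 𝔓 := sum_mem fun i _ => mul_mem (hU _) (star_mem (hV i))
  have hsw : star w = ∑ i, V i * star (U (c i)) := by
    rw [hw, star_sum]
    refine Finset.sum_congr rfl fun i _ => ?_
    rw [star_mul, star_star]
  have hUw : ∀ i, star (U (c i)) * w = p * star (V i) := by
    intro i
    rw [hw, Finset.mul_sum, Finset.sum_eq_single i]
    · rw [← mul_assoc, hU1]
    · intro j _ hj
      rw [← mul_assoc, hUU _ _ (fun h => hj (hc h).symm), zero_mul]
    · intro h; exact absurd (Finset.mem_univ i) h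
  have hww : star w * w = e := by
    rw [hsw, Finset.sum_mul, ← hVe]
    refine Finset.sum_congr rfl fun i _ => ?_
    rw [mul_assoc, hUw, ← mul_assoc, hVp]
  have heU : ∀ i, e * U i = U i := by
    intro i
    rw [← hUq i, ← mul_assoc, hqe]
  have hew : e * w = w := by
    rw [hw, Finset.mul_sum]
    refine Finset.sum_congr rfl fun i _ => ?_
    rw [← mul_assoc, heU]
  have hfin := hf w hwc hww hew
  have hqw : q ⟨n, hlt⟩ * w = 0 := by
    rw [hw, Finset.mul_sum]
    refine Finset.sum_eq_zero fun i _ => ?_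
    rw [← mul_assoc, hqU, zero_mul]
    intro h
    have h1 := congrArg Fin.val h
    have h2 : (i : ℕ) = n := h1.symm
    exact absurd h2 i.2.ne
  have hqe0 : q ⟨n, hlt⟩ * e = 0 := by
    rw [← hfin, ← mul_assoc, hqw, zero_mul]
  have hq0 : q ⟨n, hlt⟩ = 0 := by
    have h1 := congrArg star (hqe ⟨n, hlt⟩)
    rw [star_mul, (hq _).sa, he.sa, hqe0] at h1
    exact h1.symm
  have h2 := hU2 ⟨n, hlt⟩
  rw [hq0] at h2
  have h3 : star (U ⟨n, hlt⟩) = 0 := by
    refine (CStarRing.star_mul_self_eq_zero_iff _).mp ?_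
    rw [star_star, h2]
  have h4 := hU1 ⟨n, hlt⟩
  rw [h3, zero_mul] at h4
  exact hp0 h4.symm

end Pool.Agent.MP_86f3ed.Fac
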