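import Pool.Agent.H.MP_86f3ed_an.Fac.Base

open scoped InnerProductSpace Topology
open Filter ContinuousLinearMap

namespace Pool.Agent.MP_86f3ed.Fac

open Pin Sf

variable {K : Type*} [NormedAddCommGroup K] [InnerProductSpace ℂ K] [CompleteSpace K]
  {𝔓 : StarSubalgebra ℂ (K →L[ℂ] K)}

/-- Orthogonality of vectors moved by operators with product zero. -/
theorem Inter_inner_zero {a b : K →L[ℂ] K} (hab : star a * b = 0) (x y : K) :
    ⟪a x, b y⟫_ℂ = 0 := by
  have h1 : ⟪a x, b y⟫_ℂ = ⟪x, (star a * b) y⟫_ℂ := by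
    show ⟪a x, b y⟫_ℂ = ⟪x, (star a) (b y)⟫_ℂ
    rw [ContinuousLinearMap.star_eq_adjoint, ContinuousLinearMap.adjoint_inner_right]
  rw [h1, hab]
  simp

/-- Pythagoras. -/
theorem Inter_pyth {a b : K →L[ℂ] K} (hab : star a * b = 0) (x y : K) :
    ‖a x + b y‖ ^ 2 = ‖a x‖ ^ 2 + ‖b y‖ ^ 2 := by
  have h := norm_add_sq_eq_norm_sq_add_norm_sq_of_inner_eq_zero (𝕜 := ℂ) (a x) (b y)
    (Inter_inner_zero hab x y)
  nlinarith [h]

/-- A projection does not increase norms. -/
theorem Inter_norm_le {p : K →L[ℂ] K} (hs : star p = p) (hp : p * p = p) (x : K) :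
    ‖p x‖ ^ 2 ≤ ‖x‖ ^ 2 := by
  have h0 : star p * (1 - p) = 0 := by rw [hs, mul_sub, mul_one, hp, sub_self]
  have h1 := Inter_pyth h0 x x
  have h2 : p x + (1 - p) x = x := by simp
  rw [h2] at h1
  nlinarith [sq_nonneg ‖(1 - p) x‖]

/-- The decreasing products. -/
noncomputable def InterG (e : K →L[ℂ] K) (F : ℕ → K →L[ℂ] K) : ℕ → K →L[ℂ] K
  | 0 => e
  | n + 1 => InterG e F n * F n

section

variable {e : K →L[ℂ] K} {F : ℕ → K →L[ℂ] K}

theorem InterG_comm (hFe : ∀ k, e * F k = F k * e)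
    (hc : ∀ j k, F j * F k = F k * F j) (n k : ℕ) : InterG e F n * F k = F k * InterG e F n := by
  induction n with
  | zero => exact hFe k
  | succ n ih =>
    show InterG e F n * F n * F k = F k * (InterG e F n * F n)
    rw [mul_assoc, hc n k, ← mul_assoc, ih, mul_assoc]

theorem InterG_pr (he : Pr 𝔓 e) (hF : ∀ k, Pr 𝔓 (F k)) (hFe : ∀ k, e * F k = F k * e)
    (hc : ∀ j k, F j * F k = F k * F j) (n : ℕ) : Pr 𝔓 (InterG e F n) := by
  induction n with
  | zero => exact he
  | succ n ih => exact ih.mul (hF n) (InterG_comm hFe hc n n)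

theorem InterG_absorb (he : Pr 𝔓 e) (hF : ∀ k, Pr 𝔓 (F k)) (hFe : ∀ k, e * F k = F k * e)
    (hc : ∀ j k, F j * F k = F k * F j) {n m : ℕ} (h : n ≤ m) :
    InterG e F n * InterG e F m = InterG e F m := by
  induction m, h using Nat.le_induction with
  | base => exact (InterG_pr he hF hFe hc n).idem
  | succ m _ ih =>
    show InterG e F n * (InterG e F m * F m) = InterG e F m * F m
    rw [← mul_assoc, ih]

theorem InterG_fix (he : Pr 𝔓 e) (hF : ∀ k, Pr 𝔓 (F k)) (hFe : ∀ k, e * F k = F k * e)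
    (hc : ∀ j k, F j * F k = F k * F j) {k n : ℕ} (h : k + 1 ≤ n) :
    F k * InterG e F n = InterG e F n := by
  have h1 : F k * InterG e F (k + 1) = InterG e F (k + 1) := by
    show F k * (InterG e F k * F k) = InterG e F k * F k
    rw [← mul_assoc, ← InterG_comm hFe hc, mul_assoc, (hF k).idem]
  calc F k * InterG e F n = F k * (InterG e F (k + 1) * InterG e F n) := by
        rw [InterG_absorb he hF hFe hc h]
    _ = InterG e F n := by rw [← mul_assoc, h1, InterG_absorb he hF hFe hc h]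

theorem InterG_diff (he : Pr 𝔓 e) (hF : ∀ k, Pr 𝔓 (F k)) (hFe : ∀ k, e * F k = F k * e)
    (hc : ∀ j k, F j * F k = F k * F j) {n m : ℕ} (h : n ≤ m) (η : K) :
    ‖(InterG e F n - InterG e F m) η‖ ^ 2 =
      ‖InterG e F n η‖ ^ 2 - ‖InterG e F m η‖ ^ 2 := by
  have hn := InterG_pr he hF hFe hc n
  have hm := InterG_pr he hF hFe hc m
  have h1 := InterG_absorb he hF hFe hc h
  have h0 : star (InterG e F m) * (InterG e F n - InterG e F m) = 0 := by
    have h2 : InterG e F m * InterG e F n = InterG e F m := by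
      have h3 := congrArg star h1
      rwa [star_mul, hn.sa, hm.sa] at h3
    rw [hm.sa, mul_sub, h2, hm.idem, sub_self]
  have h4 := Inter_pyth h0 η η
  have h5 : InterG e F m η + (InterG e F n - InterG e F m) η = InterG e F n η := by simp
  rw [h5] at h4
  linarith

theorem InterG_sum (he : Pr 𝔓 e) (hF : ∀ k, Pr 𝔓 (F k)) (hFe : ∀ k, e * F k = F k * e)
    (hc : ∀ j k, F j * F k = F k * F j) (η : K) (z : ℕ → ℝ)
    (hb : ∀ k, ‖(e - F k) η‖ ^ 2 ≤ z k) (n : ℕ) :
    ‖(e - InterG e F n) η‖ ^ 2 ≤ ∑ k ∈ Finset.range n, z k := by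
  induction n with
  | zero => simp [InterG]
  | succ n ih =>
    have hn := InterG_pr he hF hFe hc n
    have h1 : e * InterG e F n = InterG e F n := InterG_absorb he hF hFe hc (Nat.zero_le n)
    have h1' : InterG e F n * e = InterG e F n := he.le_symm hn h1
    have h0 : star (e - InterG e F n) * (InterG e F n * (e - F n)) = 0 := by
      rw [star_sub, he.sa, hn.sa, ← mul_assoc, sub_mul, h1, hn.idem, sub_self, zero_mul]
    have h2 := Inter_pyth h0 η η
    have h3 : (e - InterG e F n) η + (InterG e F n * (e - F n)) η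
        = (e - InterG e F (n + 1)) η := by
      have h4 : (e - InterG e F n) + (InterG e F n * (e - F n)) = e - InterG e F (n + 1) := by
        rw [mul_sub, h1']
        show e - InterG e F n + (InterG e F n - InterG e F n * F n) = e - InterG e F n * F n
        abel
      rw [← h4]; rfl
    rw [h3] at h2
    rw [h2, Finset.sum_range_succ]
    have h5 := Inter_norm_le hn.sa hn.idem ((e - F n) η)
    have h6 : (InterG e F n * (e - F n)) η = InterG e F n ((e - F n) η) := rfl
    rw [h6]
    linarith [hb n]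

end

/-- Commuting projections which are large with respect to a vector have a common nonzero
subprojection. -/
theorem exists_inter {e : K →L[ℂ] K} (he : Pr 𝔓 e) (F : ℕ → K →L[ℂ] K) (hF : ∀ k, Pr 𝔓 (F k))
    (heF : ∀ k, e * F k = F k) (hc : ∀ j k, F j * F k = F k * F j) (η : K) (z : ℕ → ℝ)
    (hz : Summable z) (hb : ∀ k, ‖(e - F k) η‖ ^ 2 ≤ z k) (hs : ∑' k, z k < ‖e η‖ ^ 2) :
    ∃ H : K →L[ℂ] K, Pr 𝔓 H ∧ H ≠ 0 ∧ ∀ k, F k * H = H := by
  have hFe : ∀ k, e * F k = F k * e := fun k => by rw [heF k, he.le_symm (hF k) (heF k)]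
  have hz0 : ∀ k, 0 ≤ z k := fun k => le_trans (sq_nonneg _) (hb k)
  have hlow : ∀ n, ‖e η‖ ^ 2 - ∑' k, z k ≤ ‖InterG e F n η‖ ^ 2 := by
    intro n
    have h1 := InterG_sum he hF hFe hc η z hb n
    have h2 := InterG_diff he hF hFe hc (Nat.zero_le n) η
    have h3 : InterG e F 0 = e := rfl
    rw [h3] at h2
    have h4 := hz.sum_le_tsum (Finset.range n) (fun k _ => hz0 k)
    linarith
  have hanti : Antitone fun n => ‖InterG e F n η‖ ^ 2 := by
    intro n m h
    have h2 := InterG_diff he hF hFe hc h η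
    show ‖InterG e F m η‖ ^ 2 ≤ ‖InterG e F n η‖ ^ 2
    nlinarith [sq_nonneg ‖(InterG e F n - InterG e F m) η‖]
  have hlim := tendsto_atTop_ciInf hanti ⟨0, by
    rintro _ ⟨n, rfl⟩
    exact sq_nonneg _⟩
  have hcau : CauchySeq fun n => InterG e F n η := by
    rw [Metric.cauchySeq_iff']
    intro ε hε
    obtain ⟨N, hN⟩ := Metric.cauchySeq_iff'.mp hlim.cauchySeq (ε ^ 2) (by positivity)
    refine ⟨N, fun n hn => ?_⟩
    have h1 := hN n hn
    have h2 := InterG_diff he hF hFe hc hn η
    rw [dist_comm, Real.dist_eq] at h1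
    have h3 := lt_of_abs_lt h1
    have h4 : ‖InterG e F N η - InterG e F n η‖ ^ 2 < ε ^ 2 := by
      have h5 : (InterG e F N - InterG e F n) η = InterG e F N η - InterG e F n η := rfl
      rw [← h5, h2]
      exact h3
    rw [dist_comm, dist_eq_norm]
    exact lt_of_pow_lt_pow_left₀ 2 hε.le h4
  obtain ⟨ρ, hρ⟩ := cauchySeq_tendsto_of_complete hcau
  have hρn : ‖e η‖ ^ 2 - ∑' k, z k ≤ ‖ρ‖ ^ 2 :=
    ge_of_tendsto ((hρ.norm).pow 2) (Eventually.of_forall hlow)
  have hρ0 : ρ ≠ 0 := by
    intro h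
    rw [h, norm_zero] at hρn
    linarith [hs]
  have hfix : ∀ k, F k ρ = ρ := by
    intro k
    have h1 : Tendsto (fun n => F k (InterG e F n η)) atTop (𝓝 (F k ρ)) :=
      ((F k).continuous.tendsto ρ).comp hρ
    refine tendsto_nhds_unique h1 (hρ.congr' ?_)
    filter_upwards [eventually_ge_atTop (k + 1)] with n hn
    have h2 := InterG_fix he hF hFe hc hn
    exact (congrArg (fun T : K →L[ℂ] K => T η) h2).symm
  let S : Submodule ℂ K :=
    { carrier := {x | ∀ k, F k x = x}
      add_mem' := fun {x y} hx hy k => by rw [map_add, hx k, hy k]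
      zero_mem' := fun k => map_zero _
      smul_mem' := fun c x hx k => by rw [map_smul, hx k] }
  have hS : ∀ x, x ∈ S ↔ ∀ k, F k x = x := fun x => Iff.rfl
  have hcl : IsClosed (S : Set K) := by
    have h1 : (S : Set K) = ⋂ k, {x | F k x = x} := by
      ext x
      simp [hS]
    rw [h1]
    exact isClosed_iInter fun k => isClosed_eq (F k).continuous continuous_id
  have : CompleteSpace S := hcl.completeSpace_coe
  refine ⟨S.starProjection, ⟨?_, ?_, ?_⟩, ?_, ?_⟩
  · refine proj_mem_Com 𝔓 S fun a ha v hv k => ?_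
    have h1 := mem_Com.mp (hF k).mem a ha
    have h2 : (a * F k) v = (F k * a) v := by rw [h1]
    show F k (a v) = a v
    have h3 : a (F k v) = F k (a v) := h2
    rw [← h3, hv k]
  · rw [ContinuousLinearMap.star_eq_adjoint]
    exact (ContinuousLinearMap.eq_adjoint_iff _ _).mpr
      (fun x y => (S.inner_starProjection_left_eq_right x y)) |>.symm
  · ext x
    show S.starProjection (S.starProjection x) = S.starProjection x
    rw [Submodule.starProjection_eq_self_iff]
    exact Submodule.starProjection_apply_mem S x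
  · intro h
    have h1 : S.starProjection ρ = ρ :=
      Submodule.starProjection_eq_self_iff.mpr ((hS ρ).mpr hfix)
    rw [h] at h1
    exact hρ0 (by simpa using h1.symm)
  · intro k
    ext x
    exact (hS _).mp (Submodule.starProjection_apply_mem S x) k

end Pool.Agent.MP_86f3ed.Fac
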