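import Pool.Agent.H.MP_86f3ed_an.Fac.Hell
import Pool.Agent.H.MP_86f3ed_an.Fac.Inter
import Pool.Agent.H.MP_86f3ed_an.Fac.Arch

open scoped InnerProductSpace Topology
open Filter ContinuousLinearMap

namespace Pool.Agent.MP_86f3ed.Fac

open Pin Sf

variable {K : Type*} [NormedAddCommGroup K] [InnerProductSpace ℂ K] [CompleteSpace K]
  {𝔓 : StarSubalgebra ℂ (K →L[ℂ] K)}

/-- A large finite set contains many disjoint subsets of a given size. -/
theorem NoBias_split {α : Type*} [DecidableEq α] (c : ℕ) :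
    ∀ (N : ℕ) (L : Finset α), N * c ≤ L.card → ∃ q : Fin N → Finset α, (∀ i, q i ⊆ L) ∧
      (∀ i, (q i).card = c) ∧ ∀ i j, i ≠ j → Disjoint (q i) (q j) := by
  intro N
  induction N with
  | zero =>
    intro L _
    exact ⟨fun i => i.elim0, fun i => i.elim0, fun i => i.elim0, fun i => i.elim0⟩
  | succ N ih =>
    intro L hL
    have hc : c ≤ L.card := le_trans (by nlinarith) hL
    obtain ⟨S, hSL, hSc⟩ := Finset.exists_subset_card_eq hc
    have h1 : N * c ≤ (L \ S).card := by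
      rw [Finset.card_sdiff_of_subset hSL, hSc]
      have : (N + 1) * c = N * c + c := by ring
      omega
    obtain ⟨q, hq1, hq2, hq3⟩ := ih (L \ S) h1
    have hd : ∀ i, Disjoint S (q i) := fun i =>
      Finset.disjoint_of_subset_right (hq1 i) Finset.disjoint_sdiff
    refine ⟨Fin.cons S q, fun i => ?_, fun i => ?_, fun i j => ?_⟩
    · refine Fin.cases ?_ (fun i => ?_) i
      · exact hSL
      · exact (hq1 i).trans Finset.sdiff_subset
    · refine Fin.cases ?_ (fun i => ?_) i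
      · exact hSc
      · exact hq2 i
    · refine Fin.cases ?_ (fun i => ?_) i
      · refine Fin.cases ?_ (fun j => ?_) j
        · intro h
          exact absurd rfl h
        · intro _
          exact hd j
      · refine Fin.cases ?_ (fun j => ?_) j
        · intro _
          exact (hd i).symm
        · intro h
          exact hq3 i j (fun h' => h (by rw [h']))

/-- Sums over disjoint sets of pieces of a level are orthogonal. -/
theorem NoBias_orth {e : K →L[ℂ] K} (h : Halver 𝔓 e) {k : ℕ} {A B : Finset (List Bool)}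
    (hA : A ⊆ lev k) (hB : B ⊆ lev k) (hAB : Disjoint A B) :
    (∑ l ∈ A, h.T l) * (∑ l ∈ B, h.T l) = 0 := by
  rw [Finset.sum_mul_sum]
  refine Finset.sum_eq_zero fun i hi => Finset.sum_eq_zero fun j hj => ?_
  refine h.lev_orth (hA hi) (hB hj) fun hij => ?_
  subst hij
  exact (Finset.disjoint_left.1 hAB hi) hj

/-- A choice of halves of a finite projection cannot be biased. -/
theorem no_bias (hF : Factor 𝔓) {e : K →L[ℂ] K} (hf : Fte 𝔓 e) (h : Halver 𝔓 e) {η : K}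
    (hη : e η ≠ 0) {s : ℝ} (hs : 1 < s)
    (hb : ∀ l, s * ‖h.T (true :: l) η‖ ^ 2 ≤ ‖h.T (false :: l) η‖ ^ 2) : False := by
  classical
  obtain ⟨θ, hθ0, hθ1, hθ⟩ := h.hell hs hb
  have hpos : 0 < ‖e η‖ := norm_pos_iff.2 hη
  have h1θ : 0 < 1 - θ := by linarith
  obtain ⟨m, hm⟩ := exists_pow_lt_of_lt_one (mul_pos hpos h1θ) hθ1
  set F : ℕ → K →L[ℂ] K := fun k => ∑ l ∈ h.S η (m + k), h.T l with hFdef
  have hFpr : ∀ k, Pr 𝔓 (F k) := fun k => (h.sum_pr _ (h.S_sub η (m + k))).1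
  have hFle : ∀ k, e * F k = F k := fun k => (h.sum_pr _ (h.S_sub η (m + k))).2.1
  have hFc : ∀ j k, F j * F k = F k * F j := fun j k =>
    Commute.sum_left _ _ _ fun i _ => Commute.sum_right _ _ _ fun l _ => h.T_comm i l
  have hgeo := hasSum_geometric_of_lt_one hθ0.le hθ1
  have hz : HasSum (fun k => θ ^ (m + k) * ‖e η‖) (θ ^ m * ‖e η‖ * (1 - θ)⁻¹) := by
    have h1 := hgeo.mul_left (θ ^ m * ‖e η‖)
    have h2 : (fun k => θ ^ (m + k) * ‖e η‖) = fun k => θ ^ m * ‖e η‖ * θ ^ k := by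
      funext k
      rw [pow_add]
      ring
    rw [h2]
    exact h1
  have hts : ∑' k, θ ^ (m + k) * ‖e η‖ < ‖e η‖ ^ 2 := by
    rw [hz.tsum_eq, ← div_eq_mul_inv, div_lt_iff₀ h1θ]
    have h3 := mul_lt_mul_of_pos_right hm hpos
    calc θ ^ m * ‖e η‖ < ‖e η‖ * (1 - θ) * ‖e η‖ := h3
      _ = ‖e η‖ ^ 2 * (1 - θ) := by ring
  obtain ⟨H, hH, hH0, hFH⟩ := exists_inter h.pr F hFpr hFle hFc η
    (fun k => θ ^ (m + k) * ‖e η‖) hz.summable (fun k => (hθ (m + k)).2) hts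
  have heH : e * H = H := by
    calc e * H = e * (F 0 * H) := by rw [hFH 0]
      _ = (e * F 0) * H := by rw [mul_assoc]
      _ = H := by rw [hFle 0, hFH 0]
  obtain ⟨n, hn⟩ := arch hF h.pr hf hH hH0
  have hnn : (0 : ℝ) < (n + 1 : ℝ) * ‖e η‖ := by positivity
  obtain ⟨j, hj⟩ := exists_pow_lt_of_lt_one (inv_pos.2 hnn) hθ1
  have hjk : (n + 1 : ℝ) * (θ ^ (m + j) * ‖e η‖) ≤ 1 := by
    have h1 : θ ^ (m + j) ≤ θ ^ j :=
      pow_le_pow_of_le_one hθ0.le hθ1.le (Nat.le_add_left j m)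
    have h2 : θ ^ (m + j) ≤ ((n + 1 : ℝ) * ‖e η‖)⁻¹ := h1.trans hj.le
    calc (n + 1 : ℝ) * (θ ^ (m + j) * ‖e η‖) = ((n + 1 : ℝ) * ‖e η‖) * θ ^ (m + j) := by ring
      _ ≤ ((n + 1 : ℝ) * ‖e η‖) * ((n + 1 : ℝ) * ‖e η‖)⁻¹ :=
        mul_le_mul_of_nonneg_left h2 hnn.le
      _ = 1 := mul_inv_cancel₀ hnn.ne'
  have hcardR : ((n + 1 : ℝ)) * ((h.S η (m + j)).card : ℝ) ≤ 2 ^ (m + j) := by
    calc ((n + 1 : ℝ)) * ((h.S η (m + j)).card : ℝ)
        ≤ (n + 1 : ℝ) * (2 ^ (m + j) * (θ ^ (m + j) * ‖e η‖)) :=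
          mul_le_mul_of_nonneg_left (hθ (m + j)).1 (by positivity)
      _ = 2 ^ (m + j) * ((n + 1 : ℝ) * (θ ^ (m + j) * ‖e η‖)) := by ring
      _ ≤ 2 ^ (m + j) * 1 := mul_le_mul_of_nonneg_left hjk (by positivity)
      _ = 2 ^ (m + j) := mul_one _
  have hcard : (n + 1) * (h.S η (m + j)).card ≤ (lev (m + j)).card := by
    rw [card_lev]
    exact_mod_cast hcardR
  obtain ⟨A, hA1, hA2, hA3⟩ := NoBias_split (h.S η (m + j)).card (n + 1) (lev (m + j)) hcard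
  have hQ : ∀ i, Pr 𝔓 (∑ l ∈ A i, h.T l) := fun i => (h.sum_pr _ (hA1 i)).1
  have hQe : ∀ i, e * (∑ l ∈ A i, h.T l) = ∑ l ∈ A i, h.T l := fun i => (h.sum_pr _ (hA1 i)).2.1
  have hq : ∀ i, ∃ q', Pr 𝔓 q' ∧ (∑ l ∈ A i, h.T l) * q' = q' ∧ Eqv 𝔓 H q' := fun i =>
    Eqv.sub (hFpr j) (hQ i) hH
      (h.sum_eqv hF hf (h.S_sub η (m + j)) (hA1 i) (hA2 i).symm) (hFH j)
  choose q hq1 hq2 hq3 using hq
  have hle := hn (n + 1) q hq1 (fun i => ?_) (fun i i' hii => ?_) hq3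
  · omega
  · calc e * q i = e * ((∑ l ∈ A i, h.T l) * q i) := by rw [hq2 i]
      _ = (e * (∑ l ∈ A i, h.T l)) * q i := by rw [mul_assoc]
      _ = q i := by rw [hQe i, hq2 i]
  · have h1 : q i * (∑ l ∈ A i, h.T l) = q i := Pr.le_symm (hQ i) (hq1 i) (hq2 i)
    calc q i * q i' = (q i * (∑ l ∈ A i, h.T l)) * ((∑ l ∈ A i', h.T l) * q i') := by
          rw [h1, hq2 i']
      _ = q i * (((∑ l ∈ A i, h.T l) * (∑ l ∈ A i', h.T l)) * q i') := by
          simp only [mul_assoc]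
      _ = 0 := by rw [NoBias_orth h (hA1 i) (hA1 i') (hA3 i i' hii), zero_mul, mul_zero]

/-- Below a finite projection without minimal subprojections there are projections on which a
separating vector is almost a trace. -/
theorem exists_eps (hF : Factor 𝔓) {e : K →L[ℂ] K} (he : Pr 𝔓 e) (hf : Fte 𝔓 e)
    (hn : NoMin 𝔓 e) {η : K} (hη : e η ≠ 0) {a : ℝ} (ha : 1 < a) :
    ∃ r, Pr 𝔓 r ∧ e * r = r ∧ r ≠ 0 ∧ ∀ w ∈ Com 𝔓, w * star w * w = w → r * w = w → w * r = w →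
      ‖(star w * w) η‖ ^ 2 ≤ a * ‖(w * star w) η‖ ^ 2 := by
  by_contra hcon
  have hbad : ∀ r, Pr 𝔓 r → e * r = r → r ≠ 0 → ∃ w ∈ Com 𝔓, w * star w * w = w ∧ r * w = w ∧
      w * r = w ∧ a * ‖(w * star w) η‖ ^ 2 < ‖(star w * w) η‖ ^ 2 := by
    intro r hr her hr0
    by_contra hno
    refine hcon ⟨r, hr, her, hr0, fun w hw h1 h2 h3 => ?_⟩
    by_contra h4
    exact hno ⟨w, hw, h1, h2, h3, not_le.1 h4⟩
  have hex : ∀ r, Pr 𝔓 r → e * r = r → ∃ v ∈ Com 𝔓, v * star v * v = v ∧ v * v = 0 ∧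
      star v * v + v * star v = r ∧
      Real.sqrt a * ‖(v * star v) η‖ ^ 2 ≤ ‖(star v * v) η‖ ^ 2 :=
    fun r hr her => bias hF hn he ha hbad hr her
  choose! v hv1 hv2 hv3 hv4 hv5 using hex
  let h : Halver 𝔓 e := ⟨he, v, hv1, hv2, hv3, hv4⟩
  have hs : 1 < Real.sqrt a := by
    rw [Real.lt_sqrt (by norm_num)]
    simpa using ha
  exact no_bias hF hf h hη hs fun l => hv5 (h.T l) (h.T_pr l) (h.T_le l)

end Pool.Agent.MP_86f3ed.Fac
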