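import Pool.Agent.H.MP_86f3ed_an.Fac.Div
import Pool.Agent.H.MP_86f3ed_an.Fac.NoBias
import Pool.Agent.H.MP_86f3ed_an.Fac.Layer

open scoped InnerProductSpace Topology
open Filter ContinuousLinearMap

namespace Pool.Agent.MP_86f3ed.Fac

open Pin Sf

variable {K : Type*} [NormedAddCommGroup K] [InnerProductSpace ℂ K] [CompleteSpace K]

/-- The unit vector `ζ` is a trace on the corner `e N e` up to the factor `a`. -/
structure ATr (𝔓 : StarSubalgebra ℂ (K →L[ℂ] K)) (e : K →L[ℂ] K) (a : ℝ) (ζ : HH K) : Prop where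
  norm_ζ : ‖ζ‖ = 1
  e_ζ : amp e ζ = ζ
  tr : ∀ x ∈ Com 𝔓, e * x = x → x * e = x → ‖amp x ζ‖ ^ 2 ≤ a * ‖amp (star x) ζ‖ ^ 2

variable {𝔓 : StarSubalgebra ℂ (K →L[ℂ] K)}

theorem atr_norm_sq (u : K →L[ℂ] K) (z : K) : ‖u z‖ ^ 2 = (⟪z, (star u * u) z⟫_ℂ).re := by
  have h : ((star u * u) z : K) = (star u) (u z) := rfl
  rw [h, star_eq_adjoint, adjoint_inner_right, inner_self_eq_norm_sq_to_K]
  norm_cast

theorem atr_norm_sq' (u : K →L[ℂ] K) (z : K) :
    ‖(star u) z‖ ^ 2 = (⟪z, (u * star u) z⟫_ℂ).re := by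
  have h := atr_norm_sq (star u) z
  rwa [star_star] at h

theorem atr_sum_star {n : ℕ} (v : Fin n → K →L[ℂ] K) (z : K) :
    ∑ i, ‖(star (v i)) z‖ ^ 2 = (⟪z, (∑ i, v i * star (v i)) z⟫_ℂ).re := by
  rw [sum_apply, inner_sum, Complex.re_sum]
  exact Finset.sum_congr rfl fun i _ => atr_norm_sq' _ _

theorem atr_pr_sum {n : ℕ} (y : Fin n → K) (i : Fin n) :
    pr (i : ℕ) (∑ j : Fin n, inc (j : ℕ) (y j)) = y i := by
  rw [map_sum, Finset.sum_eq_single i]
  · exact pr_inc_same _ _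
  · intro j _ hj
    exact pr_inc_ne (fun h => hj (Fin.ext h).symm) _
  · intro h
    exact absurd (Finset.mem_univ i) h

theorem atr_norm_sum {n : ℕ} (y : Fin n → K) :
    ‖∑ i : Fin n, inc (i : ℕ) (y i)‖ ^ 2 = ∑ i, ‖y i‖ ^ 2 := by
  have h1 : (⟪∑ i : Fin n, inc (i : ℕ) (y i), ∑ i : Fin n, inc (i : ℕ) (y i)⟫_ℂ).re =
      ∑ i, ‖y i‖ ^ 2 := by
    rw [sum_inner, Complex.re_sum]
    refine Finset.sum_congr rfl fun i _ => ?_
    rw [inner_inc_left, atr_pr_sum, inner_self_eq_norm_sq_to_K]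
    norm_cast
  rw [← h1, inner_self_eq_norm_sq_to_K]
  norm_cast

theorem atr_amp_sum {n : ℕ} (S : K →L[ℂ] K) (y : Fin n → K) :
    amp S (∑ i : Fin n, inc (i : ℕ) (y i)) = ∑ i : Fin n, inc (i : ℕ) (S (y i)) := by
  rw [map_sum]
  exact Finset.sum_congr rfl fun i _ => amp_inc _ _ _

theorem atr_le {e : K →L[ℂ] K} (he : Pr 𝔓 e) {n : ℕ} (v : Fin n → K →L[ℂ] K)
    (hs : ∑ i, v i * star (v i) = e) (i : Fin n) : e * v i = v i := by
  have h1 : ∑ i, (v i - e * v i) * star (v i - e * v i) = 0 := by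
    have h2 : ∀ i, (v i - e * v i) * star (v i - e * v i) =
        (1 - e) * (v i * star (v i)) * (1 - e) := by
      intro i
      rw [star_sub, star_mul, he.sa]
      noncomm_ring
    simp only [h2]
    rw [← Finset.sum_mul, ← Finset.mul_sum, hs, sub_mul, one_mul, he.idem, sub_self, zero_mul]
  have h3 : ∀ z, star (v i - e * v i) z = 0 := by
    intro z
    have h4 := atr_sum_star (fun i => v i - e * v i) z
    rw [h1, zero_apply, inner_zero_right, Complex.zero_re] at h4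
    have h5 := (Finset.sum_eq_zero_iff_of_nonneg (fun i _ => sq_nonneg _)).mp h4 i
      (Finset.mem_univ i)
    exact norm_eq_zero.mp (pow_eq_zero_iff (two_ne_zero)|>.mp h5)
  have h6 : star (v i - e * v i) = 0 := ContinuousLinearMap.ext h3
  have h7 : v i - e * v i = 0 := star_eq_zero.mp h6
  exact (sub_eq_zero.mp h7).symm

/-- Spreading a vector over copies. -/
theorem exists_spread {e : K →L[ℂ] K} (he : Pr 𝔓 e) {n : ℕ} (v : Fin n → K →L[ℂ] K)
    (hv : ∀ i, v i ∈ Com 𝔓) (hs : ∑ i, v i * star (v i) = e) {η : K} {a : ℝ} (ha : 0 ≤ a)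
    (h0 : ∃ i, v i η ≠ 0)
    (h : ∀ i j, ∀ x ∈ Com 𝔓, e * x = x → x * e = x →
      ‖(star (v i) * x * v j) η‖ ^ 2 ≤ a * ‖(star (v j) * star x * v i) η‖ ^ 2) :
    ∃ ζ : HH K, ATr 𝔓 e a ζ := by
  have hle := atr_le he v hs
  have hy : ∀ y : K, e y = y → ‖y‖ ^ 2 = ∑ i, ‖(star (v i)) y‖ ^ 2 := by
    intro y hy
    rw [atr_sum_star, hs, hy, inner_self_eq_norm_sq_to_K]
    norm_cast
  have hcom : ∀ x : K →L[ℂ] K, e * x = x → ∀ y, e (x y) = x y := by
    intro x hx y
    have h1 : (e * x) y = x y := by rw [hx]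
    exact h1
  have hamp : ∀ x : K →L[ℂ] K, e * x = x →
      ‖amp x (∑ i : Fin n, inc (i : ℕ) (v i η))‖ ^ 2 =
        ∑ j, ∑ i, ‖(star (v i) * x * v j) η‖ ^ 2 := by
    intro x hx
    rw [atr_amp_sum, atr_norm_sum]
    refine Finset.sum_congr rfl fun j _ => ?_
    exact hy _ (hcom x hx _)
  have hz : (∑ i : Fin n, inc (i : ℕ) (v i η)) ≠ 0 := by
    intro h1
    obtain ⟨i, hi⟩ := h0
    have h2 := atr_pr_sum (fun i => v i η) i
    rw [h1, map_zero] at h2
    exact hi h2.symm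
  have hN : (0 : ℝ) < ‖∑ i : Fin n, inc (i : ℕ) (v i η)‖ := norm_pos_iff.mpr hz
  refine ⟨((‖∑ i : Fin n, inc (i : ℕ) (v i η)‖⁻¹ : ℝ) : ℂ) • ∑ i : Fin n, inc (i : ℕ) (v i η),
    ?_, ?_, ?_⟩
  · rw [norm_smul, Complex.norm_real, Real.norm_eq_abs, abs_of_pos (inv_pos.mpr hN)]
    exact inv_mul_cancel₀ hN.ne'
  · rw [map_smul, atr_amp_sum]
    congr 1
    refine Finset.sum_congr rfl fun i _ => ?_
    rw [hcom (v i) (hle i) η]
  · intro x hx h1 h2
    have h3 : e * star x = star x := by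
      have := congrArg star h2
      rwa [star_mul, he.sa] at this
    rw [map_smul, map_smul, norm_smul, norm_smul, mul_pow, mul_pow, hamp x h1, hamp (star x) h3]
    have h4 : ∑ j, ∑ i, ‖(star (v i) * x * v j) η‖ ^ 2 ≤
        a * ∑ j, ∑ i, ‖(star (v i) * star x * v j) η‖ ^ 2 := by
      rw [Finset.sum_comm (f := fun j i => ‖(star (v i) * star x * v j) η‖ ^ 2), Finset.mul_sum]
      refine Finset.sum_le_sum fun j _ => ?_
      rw [Finset.mul_sum]
      exact Finset.sum_le_sum fun i _ => h i j x hx h1 h2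
    have h5 := mul_le_mul_of_nonneg_left h4
      (sq_nonneg ‖((‖∑ i : Fin n, inc (i : ℕ) (v i η)‖⁻¹ : ℝ) : ℂ)‖)
    linarith

theorem exists_atr (hF : Factor 𝔓) {e : K →L[ℂ] K} (he : Pr 𝔓 e) (hf : Fte 𝔓 e)
    (hn : NoMin 𝔓 e) (he0 : e ≠ 0) {η : K} (hη : ∀ y ∈ Com 𝔓, y η = 0 → y = 0) {a : ℝ}
    (ha : 1 < a) : ∃ ζ : HH K, ATr 𝔓 e a ζ := by
  have heη : e η ≠ 0 := fun h => he0 (hη e he.mem h)
  obtain ⟨r, hr, her, hr0, hrw⟩ := exists_eps hF he hf hn heη ha
  obtain ⟨p, n, v, hp, hrp, hp0, hv, hvp, hvv, hs⟩ := exists_div hF hn he hf hr her hr0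
  have ha0 : 0 ≤ a := by linarith
  refine exists_spread he v hv hs ha0 (η := η) ?_ ?_
  · by_contra hcon
    push Not at hcon
    have h1 : ∀ i, v i = 0 := fun i => hη _ (hv i) (hcon i)
    apply he0
    rw [← hs]
    exact Finset.sum_eq_zero fun i _ => by rw [h1 i, zero_mul]
  · intro i j x hx _ _
    have hpr : p * r = p := hr.le_symm hp hrp
    have hvr : v j * r = v j := by
      rw [← hvp j, mul_assoc, hpr]
    have hrv : r * star (v i) = star (v i) := by
      have h1 : v i * r = v i := by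
        rw [← hvp i, mul_assoc, hpr]
      have h2 := congrArg star h1
      rwa [star_mul, hr.sa] at h2
    let φ : (K →L[ℂ] K) →ₗ[ℂ] ℂ :=
      { toFun := fun S => ⟪η, S η⟫_ℂ
        map_add' := fun S T => by rw [add_apply, inner_add_right]
        map_smul' := fun c S => by
          rw [smul_apply, inner_smul_right, RingHom.id_apply, smul_eq_mul] }
    have hφ : ∀ S, ‖φ S‖ ≤ ‖η‖ ^ 2 * ‖S‖ := by
      intro S
      calc ‖φ S‖ ≤ ‖η‖ * ‖S η‖ := norm_inner_le_norm _ _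
        _ ≤ ‖η‖ * (‖S‖ * ‖η‖) := mul_le_mul_of_nonneg_left (S.le_opNorm _) (norm_nonneg _)
        _ = ‖η‖ ^ 2 * ‖S‖ := by ring
    have hb : star (v i) * x * v j ∈ Com 𝔓 :=
      mul_mem (mul_mem (star_mem (hv i)) hx) (hv j)
    have key := layer_le (𝔓 := 𝔓) ha0 hφ hφ hr.sa (a := a) (x := star (v i) * x * v j) ?_ hb
      (by rw [← mul_assoc, ← mul_assoc, hrv]) (by rw [mul_assoc, hvr])
    · have k1 : (φ (star (star (v i) * x * v j) * (star (v i) * x * v j))).re =
          ‖(star (v i) * x * v j) η‖ ^ 2 := (atr_norm_sq _ _).symm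
      have k2 : (φ ((star (v i) * x * v j) * star (star (v i) * x * v j))).re =
          ‖(star (star (v i) * x * v j)) η‖ ^ 2 := (atr_norm_sq' _ _).symm
      rw [k1, k2] at key
      have k3 : star (star (v i) * x * v j) = star (v j) * star x * v i := by
        rw [star_mul, star_mul, star_star, mul_assoc]
      rwa [k3] at key
    · intro w hw hww h1 h2
      have h3 := hrw w hw hww h1 h2
      have k1 : (φ (star w * w)).re = ‖(star w * w) η‖ ^ 2 := by
        have h4 := atr_norm_sq (star w * w) η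
        rw [star_mul, star_star] at h4
        rw [h4]
        have h5 : star w * w * (star w * w) = star w * w := by
          rw [mul_assoc, ← mul_assoc w, hww]
        rw [h5]
        rfl
      have k2 : (φ (w * star w)).re = ‖(w * star w) η‖ ^ 2 := by
        have h4 := atr_norm_sq (w * star w) η
        rw [star_mul, star_star] at h4
        rw [h4]
        have h5 : w * star w * (w * star w) = w * star w := by
          rw [← mul_assoc, hww]
        rw [h5]
        rfl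
      rw [k1, k2]
      exact h3

end Pool.Agent.MP_86f3ed.Fac
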