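import Pool.Agent.H.MP_86f3ed_an.Fac.CaseInf

/-!
# Fac/All: all factor representations on separable spaces
-/

open scoped InnerProductSpace Topology
open Filter ContinuousLinearMap

namespace Pool.Agent.MP_86f3ed.Fac

open Pin Sf

universe u v

variable {H : Type v} [NormedAddCommGroup H] [InnerProductSpace ℂ H] [CompleteSpace H]
  {A : Type u} [NonUnitalCStarAlgebra A]

/-- The commutant of a factor representation is injective, in terms of `rangeAlg`. -/
theorem inj_of_factor [TopologicalSpace.SeparableSpace H]
    (hA : ApproximatelyAmenable.{u, v} A) (π : A →⋆ₙₐ[ℂ] (H →L[ℂ] H))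
    (hF : Factor (rangeAlg π)) : IsInjective (Com (rangeAlg π) : Set (H →L[ℂ] H)) := by
  by_cases hπ : ∃ a, π a ≠ 0
  · by_cases hno : ∀ e, Pr (Com (Ampl (rangeAlg π))) e → Fte (Com (Ampl (rangeAlg π))) e → e = 0
    · exact case_inf hA π hF hπ hno
    · push Not at hno
      obtain ⟨e, he, hf, he0⟩ := hno
      exact case_fin hA π hF hπ he hf he0
  · push Not at hπ
    exact injective_zero hπ

/-- The commutant of every factor representation on a separable Hilbert space of an approximately
amenable C*-algebra is injective. -/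
theorem injective_factor [TopologicalSpace.SeparableSpace H]
    (hA : ApproximatelyAmenable.{u, v} A) (π : A →⋆ₙₐ[ℂ] (H →L[ℂ] H))
    (hfac : ∀ x ∈ (Set.range π).centralizer, x ∈ (Set.range π).centralizer.centralizer →
      ∃ c : ℂ, x = c • (1 : H →L[ℂ] H)) :
    IsInjective (Set.range π).centralizer := by
  rw [← Com_rangeAlg]
  refine inj_of_factor hA π fun x hx hx' => ?_
  have h1 : x ∈ (Com (rangeAlg π) : Set (H →L[ℂ] H)) := hx
  have h2 : x ∈ (Com (Com (rangeAlg π)) : Set (H →L[ℂ] H)) := hx'
  rw [Com_rangeAlg] at h1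
  rw [Com_Com_rangeAlg] at h2
  exact hfac x h1 h2

end Pool.Agent.MP_86f3ed.Fac
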