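import Pool.Agent.H.MP_86f3ed_an.Fac.Cb
import Pool.Agent.H.MP_86f3ed_an.Trc.Public

open scoped InnerProductSpace Topology
open Filter ContinuousLinearMap

namespace Pool.Agent.MP_86f3ed.Fac

open Pin Sf

variable {K : Type*} [NormedAddCommGroup K] [InnerProductSpace ℂ K] [CompleteSpace K]
  {𝔓 : StarSubalgebra ℂ (K →L[ℂ] K)}

theorem AmpInj_real {S R C : ℝ} (hS : 0 ≤ S) (hR : 0 ≤ R) (hC : 0 ≤ C)
    (h : S ≤ C * (Real.sqrt S * Real.sqrt R)) : S ≤ C ^ 2 * R := by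
  have h1 := Real.sq_sqrt hS
  have h2 := Real.sq_sqrt hR
  have h3 := Real.sqrt_nonneg S
  have h4 := Real.sqrt_nonneg R
  rcases h3.eq_or_lt with h5 | h5
  · have h6 : S = 0 := by nlinarith
    rw [h6]
    positivity
  · have h6 : Real.sqrt S ≤ C * Real.sqrt R := by
      refine le_of_mul_le_mul_left ?_ h5
      nlinarith
    calc S = Real.sqrt S ^ 2 := h1.symm
      _ ≤ (C * Real.sqrt R) ^ 2 := pow_le_pow_left₀ h3 h6 2
      _ = C ^ 2 * R := by rw [mul_pow, h2]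

section

variable (a : ℕ → ℕ → K →L[ℂ] K) {C : ℝ}

theorem AmpInj_rows (hC : 0 ≤ C)
    (h : ∀ (N : ℕ) (ξ η : ℕ → K),
      ‖∑ i ∈ Finset.range N, ∑ j ∈ Finset.range N, ⟪ξ i, a i j (η j)⟫_ℂ‖ ≤
      C * (Real.sqrt (∑ i ∈ Finset.range N, ‖ξ i‖ ^ 2) *
        Real.sqrt (∑ j ∈ Finset.range N, ‖η j‖ ^ 2))) (N : ℕ) (η : ℕ → K) :
    ∑ i ∈ Finset.range N, ‖∑ j ∈ Finset.range N, a i j (η j)‖ ^ 2 ≤
      C ^ 2 * ∑ j ∈ Finset.range N, ‖η j‖ ^ 2 := by
  have h1 := h N (fun i => ∑ j ∈ Finset.range N, a i j (η j)) η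
  have h2 : ∑ i ∈ Finset.range N, ∑ j ∈ Finset.range N,
      ⟪∑ j ∈ Finset.range N, a i j (η j), a i j (η j)⟫_ℂ =
      ((∑ i ∈ Finset.range N, ‖∑ j ∈ Finset.range N, a i j (η j)‖ ^ 2 : ℝ) : ℂ) := by
    rw [Complex.ofReal_sum]
    refine Finset.sum_congr rfl fun i _ => ?_
    rw [← inner_sum, inner_self_eq_norm_sq_to_K]
    push_cast
    rfl
  rw [h2, Complex.norm_real, Real.norm_of_nonneg (Finset.sum_nonneg fun i _ => by positivity)]
    at h1
  exact AmpInj_real (Finset.sum_nonneg fun i _ => by positivity)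
    (Finset.sum_nonneg fun i _ => by positivity) hC h1

theorem AmpInj_cols (hC : 0 ≤ C)
    (h : ∀ (N : ℕ) (ξ η : ℕ → K),
      ‖∑ i ∈ Finset.range N, ∑ j ∈ Finset.range N, ⟪ξ i, a i j (η j)⟫_ℂ‖ ≤
      C * (Real.sqrt (∑ i ∈ Finset.range N, ‖ξ i‖ ^ 2) *
        Real.sqrt (∑ j ∈ Finset.range N, ‖η j‖ ^ 2))) (i : ℕ) (x : K) {N : ℕ} (hN : i < N) :
    ∑ j ∈ Finset.range N, ‖adjoint (a i j) x‖ ^ 2 ≤ C ^ 2 * ‖x‖ ^ 2 := by
  have h1 := h N (fun k => if k = i then x else 0) (fun j => adjoint (a i j) x)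
  have hi : i ∈ Finset.range N := Finset.mem_range.mpr hN
  have h2 : ∑ k ∈ Finset.range N, ∑ j ∈ Finset.range N,
      ⟪(if k = i then x else 0 : K), a k j (adjoint (a i j) x)⟫_ℂ =
      ((∑ j ∈ Finset.range N, ‖adjoint (a i j) x‖ ^ 2 : ℝ) : ℂ) := by
    rw [Finset.sum_eq_single_of_mem i hi, Complex.ofReal_sum]
    · refine Finset.sum_congr rfl fun j _ => ?_
      rw [if_pos rfl, ← adjoint_inner_left, inner_self_eq_norm_sq_to_K]
      push_cast
      rfl
    · intro k _ hk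
      refine Finset.sum_eq_zero fun j _ => ?_
      rw [if_neg hk, inner_zero_left]
  have h3 : ∑ k ∈ Finset.range N, ‖(if k = i then x else 0 : K)‖ ^ 2 = ‖x‖ ^ 2 := by
    rw [Finset.sum_eq_single_of_mem i hi]
    · rw [if_pos rfl]
    · intro k _ hk
      rw [if_neg hk, norm_zero]
      norm_num
  rw [h2, h3, Complex.norm_real,
    Real.norm_of_nonneg (Finset.sum_nonneg fun i _ => by positivity)] at h1
  refine AmpInj_real (Finset.sum_nonneg fun i _ => by positivity) (by positivity) hC ?_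
  rw [mul_comm (Real.sqrt _)]
  exact h1

end

/-- Operators on sequences from bounded matrices. -/
theorem exists_matrix (a : ℕ → ℕ → K →L[ℂ] K) {C : ℝ} (hC : 0 ≤ C)
    (h : ∀ (n : ℕ) (ξ η : Fin n → K), ‖∑ i : Fin n, ∑ j : Fin n, ⟪ξ i, a i j (η j)⟫_ℂ‖ ≤
      C * (Real.sqrt (∑ i, ‖ξ i‖ ^ 2) * Real.sqrt (∑ j, ‖η j‖ ^ 2))) :
    ∃ T : HH K →L[ℂ] HH K, ‖T‖ ≤ C ∧ ∀ i j, ent i j T = a i j := by
  have h' : ∀ (N : ℕ) (ξ η : ℕ → K),
      ‖∑ i ∈ Finset.range N, ∑ j ∈ Finset.range N, ⟪ξ i, a i j (η j)⟫_ℂ‖ ≤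
      C * (Real.sqrt (∑ i ∈ Finset.range N, ‖ξ i‖ ^ 2) *
        Real.sqrt (∑ j ∈ Finset.range N, ‖η j‖ ^ 2)) := by
    intro N ξ η
    have h1 := h N (fun i => ξ i) (fun j => η j)
    simp only [Finset.sum_range]
    exact h1
  -- the adjoints of the rows
  have hrow : ∀ i, ∃ A : K →L[ℂ] HH K, ‖A‖ ≤ C ∧ ∀ j x, pr j (A x) = adjoint (a i j) x := by
    intro i
    refine exists_of_coord (fun j => adjoint (a i j)) hC fun x s => ?_
    obtain ⟨N, hN⟩ : ∃ N, s ⊆ Finset.range N := s.exists_nat_subset_range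
    have h1 := AmpInj_cols a hC h' i x (N := max N (i + 1)) (by omega)
    refine le_trans (Finset.sum_le_sum_of_subset_of_nonneg ?_ fun j _ _ => by positivity) h1
    exact hN.trans (Finset.range_subset_range.mpr (le_max_left _ _))
  choose A hA1 hA2 using hrow
  have hr : ∀ i j x, adjoint (A i) (inc j x) = a i j x := by
    intro i j x
    refine ext_inner_left ℂ fun y => ?_
    rw [adjoint_inner_right, inner_inc_right, hA2, adjoint_inner_left]
  have hbd : ∀ (f : HH K) (s : Finset ℕ),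
      ∑ i ∈ s, ‖adjoint (A i) f‖ ^ 2 ≤ C ^ 2 * ‖f‖ ^ 2 := by
    intro f s
    have hlim : Tendsto (fun n => ∑ j ∈ Finset.range n, inc j (pr j f)) atTop (𝓝 f) :=
      (hasSum_inc_pr f).tendsto_sum_nat
    have h1 : Tendsto (fun n => ∑ i ∈ s,
        ‖adjoint (A i) (∑ j ∈ Finset.range n, inc j (pr j f))‖ ^ 2) atTop
        (𝓝 (∑ i ∈ s, ‖adjoint (A i) f‖ ^ 2)) := by
      refine tendsto_finsetSum s fun i _ => ?_
      exact ((((adjoint (A i)).continuous.tendsto f).comp hlim).norm).pow 2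
    obtain ⟨N, hN⟩ : ∃ N, s ⊆ Finset.range N := s.exists_nat_subset_range
    refine le_of_tendsto h1 ?_
    filter_upwards [eventually_ge_atTop N] with n hn
    have h2 : ∀ i, adjoint (A i) (∑ j ∈ Finset.range n, inc j (pr j f)) =
        ∑ j ∈ Finset.range n, a i j (pr j f) := by
      intro i
      rw [map_sum]
      exact Finset.sum_congr rfl fun j _ => hr i j _
    have h3 := AmpInj_rows a hC h' n (fun j => pr j f)
    calc ∑ i ∈ s, ‖adjoint (A i) (∑ j ∈ Finset.range n, inc j (pr j f))‖ ^ 2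
        = ∑ i ∈ s, ‖∑ j ∈ Finset.range n, a i j (pr j f)‖ ^ 2 :=
          Finset.sum_congr rfl fun i _ => by rw [h2 i]
      _ ≤ ∑ i ∈ Finset.range n, ‖∑ j ∈ Finset.range n, a i j (pr j f)‖ ^ 2 :=
          Finset.sum_le_sum_of_subset_of_nonneg
            (hN.trans (Finset.range_subset_range.mpr hn)) fun i _ _ => by positivity
      _ ≤ C ^ 2 * ∑ j ∈ Finset.range n, ‖pr j f‖ ^ 2 := h3
      _ ≤ C ^ 2 * ‖f‖ ^ 2 := by
          refine mul_le_mul_of_nonneg_left ?_ (by positivity)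
          exact sum_le_hasSum _ (fun j _ => by positivity) (hasSum_norm_pr f)
  obtain ⟨T, hT1, hT2⟩ := exists_of_coord (H := HH K) (fun i => adjoint (A i)) hC hbd
  refine ⟨T, hT1, fun i j => ContinuousLinearMap.ext fun x => ?_⟩
  rw [ent_apply, hT2, hr]

/-- Operators on sequences are determined by their entries. -/
theorem AmpInj_ext {S S' : HH K →L[ℂ] HH K} (h : ∀ i j, ent i j S = ent i j S') : S = S' :=
  ext_inc fun j x => ext_pr fun i => by
    rw [← ent_apply, ← ent_apply, h i j]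

/-- Matrices over an injective algebra. -/
theorem inj_ampl (h : IsInjective (Com 𝔓 : Set (K →L[ℂ] K))) :
    IsInjective (Com (Ampl 𝔓) : Set (HH K →L[ℂ] HH K)) := by
  obtain ⟨E, h1, h2, h3⟩ := h
  have hex : ∀ Z : HH K →L[ℂ] HH K, ∃ T : HH K →L[ℂ] HH K, ‖T‖ ≤ ‖Z‖ ∧
      ∀ i j, ent i j T = E (ent i j Z) := fun Z =>
    exists_matrix (fun i j => E (ent i j Z)) (norm_nonneg Z) fun n ξ η =>
      cb_bound E h1 h2 h3 Z ξ η
  choose T hT1 hT2 using hex
  have hadd : ∀ (i j : ℕ) (Z W : HH K →L[ℂ] HH K), ent i j (Z + W) = ent i j Z + ent i j W :=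
    fun i j Z W => ContinuousLinearMap.ext fun x => by
      rw [add_apply, ent_apply, ent_apply, ent_apply, add_apply, map_add]
  have hsmul : ∀ (i j : ℕ) (c : ℂ) (Z : HH K →L[ℂ] HH K), ent i j (c • Z) = c • ent i j Z :=
    fun i j c Z => ContinuousLinearMap.ext fun x => by
      rw [smul_apply, ent_apply, ent_apply, smul_apply, map_smul]
  refine ⟨{ toFun := T, map_add' := ?_, map_smul' := ?_ }, hT1, ?_, ?_⟩
  · intro Z W
    refine AmpInj_ext fun i j => ?_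
    rw [hT2, hadd, hadd, hT2, hT2, map_add]
  · intro c Z
    refine AmpInj_ext fun i j => ?_
    rw [hT2, hsmul, RingHom.id_apply, hsmul, hT2, map_smul]
  · intro Z
    refine mem_Com_amp.mpr fun i j => ?_
    show ent i j (T Z) ∈ Com 𝔓
    rw [hT2]
    exact h2 _
  · intro Z hZ
    refine AmpInj_ext fun i j => ?_
    show ent i j (T Z) = ent i j Z
    rw [hT2]
    exact h3 _ (mem_Com_amp.mp hZ i j)

/-- A von Neumann algebra is injective if its matrices are. -/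
theorem inj_down (h : IsInjective (Com (Ampl 𝔓) : Set (HH K →L[ℂ] HH K))) :
    IsInjective (Com 𝔓 : Set (K →L[ℂ] K)) := by
  obtain ⟨E, h1, h2, h3⟩ := h
  refine ⟨{ toFun := fun S => ent 0 0 (E (amp S)), map_add' := ?_, map_smul' := ?_ }, ?_, ?_, ?_⟩
  · intro S S'
    refine ContinuousLinearMap.ext fun x => ?_
    rw [amp_add, map_add, add_apply, ent_apply, ent_apply, ent_apply, add_apply, map_add]
  · intro c S
    refine ContinuousLinearMap.ext fun x => ?_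
    rw [amp_smul, map_smul, RingHom.id_apply, smul_apply, ent_apply, ent_apply, smul_apply,
      map_smul]
  · intro S
    refine ContinuousLinearMap.opNorm_le_bound _ (norm_nonneg S) fun x => ?_
    show ‖ent 0 0 (E (amp S)) x‖ ≤ ‖S‖ * ‖x‖
    rw [ent_apply]
    calc ‖pr 0 (E (amp S) (inc 0 x))‖ ≤ ‖E (amp S) (inc 0 x)‖ := norm_pr_le _ _
      _ ≤ ‖E (amp S)‖ * ‖inc 0 x‖ := le_opNorm _ _
      _ ≤ ‖S‖ * ‖x‖ := by
          rw [norm_inc]
          exact mul_le_mul_of_nonneg_right ((h1 _).trans (norm_amp_le S)) (norm_nonneg _)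
  · intro S
    exact mem_Com_amp.mp (h2 (amp S)) 0 0
  · intro S hS
    have h4 : amp S ∈ Com (Ampl 𝔓) := by
      rw [mem_Com]
      intro a ha
      obtain ⟨b, hb, rfl⟩ := mem_Ampl.mp ha
      rw [← amp_mul, ← amp_mul, mem_Com.mp hS b hb]
    refine ContinuousLinearMap.ext fun x => ?_
    show ent 0 0 (E (amp S)) x = S x
    rw [h3 _ h4, ent_apply, pr_amp, pr_inc_same]

end Pool.Agent.MP_86f3ed.Fac
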