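import Pool.Agent.H.MP_86f3ed_an.Sf.Comp
import Pool.Agent.H.MP_86f3ed_an.Sf.OSum
import Pool.Agent.H.MP_86f3ed_an.Sf.Spec
import Pool.Agent.H.MP_86f3ed_an.Sf.Seq
import Pool.Agent.H.MP_86f3ed_an.Sf.Iso
import Pool.Agent.H.MP_86f3ed_an.Sf.AmpCom

open scoped InnerProductSpace Topology
open Filter ContinuousLinearMap

namespace Pool.Agent.MP_86f3ed.Fac

open Pin Sf

variable {K : Type*} [NormedAddCommGroup K] [InnerProductSpace ℂ K] [CompleteSpace K]

/-- `p` is a projection of the commutant of `𝔓`. -/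
structure Pr (𝔓 : StarSubalgebra ℂ (K →L[ℂ] K)) (p : K →L[ℂ] K) : Prop where
  mem : p ∈ Com 𝔓
  sa : star p = p
  idem : p * p = p

/-- Murray-von Neumann equivalence in the commutant of `𝔓`. -/
def Eqv (𝔓 : StarSubalgebra ℂ (K →L[ℂ] K)) (p q : K →L[ℂ] K) : Prop :=
  ∃ w ∈ Com 𝔓, star w * w = p ∧ w * star w = q

/-- The projection `e` is finite in the commutant of `𝔓`. -/
def Fte (𝔓 : StarSubalgebra ℂ (K →L[ℂ] K)) (e : K →L[ℂ] K) : Prop :=
  ∀ w ∈ Com 𝔓, star w * w = e → e * w = w → w * star w = e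

/-- The commutant of `𝔓` is a factor. -/
def Factor (𝔓 : StarSubalgebra ℂ (K →L[ℂ] K)) : Prop :=
  ∀ x ∈ Com 𝔓, x ∈ Com (Com 𝔓) → ∃ c : ℂ, x = c • (1 : K →L[ℂ] K)

variable {𝔓 : StarSubalgebra ℂ (K →L[ℂ] K)}

theorem Pr.zero : Pr 𝔓 0 := ⟨zero_mem _, star_zero _, mul_zero _⟩

theorem Pr.one : Pr 𝔓 1 := ⟨one_mem _, star_one _, one_mul _⟩

/-- `e * p = p` expresses `p ≤ e`. -/
theorem Pr.le_symm {e p : K →L[ℂ] K} (he : Pr 𝔓 e) (hp : Pr 𝔓 p) (h : e * p = p) :
    p * e = p := by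
  have := congrArg star h
  rwa [star_mul, he.sa, hp.sa] at this

theorem Pr.sub {e p : K →L[ℂ] K} (he : Pr 𝔓 e) (hp : Pr 𝔓 p) (h : e * p = p) :
    Pr 𝔓 (e - p) := by
  refine ⟨sub_mem he.mem hp.mem, by rw [star_sub, he.sa, hp.sa], ?_⟩
  rw [sub_mul, mul_sub, mul_sub, he.idem, h, he.le_symm hp h, hp.idem, sub_self, sub_zero]

theorem Pr.add {p q : K →L[ℂ] K} (hp : Pr 𝔓 p) (hq : Pr 𝔓 q) (h : p * q = 0) :
    Pr 𝔓 (p + q) := by
  have h' : q * p = 0 := by
    have := congrArg star h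
    rwa [star_mul, hp.sa, hq.sa, star_zero] at this
  refine ⟨add_mem hp.mem hq.mem, by rw [star_add, hp.sa, hq.sa], ?_⟩
  rw [add_mul, mul_add, mul_add, hp.idem, h, h', hq.idem, add_zero, zero_add]

/-- The product of two commuting projections. -/
theorem Pr.mul {p q : K →L[ℂ] K} (hp : Pr 𝔓 p) (hq : Pr 𝔓 q) (h : p * q = q * p) :
    Pr 𝔓 (p * q) := by
  refine ⟨mul_mem hp.mem hq.mem, by rw [star_mul, hp.sa, hq.sa, h], ?_⟩
  calc p * q * (p * q) = p * (q * p) * q := by simp only [mul_assoc]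
    _ = p * (p * q) * q := by rw [h]
    _ = (p * p) * (q * q) := by simp only [mul_assoc]
    _ = p * q := by rw [hp.idem, hq.idem]

/-- The initial projection of an isometric part. -/
theorem Pr.of_pi {w : K →L[ℂ] K} (hw : w ∈ Com 𝔓) (h : w * star w * w = w) :
    Pr 𝔓 (star w * w) := by
  refine ⟨mul_mem (star_mem hw) hw, by rw [star_mul, star_star], ?_⟩
  rw [mul_assoc, ← mul_assoc w, h]

/-- The final projection of an isometric part. -/
theorem Pr.of_pi' {w : K →L[ℂ] K} (hw : w ∈ Com 𝔓) (h : w * star w * w = w) :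
    Pr 𝔓 (w * star w) := by
  refine ⟨mul_mem hw (star_mem hw), by rw [star_mul, star_star], ?_⟩
  rw [← mul_assoc, h]

/-- An element whose initial operator is a projection is an isometric part. -/
theorem pi_of {w p : K →L[ℂ] K} (hp : p * p = p) (h : star w * w = p) :
    w * star w * w = w ∧ w * p = w := by
  have hs : star p = p := by rw [← h, star_mul, star_star]
  have h0 : star (w - w * p) * (w - w * p) = 0 := by
    have h1 : star (w - w * p) = star w - p * star w := by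
      rw [star_sub, star_mul, hs]
    rw [h1, sub_mul, mul_sub, mul_sub]
    have h2 : star w * (w * p) = p := by rw [← mul_assoc, h, hp]
    have h3 : p * star w * w = p := by rw [mul_assoc, h, hp]
    have h4 : p * star w * (w * p) = p := by rw [mul_assoc, h2, hp]
    rw [h, h2, h3, h4]
    simp
  have h5 : w - w * p = 0 := CStarRing.star_mul_self_eq_zero_iff _ |>.1 h0
  have h6 : w * p = w := (sub_eq_zero.1 h5).symm
  exact ⟨by rw [mul_assoc, h, h6], h6⟩

theorem Eqv.refl {p : K →L[ℂ] K} (hp : Pr 𝔓 p) : Eqv 𝔓 p p :=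
  ⟨p, hp.mem, by rw [hp.sa, hp.idem], by rw [hp.sa, hp.idem]⟩

theorem Eqv.symm {p q : K →L[ℂ] K} (h : Eqv 𝔓 p q) : Eqv 𝔓 q p := by
  obtain ⟨w, hw, h1, h2⟩ := h
  exact ⟨star w, star_mem hw, by rw [star_star, h2], by rw [star_star, h1]⟩

theorem Eqv.trans {p q r : K →L[ℂ] K} (hp : Pr 𝔓 p) (hq : Pr 𝔓 q) (h : Eqv 𝔓 p q)
    (h' : Eqv 𝔓 q r) : Eqv 𝔓 p r := by
  obtain ⟨w, hw, h1, h2⟩ := h
  obtain ⟨w', hw', h1', h2'⟩ := h'
  refine ⟨w' * w, mul_mem hw' hw, ?_, ?_⟩
  · have h3 := (pi_of hp.idem h1).2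
    calc star (w' * w) * (w' * w) = star w * (star w' * w') * w := by
          rw [star_mul]; simp only [mul_assoc]
      _ = star w * w * (star w * w) := by rw [h1', ← h2]; simp only [mul_assoc]
      _ = p := by rw [h1, hp.idem]
  · have h3 := (pi_of hq.idem h1').2
    calc w' * w * star (w' * w) = w' * (w * star w) * star w' := by
          rw [star_mul]; simp only [mul_assoc]
      _ = r := by rw [h2, h3, h2']

/-- auxiliary facts on isometric parts -/
theorem Base_aux {p q w : K →L[ℂ] K} (hp : Pr 𝔓 p) (h1 : star w * w = p) (h2 : w * star w = q) :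
    w * p = w ∧ q * w = w ∧ p * star w = star w ∧ star w * q = star w := by
  have h3 := pi_of hp.idem h1
  have h4 : q * w = w := by rw [← h2, h3.1]
  have hq : star q = q := by rw [← h2, star_mul, star_star]
  refine ⟨h3.2, h4, ?_, ?_⟩
  · have := congrArg star h3.2
    rwa [star_mul, hp.sa] at this
  · have := congrArg star h4
    rwa [star_mul, hq] at this

theorem Eqv.add {p q p' q' : K →L[ℂ] K} (hp : Pr 𝔓 p) (hq : Pr 𝔓 q) (hp' : Pr 𝔓 p')
    (hq' : Pr 𝔓 q') (h : Eqv 𝔓 p q) (h' : Eqv 𝔓 p' q') (ho : p * p' = 0) (ho' : q * q' = 0) :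
    Eqv 𝔓 (p + p') (q + q') := by
  obtain ⟨w, hw, h1, h2⟩ := h
  obtain ⟨w', hw', h1', h2'⟩ := h'
  obtain ⟨a1, a2, a3, a4⟩ := Base_aux hp h1 h2
  obtain ⟨b1, b2, b3, b4⟩ := Base_aux hp' h1' h2'
  have e1 : star w * w' = 0 := by
    calc star w * w' = star w * (q * q') * w' := by
          rw [← mul_assoc (star w), a4, mul_assoc, b2]
      _ = 0 := by rw [ho', mul_zero, zero_mul]
  have e2 : star w' * w = 0 := by
    have := congrArg star e1
    rwa [star_mul, star_star, star_zero] at this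
  have e3 : w * star w' = 0 := by
    calc w * star w' = w * (p * p') * star w' := by
          rw [← mul_assoc w, a1, mul_assoc, b3]
      _ = 0 := by rw [ho, mul_zero, zero_mul]
  have e4 : w' * star w = 0 := by
    have := congrArg star e3
    rwa [star_mul, star_star, star_zero] at this
  refine ⟨w + w', add_mem hw hw', ?_, ?_⟩
  · rw [star_add, add_mul, mul_add, mul_add, h1, h1', e1, e2, add_zero, zero_add]
  · rw [star_add, add_mul, mul_add, mul_add, h2, h2', e3, e4, add_zero, zero_add]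

theorem Eqv.zero_iff {p q : K →L[ℂ] K} (h : Eqv 𝔓 p q) : p = 0 ↔ q = 0 := by
  obtain ⟨w, hw, h1, h2⟩ := h
  constructor
  · intro h0
    rw [h0] at h1
    have h3 : w = 0 := CStarRing.star_mul_self_eq_zero_iff _ |>.1 h1
    rw [← h2, h3, zero_mul]
  · intro h0
    rw [h0] at h2
    have h3 : w = 0 := CStarRing.mul_star_self_eq_zero_iff _ |>.1 h2
    rw [← h1, h3, mul_zero]

/-- Subprojections of equivalent projections. -/
theorem Eqv.sub {p q p' : K →L[ℂ] K} (hp : Pr 𝔓 p) (hq : Pr 𝔓 q) (hp' : Pr 𝔓 p')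
    (h : Eqv 𝔓 p q) (hle : p * p' = p') : ∃ q', Pr 𝔓 q' ∧ q * q' = q' ∧ Eqv 𝔓 p' q' := by
  obtain ⟨w, hw, h1, h2⟩ := h
  obtain ⟨a1, a2, a3, a4⟩ := Base_aux hp h1 h2
  have hu : w * p' ∈ Com 𝔓 := mul_mem hw hp'.mem
  have e1 : star (w * p') * (w * p') = p' := by
    calc star (w * p') * (w * p') = p' * (star w * w) * p' := by
          rw [star_mul, hp'.sa]; simp only [mul_assoc]
      _ = p' := by rw [h1, mul_assoc, hle, hp'.idem]
  have e2 := (pi_of hp'.idem e1).1
  refine ⟨w * p' * star (w * p'), Pr.of_pi' hu e2, ?_, ⟨w * p', hu, e1, rfl⟩⟩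
  rw [← mul_assoc, ← mul_assoc, a2]

/-- Subprojections of finite projections are finite. -/
theorem Fte.sub {e p : K →L[ℂ] K} (he : Pr 𝔓 e) (hf : Fte 𝔓 e) (hp : Pr 𝔓 p) (h : e * p = p) :
    Fte 𝔓 p := by
  intro w hw h1 h2
  have hpe := he.le_symm hp h
  have a1 := (pi_of hp.idem h1).2
  have e1 : (e - p) * w = 0 := by
    rw [sub_mul, ← h2, ← mul_assoc, ← mul_assoc, h, hp.idem, sub_self]
  have e2 : star w * (e - p) = 0 := by
    have := congrArg star e1
    rwa [star_mul, star_sub, he.sa, hp.sa, star_zero] at this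
  have e3 : w * (e - p) = 0 := by
    calc w * (e - p) = w * (p * (e - p)) := by rw [← mul_assoc, a1]
      _ = 0 := by rw [mul_sub, hpe, hp.idem, sub_self, mul_zero]
  have e4 : (e - p) * star w = 0 := by
    have := congrArg star e3
    rwa [star_mul, star_sub, he.sa, hp.sa, star_zero] at this
  have hs := he.sub hp h
  have k1 : star (w + (e - p)) * (w + (e - p)) = e := by
    rw [star_add, hs.sa, add_mul, mul_add, mul_add, h1, e1, e2, hs.idem, add_zero, zero_add]
    abel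
  have k2 : e * (w + (e - p)) = w + (e - p) := by
    have : e * w = w := by rw [← h2, ← mul_assoc, h]
    rw [mul_add, this, mul_sub, he.idem, h]
  have k3 := hf _ (add_mem hw hs.mem) k1 k2
  rw [star_add, hs.sa, add_mul, mul_add, mul_add, e3, e4, hs.idem, add_zero, zero_add] at k3
  rw [eq_sub_of_add_eq k3, sub_sub_cancel]

/-- A finite projection is not equivalent to a proper subprojection. -/
theorem Fte.eq_of {e p : K →L[ℂ] K} (he : Pr 𝔓 e) (hf : Fte 𝔓 e) (hp : Pr 𝔓 p) (h : e * p = p)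
    (hep : Eqv 𝔓 e p) : p = e := by
  obtain ⟨w, hw, h1, h2⟩ := hep
  obtain ⟨a1, a2, a3, a4⟩ := Base_aux he h1 h2
  have h3 : e * w = w := by
    rw [← a2, ← mul_assoc, h]
  rw [← h2, hf w hw h1 h3]

/-- Comparison: of two projections of a factor one is equivalent to a subprojection of the
other. -/
theorem comparison' (hF : Factor 𝔓) {p q : K →L[ℂ] K} (hp : Pr 𝔓 p) (hq : Pr 𝔓 q) :
    (∃ q', Pr 𝔓 q' ∧ q * q' = q' ∧ Eqv 𝔓 p q') ∨
      (∃ p', Pr 𝔓 p' ∧ p * p' = p' ∧ Eqv 𝔓 q p') := by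
  rcases comparison 𝔓 hF hp.mem hp.sa hp.idem hq.mem hq.sa hq.idem with
    ⟨w, hw, h1, h2⟩ | ⟨w, hw, h1, h2⟩
  · left
    have a := (pi_of hp.idem h1).1
    exact ⟨w * star w, Pr.of_pi' hw a, by rw [← mul_assoc, h2], ⟨w, hw, h1, rfl⟩⟩
  · right
    have h1' : star (star w) * star w = q := by rw [star_star, h1]
    have a := (pi_of hq.idem h1').1
    have h3 : p * star w = star w := by
      have := congrArg star h2
      rwa [star_mul, hp.sa] at this
    refine ⟨star w * star (star w), Pr.of_pi' (star_mem hw) a, ?_,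
      ⟨star w, star_mem hw, h1', rfl⟩⟩
    rw [← mul_assoc, h3]

theorem Base_compl (hF : Factor 𝔓) {e p q q'' : K →L[ℂ] K} (he : Pr 𝔓 e) (hf : Fte 𝔓 e)
    (hp : Pr 𝔓 p) (hq : Pr 𝔓 q) (hep : e * p = p) (heq : e * q = q) (h : Eqv 𝔓 p q)
    (h1 : Pr 𝔓 q'') (h2 : (e - q) * q'' = q'') (h3 : Eqv 𝔓 (e - p) q'') :
    Eqv 𝔓 (e - p) (e - q) := by
  have hsp := he.sub hp hep
  have hsq := he.sub hq heq
  have o1 : p * (e - p) = 0 := by
    rw [mul_sub, he.le_symm hp hep, hp.idem, sub_self]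
  have o2 : q * q'' = 0 := by
    rw [← h2, ← mul_assoc, mul_sub, he.le_symm hq heq, hq.idem, sub_self, zero_mul]
  have h4 := Eqv.add hp hq hsp h1 h h3 o1 o2
  have h5 : p + (e - p) = e := by abel
  rw [h5] at h4
  have h6 : e * q'' = q'' := by
    rw [← h2, ← mul_assoc, mul_sub, he.idem, heq]
  have h7 := Fte.eq_of he hf (hq.add h1 o2) (by rw [mul_add, heq, h6]) h4
  have h8 : q'' = e - q := by rw [← h7]; abel
  rwa [h8] at h3

/-- Complements of equivalent projections under a finite projection of a factor. -/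
theorem Fte.compl (hF : Factor 𝔓) {e p q : K →L[ℂ] K} (he : Pr 𝔓 e) (hf : Fte 𝔓 e)
    (hp : Pr 𝔓 p) (hq : Pr 𝔓 q) (hep : e * p = p) (heq : e * q = q) (h : Eqv 𝔓 p q) :
    Eqv 𝔓 (e - p) (e - q) := by
  rcases comparison' hF (he.sub hp hep) (he.sub hq heq) with ⟨q'', h1, h2, h3⟩ | ⟨p'', h1, h2, h3⟩
  · exact Base_compl hF he hf hp hq hep heq h h1 h2 h3
  · exact (Base_compl hF he hf hq hp heq hep h.symm h1 h2 h3).symm

end Pool.Agent.MP_86f3ed.Fac
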