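import Pool.Agent.H.MP_86f3ed_an.Fac.ATr

open scoped InnerProductSpace Topology
open Filter ContinuousLinearMap

namespace Pool.Agent.MP_86f3ed.Fac

open Pin Sf

variable {K : Type*} [NormedAddCommGroup K] [InnerProductSpace ℂ K] [CompleteSpace K]
  {𝔓 : StarSubalgebra ℂ (K →L[ℂ] K)}

theorem Min_inner {T : K →L[ℂ] K} (hT : star T = T) (x y : K) : ⟪T x, y⟫_ℂ = ⟪x, T y⟫_ℂ := by
  conv_lhs => rw [← hT]
  rw [star_eq_adjoint, adjoint_inner_left]

theorem Min_ext {T : K →L[ℂ] K} (hT : star T = T) (h : ∀ x, RCLike.re ⟪x, T x⟫_ℂ = 0) : T = 0 := by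
  have h1 : ∀ x, ⟪T x, x⟫_ℂ = 0 := by
    intro x
    have h2 : ⟪T x, x⟫_ℂ = ⟪x, T x⟫_ℂ := Min_inner hT x x
    have h3 : starRingEnd ℂ ⟪T x, x⟫_ℂ = ⟪T x, x⟫_ℂ := by
      rw [inner_conj_symm, h2]
    have h4 : (⟪T x, x⟫_ℂ).im = 0 := Complex.conj_eq_iff_im.1 h3
    have h5 : (⟪T x, x⟫_ℂ).re = 0 := by
      rw [h2]
      exact h x
    exact Complex.ext h5 h4
  have h6 : (T : K →ₗ[ℂ] K) = 0 := inner_map_self_eq_zero _ |>.1 h1
  ext x
  exact congrArg (fun S : K →ₗ[ℂ] K => S x) h6

theorem Min_pr_norm {p : K →L[ℂ] K} (hp : Pr 𝔓 p) (x : K) :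
    RCLike.re ⟪x, p x⟫_ℂ = ‖p x‖ ^ 2 := by
  have h1 : p x = p (p x) := (congrArg (fun S : K →L[ℂ] K => S x) hp.idem).symm
  rw [h1, ← Min_inner hp.sa, ← h1, inner_self_eq_norm_sq_to_K]
  norm_cast

/-- The positive elements of the corner. -/
theorem Min_pos {p : K →L[ℂ] K} (hp : Pr 𝔓 p)
    (hm : ∀ p', Pr 𝔓 p' → p * p' = p' → p' = 0 ∨ p' = p) {y : K →L[ℂ] K} (hy : y ∈ Com 𝔓)
    (hys : star y = y) (h0 : ∀ x, 0 ≤ RCLike.re ⟪x, y x⟫_ℂ)
    (h1 : p * y = y) (h2 : y * p = y) : ∃ c : ℝ, y = (c : ℂ) • p := by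
  by_cases hp0 : p = 0
  · refine ⟨0, ?_⟩
    rw [← h1, hp0]
    simp
  obtain ⟨q, hq⟩ := exists_spec 𝔓 hy hys h0
  -- the spectral projections lie below `p`
  have hpq : ∀ c, 0 < c → p * q c = q c := by
    intro c hc
    have hz : ∀ z, y z = 0 → q c z = 0 := by
      intro z hz
      have h3 := hq.low c hc.le z
      have h4 : y (q c z) = 0 := by
        have := congrArg (fun S : K →L[ℂ] K => S z) (hq.comm c hc.le)
        change q c (y z) = y (q c z) at this
        rw [← this, hz, map_zero]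
      rw [h4, inner_zero_right, map_zero] at h3
      have h5 : ‖q c z‖ ^ 2 ≤ 0 := by
        by_contra hcon
        push Not at hcon
        have := mul_pos hc hcon
        linarith
      have h6 : ‖q c z‖ = 0 := by
        have := sq_nonneg ‖q c z‖
        exact pow_eq_zero_iff (two_ne_zero) |>.1 (le_antisymm h5 this)
      exact norm_eq_zero.1 h6
    have hA : (1 - p) * q c = 0 := by
      have hB : star ((1 - p) * q c) * ((1 - p) * q c) = 0 := by
        have e1 : star ((1 - p) * q c) = q c * (1 - p) := by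
          rw [star_mul, star_sub, star_one, hp.sa, hq.star_q c hc.le]
        have e2 : (1 - p) * (1 - p) = 1 - p := by
          rw [mul_sub, sub_mul, sub_mul, hp.idem]
          simp
        rw [e1, mul_assoc, ← mul_assoc (1 - p) (1 - p), e2]
        ext x
        show q c (((1 - p) * q c) x) = 0
        refine hz _ ?_
        show y ((q c x) - p (q c x)) = 0
        rw [map_sub]
        have := congrArg (fun S : K →L[ℂ] K => S (q c x)) h2
        change y (p (q c x)) = y (q c x) at this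
        rw [this, sub_self]
      exact (CStarRing.star_mul_self_eq_zero_iff _).mp hB
    rw [sub_mul, one_mul, sub_eq_zero] at hA
    exact hA.symm
  have hdich : ∀ c, 0 < c → q c = 0 ∨ q c = p := fun c hc =>
    hm _ ⟨hq.mem c hc.le, hq.star_q c hc.le, hq.idem c hc.le⟩ (hpq c hc)
  by_cases hall : ∀ c, 0 < c → q c = 0
  · refine ⟨0, ?_⟩
    have h3 : ∀ x, y x = 0 := by
      intro x
      have h4 : ∀ c : ℝ, 0 < c → ‖y x‖ ≤ c * ‖x‖ := by
        intro c hc
        have := hq.norm_up c hc.le x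
        rw [hall c hc] at this
        simpa using this
      have h5 : ‖y x‖ ≤ 0 := by
        refine le_of_forall_pos_le_add fun ε hε => ?_
        have h6 := h4 (ε / (‖x‖ + 1)) (by positivity)
        have h7 : ε / (‖x‖ + 1) * ‖x‖ ≤ ε := by
          rw [div_mul_eq_mul_div, div_le_iff₀ (by positivity)]
          nlinarith [norm_nonneg x]
        linarith
      exact norm_le_zero_iff.1 h5
    ext x
    rw [h3 x]
    simp
  · push Not at hall
    obtain ⟨c1, hc1, hqc1⟩ := hall
    have hq1 : q c1 = p := (hdich c1 hc1).resolve_left hqc1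
    set S : Set ℝ := {c | 0 < c ∧ q c = p} with hS
    have hbdd : BddAbove S := by
      refine ⟨‖y‖, fun c hc => ?_⟩
      by_contra hcon
      push Not at hcon
      have := hq.zero c hc.1.le hcon.le
      exact hp0 (hc.2.symm.trans this)
    have hne : S.Nonempty := ⟨c1, hc1, hq1⟩
    set c0 := sSup S with hc0
    have hlow : ∀ c, 0 < c → c < c0 → q c = p := by
      intro c hc hcc
      obtain ⟨c', hc', hcc'⟩ := exists_lt_of_lt_csSup hne hcc
      have h3 := (hq.nest c c' hc.le hcc'.le).1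
      rw [hc'.2] at h3
      rcases hdich c hc with h4 | h4
      · rw [h4, zero_mul] at h3
        exact absurd h3.symm hp0
      · exact h4
    have hup : ∀ c, 0 < c → c0 < c → q c = 0 := by
      intro c hc hcc
      rcases hdich c hc with h4 | h4
      · exact h4
      · exact absurd (le_csSup hbdd (show c ∈ S from ⟨hc, h4⟩)) (not_le.2 hcc)
    have hc0pos : 0 < c0 := lt_of_lt_of_le hc1 (le_csSup hbdd ⟨hc1, hq1⟩)
    have hform : ∀ x, RCLike.re ⟪x, y x⟫_ℂ = c0 * ‖p x‖ ^ 2 := by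
      intro x
      have e1 : RCLike.re ⟪x, y x⟫_ℂ = RCLike.re ⟪p x, y (p x)⟫_ℂ := by
        have h3 : y (p x) = y x := congrArg (fun S : K →L[ℂ] K => S x) h2
        have h4 : p (y x) = y x := congrArg (fun S : K →L[ℂ] K => S x) h1
        rw [h3, Min_inner hp.sa, h4]
      have hpp : p (p x) = p x := congrArg (fun S : K →L[ℂ] K => S x) hp.idem
      rw [e1]
      apply le_antisymm
      · have h3 : ∀ c, c0 < c → RCLike.re ⟪p x, y (p x)⟫_ℂ ≤ c * ‖p x‖ ^ 2 := by
          intro c hc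
          have hcp : 0 < c := hc0pos.trans hc
          have h4 := hq.up c hcp.le (p x)
          rw [hup c hcp hc] at h4
          simpa using h4
        refine le_of_forall_pos_le_add fun ε hε => ?_
        have h4 := h3 (c0 + ε / (‖p x‖ ^ 2 + 1)) (by
          have : 0 < ε / (‖p x‖ ^ 2 + 1) := by positivity
          linarith)
        have h5 : ε / (‖p x‖ ^ 2 + 1) * ‖p x‖ ^ 2 ≤ ε := by
          rw [div_mul_eq_mul_div, div_le_iff₀ (by positivity)]
          nlinarith [sq_nonneg ‖p x‖]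
        nlinarith
      · have h3 : ∀ c, 0 < c → c < c0 → c * ‖p x‖ ^ 2 ≤ RCLike.re ⟪p x, y (p x)⟫_ℂ := by
          intro c hc hcc
          have h4 := hq.low c hc.le (p x)
          rw [hlow c hc hcc, hpp] at h4
          exact h4
        by_contra hcon
        push Not at hcon
        have hpx : 0 < ‖p x‖ ^ 2 := by
          by_contra h5
          push Not at h5
          have h6 : ‖p x‖ ^ 2 = 0 := le_antisymm h5 (sq_nonneg _)
          rw [h6, mul_zero] at hcon
          have := h0 (p x)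
          linarith
        obtain ⟨c, hc3, hc4⟩ : ∃ c, max 0 (RCLike.re ⟪p x, y (p x)⟫_ℂ / ‖p x‖ ^ 2) < c ∧ c < c0 := by
          refine exists_between (max_lt hc0pos ?_)
          rw [div_lt_iff₀ hpx]
          exact hcon
        have h5 := h3 c (lt_of_le_of_lt (le_max_left _ _) hc3) hc4
        have h6 : RCLike.re ⟪p x, y (p x)⟫_ℂ / ‖p x‖ ^ 2 < c :=
          lt_of_le_of_lt (le_max_right _ _) hc3
        rw [div_lt_iff₀ hpx] at h6
        linarith
    refine ⟨c0, ?_⟩
    have h3 : y - (c0 : ℂ) • p = 0 := by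
      refine Min_ext ?_ fun x => ?_
      · rw [star_sub, hys, star_smul, hp.sa]
        simp
      · have h4 : (y - (c0 : ℂ) • p) x = y x - (c0 : ℂ) • p x := rfl
        rw [h4, inner_sub_right, inner_smul_right, map_sub, hform x]
        have h5 : RCLike.re ((c0 : ℂ) * ⟪x, p x⟫_ℂ) = c0 * RCLike.re ⟪x, p x⟫_ℂ := by
          simp
        rw [h5, Min_pr_norm hp, sub_self]
    exact sub_eq_zero.1 h3

/-- The self-adjoint elements of the corner. -/
theorem Min_sa {p : K →L[ℂ] K} (hp : Pr 𝔓 p)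
    (hm : ∀ p', Pr 𝔓 p' → p * p' = p' → p' = 0 ∨ p' = p) {y : K →L[ℂ] K} (hy : y ∈ Com 𝔓)
    (hys : star y = y) (h1 : p * y = y) (h2 : y * p = y) : ∃ c : ℝ, y = (c : ℂ) • p := by
  obtain ⟨c, hc⟩ := Min_pos (y := y + ((‖y‖ : ℝ) : ℂ) • p) hp hm
    (add_mem hy (SMulMemClass.smul_mem _ hp.mem)) (by
      rw [star_add, hys, star_smul, hp.sa]
      simp) (by
      intro x
      have h4 : (y + ((‖y‖ : ℝ) : ℂ) • p) x = y x + ((‖y‖ : ℝ) : ℂ) • p x := rfl
      rw [h4, inner_add_right, inner_smul_right, map_add]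
      have h5 : RCLike.re (((‖y‖ : ℝ) : ℂ) * ⟪x, p x⟫_ℂ) = ‖y‖ * RCLike.re ⟪x, p x⟫_ℂ := by
        simp
      rw [h5, Min_pr_norm hp]
      have e1 : RCLike.re ⟪x, y x⟫_ℂ = RCLike.re ⟪p x, y (p x)⟫_ℂ := by
        have h3 : y (p x) = y x := congrArg (fun S : K →L[ℂ] K => S x) h2
        have h4 : p (y x) = y x := congrArg (fun S : K →L[ℂ] K => S x) h1
        rw [h3, Min_inner hp.sa, h4]
      rw [e1]
      have h6 : |RCLike.re ⟪p x, y (p x)⟫_ℂ| ≤ ‖p x‖ * (‖y‖ * ‖p x‖) := by
        refine (RCLike.abs_re_le_norm _).trans ((norm_inner_le_norm _ _).trans ?_)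
        exact mul_le_mul_of_nonneg_left (y.le_opNorm _) (norm_nonneg _)
      have h7 := (abs_le.1 h6).1
      nlinarith) (by
      rw [mul_add, h1, mul_smul_comm, hp.idem]) (by
      rw [add_mul, h2, smul_mul_assoc, hp.idem])
  refine ⟨c - ‖y‖, ?_⟩
  have h3 : y = (c : ℂ) • p - ((‖y‖ : ℝ) : ℂ) • p := by
    rw [← hc]
    abel
  rw [← sub_smul] at h3
  push_cast
  exact h3

/-- The corner of a minimal projection is trivial. -/
theorem minimal_corner {p : K →L[ℂ] K} (hp : Pr 𝔓 p)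
    (hm : ∀ p', Pr 𝔓 p' → p * p' = p' → p' = 0 ∨ p' = p) {x : K →L[ℂ] K} (hx : x ∈ Com 𝔓)
    (h1 : p * x = x) (h2 : x * p = x) : ∃ c : ℂ, x = c • p := by
  have hs1 : p * star x = star x := by
    have := congrArg star h2
    rwa [star_mul, hp.sa] at this
  have hs2 : star x * p = star x := by
    have := congrArg star h1
    rwa [star_mul, hp.sa] at this
  obtain ⟨a, ha⟩ := Min_sa (y := x + star x) hp hm (add_mem hx (star_mem hx))
    (by rw [star_add, star_star, add_comm]) (by rw [mul_add, h1, hs1]) (by rw [add_mul, h2, hs2])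
  obtain ⟨b, hb⟩ := Min_sa (y := Complex.I • (x - star x)) hp hm
    (SMulMemClass.smul_mem _ (sub_mem hx (star_mem hx)))
    (by
      rw [star_smul, star_sub, star_star]
      have : star Complex.I = -Complex.I := Complex.conj_I
      rw [this, neg_smul, ← smul_neg, neg_sub])
    (by rw [mul_smul_comm, mul_sub, h1, hs1]) (by rw [smul_mul_assoc, sub_mul, h2, hs2])
  refine ⟨((a : ℂ) - Complex.I * b) / 2, ?_⟩
  have h3 : x - star x = -((Complex.I * b : ℂ) • p) := by
    rw [mul_smul, ← hb, smul_smul, Complex.I_mul_I, neg_one_smul, neg_neg]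
  have h4 : (2 : ℂ) • x = ((a : ℂ) - Complex.I * b) • p := by
    have : (2 : ℂ) • x = (x + star x) + (x - star x) := by
      rw [two_smul]
      abel
    rw [this, ha, h3, sub_smul, sub_eq_add_neg]
  have h5 : x = (2 : ℂ)⁻¹ • ((2 : ℂ) • x) := by
    rw [smul_smul, inv_mul_cancel₀ two_ne_zero, one_smul]
  rw [h5, h4, smul_smul]
  congr 1
  ring

/-- A finite projection of a factor is a finite sum of sub-copies of a given one. -/
theorem exists_pack (hF : Factor 𝔓) {e p : K →L[ℂ] K} (he : Pr 𝔓 e) (hf : Fte 𝔓 e)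
    (hp : Pr 𝔓 p) (hp0 : p ≠ 0) :
    ∃ (n : ℕ) (v : Fin n → K →L[ℂ] K), (∀ i, v i ∈ Com 𝔓) ∧ (∀ i, ‖v i‖ ≤ 1) ∧
      (∀ i, v i * p = v i) ∧ ∑ i, v i * star (v i) = e := by
  by_contra hcon
  obtain ⟨V, hV, hVV, heV⟩ := exists_seq 𝔓 hF hp.mem hp.sa hp.idem hp0 he.mem he.sa he.idem
    (fun n V h1 h2 h3 h4 => hcon ⟨n, V, h1, h2, h3, h4⟩)
  exact no_seq he hf hp0 V hV hVV heV

/-- The trace of a finite type I factor. -/
theorem exists_trace_min (hF : Factor 𝔓) {e : K →L[ℂ] K} (he : Pr 𝔓 e) (hf : Fte 𝔓 e)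
    (hn : ¬ NoMin 𝔓 e) : ∃ ζ : HH K, ATr 𝔓 e 1 ζ := by
  unfold NoMin at hn
  push Not at hn
  obtain ⟨p, hp, hep, hp0, hmin⟩ := hn
  have hm : ∀ p', Pr 𝔓 p' → p * p' = p' → p' = 0 ∨ p' = p := by
    intro p' hp' h
    by_cases h0 : p' = 0
    · exact Or.inl h0
    · exact Or.inr (hmin p' hp' h h0)
  obtain ⟨n, v, hv, -, hvp, hs⟩ := exists_pack hF he hf hp hp0
  have hpv : ∀ i, p * star (v i) = star (v i) := by
    intro i
    have := congrArg star (hvp i)
    rwa [star_mul, hp.sa] at this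
  obtain ⟨η, hη⟩ : ∃ η, p η ≠ 0 := by
    by_contra hcon
    push Not at hcon
    exact hp0 (ContinuousLinearMap.ext hcon)
  refine exists_spread he v hv hs (η := η) zero_le_one ?_ ?_
  · by_contra hcon
    push Not at hcon
    have hv0 : ∀ i, v i = 0 := by
      intro i
      obtain ⟨c, hc⟩ := minimal_corner hp hm (x := star (v i) * v i)
        (mul_mem (star_mem (hv i)) (hv i)) (by rw [← mul_assoc, hpv]) (by rw [mul_assoc, hvp])
      have h1 : c • p η = 0 := by
        have h2 := congrArg (fun S : K →L[ℂ] K => S η) hc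
        change star (v i) (v i η) = c • p η at h2
        rw [← h2, hcon i, map_zero]
      have h3 : c = 0 := (smul_eq_zero.1 h1).resolve_right hη
      rw [h3, zero_smul] at hc
      exact (CStarRing.star_mul_self_eq_zero_iff _).mp hc
    have he0 : e = 0 := by
      rw [← hs]
      exact Finset.sum_eq_zero fun i _ => by rw [hv0 i, zero_mul]
    rw [he0, zero_mul] at hep
    exact hp0 hep.symm
  · intro i j x hx _ _
    obtain ⟨c, hc⟩ := minimal_corner hp hm (x := star (v i) * x * v j)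
      (mul_mem (mul_mem (star_mem (hv i)) hx) (hv j))
      (by rw [← mul_assoc, ← mul_assoc, hpv]) (by rw [mul_assoc, hvp])
    have hc' : star (v j) * star x * v i = starRingEnd ℂ c • p := by
      have h1 := congrArg star hc
      rw [star_mul, star_mul, star_star, star_smul, hp.sa, ← mul_assoc] at h1
      exact h1
    rw [hc, hc', one_mul]
    have h2 : ‖(c • p) η‖ = ‖c‖ * ‖p η‖ := norm_smul c (p η)
    have h3 : ‖(starRingEnd ℂ c • p) η‖ = ‖c‖ * ‖p η‖ := by
      have : ‖(starRingEnd ℂ c • p) η‖ = ‖starRingEnd ℂ c‖ * ‖p η‖ := norm_smul _ (p η)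
      rw [this, RCLike.norm_conj]
    rw [h2, h3]

end Pool.Agent.MP_86f3ed.Fac
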