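import Pool.Agent.H.MP_86f3ed_an.Fac.Base

open scoped InnerProductSpace Topology
open Filter ContinuousLinearMap

namespace Pool.Agent.MP_86f3ed.Fac

open Pin Sf

variable {K : Type*} [NormedAddCommGroup K] [InnerProductSpace ℂ K] [CompleteSpace K]
  {𝔓 : StarSubalgebra ℂ (K →L[ℂ] K)}

universe u

/-- The Hilbert space of a semi-inner product. -/
theorem Vec_gns {V : Type u} [AddCommGroup V] [Module ℂ V] (c : PreInnerProductSpace.Core ℂ V) :
    ∃ (H : Type u) (_ : NormedAddCommGroup H) (_ : InnerProductSpace ℂ H) (_ : CompleteSpace H)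
      (b : V →ₗ[ℂ] H), ∀ x y, ⟪b x, b y⟫_ℂ = c.inner x y := by
  let _ : PreInnerProductSpace.Core ℂ V := c
  let i1 : SeminormedAddCommGroup V := InnerProductSpace.Core.toSeminormedAddCommGroup (𝕜 := ℂ)
  let i2 : InnerProductSpace ℂ V := InnerProductSpace.ofCore c
  refine ⟨UniformSpace.Completion V, inferInstance, inferInstance, inferInstance,
    (UniformSpace.Completion.toComplₗᵢ (𝕜 := ℂ) (E := V)).toLinearMap, ?_⟩
  intro x y
  exact UniformSpace.Completion.inner_coe x y

theorem Vec_sqrt {X : Type*} [NormedAddCommGroup X] [InnerProductSpace ℂ X] [CompleteSpace X]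
    (G : X →L[ℂ] X) (hG : 0 ≤ G) : ∃ r : X →L[ℂ] X, IsSelfAdjoint r ∧ r * r = G ∧
      ∀ b, Commute G b → Commute r b := by
  refine ⟨CFC.sqrt G, (CFC.sqrt_nonneg G).isSelfAdjoint, CFC.sqrt_mul_sqrt_self G hG, ?_⟩
  intro b hb
  rw [CFC.sqrt]
  exact hb.cfcₙ_nnreal _

/-- A positive functional dominated by a vector functional is a vector functional: here `𝔐` is a
star algebra of operators on `X` and `τ` is a functional on it. -/
theorem exists_vec {X : Type*} [NormedAddCommGroup X] [InnerProductSpace ℂ X] [CompleteSpace X]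
    (𝔐 : StarSubalgebra ℂ (X →L[ℂ] X)) (ξ : X) (τ : 𝔐 →ₗ[ℂ] ℂ) {C : ℝ}
    (hpos : ∀ x : 𝔐, 0 ≤ (τ (star x * x)).re ∧ (τ (star x * x)).im = 0)
    (hle : ∀ x : 𝔐, (τ (star x * x)).re ≤ C * ‖(x : X →L[ℂ] X) ξ‖ ^ 2) :
    ∃ ζ : X, ∀ x : 𝔐, τ x = ⟪ζ, (x : X →L[ℂ] X) ζ⟫_ℂ := by
  -- conjugate symmetry
  have hconj : ∀ x y : 𝔐, (starRingEnd ℂ) (τ (star y * x)) = τ (star x * y) := by
    intro x y
    have h1 := (hpos (x + y)).2
    have h2 := (hpos (x + Complex.I • y)).2
    have hx := (hpos x).2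
    have hy := (hpos y).2
    have e1 : star (x + y) * (x + y) =
        star x * x + star x * y + (star y * x + star y * y) := by
      rw [star_add, add_mul, mul_add, mul_add]
    have e2 : star (x + Complex.I • y) * (x + Complex.I • y) =
        star x * x + Complex.I • (star x * y) +
          (-(Complex.I • (star y * x)) + star y * y) := by
      rw [star_add, star_smul, add_mul, mul_add, mul_add, smul_mul_assoc, smul_mul_assoc,
        mul_smul_comm, mul_smul_comm, smul_smul]
      simp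
    rw [e1, map_add, map_add, map_add] at h1
    rw [e2, map_add, map_add, map_add, map_neg, map_smul, map_smul] at h2
    simp only [Complex.add_im, smul_eq_mul, Complex.neg_im, Complex.mul_im, Complex.I_re,
      Complex.I_im, zero_mul, one_mul, zero_add] at h1 h2
    apply Complex.ext
    · rw [Complex.conj_re]; linarith
    · rw [Complex.conj_im]; linarith
  let c : PreInnerProductSpace.Core ℂ 𝔐 :=
    { inner := fun x y => τ (star x * y)
      conj_inner_symm := fun x y => hconj x y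
      re_inner_nonneg := fun x => (hpos x).1
      add_left := fun x y z => by
        show τ (star (x + y) * z) = τ (star x * z) + τ (star y * z)
        rw [star_add, add_mul, map_add]
      smul_left := fun x y r => by
        show τ (star (r • x) * y) = (starRingEnd ℂ) r * τ (star x * y)
        rw [star_smul, smul_mul_assoc, map_smul, smul_eq_mul]
        rfl }
  obtain ⟨H, iH1, iH2, iH3, b, hb⟩ := Vec_gns c
  have hb' : ∀ x y : 𝔐, ⟪b x, b y⟫_ℂ = τ (star x * y) := hb
  let a : 𝔐 →ₗ[ℂ] X :=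
    { toFun := fun m => (m : X →L[ℂ] X) ξ
      map_add' := fun _ _ => rfl
      map_smul' := fun _ _ => rfl }
  have ha : ∀ m : 𝔐, a m = (m : X →L[ℂ] X) ξ := fun _ => rfl
  have hn : ∀ m : 𝔐, ‖b m‖ ≤ Real.sqrt (max C 0) * ‖a m‖ := by
    intro m
    have h1 : ‖b m‖ ^ 2 = (τ (star m * m)).re := by
      rw [← hb' m m, ← inner_self_eq_norm_sq (𝕜 := ℂ)]
      rfl
    have h2 : ‖b m‖ ^ 2 ≤ max C 0 * ‖a m‖ ^ 2 := by
      rw [h1]
      refine (hle m).trans ?_
      exact mul_le_mul_of_nonneg_right (le_max_left _ _) (sq_nonneg _)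
    refine le_of_sq_le_sq ?_ (by positivity) |> fun h => h
    rw [mul_pow, Real.sq_sqrt (le_max_right _ _)]
    exact h2
  obtain ⟨w, -, hw, hw0⟩ := exists_ext a b (Real.sqrt_nonneg _) hn
  set T : X →L[ℂ] X := (adjoint w).comp w with hT
  have hTpos : 0 ≤ T := by
    rw [ContinuousLinearMap.nonneg_iff_isPositive]
    exact isPositive_adjoint_comp_self w
  have hTi : ∀ y z : X, ⟪y, T z⟫_ℂ = ⟪w y, w z⟫_ℂ := by
    intro y z
    rw [hT, comp_apply, adjoint_inner_right]
  have hcomm : ∀ m : 𝔐, Commute T (m : X →L[ℂ] X) := by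
    intro m
    -- the operator induced by left multiplication, tested on vectors
    set L : Submodule ℂ X := (LinearMap.range a).topologicalClosure with hL
    have : CompleteSpace L :=
      (LinearMap.range a).isClosed_topologicalClosure.completeSpace_coe
    have hperp : ∀ x ∈ Lᗮ, w x = 0 := by
      intro x hx
      rw [hL, Submodule.orthogonal_closure, Submodule.mem_orthogonal] at hx
      exact hw0 x fun v => hx _ ⟨v, rfl⟩
    have hperpm : ∀ (m : 𝔐), ∀ x ∈ Lᗮ, w ((m : X →L[ℂ] X) x) = 0 := by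
      intro m x hx
      rw [hL, Submodule.orthogonal_closure, Submodule.mem_orthogonal] at hx
      refine hw0 _ fun v => ?_
      rw [← ContinuousLinearMap.adjoint_inner_left, ← ContinuousLinearMap.star_eq_adjoint]
      exact hx _ ⟨star m * v, rfl⟩
    -- the identity of the two bounded forms
    have hform : ∀ y z : X, ⟪w (star (m : X →L[ℂ] X) y), w z⟫_ℂ =
        ⟪w y, w ((m : X →L[ℂ] X) z)⟫_ℂ := by
      have hA : ∀ y ∈ L, ∀ z ∈ L, ⟪w (star (m : X →L[ℂ] X) y), w z⟫_ℂ =
          ⟪w y, w ((m : X →L[ℂ] X) z)⟫_ℂ := by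
        have h1 : ∀ p : 𝔐, ∀ z ∈ L, ⟪w (star (m : X →L[ℂ] X) (a p)), w z⟫_ℂ =
            ⟪w (a p), w ((m : X →L[ℂ] X) z)⟫_ℂ := by
          intro p z hz
          have h3 : (L : Set X) ⊆ {z | ⟪w (star (m : X →L[ℂ] X) (a p)), w z⟫_ℂ =
              ⟪w (a p), w ((m : X →L[ℂ] X) z)⟫_ℂ} := by
            refine closure_minimal ?_ (isClosed_eq (by fun_prop) (by fun_prop))
            rintro _ ⟨v, rfl⟩
            show ⟪w (star (m : X →L[ℂ] X) (a p)), w (a v)⟫_ℂ =
              ⟪w (a p), w ((m : X →L[ℂ] X) (a v))⟫_ℂ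
            have e1 : star (m : X →L[ℂ] X) (a p) = a (star m * p) := rfl
            have e2 : (m : X →L[ℂ] X) (a v) = a (m * v) := rfl
            rw [e1, e2, hw, hw, hw, hw, hb', hb', star_mul, star_star, mul_assoc]
          exact h3 hz
        intro y hy z hz
        have h3 : (L : Set X) ⊆ {y | ⟪w (star (m : X →L[ℂ] X) y), w z⟫_ℂ =
            ⟪w y, w ((m : X →L[ℂ] X) z)⟫_ℂ} := by
          refine closure_minimal ?_ (isClosed_eq (by fun_prop) (by fun_prop))
          rintro _ ⟨v, rfl⟩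
          exact h1 v z hz
        exact h3 hy
      intro y z
      have ey : y = L.starProjection y + (y - L.starProjection y) := by abel
      have ez : z = L.starProjection z + (z - L.starProjection z) := by abel
      have hy1 := hperp _ (Submodule.sub_starProjection_mem_orthogonal (K := L) y)
      have hz1 := hperp _ (Submodule.sub_starProjection_mem_orthogonal (K := L) z)
      have hy2 : w (star (m : X →L[ℂ] X) (y - L.starProjection y)) = 0 :=
        hperpm (star m) _ (Submodule.sub_starProjection_mem_orthogonal (K := L) y)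
      have hz2 := hperpm m _ (Submodule.sub_starProjection_mem_orthogonal (K := L) z)
      rw [ey, ez, map_add w, map_add w, map_add (star (m : X →L[ℂ] X)),
        map_add (m : X →L[ℂ] X), map_add w, map_add w, hy1, hz1, hy2, hz2]
      simp only [add_zero]
      exact hA _ (Submodule.starProjection_apply_mem L y) _
        (Submodule.starProjection_apply_mem L z)
    refine ContinuousLinearMap.ext fun z => ?_
    refine ext_inner_left ℂ fun y => ?_
    show ⟪y, T ((m : X →L[ℂ] X) z)⟫_ℂ = ⟪y, (m : X →L[ℂ] X) (T z)⟫_ℂ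
    rw [hTi, ← hform y z, ← hTi, star_eq_adjoint, adjoint_inner_left]
  obtain ⟨R, hRsa0, hRR, hRc⟩ := Vec_sqrt T hTpos
  have hRsa : adjoint R = R := by
    rw [← star_eq_adjoint]
    exact hRsa0.star_eq
  have hRm : ∀ m : 𝔐, Commute R (m : X →L[ℂ] X) := fun m => hRc _ (hcomm m)
  refine ⟨R ξ, fun x => ?_⟩
  have h1 : (x : X →L[ℂ] X) (R ξ) = R ((x : X →L[ℂ] X) ξ) := by
    have := congrArg (fun z : X →L[ℂ] X => z ξ) (hRm x).eq
    exact this.symm
  have h2 : R (R ((x : X →L[ℂ] X) ξ)) = T ((x : X →L[ℂ] X) ξ) :=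
    congrArg (fun z : X →L[ℂ] X => z ((x : X →L[ℂ] X) ξ)) hRR
  have h3 : ⟪R ξ, R ((x : X →L[ℂ] X) ξ)⟫_ℂ = ⟪ξ, R (R ((x : X →L[ℂ] X) ξ))⟫_ℂ := by
    conv_lhs => rw [← hRsa]
    rw [adjoint_inner_left, hRsa]
  rw [h1, h3, h2, hTi]
  have e1 : w ξ = b 1 := hw 1
  have e2 : w ((x : X →L[ℂ] X) ξ) = b x := hw x
  rw [e1, e2, hb', star_one, one_mul]

end Pool.Agent.MP_86f3ed.Fac
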