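import Pool.Agent.H.MP_86f3ed_an.Fac.Cmp
import Pool.Agent.H.MP_86f3ed_an.Fac.Vec
import Pool.Agent.H.MP_86f3ed_an.Fac.Min

open scoped InnerProductSpace Topology
open Filter ContinuousLinearMap

namespace Pool.Agent.MP_86f3ed.Fac

open Pin Sf

variable {K : Type*} [NormedAddCommGroup K] [InnerProductSpace ℂ K] [CompleteSpace K]
  {𝔓 : StarSubalgebra ℂ (K →L[ℂ] K)}

/-- Limits of bounded sequences along an ultrafilter. -/
theorem Lim_exists (U : Ultrafilter ℕ) (s : ℕ → ℂ) {C : ℝ} (h : ∀ n, ‖s n‖ ≤ C) :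
    ∃ l : ℂ, Tendsto s U (𝓝 l) := by
  have hc : IsCompact (Metric.closedBall (0 : ℂ) C) := isCompact_closedBall 0 C
  have h1 : (U.map s : Filter ℂ) ≤ 𝓟 (Metric.closedBall (0 : ℂ) C) := by
    rw [le_principal_iff]
    refine Filter.mem_map.mpr (Filter.univ_mem' fun n => ?_)
    change s n ∈ Metric.closedBall (0 : ℂ) C
    rw [mem_closedBall_zero_iff]
    exact h n
  obtain ⟨l, _, hl⟩ := hc.ultrafilter_le_nhds (U.map s) h1
  exact ⟨l, hl⟩

theorem Lim_inner_star (b : K →L[ℂ] K) (ζ : HH K) :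
    ⟪ζ, amp (star b * b) ζ⟫_ℂ = ((‖amp b ζ‖ ^ 2 : ℝ) : ℂ) := by
  rw [amp_mul, amp_star, mul_apply_eq_comp, star_eq_adjoint, adjoint_inner_right,
    inner_self_eq_norm_sq_to_K]
  norm_cast

theorem Lim_functional (U : Ultrafilter ℕ) (ζ : ℕ → HH K) (h1 : ∀ n, ‖ζ n‖ = 1) :
    ∃ L : (K →L[ℂ] K) →ₗ[ℂ] ℂ, ∀ b, Tendsto (fun n => ⟪ζ n, amp b (ζ n)⟫_ℂ) U (𝓝 (L b)) := by
  have hb : ∀ b : K →L[ℂ] K, ∃ l : ℂ, Tendsto (fun n => ⟪ζ n, amp b (ζ n)⟫_ℂ) U (𝓝 l) := by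
    intro b
    refine Lim_exists U _ (C := ‖b‖) fun n => ?_
    calc ‖⟪ζ n, amp b (ζ n)⟫_ℂ‖ ≤ ‖ζ n‖ * ‖amp b (ζ n)‖ := norm_inner_le_norm _ _
      _ = ‖amp b (ζ n)‖ := by rw [h1, one_mul]
      _ ≤ ‖amp b‖ * ‖ζ n‖ := (amp b).le_opNorm _
      _ = ‖amp b‖ := by rw [h1, mul_one]
      _ ≤ ‖b‖ := norm_amp_le b
  choose L hL using hb
  refine ⟨{ toFun := L, map_add' := ?_, map_smul' := ?_ }, hL⟩
  · intro x y
    refine tendsto_nhds_unique (hL (x + y)) ?_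
    refine ((hL x).add (hL y)).congr fun n => ?_
    rw [amp_add, add_apply, inner_add_right]
  · intro c x
    refine tendsto_nhds_unique (hL (c • x)) ?_
    refine ((hL x).const_mul c).congr fun n => ?_
    rw [amp_smul, smul_apply, inner_smul_right]

/-- The limit of almost traces. -/
theorem exists_lim (hF : Factor 𝔓) {e : K →L[ℂ] K} (he : Pr 𝔓 e) (hf : Fte 𝔓 e)
    (hn : NoMin 𝔓 e) (h : ∀ a : ℝ, 1 < a → ∃ ζ : HH K, ATr 𝔓 e a ζ) :
    ∃ ζ : HH K, ATr 𝔓 e 1 ζ := by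
  have hpos : ∀ n : ℕ, (0 : ℝ) < 1 / ((n : ℝ) + 1) := fun n => by positivity
  have hle1 : ∀ n : ℕ, 1 / ((n : ℝ) + 1) ≤ 1 := by
    intro n
    rw [div_le_one (by positivity)]
    have : (0 : ℝ) ≤ n := Nat.cast_nonneg n
    linarith
  have hex : ∀ n : ℕ, ∃ ζ : HH K, ATr 𝔓 e (1 + 1 / ((n : ℝ) + 1)) ζ := fun n =>
    h _ (by have := hpos n; linarith)
  choose ζ hζ using hex
  obtain ⟨ζ', hζ'⟩ := h 2 (by norm_num)
  set U : Ultrafilter ℕ := hyperfilter ℕ with hU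
  obtain ⟨L, hL⟩ := Lim_functional U ζ fun n => (hζ n).norm_ζ
  have hLsq : ∀ b : K →L[ℂ] K,
      Tendsto (fun n => ((‖amp b (ζ n)‖ ^ 2 : ℝ) : ℂ)) U (𝓝 (L (star b * b))) := by
    intro b
    refine (hL (star b * b)).congr fun n => ?_
    exact Lim_inner_star b (ζ n)
  have hLre : ∀ b : K →L[ℂ] K,
      Tendsto (fun n => ‖amp b (ζ n)‖ ^ 2) U (𝓝 (L (star b * b)).re) := by
    intro b
    refine ((Complex.continuous_re.tendsto _).comp (hLsq b)).congr fun n => ?_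
    exact Complex.ofReal_re _
  have hLim : ∀ b : K →L[ℂ] K, (L (star b * b)).im = 0 := by
    intro b
    refine tendsto_nhds_unique ((Complex.continuous_im.tendsto _).comp (hLsq b)) ?_
    refine tendsto_const_nhds.congr fun n => ?_
    exact (Complex.ofReal_im _).symm
  let E : (HH K →L[ℂ] HH K) →ₗ[ℂ] (K →L[ℂ] K) :=
    { toFun := fun y => ent 0 0 y
      map_add' := fun x y => ContinuousLinearMap.ext fun v => by
        rw [ent_apply, add_apply, add_apply, map_add, ent_apply, ent_apply]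
      map_smul' := fun c x => ContinuousLinearMap.ext fun v => by
        rw [ent_apply, smul_apply, RingHom.id_apply, smul_apply, map_smul, ent_apply] }
  have hE : ∀ b : K →L[ℂ] K, E (amp b) = b := by
    intro b
    refine ContinuousLinearMap.ext fun v => ?_
    change ent 0 0 (amp b) v = b v
    rw [ent_apply, pr_amp, pr_inc_same]
  let τ : (Ampl (Com 𝔓)) →ₗ[ℂ] ℂ := (L.comp E).comp (Ampl (Com 𝔓)).toSubmodule.subtype
  have hτ : ∀ (b : K →L[ℂ] K) (hb : amp b ∈ Ampl (Com 𝔓)), τ ⟨amp b, hb⟩ = L b := by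
    intro b hb
    change L (E (amp b)) = L b
    rw [hE]
  have hmem : ∀ b ∈ Com 𝔓, amp b ∈ Ampl (Com 𝔓) := fun b hb => mem_Ampl.2 ⟨b, hb, rfl⟩
  have hform : ∀ x : Ampl (Com 𝔓), ∃ b ∈ Com 𝔓, amp b = (x : HH K →L[ℂ] HH K) ∧
      τ (star x * x) = L (star b * b) := by
    rintro ⟨x, hx⟩
    obtain ⟨b, hb, rfl⟩ := mem_Ampl.1 hx
    refine ⟨b, hb, rfl, ?_⟩
    change L (E (star (amp b) * amp b)) = L (star b * b)
    rw [← amp_star, ← amp_mul, hE]
  have hpos' : ∀ x : Ampl (Com 𝔓), 0 ≤ (τ (star x * x)).re ∧ (τ (star x * x)).im = 0 := by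
    intro x
    obtain ⟨b, hb, hbx, hL'⟩ := hform x
    rw [hL']
    exact ⟨ge_of_tendsto' (hLre b) fun n => by positivity, hLim b⟩
  have hle' : ∀ x : Ampl (Com 𝔓),
      (τ (star x * x)).re ≤ 16 * ‖(x : HH K →L[ℂ] HH K) ζ'‖ ^ 2 := by
    intro x
    obtain ⟨b, hb, hbx, hL'⟩ := hform x
    rw [hL', ← hbx]
    refine le_of_tendsto' (hLre b) fun n => ?_
    have h1 : b * e ∈ Com 𝔓 := mul_mem hb he.mem
    have h2 : b * e * e = b * e := by rw [mul_assoc, he.idem]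
    have h3 := ATr.le hF he hf hn (by have := hpos n; linarith) (by norm_num) (hζ n) hζ' h1 h2
    have h4 : ∀ v : HH K, amp e v = v → amp (b * e) v = amp b v := by
      intro v hv
      rw [amp_mul, mul_apply_eq_comp, hv]
    rw [h4 _ (hζ n).e_ζ, h4 _ hζ'.e_ζ] at h3
    have h5 : (1 + 1 / ((n : ℝ) + 1)) ^ 2 * 2 ^ 2 ≤ 16 := by
      have h6 := hpos n
      have h7 := hle1 n
      nlinarith
    exact h3.trans (mul_le_mul_of_nonneg_right h5 (by positivity))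
  obtain ⟨ζ₀, hζ₀⟩ := exists_vec (Ampl (Com 𝔓)) ζ' τ hpos' hle'
  have hL0 : ∀ b ∈ Com 𝔓, L b = ⟪ζ₀, amp b ζ₀⟫_ℂ := by
    intro b hb
    rw [← hτ b (hmem b hb)]
    exact hζ₀ ⟨amp b, hmem b hb⟩
  have hT : ∀ b ∈ Com 𝔓, Tendsto (fun n => ‖amp b (ζ n)‖ ^ 2) U (𝓝 (‖amp b ζ₀‖ ^ 2)) := by
    intro b hb
    have h1 := hLre b
    rw [hL0 _ (mul_mem (star_mem hb) hb), Lim_inner_star, Complex.ofReal_re] at h1
    exact h1
  refine ⟨ζ₀, ⟨?_, ?_, ?_⟩⟩
  · have h1 := hT 1 (one_mem _)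
    have h2 : ∀ n, ‖amp (1 : K →L[ℂ] K) (ζ n)‖ ^ 2 = 1 := by
      intro n
      rw [amp_one, one_apply_eq_self, (hζ n).norm_ζ, one_pow]
    have h3 : ‖amp (1 : K →L[ℂ] K) ζ₀‖ ^ 2 = 1 := by
      refine tendsto_nhds_unique h1 ?_
      exact tendsto_const_nhds.congr fun n => (h2 n).symm
    rw [amp_one, one_apply_eq_self] at h3
    exact (pow_eq_one_iff_of_nonneg (norm_nonneg _) two_ne_zero).1 h3
  · have h1 := hT (1 - e) (sub_mem (one_mem _) he.mem)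
    have h2 : ∀ v : HH K, amp (1 - e) v = v - amp e v := by
      intro v
      rw [amp_sub, amp_one, sub_apply, one_apply_eq_self]
    have h3 : ‖amp (1 - e) ζ₀‖ ^ 2 = 0 := by
      refine tendsto_nhds_unique h1 ?_
      refine tendsto_const_nhds.congr fun n => ?_
      rw [h2, (hζ n).e_ζ, sub_self, norm_zero]
      norm_num
    have h4 : amp (1 - e) ζ₀ = 0 := norm_eq_zero.1 (by simpa using h3)
    rw [h2, sub_eq_zero] at h4
    exact h4.symm
  · intro x hx hx1 hx2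
    have h1 : Tendsto (fun n : ℕ => 1 + 1 / ((n : ℝ) + 1)) U (𝓝 (1 + 0)) :=
      tendsto_const_nhds.add
        (tendsto_one_div_add_atTop_nhds_zero_nat.mono_left Nat.hyperfilter_le_atTop)
    rw [add_zero] at h1
    have h2 := h1.mul (hT (star x) (star_mem hx))
    exact le_of_tendsto_of_tendsto' (hT x hx) h2 fun n => (hζ n).tr x hx hx1 hx2

/-- Every finite projection of a factor with a separating vector carries a normal trace. -/
theorem exists_trace (hF : Factor 𝔓) {e : K →L[ℂ] K} (he : Pr 𝔓 e) (hf : Fte 𝔓 e) (he0 : e ≠ 0)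
    {η : K} (hη : ∀ y ∈ Com 𝔓, y η = 0 → y = 0) :
    ∃ ζ : HH K, ‖ζ‖ = 1 ∧ amp e ζ = ζ ∧ ∀ x ∈ Com 𝔓, e * x = x → x * e = x →
      ∀ y ∈ Com 𝔓, e * y = y → y * e = y → ⟪ζ, amp (x * y) ζ⟫_ℂ = ⟪ζ, amp (y * x) ζ⟫_ℂ := by
  obtain ⟨ζ, hζ⟩ : ∃ ζ : HH K, ATr 𝔓 e 1 ζ := by
    by_cases hn : NoMin 𝔓 e
    · exact exists_lim hF he hf hn fun a ha => exists_atr hF he hf hn he0 hη ha
    · exact exists_trace_min hF he hf hn
  refine ⟨ζ, hζ.norm_ζ, hζ.e_ζ, ?_⟩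
  have hst : ∀ x ∈ Com 𝔓, e * x = x → x * e = x →
      star x ∈ Com 𝔓 ∧ e * star x = star x ∧ star x * e = star x := by
    intro x hx h1 h2
    refine ⟨star_mem hx, ?_, ?_⟩
    · have h3 := congrArg star h2
      rw [star_mul, he.sa] at h3
      exact h3
    · have h3 := congrArg star h1
      rw [star_mul, he.sa] at h3
      exact h3
  have hnorm : ∀ x ∈ Com 𝔓, e * x = x → x * e = x → ‖amp x ζ‖ = ‖amp (star x) ζ‖ := by
    intro x hx h1 h2
    obtain ⟨h3, h4, h5⟩ := hst x hx h1 h2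
    have h6 := hζ.tr x hx h1 h2
    have h7 := hζ.tr (star x) h3 h4 h5
    rw [star_star] at h7
    rw [one_mul] at h6 h7
    exact le_antisymm ((pow_le_pow_iff_left₀ (norm_nonneg _) (norm_nonneg _) two_ne_zero).1 h6)
      ((pow_le_pow_iff_left₀ (norm_nonneg _) (norm_nonneg _) two_ne_zero).1 h7)
  intro x hx hx1 hx2 y hy hy1 hy2
  obtain ⟨hu, hu1, hu2⟩ := hst x hx hx1 hx2
  obtain ⟨hv, hv1, hv2⟩ := hst y hy hy1 hy2
  have key : ∀ c : ℂ, ‖amp (star x) ζ + c • amp y ζ‖ =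
      ‖amp x ζ + (starRingEnd ℂ c) • amp (star y) ζ‖ := by
    intro c
    have h1 : star x + c • y ∈ Com 𝔓 := add_mem hu ((Com 𝔓).smul_mem hy c)
    have h2 := hnorm (star x + c • y) h1 (by rw [mul_add, hu1, mul_smul_comm, hy1])
      (by rw [add_mul, hu2, smul_mul_assoc, hy2])
    rw [star_add, star_star, star_smul, amp_add, amp_smul, amp_add, amp_smul, add_apply, add_apply,
      smul_apply, smul_apply] at h2
    exact h2
  have hI : ∀ f h : HH K, ‖f - Complex.I • h‖ = ‖h + Complex.I • f‖ := by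
    intro f h
    have : f - Complex.I • h = (-Complex.I) • (h + Complex.I • f) := by
      rw [smul_add, smul_smul]
      simp [sub_eq_add_neg, add_comm]
    rw [this, norm_smul]
    simp
  have hI' : ∀ f h : HH K, ‖f + Complex.I • h‖ = ‖h - Complex.I • f‖ := fun f h => (hI h f).symm
  have e1 : ‖amp (star x) ζ + amp y ζ‖ = ‖amp (star y) ζ + amp x ζ‖ := by
    have h := key 1
    rw [map_one, one_smul, one_smul] at h
    rw [h, add_comm]
  have e2 : ‖amp (star x) ζ - amp y ζ‖ = ‖amp (star y) ζ - amp x ζ‖ := by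
    have h := key (-1)
    rw [map_neg, map_one, neg_smul, one_smul, neg_smul, one_smul, ← sub_eq_add_neg,
      ← sub_eq_add_neg] at h
    rw [h, norm_sub_rev]
  have e3 : ‖amp (star x) ζ + Complex.I • amp y ζ‖ = ‖amp (star y) ζ + Complex.I • amp x ζ‖ := by
    have h := key Complex.I
    rw [Complex.conj_I, neg_smul, ← sub_eq_add_neg] at h
    rw [h, hI]
  have e4 : ‖amp (star x) ζ - Complex.I • amp y ζ‖ = ‖amp (star y) ζ - Complex.I • amp x ζ‖ := by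
    have h := key (-Complex.I)
    rw [map_neg, Complex.conj_I, neg_neg, neg_smul, ← sub_eq_add_neg] at h
    rw [h, hI']
  have hx' : ⟪ζ, amp (x * y) ζ⟫_ℂ = ⟪amp (star x) ζ, amp y ζ⟫_ℂ := by
    rw [amp_mul, mul_apply_eq_comp, amp_star, star_eq_adjoint, adjoint_inner_left]
  have hy' : ⟪ζ, amp (y * x) ζ⟫_ℂ = ⟪amp (star y) ζ, amp x ζ⟫_ℂ := by
    rw [amp_mul, mul_apply_eq_comp, amp_star, star_eq_adjoint, adjoint_inner_left]
  rw [hx', hy', inner_eq_sum_norm_sq_div_four (𝕜 := ℂ) (amp (star x) ζ),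
    inner_eq_sum_norm_sq_div_four (𝕜 := ℂ) (amp (star y) ζ)]
  rw [RCLike.I_to_complex, e1, e2, e3, e4]

end Pool.Agent.MP_86f3ed.Fac
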