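import Pool.Agent.H.MP_86f3ed_an.Fac.Base

open scoped InnerProductSpace Topology
open Filter ContinuousLinearMap

namespace Pool.Agent.MP_86f3ed.Fac

open Pin Sf

variable {K : Type*} [NormedAddCommGroup K] [InnerProductSpace ℂ K] [CompleteSpace K]

theorem TrCom_left (x : K →L[ℂ] K) (a b : K) : ⟪(star x) a, b⟫_ℂ = ⟪a, x b⟫_ℂ := by
  rw [star_eq_adjoint, adjoint_inner_left]

theorem TrCom_right (x : K →L[ℂ] K) (a b : K) : ⟪x a, b⟫_ℂ = ⟪a, (star x) b⟫_ℂ := by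
  rw [star_eq_adjoint, adjoint_inner_right]

theorem TrCom_norm {x : K →L[ℂ] K} {ζ : K} (h : ⟪ζ, x ((star x) ζ)⟫_ℂ = ⟪ζ, (star x) (x ζ)⟫_ℂ) :
    ‖(star x) ζ‖ = ‖x ζ‖ := by
  have h1 : ⟪(star x) ζ, (star x) ζ⟫_ℂ = ⟪x ζ, x ζ⟫_ℂ := by
    rw [TrCom_left, h, TrCom_right]
  have h2 : ‖(star x) ζ‖ ^ 2 = ‖x ζ‖ ^ 2 := by
    rw [inner_self_eq_norm_sq_to_K, inner_self_eq_norm_sq_to_K] at h1
    exact_mod_cast h1
  exact (sq_eq_sq₀ (norm_nonneg _) (norm_nonneg _)).mp h2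

/-- If the cyclic vector `ζ = e ζ` is a trace on the corner `e M e` of the bicommutant `M` then it
is a trace on the commutant. -/
theorem trace_commutant (𝔅 : StarSubalgebra ℂ (K →L[ℂ] K)) {e : K →L[ℂ] K}
    (he : e ∈ Com (Com 𝔅)) (hes : star e = e) (hee : e * e = e) {ζ : K} (heζ : e ζ = ζ)
    (hcyc : Dense {x | ∃ m ∈ Com (Com 𝔅), x = m ζ})
    (htr : ∀ x ∈ Com (Com 𝔅), e * x = x → x * e = x → ∀ y ∈ Com (Com 𝔅), e * y = y →
      y * e = y → ⟪ζ, x (y ζ)⟫_ℂ = ⟪ζ, y (x ζ)⟫_ℂ) :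
    ∀ y ∈ Com 𝔅, ∀ z ∈ Com 𝔅, ⟪ζ, y (z ζ)⟫_ℂ = ⟪ζ, z (y ζ)⟫_ℂ := by
  have hcom : ∀ y ∈ Com 𝔅, ∀ m ∈ Com (Com 𝔅), ∀ a : K, y (m a) = m (y a) := by
    intro y hy m hm a
    have := mem_Com.mp hm y hy
    exact congrArg (fun T : K →L[ℂ] K => T a) this
  -- properties of the corner
  have hst : ∀ x : K →L[ℂ] K, e * x = x → star x * e = star x := by
    intro x hx
    have := congrArg star hx
    rwa [star_mul, hes] at this
  have hst' : ∀ x : K →L[ℂ] K, x * e = x → e * star x = star x := by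
    intro x hx
    have := congrArg star hx
    rwa [star_mul, hes] at this
  -- approximation
  have happ : ∀ y ∈ Com 𝔅, ∃ x : ℕ → K →L[ℂ] K, (∀ n, x n ∈ Com (Com 𝔅)) ∧
      (∀ n, e * x n = x n) ∧ (∀ n, x n * e = x n) ∧
      Tendsto (fun n => x n ζ) atTop (𝓝 (y ζ)) ∧
      Tendsto (fun n => (star (x n)) ζ) atTop (𝓝 ((star y) ζ)) := by
    intro y hy
    have hy' : star y ∈ Com 𝔅 := star_mem hy
    obtain ⟨u, hu, hlim⟩ := mem_closure_iff_seq_limit.mp (hcyc (y ζ))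
    choose m hm hum using hu
    set x : ℕ → K →L[ℂ] K := fun n => e * m n * e with hx
    have hxM : ∀ n, x n ∈ Com (Com 𝔅) := fun n => mul_mem (mul_mem he (hm n)) he
    have hex : ∀ n, e * x n = x n := fun n => by
      show e * (e * m n * e) = e * m n * e
      rw [← mul_assoc, ← mul_assoc, hee]
    have hxe : ∀ n, x n * e = x n := fun n => by
      show e * m n * e * e = e * m n * e
      rw [mul_assoc, hee]
    have hlim1 : Tendsto (fun n => x n ζ) atTop (𝓝 (y ζ)) := by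
      have h1 : Tendsto (fun n => e (u n)) atTop (𝓝 (e (y ζ))) :=
        (e.continuous.tendsto _).comp hlim
      have h2 : e (y ζ) = y ζ := by rw [← hcom y hy e he, heζ]
      rw [h2] at h1
      refine h1.congr fun n => ?_
      show e (u n) = e (m n (e ζ))
      rw [heζ, hum n]
    have hdiff : ∀ n k, ‖(star (x n)) ζ - (star (x k)) ζ‖ = ‖x n ζ - x k ζ‖ := by
      intro n k
      have h1 : e * (x n - x k) = x n - x k := by rw [mul_sub, hex, hex]
      have h2 : (x n - x k) * e = x n - x k := by rw [sub_mul, hxe, hxe]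
      have h3 := TrCom_norm (htr (x n - x k) (sub_mem (hxM n) (hxM k)) h1 h2
        (star (x n - x k)) (star_mem (sub_mem (hxM n) (hxM k))) (hst' _ h2) (hst _ h1))
      rw [star_sub, sub_apply, sub_apply] at h3
      exact h3
    have hcau : CauchySeq (fun n => (star (x n)) ζ) := by
      have h1 := hlim1.cauchySeq
      rw [Metric.cauchySeq_iff] at h1 ⊢
      intro ε hε
      obtain ⟨N, hN⟩ := h1 ε hε
      refine ⟨N, fun n hn k hk => ?_⟩
      have h2 := hN n hn k hk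
      rw [dist_eq_norm] at h2 ⊢
      rw [hdiff]
      exact h2
    obtain ⟨v, hv⟩ := cauchySeq_tendsto_of_complete hcau
    have hev : e v = v := by
      have h1 : Tendsto (fun n => e ((star (x n)) ζ)) atTop (𝓝 (e v)) :=
        (e.continuous.tendsto _).comp hv
      refine tendsto_nhds_unique h1 (hv.congr fun n => ?_)
      have h2 := congrArg (fun T : K →L[ℂ] K => T ζ) (hst' _ (hxe n))
      exact h2.symm
    have hey : e ((star y) ζ) = (star y) ζ := by rw [← hcom _ hy' e he, heζ]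
    have hin : ∀ w ∈ Com (Com 𝔅), e * w = w → w * e = w →
        ⟪v, w ζ⟫_ℂ = ⟪(star y) ζ, w ζ⟫_ℂ := by
      intro w hw hw1 hw2
      have h1 : Tendsto (fun n => ⟪(star (x n)) ζ, w ζ⟫_ℂ) atTop (𝓝 ⟪v, w ζ⟫_ℂ) :=
        hv.inner tendsto_const_nhds
      have h2 : Tendsto (fun n => ⟪(star w) ζ, x n ζ⟫_ℂ) atTop (𝓝 ⟪(star w) ζ, y ζ⟫_ℂ) :=
        tendsto_const_nhds.inner hlim1
      have h3 : ∀ n, ⟪(star (x n)) ζ, w ζ⟫_ℂ = ⟪(star w) ζ, x n ζ⟫_ℂ := by
        intro n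
        rw [TrCom_left, TrCom_left]
        exact htr _ (hxM n) (hex n) (hxe n) w hw hw1 hw2
      have h4 := tendsto_nhds_unique (h1.congr h3) h2
      rw [h4, TrCom_left, TrCom_left, hcom y hy w hw]
    have hzero : v - (star y) ζ = 0 := by
      refine hcyc.eq_zero_of_inner_left (𝕜 := ℂ) ?_
      rintro _ ⟨m, hm, rfl⟩
      have h1 : e (v - (star y) ζ) = v - (star y) ζ := by rw [map_sub, hev, hey]
      have h2 := hin (e * m * e) (mul_mem (mul_mem he hm) he)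
        (by rw [← mul_assoc, ← mul_assoc, hee]) (by rw [mul_assoc, hee])
      have h3 : (e * m * e) ζ = e (m ζ) := by
        show e (m (e ζ)) = e (m ζ)
        rw [heζ]
      rw [h3] at h2
      calc ⟪v - (star y) ζ, m ζ⟫_ℂ = ⟪e (v - (star y) ζ), m ζ⟫_ℂ := by rw [h1]
        _ = ⟪v - (star y) ζ, e (m ζ)⟫_ℂ := by rw [TrCom_right, hes]
        _ = 0 := by rw [inner_sub_left, h2, sub_self]
    have hv' : v = (star y) ζ := sub_eq_zero.mp hzero
    exact ⟨x, hxM, hex, hxe, hlim1, hv' ▸ hv⟩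
  intro z hz y hy
  obtain ⟨x, hxM, hex, hxe, h1, h2⟩ := happ y hy
  have hz' : star z ∈ Com 𝔅 := star_mem hz
  have h3 : Tendsto (fun n => ⟪(star z) ζ, x n ζ⟫_ℂ) atTop (𝓝 ⟪(star z) ζ, y ζ⟫_ℂ) :=
    tendsto_const_nhds.inner h1
  have h4 : Tendsto (fun n => ⟪(star z) ((star (x n)) ζ), ζ⟫_ℂ) atTop
      (𝓝 ⟪(star z) ((star y) ζ), ζ⟫_ℂ) :=
    (((star z).continuous.tendsto _).comp h2).inner tendsto_const_nhds
  have h5 : ∀ n, ⟪(star z) ζ, x n ζ⟫_ℂ = ⟪(star z) ((star (x n)) ζ), ζ⟫_ℂ := by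
    intro n
    rw [hcom _ hz' _ (star_mem (hxM n))]
    exact (TrCom_left (x n) ((star z) ζ) ζ).symm
  have h6 := tendsto_nhds_unique (h3.congr h5) h4
  rw [TrCom_left, TrCom_left, TrCom_left] at h6
  exact h6

/-- A separating vector for all amplified operators. -/
theorem exists_sep [TopologicalSpace.SeparableSpace K] [Nontrivial K] :
    ∃ η : HH K, ‖η‖ = 1 ∧ ∀ m : K →L[ℂ] K, amp m η = 0 → m = 0 := by
  set d : ℕ → K := TopologicalSpace.denseSeq K with hd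
  have hdense : DenseRange d := TopologicalSpace.denseRange_denseSeq K
  set c : ℕ → ℝ := fun k => (1 / 2) ^ k / (1 + ‖d k‖) with hc
  have hc0 : ∀ k, 0 < c k := fun k => by positivity
  have hcd : ∀ k, ‖((c k : ℝ) : ℂ) • d k‖ ≤ (1 / 2) ^ k := by
    intro k
    rw [norm_smul, Complex.norm_real, Real.norm_eq_abs, abs_of_pos (hc0 k)]
    show (1 / 2) ^ k / (1 + ‖d k‖) * ‖d k‖ ≤ (1 / 2) ^ k
    rw [div_mul_eq_mul_div, div_le_iff₀ (by positivity)]
    have : (0 : ℝ) ≤ (1 / 2) ^ k := by positivity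
    nlinarith [norm_nonneg (d k)]
  have hmem : Memℓp (fun k => ((c k : ℝ) : ℂ) • d k) 2 := by
    refine memℓp_gen' (C := 2) fun s => ?_
    have h1 : ∀ k ∈ s, ‖((c k : ℝ) : ℂ) • d k‖ ^ (2 : ENNReal).toReal ≤ (1 / 2) ^ k := by
      intro k _
      rw [ENNReal.toReal_ofNat, Real.rpow_ofNat]
      have h2 := hcd k
      have h3 : ((1 : ℝ) / 2) ^ k ≤ 1 := pow_le_one₀ (by norm_num) (by norm_num)
      nlinarith [norm_nonneg (((c k : ℝ) : ℂ) • d k)]
    refine (Finset.sum_le_sum h1).trans ?_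
    exact sum_le_hasSum s (fun k _ => by positivity) hasSum_geometric_two
  set η' : HH K := ⟨fun k => ((c k : ℝ) : ℂ) • d k, hmem⟩ with hη'
  have hpr : ∀ k, pr k η' = ((c k : ℝ) : ℂ) • d k := fun k => rfl
  have hsep : ∀ m : K →L[ℂ] K, amp m η' = 0 → m = 0 := by
    intro m hm
    have h1 : ∀ k, m (d k) = 0 := by
      intro k
      have h2 := congrArg (pr k) hm
      rw [pr_amp, hpr, map_smul, map_zero] at h2
      rcases smul_eq_zero.mp h2 with h3 | h3
      · exact absurd (Complex.ofReal_eq_zero.mp h3) (hc0 k).ne'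
      · exact h3
    have h2 := hdense.equalizer m.continuous (continuous_const (y := (0 : K))) (funext h1)
    exact ContinuousLinearMap.ext fun x => congrFun h2 x
  have hne : η' ≠ 0 := by
    intro h0
    have h1 : (1 : K →L[ℂ] K) = 0 := hsep 1 (by rw [amp_one, h0, map_zero])
    obtain ⟨x, hx⟩ := exists_ne (0 : K)
    exact hx (congrArg (fun T : K →L[ℂ] K => T x) h1)
  have hn : ‖η'‖ ≠ 0 := norm_ne_zero_iff.mpr hne
  refine ⟨((‖η'‖⁻¹ : ℝ) : ℂ) • η', ?_, fun m hm => ?_⟩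
  · rw [norm_smul, Complex.norm_real, Real.norm_eq_abs, abs_of_nonneg (by positivity),
      inv_mul_cancel₀ hn]
  · refine hsep m ?_
    rw [map_smul] at hm
    rcases smul_eq_zero.mp hm with h3 | h3
    · exact absurd (Complex.ofReal_eq_zero.mp h3) (inv_ne_zero hn)
    · exact h3

end Pool.Agent.MP_86f3ed.Fac
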