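import Pool.Agent.H.MP_86f3ed_an.Fac.Nd
import Pool.Agent.H.MP_86f3ed_an.Fac.Lim
import Pool.Agent.H.MP_86f3ed_an.Fac.TrCom
import Pool.Agent.H.MP_86f3ed_an.Sf.Full2

/-!
# Fac/CaseFin: factor representations with a finite projection
-/

open scoped InnerProductSpace Topology
open Filter ContinuousLinearMap

namespace Pool.Agent.MP_86f3ed.Fac

open Pin Sf

universe u v

variable {K : Type v} [NormedAddCommGroup K] [InnerProductSpace ℂ K] [CompleteSpace K]
  {A : Type u} [NonUnitalCStarAlgebra A]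

/-- The compression of a product of elements of the bicommutant. -/
theorem Sub.cmp_mul {ρ : A →⋆ₙₐ[ℂ] (K →L[ℂ] K)} {W : Submodule ℂ K} [CompleteSpace W]
    {σ : A →⋆ₙₐ[ℂ] (W →L[ℂ] W)} (h : Sub ρ W σ) {m m' : K →L[ℂ] K}
    (hm : m ∈ Com (Com (rangeAlg ρ))) (hm' : m' ∈ Com (Com (rangeAlg ρ))) :
    cmp W (m * m') = cmp W m * cmp W m' := by
  ext w
  rw [h.bic_coe (mul_mem hm hm')]
  show m (m' w) = ((cmp W m (cmp W m' w) : W) : K)
  rw [h.bic_coe hm, h.bic_coe hm']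

theorem cmp_star {W : Submodule ℂ K} [CompleteSpace W] (m : K →L[ℂ] K) :
    cmp W (star m) = star (cmp W m) := by
  rw [star_eq_adjoint (cmp W m)]
  refine (ContinuousLinearMap.eq_adjoint_iff _ _).mpr fun x y => ?_
  rw [Submodule.coe_inner, Submodule.coe_inner, Ind_cmp_coe, Ind_cmp_coe]
  have h1 : ⟪W.starProjection ((star m) (x : K)), (y : K)⟫_ℂ =
      ⟪(star m) (x : K), W.starProjection (y : K)⟫_ℂ := W.inner_starProjection_left_eq_right _ _
  have h2 : ⟪W.starProjection (x : K), m (y : K)⟫_ℂ = ⟪(x : K), W.starProjection (m (y : K))⟫_ℂ :=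
    W.inner_starProjection_left_eq_right _ _
  rw [h1, ← h2, Submodule.starProjection_eq_self_iff.mpr y.2,
    Submodule.starProjection_eq_self_iff.mpr x.2, star_eq_adjoint, adjoint_inner_left]

theorem case_fin [TopologicalSpace.SeparableSpace K] (hA : ApproximatelyAmenable.{u, v} A)
    (π : A →⋆ₙₐ[ℂ] (K →L[ℂ] K)) (hfac : Factor (rangeAlg π)) (hπ : ∃ a, π a ≠ 0)
    {e : HH K →L[ℂ] HH K} (he : Pr (Com (Ampl (rangeAlg π))) e)
    (hf : Fte (Com (Ampl (rangeAlg π))) e) (he0 : e ≠ 0) :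
    IsInjective (Com (rangeAlg π) : Set (K →L[ℂ] K)) := by
  haveI : TopologicalSpace.SeparableSpace (HH K) := separable_HH
  haveI : TopologicalSpace.SeparableSpace (HH (HH K)) := separable_HH
  haveI : Nontrivial K := by
    obtain ⟨a, ha⟩ := hπ
    obtain ⟨y, hy⟩ : ∃ y, π a y ≠ 0 := by
      by_contra hcon
      push Not at hcon
      exact ha (ContinuousLinearMap.ext fun y => by rw [hcon y]; rfl)
    exact ⟨_, _, hy⟩
  obtain ⟨η₀, hη₁, hsep⟩ := exists_sep (K := K)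
  have hF : Factor (Com (Ampl (rangeAlg π))) := factor_com (factor_ampl hfac)
  obtain ⟨ζ, hζ1, heζ, htr⟩ := exists_trace hF he hf he0 (η := η₀) (by
    intro y hy h0
    obtain ⟨m, hm, rfl⟩ := mem_Com_Com_amp.mp hy
    rw [hsep m h0, amp_zero])
  have hnd : ∀ x : K, (∀ a, π a x = 0) → x = 0 := fun x hx => nondeg hfac hπ hx
  have hnd1 : ∀ x : HH K, (∀ a, ampRep π a x = 0) → x = 0 := fun x hx => nondeg_amp hnd hx
  have hnd2 : ∀ x : HH (HH K), (∀ a, ampRep (ampRep π) a x = 0) → x = 0 :=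
    fun x hx => nondeg_amp hnd1 hx
  obtain ⟨W, hWc, σ, η, S, hη, hcyc⟩ := exists_cyclic_sub (ampRep (ampRep π)) hnd2 ζ
  have e1 : Ampl (rangeAlg π) = rangeAlg (ampRep π) := Ampl_rangeAlg π
  have e2 : Ampl (Ampl (rangeAlg π)) = rangeAlg (ampRep (ampRep π)) := by
    rw [e1, Ampl_rangeAlg]
  have hF2 : Factor (Com (rangeAlg (ampRep (ampRep π)))) := by
    rw [← e2]
    exact factor_com (factor_ampl (factor_ampl hfac))
  have hη1 : ‖η‖ = 1 := by
    rw [← Submodule.norm_coe, hη, hζ1]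
  have hW : W ≠ ⊥ := by
    intro h0
    have h1 : (η : HH (HH K)) ∈ (⊥ : Submodule ℂ (HH (HH K))) := h0 ▸ η.2
    rw [Submodule.mem_bot, hη] at h1
    rw [h1, norm_zero] at hζ1
    exact zero_ne_one hζ1
  obtain ⟨F, hF1, hFa⟩ := S.exists_cover hF2 hW
  have hfσ : Factor (rangeAlg σ) := S.factor hF2
  -- elements of the bicommutant of the amplification
  have hmem : ∀ x ∈ Com (Com (Ampl (rangeAlg π))), Sf.amp x ∈ Com (Com (rangeAlg (ampRep (ampRep π)))) := by
    intro x hx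
    rw [← e2]
    exact mem_Com_Com_amp.mpr ⟨x, hx, rfl⟩
  have hee := he.mem
  have hE := hmem e hee
  set eW : W →L[ℂ] W := cmp W (Sf.amp e) with heW
  have heWm : eW ∈ Com (Com (rangeAlg σ)) := S.cmp_bic hE
  have heWs : star eW = eW := by rw [heW, ← cmp_star, ← amp_star, he.sa]
  have heWi : eW * eW = eW := by rw [heW, ← S.cmp_mul hE hE, ← amp_mul, he.idem]
  have heWη : eW η = η := by
    apply Subtype.ext
    rw [S.bic_coe hE, hη, heζ]
  have hcycM : Dense {x | ∃ m ∈ Com (Com (rangeAlg σ)), x = m η} := by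
    refine Dense.mono ?_ hcyc
    rintro _ ⟨a, rfl⟩
    refine ⟨σ a, ?_, rfl⟩
    rw [mem_Com]
    intro y hy
    exact (mem_Com.mp hy (σ a) (mem_rangeAlg.mpr ⟨0, a, by simp⟩)).symm
  have hlift : ∀ x ∈ Com (Com (rangeAlg σ)), eW * x = x → x * eW = x →
      ∃ x' ∈ Com (Com (Ampl (rangeAlg π))), e * x' = x' ∧ x' * e = x' ∧ x = cmp W (Sf.amp x') := by
    intro x hx h1 h2
    obtain ⟨m, hm, hmx⟩ := S.exists_bic F hF1 hFa hx
    have hm' := hm
    rw [← e2] at hm'
    obtain ⟨m', hm'', rfl⟩ := mem_Com_Com_amp.mp hm'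
    refine ⟨e * m' * e, mul_mem (mul_mem hee hm'') hee, ?_, ?_, ?_⟩
    · rw [← mul_assoc, ← mul_assoc, he.idem]
    · rw [mul_assoc, he.idem]
    · rw [amp_mul, amp_mul, S.cmp_mul (mul_mem hE hm) hE, S.cmp_mul hE hm, hmx, ← heW, h1, h2]
  have htrM : ∀ x ∈ Com (Com (rangeAlg σ)), eW * x = x → x * eW = x →
      ∀ y ∈ Com (Com (rangeAlg σ)), eW * y = y → y * eW = y →
      ⟪η, x (y η)⟫_ℂ = ⟪η, y (x η)⟫_ℂ := by
    intro x hx h1 h2 y hy h3 h4
    obtain ⟨x', hx', hx1, hx2, rfl⟩ := hlift x hx h1 h2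
    obtain ⟨y', hy', hy1, hy2, rfl⟩ := hlift y hy h3 h4
    have h5 := htr x' hx' hx1 hx2 y' hy' hy1 hy2
    rw [amp_mul, amp_mul] at h5
    have h6 := S.bic_coe (hmem _ hx') (cmp W (Sf.amp y') η)
    have h7 := S.bic_coe (hmem _ hy') (cmp W (Sf.amp x') η)
    rw [Submodule.coe_inner, Submodule.coe_inner, h6, h7, S.bic_coe (hmem _ hx') η,
      S.bic_coe (hmem _ hy') η, hη]
    exact h5
  have htrN := trace_commutant (rangeAlg σ) heWm heWs heWi heWη hcycM htrM
  have hinj : IsInjective (Set.range σ).centralizer := by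
    refine injective_semifinite hA σ η hη1 hcyc ?_ ?_
    · intro x hx hx'
      rw [← Com_rangeAlg] at hx
      rw [← Com_Com_rangeAlg] at hx'
      exact hfσ x hx hx'
    · intro x hx y hy
      rw [← Com_rangeAlg] at hx hy
      exact htrN x hx y hy
  rw [← Com_rangeAlg] at hinj
  have h1 := inj_of_cover (ampRep (ampRep π)) σ F hF1 hFa hinj
  rw [← e2] at h1
  exact inj_down (inj_down h1)

end Pool.Agent.MP_86f3ed.Fac
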