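import Pool.Agent.H.MP_86f3ed_an.Fac.Base
import Pool.Agent.H.MP_86f3ed_an.Sf.Cplt

open scoped InnerProductSpace Topology
open Filter ContinuousLinearMap

namespace Pool.Agent.MP_86f3ed.Fac

open Pin Sf

variable {K : Type*} [NormedAddCommGroup K] [InnerProductSpace ℂ K] [CompleteSpace K]
  {𝔓 : StarSubalgebra ℂ (K →L[ℂ] K)}

private theorem Dich_pow {w p : K →L[ℂ] K} (hw : star w * w = p) (hpw : p * w = w) :
    ∀ (i : ℕ) (x : K →L[ℂ] K), p * x = x → p * (w ^ i * x) = w ^ i * x := by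
  intro i x hx
  cases i with
  | zero => rw [pow_zero, one_mul, hx]
  | succ n => rw [pow_succ', mul_assoc, ← mul_assoc p, hpw]

private theorem Dich_star_pow {w p : K →L[ℂ] K} (hw : star w * w = p) (hpw : p * w = w) :
    ∀ (i : ℕ) (x : K →L[ℂ] K), p * x = x → star (w ^ i) * (w ^ i * x) = x := by
  intro i
  induction i with
  | zero =>
    intro x hx
    rw [pow_zero, star_one, one_mul, one_mul]
  | succ n ih =>
    intro x hx
    have h1 : star (w ^ (n + 1)) * (w ^ (n + 1) * x) =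
        star (w ^ n) * (star w * w * (w ^ n * x)) := by
      rw [pow_succ', star_mul]
      simp only [mul_assoc]
    rw [h1, hw, Dich_pow hw hpw n x hx, ih x hx]

/-- A projection which is not finite contains a sequence of orthogonal copies of a nonzero
projection. -/
theorem exists_copies {p : K →L[ℂ] K} (hp : Pr 𝔓 p) (hf : ¬ Fte 𝔓 p) :
    ∃ (q : K →L[ℂ] K) (U : ℕ → K →L[ℂ] K), Pr 𝔓 q ∧ q ≠ 0 ∧ (∀ i, U i ∈ Com 𝔓) ∧
      (∀ i j, star (U i) * U j = if i = j then q else 0) ∧ ∀ i, p * U i = U i := by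
  unfold Fte at hf
  push Not at hf
  obtain ⟨w, hwm, hww, hpw, hne⟩ := hf
  obtain ⟨hwi, hwp⟩ := pi_of hp.idem hww
  have hwf : Pr 𝔓 (w * star w) := Pr.of_pi' hwm hwi
  have hle : p * (w * star w) = w * star w := by rw [← mul_assoc, hpw]
  have hq : Pr 𝔓 (p - w * star w) := Pr.sub hp hwf hle
  have hq0 : p - w * star w ≠ 0 := fun h => hne (sub_eq_zero.1 h).symm
  have hpq : p * (p - w * star w) = p - w * star w := by
    rw [mul_sub, hp.idem, hle]
  have hqw : (p - w * star w) * w = 0 := by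
    rw [sub_mul, hpw, hwi, sub_self]
  set q := p - w * star w with hqdef
  have hlt : ∀ i k : ℕ, star (w ^ i * q) * (w ^ (i + (k + 1)) * q) = 0 := by
    intro i k
    have h1 : p * (w ^ (k + 1) * q) = w ^ (k + 1) * q := Dich_pow hww hpw (k + 1) q hpq
    rw [star_mul, mul_assoc, pow_add, mul_assoc, Dich_star_pow hww hpw i _ h1, hq.sa, pow_succ',
      mul_assoc, ← mul_assoc, hqw, zero_mul]
  refine ⟨q, fun i => w ^ i * q, hq, hq0, fun i => mul_mem (pow_mem hwm i) hq.mem, ?_,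
    fun i => Dich_pow hww hpw i q hpq⟩
  intro i j
  show star (w ^ i * q) * (w ^ j * q) = if i = j then q else 0
  rcases lt_trichotomy i j with h | h | h
  · obtain ⟨k, rfl⟩ := Nat.exists_eq_add_of_lt h
    rw [if_neg (ne_of_lt h), add_assoc]
    exact hlt i k
  · subst h
    rw [if_pos rfl, star_mul, mul_assoc, Dich_star_pow hww hpw i q hpq, hq.sa, hq.idem]
  · obtain ⟨k, rfl⟩ := Nat.exists_eq_add_of_lt h
    rw [if_neg (ne_of_gt h), add_assoc]
    have h2 := congrArg star (hlt j k)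
    rwa [star_mul, star_star, star_zero] at h2

/-- A factor without nonzero finite projections on a separable space is purely infinite. -/
theorem purelyInfinite [TopologicalSpace.SeparableSpace K] (hF : Factor 𝔓)
    (h : ∀ e, Pr 𝔓 e → Fte 𝔓 e → e = 0) : PurelyInfinite (Com 𝔓 : Set (K →L[ℂ] K)) := by
  intro p hpm hps hpp hp0
  have hp : Pr 𝔓 p := ⟨hpm, hps, hpp⟩
  have hf : ¬ Fte 𝔓 p := fun hf => hp0 (h p hp hf)
  obtain ⟨q, U, hq, hq0, hU, hUU, hUr⟩ := exists_copies hp hf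
  obtain ⟨V, hV, hVV, hVp, hVo, hV1⟩ := exists_complete 𝔓 hF hq.mem hq.sa hq.idem hq0
  obtain ⟨a, ha, b, hb, h1, h2, h3, h4, h5⟩ := exists_iso 𝔓 hV hVV hVp hVo hV1 hU hUU hUr
  exact ⟨a, ha, b, hb, h1, h2, h3, h4, h5⟩

end Pool.Agent.MP_86f3ed.Fac
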