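import Pool.Agent.H.MP_86f3ed_an.Fac.CaseFin
import Pool.Agent.H.MP_86f3ed_an.Fac.Dich
import Pool.Agent.H.MP_86f3ed_an.Ty.EFin
import Pool.Agent.H.MP_86f3ed_an.Ty.TomG
import Pool.Agent.H.MP_86f3ed_an.Ty.TomPI

/-!
# Fac/CaseInf: factor representations without finite projections
-/

open scoped InnerProductSpace Topology
open Filter ContinuousLinearMap

namespace Pool.Agent.MP_86f3ed.Fac

open Pin Sf

universe u v

variable {K : Type v} [NormedAddCommGroup K] [InnerProductSpace ℂ K] [CompleteSpace K]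
  {A : Type u} [NonUnitalCStarAlgebra A]

/-- Nearly central elementary operators for the range of a representation. -/
theorem ncen (hA : ApproximatelyAmenable.{u, v} A) (π : A →⋆ₙₐ[ℂ] (K →L[ℂ] K)) :
    Ty.NCen (rangeAlg π) := by
  classical
  intro G hG ε hε
  have hex : ∀ g : G, ∃ (c : ℂ) (a : A), (g : K →L[ℂ] K) = c • 1 + π a := fun g =>
    mem_rangeAlg.mp (hG g g.2)
  choose c a hca using hex
  obtain ⟨n, x, y, hx, hy, h1, h2⟩ := exists_near_central (approxAmenable_of_public hA) π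
    (Finset.univ.image a) ε hε
  refine ⟨n, x, y, hx, hy, h1, fun g hg S => ?_⟩
  have h3 := h2 (a ⟨g, hg⟩) (Finset.mem_image_of_mem _ (Finset.mem_univ _)) S
  have h5 := hca ⟨g, hg⟩
  simp only at h5
  show ‖g * (∑ k, x k * S * y k) - (∑ k, x k * S * y k) * g‖ ≤ ε * ‖S‖
  have h4 : g * (∑ k, x k * S * y k) - (∑ k, x k * S * y k) * g =
      π (a ⟨g, hg⟩) * (∑ k, x k * S * y k) - (∑ k, x k * S * y k) * π (a ⟨g, hg⟩) := by
    nth_rewrite 1 2 [h5]
    rw [add_mul, mul_add, smul_mul_assoc, mul_smul_comm, one_mul, mul_one]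
    abel
  rw [h4]
  exact h3

theorem cmp_one {W : Submodule ℂ K} [CompleteSpace W] : cmp W (1 : K →L[ℂ] K) = 1 := by
  ext w
  rw [Ind_cmp_coe]
  show W.starProjection (w : K) = w
  exact Submodule.starProjection_eq_self_iff.mpr w.2

theorem cmp_zero {W : Submodule ℂ K} [CompleteSpace W] : cmp W (0 : K →L[ℂ] K) = 0 := by
  ext w
  rw [Ind_cmp_coe]
  simp

theorem case_inf [TopologicalSpace.SeparableSpace K] (hA : ApproximatelyAmenable.{u, v} A)
    (π : A →⋆ₙₐ[ℂ] (K →L[ℂ] K)) (hfac : Factor (rangeAlg π)) (hπ : ∃ a, π a ≠ 0)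
    (hno : ∀ e, Pr (Com (Ampl (rangeAlg π))) e → Fte (Com (Ampl (rangeAlg π))) e → e = 0) :
    IsInjective (Com (rangeAlg π) : Set (K →L[ℂ] K)) := by
  haveI : TopologicalSpace.SeparableSpace (HH K) := separable_HH
  haveI : Nontrivial K := by
    obtain ⟨a, ha⟩ := hπ
    obtain ⟨y, hy⟩ : ∃ y, π a y ≠ 0 := by
      by_contra hcon
      push Not at hcon
      exact ha (ContinuousLinearMap.ext fun y => by rw [hcon y]; rfl)
    exact ⟨_, _, hy⟩
  have hF : Factor (Com (Ampl (rangeAlg π))) := factor_com (factor_ampl hfac)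
  have hPI0 : PurelyInfinite (Com (Com (Ampl (rangeAlg π))) : Set (HH K →L[ℂ] HH K)) :=
    purelyInfinite hF hno
  have e1 : Ampl (rangeAlg π) = rangeAlg (ampRep π) := Ampl_rangeAlg π
  rw [e1] at hPI0 hF
  obtain ⟨ζ, hζ1, hsep0⟩ := exists_sep (K := K)
  have hsep : ∀ y ∈ Com (Com (rangeAlg (ampRep π))), y ζ = 0 → y = 0 := by
    intro y hy h0
    rw [← e1] at hy
    obtain ⟨m, hm, rfl⟩ := mem_Com_Com_amp.mp hy
    rw [hsep0 m h0, amp_zero]
  have hnd : ∀ x : K, (∀ a, π a x = 0) → x = 0 := fun x hx => nondeg hfac hπ hx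
  have hnd1 : ∀ x : HH K, (∀ a, ampRep π a x = 0) → x = 0 := fun x hx => nondeg_amp hnd hx
  obtain ⟨W, hWc, σ, η, S, hη, hcyc⟩ := exists_cyclic_sub (ampRep π) hnd1 ζ
  have hW : W ≠ ⊥ := by
    intro h0
    have h1 : (η : HH K) ∈ (⊥ : Submodule ℂ (HH K)) := h0 ▸ η.2
    rw [Submodule.mem_bot, hη] at h1
    rw [h1, norm_zero] at hζ1
    exact zero_ne_one hζ1
  obtain ⟨F, hF1, hFa⟩ := S.exists_cover hF hW
  have hinjc : ∀ m ∈ Com (Com (rangeAlg (ampRep π))), cmp W m = 0 → m = 0 := by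
    intro m hm h0
    refine hsep m hm ?_
    have h1 := S.bic_coe hm η
    rw [h0, hη] at h1
    rw [← h1]
    rfl
  have hPI' : PurelyInfinite (Com (Com (rangeAlg σ)) : Set (W →L[ℂ] W)) := by
    intro p hp hps hpp hp0
    obtain ⟨m, hm, rfl⟩ := S.exists_bic F hF1 hFa hp
    have hms : star m = m := by
      rw [← sub_eq_zero]
      refine hinjc _ (sub_mem (star_mem hm) hm) ?_
      refine ContinuousLinearMap.ext fun w => Subtype.ext ?_
      rw [S.bic_coe (sub_mem (star_mem hm) hm)]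
      show (star m) (w : HH K) - m w = 0
      rw [← S.bic_coe hm, ← S.bic_coe (star_mem hm), cmp_star, hps, sub_self]
    have hmm : m * m = m := by
      rw [← sub_eq_zero]
      refine hinjc _ (sub_mem (mul_mem hm hm) hm) ?_
      refine ContinuousLinearMap.ext fun w => Subtype.ext ?_
      rw [S.bic_coe (sub_mem (mul_mem hm hm) hm)]
      show (m * m) (w : HH K) - m w = 0
      rw [← S.bic_coe hm, ← S.bic_coe (mul_mem hm hm), S.cmp_mul hm hm, hpp, sub_self]
    have hm0 : m ≠ 0 := by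
      intro h0
      apply hp0
      rw [h0, cmp_zero]
    obtain ⟨v, hv, w, hw, h1, h2, h3, h4, h5⟩ := hPI0 m hm hms hmm hm0
    refine ⟨cmp W v, S.cmp_bic hv, cmp W w, S.cmp_bic hw, ?_, ?_, ?_, ?_, ?_⟩
    · rw [← cmp_star, ← S.cmp_mul (star_mem hv) hv, h1, cmp_one]
    · rw [← cmp_star, ← S.cmp_mul (star_mem hw) hw, h2, cmp_one]
    · rw [← cmp_star, ← S.cmp_mul (star_mem hv) hw, h3, cmp_zero]
    · rw [← S.cmp_mul hm hv, h4]
    · rw [← S.cmp_mul hm hw, h5]
  have hσmem : ∀ a, σ a ∈ Com (Com (rangeAlg σ)) := by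
    intro a
    rw [mem_Com]
    intro y hy
    exact (mem_Com.mp hy (σ a) (mem_rangeAlg.mpr ⟨0, a, by simp⟩)).symm
  have hcycM : Ty.Cyc (Com (Com (rangeAlg σ))) η := by
    refine Dense.mono ?_ hcyc
    rintro _ ⟨a, rfl⟩
    exact ⟨σ a, hσmem a, rfl⟩
  have hsepM : ∀ y ∈ Com (Com (rangeAlg σ)), y η = 0 → y = 0 := by
    intro y hy h0
    obtain ⟨m, hm, rfl⟩ := S.exists_bic F hF1 hFa hy
    have h1 : m = 0 := by
      refine hsep m hm ?_
      rw [← hη, ← S.bic_coe hm, h0]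
      rfl
    rw [h1, cmp_zero]
  have hcycN : Ty.Cyc (Com (Com (Com (rangeAlg σ)))) η := by
    -- the closure of `N η` is invariant under `N`
    let L₀ : Submodule ℂ W :=
      { carrier := {x | ∃ a ∈ Com (rangeAlg σ), x = a η}
        add_mem' := by
          rintro _ _ ⟨a, ha, rfl⟩ ⟨b, hb, rfl⟩
          exact ⟨a + b, add_mem ha hb, rfl⟩
        zero_mem' := ⟨0, zero_mem _, rfl⟩
        smul_mem' := by
          rintro c _ ⟨a, ha, rfl⟩
          exact ⟨c • a, (Com (rangeAlg σ)).smul_mem ha c, rfl⟩ }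
    let L : Submodule ℂ W := L₀.topologicalClosure
    haveI : CompleteSpace L := L₀.isClosed_topologicalClosure.completeSpace_coe
    have hinv : ∀ y ∈ Com (rangeAlg σ), ∀ v ∈ L, y v ∈ L := by
      intro y hy
      have h1 : (L : Set W) ⊆ y ⁻¹' L := by
        refine closure_minimal ?_ (L₀.isClosed_topologicalClosure.preimage y.continuous)
        rintro _ ⟨a, ha, rfl⟩
        exact Submodule.le_topologicalClosure _ ⟨y * a, mul_mem hy ha, rfl⟩
      exact fun v hv => h1 hv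
    have hP : L.starProjection ∈ Com (Com (rangeAlg σ)) :=
      proj_mem_Com _ L fun y hy v hv => hinv y hy v hv
    have hηL : η ∈ L := Submodule.le_topologicalClosure _ ⟨1, one_mem _, rfl⟩
    have h0 : (1 - L.starProjection) = 0 := by
      refine hsepM _ (sub_mem (one_mem _) hP) ?_
      show η - L.starProjection η = 0
      rw [Submodule.starProjection_eq_self_iff.mpr hηL, sub_self]
    have htop : ∀ x : W, x ∈ L := by
      intro x
      have h1 : L.starProjection x = x := by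
        rw [← (sub_eq_zero.mp h0)]
        rfl
      rw [← h1]
      exact Submodule.starProjection_apply_mem L x
    intro x
    have h1 : x ∈ closure (L₀ : Set W) := htop x
    refine closure_mono ?_ h1
    rintro _ ⟨a, ha, rfl⟩
    refine ⟨a, ?_, rfl⟩
    rw [Com_Com_Com]
    exact ha
  have hbic : Com (Com (Com (Com (rangeAlg σ)))) = Com (Com (rangeAlg σ)) :=
    Com_Com_Com (Com (rangeAlg σ))
  obtain ⟨J, hJ⟩ := Ty.exists_tomitaJ (Com (Com (rangeAlg σ))) hbic η hcycM hcycN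
  have hPI : PurelyInfinite (Com (rangeAlg σ) : Set (W →L[ℂ] W)) := by
    have h1 := Ty.purelyInfinite_com hJ hPI'
    rwa [Com_Com_Com] at h1
  have hcl : IsClosed (rangeAlg σ : Set (W →L[ℂ] W)) := isClosed_range _
  have hinj : Pin.InjCom (rangeAlg σ) := by
    refine Ty.injCom_type_free hcl hPI hPI' ?_ (ncen hA σ)
    intro Ω h1 h2
    refine Ty.exists_tomitaJ (Com (Com (rangeAlg σ))) hbic Ω h2 ?_
    rw [Com_Com_Com]
    exact h1
  have h1 := inj_of_cover (ampRep π) σ F hF1 hFa hinj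
  rw [← e1] at h1
  exact inj_down h1

end Pool.Agent.MP_86f3ed.Fac
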