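import Pool.Agent.H.MP_86f3ed_an.Fac.Base

open scoped InnerProductSpace Topology
open Filter ContinuousLinearMap

namespace Pool.Agent.MP_86f3ed.Fac

open Pin Sf

variable {K : Type*} [NormedAddCommGroup K] [InnerProductSpace ℂ K] [CompleteSpace K]
  {𝔓 : StarSubalgebra ℂ (K →L[ℂ] K)}

theorem Col_norm_sq (z : K →L[ℂ] K) (v : K) : ((‖z v‖ ^ 2 : ℝ) : ℂ) = ⟪v, (star z * z) v⟫_ℂ := by
  show ((‖z v‖ ^ 2 : ℝ) : ℂ) = ⟪v, star z (z v)⟫_ℂ
  rw [star_eq_adjoint, adjoint_inner_right, inner_self_eq_norm_sq_to_K]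
  push_cast
  rfl

/-- Factorization of a column of a von Neumann algebra through the square root of its square. -/
theorem exists_col {n : ℕ} (y : Fin n → K →L[ℂ] K) (hy : ∀ i, y i ∈ Com 𝔓) {ε : ℝ} (hε : 0 < ε) :
    ∃ h ∈ Com 𝔓, ∃ u : Fin n → K →L[ℂ] K, (∀ i, u i ∈ Com 𝔓) ∧ (∀ i, y i = u i * h) ∧
      (∀ x, ∑ i, ‖u i x‖ ^ 2 ≤ ‖x‖ ^ 2) ∧ ∀ x, ‖h x‖ ^ 2 = ∑ i, ‖y i x‖ ^ 2 + ε * ‖x‖ ^ 2 := by
  set k : K →L[ℂ] K := ∑ i, star (y i) * y i + ((ε : ℝ) : ℂ) • 1 with hk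
  have hkmem : k ∈ Com 𝔓 :=
    add_mem (sum_mem fun i _ => mul_mem (star_mem (hy i)) (hy i)) (SMulMemClass.smul_mem _ (one_mem _))
  have hsum0 : (0 : K →L[ℂ] K) ≤ ∑ i, star (y i) * y i :=
    Finset.sum_nonneg fun i _ => star_mul_self_nonneg (y i)
  have hone0 : (0 : K →L[ℂ] K) ≤ ((ε : ℝ) : ℂ) • 1 := by
    have h1 : ((ε : ℝ) : ℂ) • (1 : K →L[ℂ] K) = ε • (1 : K →L[ℂ] K) := by
      ext x; simp
    rw [h1]
    exact smul_nonneg hε.le zero_le_one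
  have hk0 : (0 : K →L[ℂ] K) ≤ k := add_nonneg hsum0 hone0
  set h : K →L[ℂ] K := CFC.sqrt k with hh
  have hhh : h * h = k := CFC.sqrt_mul_sqrt_self _ hk0
  have hsa : star h = h := (CFC.sqrt_nonneg k).isSelfAdjoint.star_eq
  have hcomm : ∀ a : K →L[ℂ] K, Commute k a → Commute h a := fun a ha => ha.cfcₙ_nnreal _
  have hhmem : h ∈ Com 𝔓 := by
    rw [mem_Com]
    intro a ha
    exact (hcomm a (mem_Com.1 hkmem a ha).symm).symm
  have hnorm : ∀ x, ‖h x‖ ^ 2 = ∑ i, ‖y i x‖ ^ 2 + ε * ‖x‖ ^ 2 := by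
    intro x
    have h1 := Col_norm_sq h x
    rw [hsa, hhh, hk] at h1
    have h2 : ⟪x, (∑ i, star (y i) * y i + ((ε : ℝ) : ℂ) • (1 : K →L[ℂ] K)) x⟫_ℂ
        = ((∑ i, ‖y i x‖ ^ 2 + ε * ‖x‖ ^ 2 : ℝ) : ℂ) := by
      rw [add_apply, inner_add_right, sum_apply, inner_sum, smul_apply,
        inner_smul_right]
      push_cast
      congr 1
      · refine Finset.sum_congr rfl fun i _ => ?_
        have h3 := Col_norm_sq (y i) x
        push_cast at h3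
        exact h3.symm
      · show (ε : ℂ) * ⟪x, x⟫_ℂ = _
        rw [inner_self_eq_norm_sq_to_K]
        rfl
    rw [h2] at h1
    exact_mod_cast h1
  -- invertibility
  have hkunit : IsUnit k := by
    have hle : ((ε : ℝ) : ℂ) • (1 : K →L[ℂ] K) ≤ k := le_add_of_nonneg_left hsum0
    have h1 : ((ε : ℝ) : ℂ) • (1 : K →L[ℂ] K) = algebraMap ℝ (K →L[ℂ] K) ε := by
      rw [Algebra.algebraMap_eq_smul_one]
      ext x; simp
    rw [h1] at hle
    refine CStarAlgebra.isUnit_of_le _ hle ?_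
    refine ⟨?_, ?_⟩
    · rw [← h1]; exact hone0
    · exact (isUnit_iff_ne_zero.mpr hε.ne').map (algebraMap ℝ (K →L[ℂ] K))
  obtain ⟨⟨k₀, ki, hki1, hki2⟩, hk₀⟩ := hkunit
  have hk₀' : k₀ = k := hk₀
  rw [hk₀'] at hki1 hki2
  have hkicomm : ∀ a : K →L[ℂ] K, Commute k a → Commute ki a := by
    intro a ha
    have h1 : k * a = a * k := ha
    show ki * a = a * ki
    calc ki * a = ki * a * (k * ki) := by rw [hki1, mul_one]
      _ = ki * (a * k) * ki := by simp only [mul_assoc]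
      _ = ki * (k * a) * ki := by rw [h1]
      _ = (ki * k) * a * ki := by simp only [mul_assoc]
      _ = a * ki := by rw [hki2, one_mul]
  set g : K →L[ℂ] K := h * ki with hg
  have hkh : Commute k h := (hcomm k (Commute.refl k)).symm
  have hkih : ki * h = h * ki := hkicomm h hkh
  have hhg : h * g = 1 := by rw [hg, ← mul_assoc, hhh, hki1]
  have hgh : g * h = 1 := by rw [hg, mul_assoc, hkih, ← mul_assoc, hhh, hki1]
  have hgmem : g ∈ Com 𝔓 := by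
    refine mul_mem hhmem ?_
    rw [mem_Com]
    intro a ha
    exact (hkicomm a (mem_Com.1 hkmem a ha).symm).symm
  refine ⟨h, hhmem, fun i => y i * g, fun i => mul_mem (hy i) hgmem, fun i => ?_, fun x => ?_, hnorm⟩
  · rw [mul_assoc, hgh, mul_one]
  · have h1 := hnorm (g x)
    have h2 : h (g x) = x := by
      show (h * g) x = x
      rw [hhg]; rfl
    rw [h2] at h1
    have h3 : 0 ≤ ε * ‖g x‖ ^ 2 := by positivity
    show ∑ i, ‖y i (g x)‖ ^ 2 ≤ ‖x‖ ^ 2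
    linarith

/-- The isometric-like operator of a column. -/
theorem Col_exists_U {n : ℕ} (u : Fin n → K →L[ℂ] K) (hu : ∀ x, ∑ i, ‖u i x‖ ^ 2 ≤ ‖x‖ ^ 2) :
    ∃ U : K →L[ℂ] HH K, (∀ x, U x = ∑ i : Fin n, inc (i : ℕ) (u i x)) ∧ ‖U‖ ≤ 1 := by
  refine ⟨∑ i : Fin n, (inc (i : ℕ)).comp (u i), fun x => ?_, ?_⟩
  · rw [sum_apply]; rfl
  · refine ContinuousLinearMap.opNorm_le_bound _ zero_le_one fun x => ?_
    rw [one_mul, sum_apply]
    have h1 : ‖∑ i : Fin n, ((inc (i : ℕ)).comp (u i)) x‖ ^ 2 = ∑ i, ‖u i x‖ ^ 2 := by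
      have h2 : ((‖∑ i : Fin n, ((inc (i : ℕ)).comp (u i)) x‖ ^ 2 : ℝ) : ℂ)
          = ((∑ i, ‖u i x‖ ^ 2 : ℝ) : ℂ) := by
        have h3 := inner_self_eq_norm_sq_to_K (𝕜 := ℂ) (∑ i : Fin n, ((inc (i : ℕ)).comp (u i)) x)
        rw [sum_inner] at h3
        have h4 : ∀ i : Fin n, ⟪((inc (i : ℕ)).comp (u i)) x,
            ∑ j : Fin n, ((inc (j : ℕ)).comp (u j)) x⟫_ℂ = ((‖u i x‖ ^ 2 : ℝ) : ℂ) := by
          intro i
          show ⟪inc (i : ℕ) (u i x), ∑ j : Fin n, ((inc (j : ℕ)).comp (u j)) x⟫_ℂ = _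
          rw [inner_inc_left, map_sum, Finset.sum_eq_single i]
          · show ⟪u i x, pr (i : ℕ) (inc (i : ℕ) (u i x))⟫_ℂ = _
            rw [pr_inc_same, inner_self_eq_norm_sq_to_K]
            push_cast
            rfl
          · intro j _ hj
            show pr (i : ℕ) (inc (j : ℕ) (u j x)) = 0
            exact pr_inc_ne (fun h => hj (Fin.ext h.symm)) _
          · intro hi
            exact absurd (Finset.mem_univ i) hi
        rw [Finset.sum_congr rfl fun i _ => h4 i] at h3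
        push_cast at h3 ⊢
        exact h3.symm
      exact_mod_cast h2
    have h5 : ‖∑ i : Fin n, ((inc (i : ℕ)).comp (u i)) x‖ ^ 2 ≤ ‖x‖ ^ 2 := h1 ▸ hu x
    exact (sq_le_sq₀ (norm_nonneg _) (norm_nonneg _)).mp h5

/-- The norm of a compressed matrix. -/
theorem norm_sandwich {n : ℕ} (Z : HH K →L[ℂ] HH K) (u v : Fin n → K →L[ℂ] K)
    (hu : ∀ x, ∑ i, ‖u i x‖ ^ 2 ≤ ‖x‖ ^ 2) (hv : ∀ x, ∑ i, ‖v i x‖ ^ 2 ≤ ‖x‖ ^ 2) :
    ‖∑ i : Fin n, ∑ j : Fin n, star (u i) * ent i j Z * v j‖ ≤ ‖Z‖ := by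
  obtain ⟨U, hU, hU1⟩ := Col_exists_U u hu
  obtain ⟨V, hV, hV1⟩ := Col_exists_U v hv
  have key : ∑ i : Fin n, ∑ j : Fin n, star (u i) * ent i j Z * v j = (adjoint U).comp (Z.comp V) := by
    refine ContinuousLinearMap.ext fun x => ?_
    refine ext_inner_left ℂ fun z => ?_
    show ⟪z, _⟫_ℂ = ⟪z, adjoint U (Z (V x))⟫_ℂ
    rw [adjoint_inner_right, hU z, hV x, map_sum, sum_inner, sum_apply, inner_sum]
    refine Finset.sum_congr rfl fun i _ => ?_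
    rw [sum_apply, inner_sum, inner_inc_left, map_sum, inner_sum]
    refine Finset.sum_congr rfl fun j _ => ?_
    show ⟪z, star (u i) (ent i j Z (v j x))⟫_ℂ = _
    rw [star_eq_adjoint, adjoint_inner_right]
    rfl
  rw [key]
  calc ‖(adjoint U).comp (Z.comp V)‖ ≤ ‖adjoint U‖ * ‖Z.comp V‖ := opNorm_comp_le _ _
    _ ≤ ‖adjoint U‖ * (‖Z‖ * ‖V‖) :=
        mul_le_mul_of_nonneg_left (opNorm_comp_le _ _) (norm_nonneg _)
    _ ≤ 1 * (‖Z‖ * 1) := by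
        have h1 : ‖adjoint U‖ ≤ 1 := by
          rw [LinearIsometryEquiv.norm_map]; exact hU1
        gcongr
    _ = ‖Z‖ := by ring

end Pool.Agent.MP_86f3ed.Fac
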