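import Pool.Agent.H.MP_86f3ed_an.Fac.Base

open scoped InnerProductSpace Topology
open Filter ContinuousLinearMap

namespace Pool.Agent.MP_86f3ed.Fac

open Pin Sf

universe u

variable {K : Type u} [NormedAddCommGroup K] [InnerProductSpace ℂ K] [CompleteSpace K]
  {𝔓 : StarSubalgebra ℂ (K →L[ℂ] K)}

/-- The orbit of a vector under a star algebra. -/
def Cyc_V (𝔐 : StarSubalgebra ℂ (K →L[ℂ] K)) (α : K) : Submodule ℂ K where
  carrier := {z | ∃ m ∈ 𝔐, z = m α}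
  add_mem' := by
    rintro _ _ ⟨y, hy, rfl⟩ ⟨y', hy', rfl⟩
    exact ⟨y + y', add_mem hy hy', rfl⟩
  zero_mem' := ⟨0, zero_mem _, rfl⟩
  smul_mem' := by
    rintro c _ ⟨y, hy, rfl⟩
    exact ⟨c • y, SMulMemClass.smul_mem c hy, rfl⟩

/-- The cyclic subspace of a vector. -/
def Cyc_W (𝔐 : StarSubalgebra ℂ (K →L[ℂ] K)) (α : K) : Submodule ℂ K :=
  (Cyc_V 𝔐 α).topologicalClosure

instance Cyc_complete (𝔐 : StarSubalgebra ℂ (K →L[ℂ] K)) (α : K) : CompleteSpace (Cyc_W 𝔐 α) :=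
  (Cyc_V 𝔐 α).isClosed_topologicalClosure.completeSpace_coe

/-- The projection onto the cyclic subspace of a vector. -/
noncomputable def Cyc_P (𝔐 : StarSubalgebra ℂ (K →L[ℂ] K)) (α : K) : K →L[ℂ] K :=
  (Cyc_W 𝔐 α).starProjection

theorem Cyc_mem (𝔐 : StarSubalgebra ℂ (K →L[ℂ] K)) (α : K) {m : K →L[ℂ] K} (hm : m ∈ 𝔐) :
    m α ∈ Cyc_W 𝔐 α := Submodule.le_topologicalClosure _ ⟨m, hm, rfl⟩

theorem Cyc_star (𝔐 : StarSubalgebra ℂ (K →L[ℂ] K)) (α : K) :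
    star (Cyc_P 𝔐 α) = Cyc_P 𝔐 α := by
  rw [ContinuousLinearMap.star_eq_adjoint]
  exact (ContinuousLinearMap.eq_adjoint_iff _ _).mpr
    (fun x y => ((Cyc_W 𝔐 α).inner_starProjection_left_eq_right x y)) |>.symm

theorem Cyc_idem (𝔐 : StarSubalgebra ℂ (K →L[ℂ] K)) (α : K) :
    Cyc_P 𝔐 α * Cyc_P 𝔐 α = Cyc_P 𝔐 α := by
  ext x
  show (Cyc_W 𝔐 α).starProjection ((Cyc_W 𝔐 α).starProjection x) =
    (Cyc_W 𝔐 α).starProjection x
  rw [Submodule.starProjection_eq_self_iff]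
  exact Submodule.starProjection_apply_mem _ x

theorem Cyc_inv (𝔐 : StarSubalgebra ℂ (K →L[ℂ] K)) (α : K) {y : K →L[ℂ] K} (hy : y ∈ 𝔐) {x : K}
    (hx : x ∈ Cyc_W 𝔐 α) : y x ∈ Cyc_W 𝔐 α := by
  have h : (Cyc_W 𝔐 α : Set K) ⊆ y ⁻¹' (Cyc_W 𝔐 α) := by
    refine closure_minimal ?_ ((Cyc_V 𝔐 α).isClosed_topologicalClosure.preimage y.continuous)
    rintro _ ⟨z, hz, rfl⟩
    exact Cyc_mem 𝔐 α (mul_mem hy hz)
  exact h hx

theorem Cyc_com (𝔐 : StarSubalgebra ℂ (K →L[ℂ] K)) (α : K) : Cyc_P 𝔐 α ∈ Com 𝔐 :=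
  proj_mem_Com 𝔐 (Cyc_W 𝔐 α) fun _ ha _ hv => Cyc_inv 𝔐 α ha hv

/-- A vector orthogonal to the orbit is killed by the projection. -/
theorem Cyc_zero (𝔐 : StarSubalgebra ℂ (K →L[ℂ] K)) (α : K) {x : K}
    (h : ∀ m ∈ 𝔐, ⟪m α, x⟫_ℂ = 0) : Cyc_P 𝔐 α x = 0 := by
  have h1 : x ∈ (Cyc_W 𝔐 α)ᗮ := by
    rw [Cyc_W, Submodule.orthogonal_closure, Submodule.mem_orthogonal]
    rintro _ ⟨m, hm, rfl⟩
    exact h m hm
  exact (Submodule.starProjection_apply_eq_zero_iff _).mpr h1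

theorem Cyc_orth (𝔐 : StarSubalgebra ℂ (K →L[ℂ] K)) {α β : K}
    (h : ∀ m ∈ 𝔐, ⟪m α, β⟫_ℂ = 0) : Cyc_P 𝔐 α * Cyc_P 𝔐 β = 0 := by
  have h1 : ∀ m ∈ 𝔐, Cyc_P 𝔐 α (m β) = 0 := by
    intro m hm
    refine Cyc_zero 𝔐 α fun m' hm' => ?_
    have h2 := h (star m * m') (mul_mem (star_mem hm) hm')
    have h3 : ⟪m' α, m β⟫_ℂ = ⟪(star m * m') α, β⟫_ℂ := by
      rw [star_eq_adjoint]
      exact (adjoint_inner_left m β (m' α)).symm
    rw [h3, h2]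
  have h2 : (Cyc_W 𝔐 β : Set K) ⊆ {x | Cyc_P 𝔐 α x = 0} := by
    refine closure_minimal ?_ (isClosed_eq (Cyc_P 𝔐 α).continuous continuous_const)
    rintro _ ⟨m, hm, rfl⟩
    exact h1 m hm
  ext x
  exact h2 (Submodule.starProjection_apply_mem (Cyc_W 𝔐 β) x)

/-- families of vectors with orthogonal orbits -/
def Cyc_good (𝔐 : StarSubalgebra ℂ (K →L[ℂ] K)) : Set (Set K) :=
  {F | (∀ α ∈ F, α ≠ 0) ∧ ∀ α ∈ F, ∀ β ∈ F, α ≠ β → ∀ m ∈ 𝔐, ⟪m α, β⟫_ℂ = 0}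

theorem Cyc_zorn (𝔐 : StarSubalgebra ℂ (K →L[ℂ] K)) : ∃ F, Maximal (· ∈ Cyc_good 𝔐) F := by
  refine zorn_subset _ fun c hc hch => ⟨⋃₀ c, ⟨?_, ?_⟩, fun s hs => Set.subset_sUnion_of_mem hs⟩
  · rintro w ⟨s, hs, hw⟩
    exact (hc hs).1 w hw
  · rintro w ⟨s, hs, hw⟩ w' ⟨s', hs', hw'⟩ hne
    rcases hch.total hs hs' with h | h
    · exact (hc hs').2 w (h hw) w' hw' hne
    · exact (hc hs).2 w hw w' (h hw') hne

/-- Every vector is a sum of orthogonal components in cyclic subspaces whose projections commute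
with the algebra. -/
theorem exists_cyclic_family (𝔐 : StarSubalgebra ℂ (K →L[ℂ] K)) :
    ∃ (ι : Type u) (α : ι → K) (g : ι → K →L[ℂ] K), (∀ k, g k ∈ Com 𝔐) ∧
      (∀ k, star (g k) = g k) ∧ (∀ k, g k * g k = g k) ∧ (∀ k l, k ≠ l → g k * g l = 0) ∧
      (∀ k x, g k x ∈ closure {z | ∃ m ∈ 𝔐, z = m (α k)}) ∧
      ∀ x, HasSum (fun k => g k x) x := by
  obtain ⟨F, hF⟩ := Cyc_zorn 𝔐
  obtain ⟨hF1, hF2⟩ := hF.1
  have hort : ∀ i j : F, i ≠ j → Cyc_P 𝔐 (i : K) * Cyc_P 𝔐 (j : K) = 0 := fun i j hij =>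
    Cyc_orth 𝔐 (hF2 i.1 i.2 j.1 j.2 fun h => hij (Subtype.ext h))
  refine ⟨F, fun i => (i : K), fun i => Cyc_P 𝔐 (i : K), fun k => Cyc_com 𝔐 _,
    fun k => Cyc_star 𝔐 _, fun k => Cyc_idem 𝔐 _, hort,
    fun k x => Submodule.starProjection_apply_mem (Cyc_W 𝔐 (k : K)) x, ?_⟩
  obtain ⟨z, hz, -, -, -, -⟩ := exists_osum (fun i : F => Cyc_P 𝔐 (i : K))
    (fun i => by rw [Cyc_star, Cyc_idem, Cyc_idem])
    (fun i j hij => by rw [Cyc_star]; exact hort i j hij)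
    (fun i j hij => by rw [Cyc_star]; exact hort i j hij)
  intro x
  have hPz : ∀ j : F, Cyc_P 𝔐 (j : K) (z x) = Cyc_P 𝔐 (j : K) x := by
    intro j
    have h1 := (Cyc_P 𝔐 (j : K)).hasSum (hz x)
    have h2 := hasSum_single (f := fun i : F => Cyc_P 𝔐 (j : K) (Cyc_P 𝔐 (i : K) x)) j
      (fun i hi => congrArg (fun S : K →L[ℂ] K => S x) (hort j i (Ne.symm hi)))
    have h3 : Cyc_P 𝔐 (j : K) (Cyc_P 𝔐 (j : K) x) = Cyc_P 𝔐 (j : K) x :=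
      congrArg (fun S : K →L[ℂ] K => S x) (Cyc_idem 𝔐 (j : K))
    rw [h3] at h2
    exact h1.unique h2
  have hr : ∀ α ∈ F, Cyc_P 𝔐 α (x - z x) = 0 := by
    intro α hα
    rw [map_sub, hPz ⟨α, hα⟩, sub_self]
  by_cases hr0 : x - z x = 0
  · have h1 := hz x
    rw [← sub_eq_zero.mp hr0] at h1
    exact h1
  exfalso
  set r : K := x - z x with hrdef
  have hro : ∀ α ∈ F, ∀ m ∈ 𝔐, ⟪m α, r⟫_ℂ = 0 := by
    intro α hα m hm
    have h1 : Cyc_P 𝔐 α (m α) = m α := Submodule.starProjection_eq_self_iff.2 (Cyc_mem 𝔐 α hm)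
    rw [← h1]
    have h2 := (Cyc_W 𝔐 α).inner_starProjection_left_eq_right (m α) r
    change ⟪Cyc_P 𝔐 α (m α), r⟫_ℂ = ⟪m α, Cyc_P 𝔐 α r⟫_ℂ at h2
    rw [h2, hr α hα, inner_zero_right]
  have hrF : r ∉ F := by
    intro h
    have h1 := hro r h 1 (one_mem _)
    exact hr0 (inner_self_eq_zero.mp h1)
  have hgood : insert r F ∈ Cyc_good 𝔐 := by
    refine ⟨?_, ?_⟩
    · rintro u (rfl | hu)
      · exact hr0
      · exact hF1 u hu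
    · rintro a (rfl | ha) b (rfl | hb) hab m hm
      · exact absurd rfl hab
      · have h1 := hro b hb (star m) (star_mem hm)
        have h2 : ⟪star m b, r⟫_ℂ = ⟪b, m r⟫_ℂ := by
          rw [star_eq_adjoint]
          exact adjoint_inner_left m r b
        rw [h2] at h1
        rw [← inner_conj_symm, h1, map_zero]
      · exact hro a ha m hm
      · exact hF2 a ha b hb hab m hm
  exact hrF (hF.2 hgood (Set.subset_insert r F) (Set.mem_insert r F))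

end Pool.Agent.MP_86f3ed.Fac
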