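import Pool.Agent.H.MP_86f3ed_an.Fac.Tomi
import Pool.Agent.H.MP_86f3ed_an.Fac.Col
import Pool.Agent.H.MP_86f3ed_an.Fac.Cyc

open scoped InnerProductSpace Topology
open Filter ContinuousLinearMap

namespace Pool.Agent.MP_86f3ed.Fac

open Pin Sf

variable {K : Type*} [NormedAddCommGroup K] [InnerProductSpace ℂ K] [CompleteSpace K]
  {𝔓 : StarSubalgebra ℂ (K →L[ℂ] K)}

private theorem cb_eps (E : (K →L[ℂ] K) →ₗ[ℂ] (K →L[ℂ] K)) (h1 : ∀ S, ‖E S‖ ≤ ‖S‖)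
    (h2 : ∀ S, E S ∈ Com 𝔓) (h3 : ∀ S ∈ Com 𝔓, E S = S) (Z : HH K →L[ℂ] HH K) {n : ℕ}
    (y z : Fin n → K →L[ℂ] K) (hy : ∀ i, y i ∈ Com 𝔓) (hz : ∀ i, z i ∈ Com 𝔓) (α β : K)
    {ε : ℝ} (hε : 0 < ε) :
    ‖∑ i : Fin n, ∑ j : Fin n, ⟪y i α, E (ent i j Z) (z j β)⟫_ℂ‖ ≤
      ‖Z‖ * (Real.sqrt (∑ i, ‖y i α‖ ^ 2 + ε * ‖α‖ ^ 2) *
        Real.sqrt (∑ j, ‖z j β‖ ^ 2 + ε * ‖β‖ ^ 2)) := by
  obtain ⟨h, hh, u, hu, hyu, hub, hhn⟩ := exists_col y hy hε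
  obtain ⟨k, hk, v, hv, hzv, hvb, hkn⟩ := exists_col z hz hε
  have hE : ∀ i j : Fin n, star (u i) * E (ent i j Z) * v j =
      E (star (u i) * ent i j Z * v j) := by
    intro i j
    rw [(tomiyama E h1 h2 h3 (hv j) _).2, (tomiyama E h1 h2 h3 (star_mem (hu i)) _).1]
  have hij : ∀ i j : Fin n, ⟪y i α, E (ent i j Z) (z j β)⟫_ℂ =
      ⟪h α, (E (star (u i) * ent i j Z * v j)) (k β)⟫_ℂ := by
    intro i j
    rw [← hE, hyu i, hzv j]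
    show ⟪u i (h α), E (ent i j Z) (v j (k β))⟫_ℂ =
      ⟪h α, star (u i) (E (ent i j Z) (v j (k β)))⟫_ℂ
    rw [star_eq_adjoint, adjoint_inner_right]
  have hsum : ∑ i : Fin n, ∑ j : Fin n, ⟪y i α, E (ent i j Z) (z j β)⟫_ℂ =
      ⟪h α, (E (∑ i : Fin n, ∑ j : Fin n, star (u i) * ent i j Z * v j)) (k β)⟫_ℂ := by
    rw [map_sum, sum_apply, inner_sum]
    refine Finset.sum_congr rfl fun i _ => ?_
    rw [map_sum, sum_apply, inner_sum]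
    exact Finset.sum_congr rfl fun j _ => hij i j
  have hα : ‖h α‖ = Real.sqrt (∑ i, ‖y i α‖ ^ 2 + ε * ‖α‖ ^ 2) := by
    rw [← hhn, Real.sqrt_sq (norm_nonneg _)]
  have hβ : ‖k β‖ = Real.sqrt (∑ i, ‖z i β‖ ^ 2 + ε * ‖β‖ ^ 2) := by
    rw [← hkn, Real.sqrt_sq (norm_nonneg _)]
  rw [hsum, ← hα, ← hβ]
  refine (norm_inner_le_norm _ _).trans ?_
  have h4 : ‖(E (∑ i : Fin n, ∑ j : Fin n, star (u i) * ent i j Z * v j)) (k β)‖ ≤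
      ‖Z‖ * ‖k β‖ :=
    ((E _).le_opNorm _).trans
      (mul_le_mul_of_nonneg_right ((h1 _).trans (norm_sandwich Z u v hub hvb)) (norm_nonneg _))
  calc ‖h α‖ * ‖(E (∑ i : Fin n, ∑ j : Fin n, star (u i) * ent i j Z * v j)) (k β)‖
      ≤ ‖h α‖ * (‖Z‖ * ‖k β‖) := mul_le_mul_of_nonneg_left h4 (norm_nonneg _)
    _ = ‖Z‖ * (‖h α‖ * ‖k β‖) := by ring

/-- The bound for vectors in cyclic subspaces. -/
theorem cb_cyclic (E : (K →L[ℂ] K) →ₗ[ℂ] (K →L[ℂ] K)) (h1 : ∀ S, ‖E S‖ ≤ ‖S‖)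
    (h2 : ∀ S, E S ∈ Com 𝔓) (h3 : ∀ S ∈ Com 𝔓, E S = S) (Z : HH K →L[ℂ] HH K) {n : ℕ}
    (y z : Fin n → K →L[ℂ] K) (hy : ∀ i, y i ∈ Com 𝔓) (hz : ∀ i, z i ∈ Com 𝔓) (α β : K) :
    ‖∑ i : Fin n, ∑ j : Fin n, ⟪y i α, E (ent i j Z) (z j β)⟫_ℂ‖ ≤
      ‖Z‖ * (Real.sqrt (∑ i, ‖y i α‖ ^ 2) * Real.sqrt (∑ j, ‖z j β‖ ^ 2)) := by
  have hc : Continuous fun ε : ℝ => ‖Z‖ * (Real.sqrt (∑ i, ‖y i α‖ ^ 2 + ε * ‖α‖ ^ 2) *
      Real.sqrt (∑ j, ‖z j β‖ ^ 2 + ε * ‖β‖ ^ 2)) := by fun_prop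
  have ht := (hc.tendsto 0).mono_left (nhdsWithin_le_nhds (s := Set.Ioi (0 : ℝ)))
  simp only [zero_mul, add_zero] at ht
  refine ge_of_tendsto ht ?_
  filter_upwards [self_mem_nhdsWithin] with ε hε
  exact cb_eps E h1 h2 h3 Z y z hy hz α β hε

private theorem cb_closure (E : (K →L[ℂ] K) →ₗ[ℂ] (K →L[ℂ] K)) (h1 : ∀ S, ‖E S‖ ≤ ‖S‖)
    (h2 : ∀ S, E S ∈ Com 𝔓) (h3 : ∀ S ∈ Com 𝔓, E S = S) (Z : HH K →L[ℂ] HH K) {n : ℕ} (α : K)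
    (x w : Fin n → K) (hx : ∀ i, x i ∈ closure {z | ∃ m ∈ Com 𝔓, z = m α})
    (hw : ∀ i, w i ∈ closure {z | ∃ m ∈ Com 𝔓, z = m α}) :
    ‖∑ i : Fin n, ∑ j : Fin n, ⟪x i, E (ent i j Z) (w j)⟫_ℂ‖ ≤
      ‖Z‖ * (Real.sqrt (∑ i, ‖x i‖ ^ 2) * Real.sqrt (∑ j, ‖w j‖ ^ 2)) := by
  choose a ha hat using fun i => mem_closure_iff_seq_limit.mp (hx i)
  choose b hb hbt using fun i => mem_closure_iff_seq_limit.mp (hw i)
  choose y hy hya using ha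
  choose z hz hzb using hb
  have hT1 : Tendsto (fun m : ℕ => ‖∑ i : Fin n, ∑ j : Fin n, ⟪a i m, E (ent i j Z) (b j m)⟫_ℂ‖)
      atTop (𝓝 ‖∑ i : Fin n, ∑ j : Fin n, ⟪x i, E (ent i j Z) (w j)⟫_ℂ‖) := by
    refine Tendsto.norm (tendsto_finsetSum _ fun i _ => tendsto_finsetSum _ fun j _ => ?_)
    exact (hat i).inner (((E (ent i j Z)).continuous.tendsto _).comp (hbt j))
  have hT2 : Tendsto (fun m : ℕ => ‖Z‖ * (Real.sqrt (∑ i, ‖a i m‖ ^ 2) *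
      Real.sqrt (∑ j, ‖b j m‖ ^ 2))) atTop
      (𝓝 (‖Z‖ * (Real.sqrt (∑ i, ‖x i‖ ^ 2) * Real.sqrt (∑ j, ‖w j‖ ^ 2)))) := by
    refine Tendsto.const_mul _ (Tendsto.mul ?_ ?_)
    · exact (Real.continuous_sqrt.tendsto _).comp
        (tendsto_finsetSum _ fun i _ => ((hat i).norm).pow 2)
    · exact (Real.continuous_sqrt.tendsto _).comp
        (tendsto_finsetSum _ fun i _ => ((hbt i).norm).pow 2)
  refine le_of_tendsto_of_tendsto' hT1 hT2 fun m => ?_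
  have h := cb_cyclic E h1 h2 h3 Z (fun i => y i m) (fun i => z i m) (fun i => hy i m)
    (fun i => hz i m) α α
  simp only [← hya, ← hzb] at h
  exact h

private theorem cb_parseval {ι : Type*} {g : ι → K →L[ℂ] K} (hs : ∀ k, star (g k) = g k)
    (hi : ∀ k, g k * g k = g k) {x : K} (hx : HasSum (fun k => g k x) x) :
    HasSum (fun k => ‖g k x‖ ^ 2) (‖x‖ ^ 2) := by
  have h := (hx.mapL (innerSL ℂ x)).mapL (Complex.reCLM)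
  have hk : ∀ k, Complex.reCLM (innerSL ℂ x (g k x)) = ‖g k x‖ ^ 2 := by
    intro k
    have h4 : g k x = g k (g k x) := by
      have := congrArg (fun S : K →L[ℂ] K => S x) (hi k)
      exact this.symm
    have h5 : ⟪x, g k x⟫_ℂ = ⟪g k x, g k x⟫_ℂ := by
      conv_lhs => rw [h4]
      rw [← adjoint_inner_left, ← star_eq_adjoint, hs]
    show (⟪x, g k x⟫_ℂ).re = ‖g k x‖ ^ 2
    rw [h5]
    exact (norm_sq_eq_re_inner (𝕜 := ℂ) (g k x)).symm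
  have h0 : Complex.reCLM (innerSL ℂ x x) = ‖x‖ ^ 2 :=
    (norm_sq_eq_re_inner (𝕜 := ℂ) x).symm
  rw [h0] at h
  simp only [hk] at h
  exact h

/-- A projection of norm one onto a von Neumann algebra is completely contractive. -/
theorem cb_bound (E : (K →L[ℂ] K) →ₗ[ℂ] (K →L[ℂ] K)) (h1 : ∀ S, ‖E S‖ ≤ ‖S‖)
    (h2 : ∀ S, E S ∈ Com 𝔓) (h3 : ∀ S ∈ Com 𝔓, E S = S) (Z : HH K →L[ℂ] HH K) {n : ℕ}
    (ξ η : Fin n → K) :
    ‖∑ i : Fin n, ∑ j : Fin n, ⟪ξ i, E (ent i j Z) (η j)⟫_ℂ‖ ≤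
      ‖Z‖ * (Real.sqrt (∑ i, ‖ξ i‖ ^ 2) * Real.sqrt (∑ j, ‖η j‖ ^ 2)) := by
  obtain ⟨ι, α, g, hgC, hgs, hgi, -, hgcl, hgS⟩ := exists_cyclic_family (Com 𝔓)
  have hgk : ∀ k, ‖∑ i : Fin n, ∑ j : Fin n, ⟪g k (ξ i), E (ent i j Z) (g k (η j))⟫_ℂ‖ ≤
      ‖Z‖ * (Real.sqrt (∑ i, ‖g k (ξ i)‖ ^ 2) * Real.sqrt (∑ j, ‖g k (η j)‖ ^ 2)) := fun k =>
    cb_closure E h1 h2 h3 Z (α k) (fun i => g k (ξ i)) (fun j => g k (η j))
      (fun i => hgcl k (ξ i)) (fun j => hgcl k (η j))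
  have hsum : HasSum (fun k => ∑ i : Fin n, ∑ j : Fin n,
      ⟪g k (ξ i), E (ent i j Z) (g k (η j))⟫_ℂ)
      (∑ i : Fin n, ∑ j : Fin n, ⟪ξ i, E (ent i j Z) (η j)⟫_ℂ) := by
    refine hasSum_sum fun i _ => hasSum_sum fun j _ => ?_
    have h := ((hgS (η j)).mapL (E (ent i j Z))).mapL (innerSL ℂ (ξ i))
    have hk : ∀ k, innerSL ℂ (ξ i) (E (ent i j Z) (g k (η j))) =
        ⟪g k (ξ i), E (ent i j Z) (g k (η j))⟫_ℂ := by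
      intro k
      have h4 : g k (η j) = g k (g k (η j)) := by
        have := congrArg (fun S : K →L[ℂ] K => S (η j)) (hgi k)
        exact this.symm
      have h5 : E (ent i j Z) (g k (g k (η j))) = g k (E (ent i j Z) (g k (η j))) := by
        have := congrArg (fun S : K →L[ℂ] K => S (g k (η j)))
          (mem_Com.mp (hgC k) _ (h2 (ent i j Z)))
        exact this
      show ⟪ξ i, E (ent i j Z) (g k (η j))⟫_ℂ = _
      conv_lhs => rw [h4, h5]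
      rw [← adjoint_inner_left, ← star_eq_adjoint, hgs]
    simp only [hk] at h
    exact h
  have hpar : ∀ (x : Fin n → K) (s : Finset ι), ∑ k ∈ s, ∑ i, ‖g k (x i)‖ ^ 2 ≤
      ∑ i, ‖x i‖ ^ 2 := by
    intro x s
    rw [Finset.sum_comm]
    refine Finset.sum_le_sum fun i _ => ?_
    exact sum_le_hasSum s (fun k _ => by positivity) (cb_parseval hgs hgi (hgS (x i)))
  refine le_of_tendsto (hsum.norm) (Eventually.of_forall fun s => ?_)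
  refine (norm_sum_le _ _).trans ((Finset.sum_le_sum fun k _ => hgk k).trans ?_)
  rw [← Finset.mul_sum]
  refine mul_le_mul_of_nonneg_left ?_ (norm_nonneg _)
  refine (Real.sum_mul_le_sqrt_mul_sqrt s _ _).trans ?_
  refine mul_le_mul (Real.sqrt_le_sqrt ?_) (Real.sqrt_le_sqrt ?_) (Real.sqrt_nonneg _)
    (Real.sqrt_nonneg _)
  · refine le_trans (le_of_eq ?_) (hpar ξ s)
    exact Finset.sum_congr rfl fun k _ => Real.sq_sqrt (Finset.sum_nonneg fun i _ => by positivity)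
  · refine le_trans (le_of_eq ?_) (hpar η s)
    exact Finset.sum_congr rfl fun k _ => Real.sq_sqrt (Finset.sum_nonneg fun i _ => by positivity)

end Pool.Agent.MP_86f3ed.Fac
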