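import Pool.Agent.H.MP_86f3ed_an.Fac.ATr

open scoped InnerProductSpace Topology
open Filter ContinuousLinearMap

namespace Pool.Agent.MP_86f3ed.Fac

open Pin Sf

variable {K : Type*} [NormedAddCommGroup K] [InnerProductSpace ℂ K] [CompleteSpace K]
  {𝔓 : StarSubalgebra ℂ (K →L[ℂ] K)}

/-- The norm of `amp x ζ` in terms of `star x * x`. -/
theorem cmp_inner (x : K →L[ℂ] K) (ζ : HH K) :
    ‖amp x ζ‖ ^ 2 = (⟪ζ, amp (star x * x) ζ⟫_ℂ).re := by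
  rw [amp_mul, amp_star]
  show _ = (⟪ζ, (star (amp x)) (amp x ζ)⟫_ℂ).re
  rw [star_eq_adjoint, adjoint_inner_right, inner_self_eq_norm_sq_to_K]
  norm_cast

theorem cmp_pr {p : K →L[ℂ] K} (hs : star p = p) (hi : p * p = p) (ζ : HH K) :
    ‖amp p ζ‖ ^ 2 = (⟪ζ, amp p ζ⟫_ℂ).re := by
  rw [cmp_inner, hs, hi]

/-- The mass of an initial projection. -/
theorem cmp_init {w p : K →L[ℂ] K} (hp : Pr 𝔓 p) (h : star w * w = p) (ζ : HH K) :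
    ‖amp p ζ‖ ^ 2 = ‖amp w ζ‖ ^ 2 := by
  rw [cmp_pr hp.sa hp.idem, cmp_inner, h]

theorem cmp_add {p q : K →L[ℂ] K} (hp : Pr 𝔓 p) (hq : Pr 𝔓 q) (h : p * q = 0) (ζ : HH K) :
    ‖amp (p + q) ζ‖ ^ 2 = ‖amp p ζ‖ ^ 2 + ‖amp q ζ‖ ^ 2 := by
  have h1 := Pr.add hp hq h
  rw [cmp_pr h1.sa h1.idem, cmp_pr hp.sa hp.idem, cmp_pr hq.sa hq.idem, amp_add, add_apply,
    inner_add_right, Complex.add_re]

theorem cmp_mono {p q : K →L[ℂ] K} (hp : Pr 𝔓 p) (hq : Pr 𝔓 q) (h : q * p = p) (ζ : HH K) :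
    ‖amp p ζ‖ ^ 2 ≤ ‖amp q ζ‖ ^ 2 := by
  have h1 := Pr.sub hq hp h
  have h2 : p * (q - p) = 0 := by
    rw [mul_sub, Pr.le_symm hq hp h, hp.idem, sub_self]
  have h3 := cmp_add hp h1 h2 ζ
  have h4 : p + (q - p) = q := by abel
  rw [h4] at h3
  rw [h3]
  nlinarith [sq_nonneg ‖amp (q - p) ζ‖]

/-- Equivalent projections have comparable masses. -/
theorem cmp_eqv {e : K →L[ℂ] K} {a : ℝ} {ζ : HH K} (hζ : ATr 𝔓 e a ζ)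
    {p q : K →L[ℂ] K} (hp : Pr 𝔓 p) (hq : Pr 𝔓 q) (hep : e * p = p) (heq : e * q = q)
    (he : Pr 𝔓 e) (h : Eqv 𝔓 p q) : ‖amp p ζ‖ ^ 2 ≤ a * ‖amp q ζ‖ ^ 2 := by
  obtain ⟨w, hw, h1, h2⟩ := h
  have hpi := pi_of hp.idem h1
  have hqw : q * w = w := by rw [← h2]; exact hpi.1
  have hew : e * w = w := by
    rw [← hqw, ← mul_assoc, heq]
  have hwe : w * e = w := by
    rw [← hpi.2, mul_assoc, Pr.le_symm he hp hep]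
  have h3 := hζ.tr w hw hew hwe
  rw [cmp_init hp h1, cmp_init (w := star w) hq (by rw [star_star]; exact h2)]
  exact h3

/-- The mass of a sum of pieces of a level. -/
theorem cmp_sum {e : K →L[ℂ] K} (h : Halver 𝔓 e) {k : ℕ} (ζ : HH K) (S : Finset (List Bool))
    (hS : S ⊆ lev k) : ‖amp (∑ l ∈ S, h.T l) ζ‖ ^ 2 = ∑ l ∈ S, ‖amp (h.T l) ζ‖ ^ 2 := by
  classical
  induction S using Finset.induction_on with
  | empty => simp [amp_zero]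
  | insert l S hl ih =>
    have hS' : S ⊆ lev k := fun x hx => hS (Finset.mem_insert_of_mem hx)
    have hl' : l ∈ lev k := hS (Finset.mem_insert_self l S)
    rw [Finset.sum_insert hl, Finset.sum_insert hl, cmp_add (h.T_pr l) (h.sum_pr S hS').1, ih hS']
    rw [Finset.mul_sum]
    refine Finset.sum_eq_zero fun l' hl'' => ?_
    refine h.lev_orth hl' (hS' hl'') ?_
    rintro rfl
    exact hl hl''

theorem cmp_level {e : K →L[ℂ] K} (h : Halver 𝔓 e) (k : ℕ) {a : ℝ} {ζ : HH K}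
    (hζ : ATr 𝔓 e a ζ) : ∑ l ∈ lev k, ‖amp (h.T l) ζ‖ ^ 2 = 1 := by
  rw [← cmp_sum h ζ (lev k) (Finset.Subset.refl _), h.lev_sum, hζ.e_ζ, hζ.norm_ζ]
  norm_num

/-- The pieces have mass at most `a / 2 ^ k`. -/
theorem cmp_piece_le (hF : Factor 𝔓) {e : K →L[ℂ] K} (hf : Fte 𝔓 e) (h : Halver 𝔓 e) (k : ℕ)
    {a : ℝ} {ζ : HH K} (hζ : ATr 𝔓 e a ζ) {l : List Bool} (hl : l ∈ lev k) :
    2 ^ k * ‖amp (h.T l) ζ‖ ^ 2 ≤ a := by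
  have h1 : ∀ l' ∈ lev k, ‖amp (h.T l) ζ‖ ^ 2 ≤ a * ‖amp (h.T l') ζ‖ ^ 2 := fun l' hl' =>
    cmp_eqv hζ (h.T_pr l) (h.T_pr l') (h.T_le l) (h.T_le l') h.pr (h.lev_eqv hF hf hl hl')
  have h2 := Finset.sum_le_sum h1
  rw [← Finset.mul_sum, cmp_level h k hζ, Finset.sum_const, card_lev, nsmul_eq_mul] at h2
  push_cast at h2
  linarith

/-- The pieces have mass at least `1 / (b 2 ^ k)`. -/
theorem cmp_le_piece (hF : Factor 𝔓) {e : K →L[ℂ] K} (hf : Fte 𝔓 e) (h : Halver 𝔓 e) (k : ℕ)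
    {b : ℝ} {ζ : HH K} (hζ : ATr 𝔓 e b ζ) {l : List Bool} (hl : l ∈ lev k) :
    1 ≤ 2 ^ k * (b * ‖amp (h.T l) ζ‖ ^ 2) := by
  have h1 : ∀ l' ∈ lev k, ‖amp (h.T l') ζ‖ ^ 2 ≤ b * ‖amp (h.T l) ζ‖ ^ 2 := fun l' hl' =>
    cmp_eqv hζ (h.T_pr l') (h.T_pr l) (h.T_le l') (h.T_le l) h.pr (h.lev_eqv hF hf hl' hl)
  have h2 := Finset.sum_le_sum h1
  rw [cmp_level h k hζ, Finset.sum_const, card_lev, nsmul_eq_mul] at h2
  push_cast at h2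
  linarith

/-- Comparison on projections up to an error. -/
theorem cmp_approx (hF : Factor 𝔓) {e : K →L[ℂ] K} (he : Pr 𝔓 e) (hf : Fte 𝔓 e)
    (h : Halver 𝔓 e) {a b : ℝ} (ha : 1 ≤ a) (hb : 1 ≤ b) {ζ ζ' : HH K} (hζ : ATr 𝔓 e a ζ)
    (hζ' : ATr 𝔓 e b ζ') {p : K →L[ℂ] K} (hp : Pr 𝔓 p) (hep : e * p = p) (k : ℕ) :
    ‖amp p ζ‖ ^ 2 ≤ a ^ 2 * b ^ 2 * ‖amp p ζ'‖ ^ 2 + a ^ 2 / 2 ^ k := by
  classical
  have hN : (0 : ℝ) < 2 ^ k := by positivity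
  let P : ℕ → Prop := fun j => ∃ S ⊆ lev k, S.card = j ∧
    ∃ p', Pr 𝔓 p' ∧ p * p' = p' ∧ Eqv 𝔓 (∑ l ∈ S, h.T l) p'
  have hP0 : P 0 := by
    refine ⟨∅, by simp, by simp, 0, Pr.zero, by simp, ?_⟩
    rw [Finset.sum_empty]
    exact Eqv.refl Pr.zero
  have hj := Nat.findGreatest_spec (P := P) (Nat.zero_le (2 ^ k)) hP0
  set j := Nat.findGreatest P (2 ^ k) with hjdef
  have hjle : j ≤ 2 ^ k := Nat.findGreatest_le _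
  obtain ⟨S, hS, hSc, p', hp', hpp', hS'⟩ := hj
  have ha2 : 0 ≤ a ^ 2 := sq_nonneg a
  have hb2 : 0 ≤ b ^ 2 := sq_nonneg b
  have hep' : e * p' = p' := by rw [← hpp', ← mul_assoc, hep]
  rcases hjle.eq_or_lt with hjN | hjN
  · -- all pieces fit
    have hSl : S = lev k := Finset.eq_of_subset_of_card_le hS (by rw [card_lev, hSc, hjN])
    rw [hSl, h.lev_sum] at hS'
    have h1 := Fte.eq_of he hf hp' hep' hS'
    rw [h1] at hpp'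
    have h2 := Pr.le_symm he hp hep
    rw [h2] at hpp'
    rw [hpp', hζ.e_ζ, hζ'.e_ζ, hζ.norm_ζ, hζ'.norm_ζ]
    have h3 : 1 ≤ a ^ 2 := one_le_pow₀ ha
    have h4 : 1 ≤ b ^ 2 := one_le_pow₀ hb
    have h5 : 0 ≤ a ^ 2 / 2 ^ k := by positivity
    nlinarith
  · -- one more piece does not fit
    obtain ⟨S₁, hS₁, hS₁c⟩ := Finset.exists_subset_card_eq
      (s := lev k) (n := j + 1) (by rw [card_lev]; omega)
    have hs₁ := h.sum_pr S₁ hS₁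
    have hs := h.sum_pr S hS
    have hnot : ¬ P (j + 1) :=
      Nat.findGreatest_is_greatest (P := P) (n := 2 ^ k) (k := j + 1) (Nat.lt_succ_self j) hjN
    rcases comparison' hF hp hs₁.1 with ⟨q', hq', hqq', hpq⟩ | ⟨p'', hp'', hpp'', hsp⟩
    · have heq' : e * q' = q' := by rw [← hqq', ← mul_assoc, hs₁.2.1]
      have h1 : ‖amp p ζ‖ ^ 2 ≤ a * ‖amp q' ζ‖ ^ 2 := cmp_eqv hζ hp hq' hep heq' he hpq
      have h2 : ‖amp q' ζ‖ ^ 2 ≤ ‖amp (∑ l ∈ S₁, h.T l) ζ‖ ^ 2 := cmp_mono hq' hs₁.1 hqq' ζ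
      rw [cmp_sum h ζ S₁ hS₁] at h2
      have h3 : ∑ l ∈ S₁, ‖amp (h.T l) ζ‖ ^ 2 ≤ (j + 1) * (a / 2 ^ k) := by
        refine (Finset.sum_le_card_nsmul S₁ _ (a / 2 ^ k) fun l hl => ?_).trans (le_of_eq ?_)
        · rw [le_div_iff₀ hN, mul_comm]
          exact cmp_piece_le hF hf h k hζ (hS₁ hl)
        · rw [hS₁c, nsmul_eq_mul]
          push_cast
          ring
      have h4 : ‖amp (∑ l ∈ S, h.T l) ζ'‖ ^ 2 ≤ b * ‖amp p' ζ'‖ ^ 2 :=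
        cmp_eqv hζ' hs.1 hp' hs.2.1 hep' he hS'
      have h5 : ‖amp p' ζ'‖ ^ 2 ≤ ‖amp p ζ'‖ ^ 2 := cmp_mono hp' hp hpp' ζ'
      rw [cmp_sum h ζ' S hS] at h4
      have h6 : (j : ℝ) ≤ 2 ^ k * (b * ∑ l ∈ S, ‖amp (h.T l) ζ'‖ ^ 2) := by
        have h7 : ∑ l ∈ S, (1 : ℝ) ≤ ∑ l ∈ S, 2 ^ k * (b * ‖amp (h.T l) ζ'‖ ^ 2) :=
          Finset.sum_le_sum fun l hl => cmp_le_piece hF hf h k hζ' (hS hl)
        rw [← Finset.mul_sum, ← Finset.mul_sum, Finset.sum_const, hSc, nsmul_eq_mul, mul_one] at h7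
        exact h7
      have hb0 : 0 ≤ b := by linarith
      have ha0 : 0 ≤ a := by linarith
      have h8 : (j : ℝ) ≤ 2 ^ k * (b ^ 2 * ‖amp p ζ'‖ ^ 2) := by
        refine h6.trans (mul_le_mul_of_nonneg_left ?_ hN.le)
        calc b * ∑ l ∈ S, ‖amp (h.T l) ζ'‖ ^ 2 ≤ b * (b * ‖amp p ζ'‖ ^ 2) := by
              refine mul_le_mul_of_nonneg_left (h4.trans ?_) hb0
              exact mul_le_mul_of_nonneg_left h5 hb0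
          _ = b ^ 2 * ‖amp p ζ'‖ ^ 2 := by ring
      have h9 : (j : ℝ) / 2 ^ k ≤ b ^ 2 * ‖amp p ζ'‖ ^ 2 := by
        rw [div_le_iff₀ hN]
        linarith
      calc ‖amp p ζ‖ ^ 2 ≤ a * ‖amp q' ζ‖ ^ 2 := h1
        _ ≤ a * ((j + 1) * (a / 2 ^ k)) := mul_le_mul_of_nonneg_left (h2.trans h3) ha0
        _ = a ^ 2 * (j / 2 ^ k) + a ^ 2 / 2 ^ k := by ring
        _ ≤ a ^ 2 * (b ^ 2 * ‖amp p ζ'‖ ^ 2) + a ^ 2 / 2 ^ k := by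
            gcongr
        _ = a ^ 2 * b ^ 2 * ‖amp p ζ'‖ ^ 2 + a ^ 2 / 2 ^ k := by ring
    · exact absurd ⟨S₁, hS₁, hS₁c, p'', hp'', hpp'', hsp⟩ hnot

/-- Comparison on projections. -/
theorem cmp_proj (hF : Factor 𝔓) {e : K →L[ℂ] K} (he : Pr 𝔓 e) (hf : Fte 𝔓 e) (hn : NoMin 𝔓 e)
    {a b : ℝ} (ha : 1 ≤ a) (hb : 1 ≤ b) {ζ ζ' : HH K} (hζ : ATr 𝔓 e a ζ)
    (hζ' : ATr 𝔓 e b ζ') {p : K →L[ℂ] K} (hp : Pr 𝔓 p) (hep : e * p = p) :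
    ‖amp p ζ‖ ^ 2 ≤ a ^ 2 * b ^ 2 * ‖amp p ζ'‖ ^ 2 := by
  obtain ⟨h⟩ := exists_halver hF hn he
  refine le_of_forall_pos_le_add fun ε hε => ?_
  have h1 : Tendsto (fun k : ℕ => a ^ 2 / (2 : ℝ) ^ k) atTop (𝓝 0) := by
    refine Tendsto.div_atTop tendsto_const_nhds ?_
    exact tendsto_pow_atTop_atTop_of_one_lt (by norm_num)
  obtain ⟨k, hk⟩ := (h1.eventually (gt_mem_nhds hε)).exists
  exact (cmp_approx hF he hf h ha hb hζ hζ' hp hep k).trans (by linarith)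

/-- The vector functional. -/
noncomputable def cmp_fun (ζ : HH K) : (K →L[ℂ] K) →ₗ[ℂ] ℂ where
  toFun S := ⟪ζ, amp S ζ⟫_ℂ
  map_add' S S' := by rw [amp_add, add_apply, inner_add_right]
  map_smul' c S := by
    rw [amp_smul, smul_apply, inner_smul_right, RingHom.id_apply, smul_eq_mul]

theorem cmp_fun_le {ζ : HH K} (hζ : ‖ζ‖ = 1) (S : K →L[ℂ] K) : ‖cmp_fun ζ S‖ ≤ 1 * ‖S‖ := by
  show ‖⟪ζ, amp S ζ⟫_ℂ‖ ≤ 1 * ‖S‖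
  refine (norm_inner_le_norm _ _).trans ?_
  rw [hζ]
  have h1 := (amp S).le_opNorm ζ
  rw [hζ, mul_one] at h1
  have h2 := norm_amp_le S
  linarith

/-- Comparison of two almost traces. -/
theorem ATr.le (hF : Factor 𝔓) {e : K →L[ℂ] K} (he : Pr 𝔓 e) (hf : Fte 𝔓 e) (hn : NoMin 𝔓 e)
    {a b : ℝ} (ha : 1 ≤ a) (hb : 1 ≤ b) {ζ ζ' : HH K} (hζ : ATr 𝔓 e a ζ) (hζ' : ATr 𝔓 e b ζ')
    {x : K →L[ℂ] K} (hx : x ∈ Com 𝔓) (hxe : x * e = x) :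
    ‖amp x ζ‖ ^ 2 ≤ a ^ 2 * b ^ 2 * ‖amp x ζ'‖ ^ 2 := by
  have h1 := layer_le' (𝔓 := 𝔓) (a := a ^ 2 * b ^ 2) (C := 1) (by positivity)
    (φ := cmp_fun ζ) (ψ := cmp_fun ζ') (cmp_fun_le hζ.norm_ζ) (cmp_fun_le hζ'.norm_ζ) he.sa
    (fun p hp hep => by
      show (⟪ζ, amp p ζ⟫_ℂ).re ≤ a ^ 2 * b ^ 2 * (⟪ζ', amp p ζ'⟫_ℂ).re
      rw [← cmp_pr hp.sa hp.idem, ← cmp_pr hp.sa hp.idem]
      exact cmp_proj hF he hf hn ha hb hζ hζ' hp hep) hx hxe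
  have h2 : (⟪ζ, amp (star x * x) ζ⟫_ℂ).re ≤ a ^ 2 * b ^ 2 * (⟪ζ', amp (star x * x) ζ'⟫_ℂ).re := h1
  rw [← cmp_inner, ← cmp_inner] at h2
  exact h2

end Pool.Agent.MP_86f3ed.Fac
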