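import Pool.Agent.H.MP_86f3ed_an.Fac.Ind

open scoped InnerProductSpace Topology
open Filter ContinuousLinearMap

namespace Pool.Agent.MP_86f3ed.Fac

open Pin Sf

universe u v

variable {K : Type v} [NormedAddCommGroup K] [InnerProductSpace ℂ K] [CompleteSpace K]
  {A : Type u} [NonUnitalCStarAlgebra A]

theorem Cov_mem {ρ : A →⋆ₙₐ[ℂ] (K →L[ℂ] K)} {y : K →L[ℂ] K} :
    y ∈ Com (rangeAlg ρ) ↔ ∀ a, ρ a * y = y * ρ a := by
  rw [← SetLike.mem_coe, Com_rangeAlg, Set.mem_centralizer_iff]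
  constructor
  · intro h a
    exact h _ ⟨a, rfl⟩
  · rintro h _ ⟨a, rfl⟩
    exact h a

theorem Cov_memA {ρ : A →⋆ₙₐ[ℂ] (K →L[ℂ] K)} {z : HH K →L[ℂ] HH K} :
    z ∈ Com (Ampl (rangeAlg ρ)) ↔ ∀ a, amp (ρ a) * z = z * amp (ρ a) := by
  rw [mem_Com]
  constructor
  · intro h a
    exact h _ (mem_Ampl.2 ⟨ρ a, mem_rangeAlg.2 ⟨0, a, by simp⟩, rfl⟩)
  · intro h y hy
    obtain ⟨b, hb, rfl⟩ := mem_Ampl.1 hy
    obtain ⟨c, a, rfl⟩ := mem_rangeAlg.1 hb
    rw [amp_add, amp_smul, amp_one, add_mul, mul_add, h a, smul_mul_assoc, mul_smul_comm, one_mul,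
      mul_one]

/-- The intertwining relation for the adjoint. -/
theorem Cov_adj {X : Type v} [NormedAddCommGroup X] [InnerProductSpace ℂ X] [CompleteSpace X]
    {ρ : A →⋆ₙₐ[ℂ] (K →L[ℂ] K)} {σ : A →⋆ₙₐ[ℂ] (X →L[ℂ] X)} {F : K →L[ℂ] HH X}
    (hFa : ∀ a x, F (ρ a x) = amp (σ a) (F x)) (a : A) (z : HH X) :
    ρ a (adjoint F z) = adjoint F (amp (σ a) z) := by
  refine ext_inner_left ℂ fun w => ?_
  have h1 : ρ a = star (ρ (star a)) := by rw [map_star, star_star]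
  have h2 : amp (σ a) = star (amp (σ (star a))) := by rw [map_star, amp_star, star_star]
  rw [adjoint_inner_right, h1, h2, star_eq_adjoint, star_eq_adjoint, adjoint_inner_right,
    adjoint_inner_right, adjoint_inner_right, hFa]

theorem Cov_id {X : Type v} [NormedAddCommGroup X] [InnerProductSpace ℂ X] [CompleteSpace X]
    {F : K →L[ℂ] HH X} (hF : (adjoint F).comp F = 1) (x : K) : adjoint F (F x) = x := by
  have h := congrArg (fun f : K →L[ℂ] K => f x) hF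
  exact h

theorem Cov_norm {X : Type v} [NormedAddCommGroup X] [InnerProductSpace ℂ X] [CompleteSpace X]
    {F : K →L[ℂ] HH X} (hF : (adjoint F).comp F = 1) : ‖F‖ ≤ 1 ∧ ‖adjoint F‖ ≤ 1 := by
  have h1 : ‖F‖ ≤ 1 := by
    refine F.opNorm_le_bound zero_le_one fun x => ?_
    rw [one_mul]
    have h2 : ⟪F x, F x⟫_ℂ = ⟪x, x⟫_ℂ := by
      rw [← adjoint_inner_right, Cov_id hF]
    have h3 : ‖F x‖ ^ 2 = ‖x‖ ^ 2 := by
      rw [inner_self_eq_norm_sq_to_K, inner_self_eq_norm_sq_to_K] at h2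
      exact_mod_cast h2
    exact ((sq_eq_sq₀ (norm_nonneg _) (norm_nonneg _)).1 h3).le
  exact ⟨h1, by rw [LinearIsometryEquiv.norm_map]; exact h1⟩

/-- Operators in the commutant of a subrepresentation of a multiple. -/
theorem Cov_up {X : Type v} [NormedAddCommGroup X] [InnerProductSpace ℂ X] [CompleteSpace X]
    {ρ : A →⋆ₙₐ[ℂ] (K →L[ℂ] K)} {σ : A →⋆ₙₐ[ℂ] (X →L[ℂ] X)} {F : K →L[ℂ] HH X}
    (hFa : ∀ a x, F (ρ a x) = amp (σ a) (F x)) {y : K →L[ℂ] K} (hy : y ∈ Com (rangeAlg ρ)) :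
    F.comp (y.comp (adjoint F)) ∈ Com (Ampl (rangeAlg σ)) := by
  rw [Cov_memA]
  intro a
  refine ContinuousLinearMap.ext fun z => ?_
  show amp (σ a) (F (y (adjoint F z))) = F (y (adjoint F (amp (σ a) z)))
  have h1 : ρ a (y (adjoint F z)) = y (ρ a (adjoint F z)) :=
    congrArg (fun f : K →L[ℂ] K => f (adjoint F z)) (Cov_mem.1 hy a)
  rw [← hFa, h1, Cov_adj hFa]

theorem Cov_down {X : Type v} [NormedAddCommGroup X] [InnerProductSpace ℂ X] [CompleteSpace X]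
    {ρ : A →⋆ₙₐ[ℂ] (K →L[ℂ] K)} {σ : A →⋆ₙₐ[ℂ] (X →L[ℂ] X)} {F : K →L[ℂ] HH X}
    (hFa : ∀ a x, F (ρ a x) = amp (σ a) (F x)) {z : HH X →L[ℂ] HH X}
    (hz : z ∈ Com (Ampl (rangeAlg σ))) :
    (adjoint F).comp (z.comp F) ∈ Com (rangeAlg ρ) := by
  rw [Cov_mem]
  intro a
  refine ContinuousLinearMap.ext fun x => ?_
  show ρ a (adjoint F (z (F x))) = adjoint F (z (F (ρ a x)))
  have h1 : amp (σ a) (z (F x)) = z (amp (σ a) (F x)) :=
    congrArg (fun f : HH X →L[ℂ] HH X => f (F x)) (Cov_memA.1 hz a)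
  rw [Cov_adj hFa, h1, hFa]

/-- Transfer of injectivity to a subrepresentation of a multiple. -/
theorem inj_of_cover {X : Type v} [NormedAddCommGroup X] [InnerProductSpace ℂ X] [CompleteSpace X]
    (ρ : A →⋆ₙₐ[ℂ] (K →L[ℂ] K)) (σ : A →⋆ₙₐ[ℂ] (X →L[ℂ] X)) (F : K →L[ℂ] HH X)
    (hF : (adjoint F).comp F = 1) (hFa : ∀ a x, F (ρ a x) = amp (σ a) (F x))
    (h : IsInjective (Com (rangeAlg σ) : Set (X →L[ℂ] X))) :
    IsInjective (Com (rangeAlg ρ) : Set (K →L[ℂ] K)) := by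
  obtain ⟨E', hE1, hE2, hE3⟩ := inj_ampl h
  obtain ⟨hF1, hG1⟩ := Cov_norm hF
  let E : (K →L[ℂ] K) →ₗ[ℂ] (K →L[ℂ] K) :=
    { toFun := fun S => (adjoint F).comp ((E' (F.comp (S.comp (adjoint F)))).comp F)
      map_add' := by
        intro S S'
        rw [add_comp, comp_add, map_add, add_comp, comp_add]
      map_smul' := by
        intro c S
        rw [RingHom.id_apply, smul_comp, comp_smul, map_smul, smul_comp, comp_smul] }
  refine ⟨E, fun S => ?_, fun S => ?_, fun S hS => ?_⟩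
  · show ‖(adjoint F).comp ((E' (F.comp (S.comp (adjoint F)))).comp F)‖ ≤ ‖S‖
    have h1 : ‖F.comp (S.comp (adjoint F))‖ ≤ ‖S‖ := by
      calc ‖F.comp (S.comp (adjoint F))‖ ≤ ‖F‖ * ‖S.comp (adjoint F)‖ := opNorm_comp_le _ _
        _ ≤ 1 * (‖S‖ * 1) := by
            refine mul_le_mul hF1 ((opNorm_comp_le _ _).trans ?_) (norm_nonneg _) zero_le_one
            exact mul_le_mul_of_nonneg_left hG1 (norm_nonneg _)
        _ = ‖S‖ := by ring
    calc ‖(adjoint F).comp ((E' (F.comp (S.comp (adjoint F)))).comp F)‖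
        ≤ ‖adjoint F‖ * ‖(E' (F.comp (S.comp (adjoint F)))).comp F‖ := opNorm_comp_le _ _
      _ ≤ 1 * (‖S‖ * 1) := by
          refine mul_le_mul hG1 ((opNorm_comp_le _ _).trans ?_) (norm_nonneg _) zero_le_one
          exact mul_le_mul ((hE1 _).trans h1) hF1 (norm_nonneg _) (norm_nonneg _)
      _ = ‖S‖ := by ring
  · exact Cov_down hFa (hE2 _)
  · show (adjoint F).comp ((E' (F.comp (S.comp (adjoint F)))).comp F) = S
    rw [hE3 _ (Cov_up hFa hS)]
    refine ContinuousLinearMap.ext fun x => ?_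
    show adjoint F (F (S (adjoint F (F x)))) = S x
    rw [Cov_id hF, Cov_id hF]

/-- The bicommutant of a subrepresentation consists of the compressions of the bicommutant. -/
theorem Sub.exists_bic {ρ : A →⋆ₙₐ[ℂ] (K →L[ℂ] K)} {W : Submodule ℂ K} [CompleteSpace W]
    {σ : A →⋆ₙₐ[ℂ] (W →L[ℂ] W)} (h : Sub ρ W σ) (F : K →L[ℂ] HH W)
    (hF : (adjoint F).comp F = 1) (hFa : ∀ a x, F (ρ a x) = amp (σ a) (F x)) {T : W →L[ℂ] W}
    (hT : T ∈ Com (Com (rangeAlg σ))) : ∃ m ∈ Com (Com (rangeAlg ρ)), cmp W m = T := by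
  have hamp : amp T ∈ Com (Com (Ampl (rangeAlg σ))) := mem_Com_Com_amp.2 ⟨T, hT, rfl⟩
  refine ⟨(adjoint F).comp ((amp T).comp F), ?_, ?_⟩
  · rw [mem_Com]
    intro y hy
    have h1 := mem_Com.1 hamp _ (Cov_up hFa hy)
    refine ContinuousLinearMap.ext fun x => ?_
    show y (adjoint F (amp T (F x))) = adjoint F (amp T (F (y x)))
    have h2 : F (y (adjoint F (amp T (F x)))) = amp T (F (y (adjoint F (F x)))) :=
      congrArg (fun f : HH W →L[ℂ] HH W => f (F x)) h1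
    rw [Cov_id hF] at h2
    rw [← h2, Cov_id hF]
  · have hP : ∀ i, (pr i).comp (F.comp W.subtypeL) ∈ Com (rangeAlg σ) := by
      intro i
      rw [Cov_mem]
      intro a
      refine ContinuousLinearMap.ext fun w => ?_
      show σ a (pr i (F (w : K))) = pr i (F ((σ a w : W) : K))
      rw [h.coe, hFa, pr_amp]
    have hTP : ∀ i (w : W), pr i (F ((T w : W) : K)) = T (pr i (F (w : K))) := by
      intro i w
      exact congrArg (fun f : W →L[ℂ] W => f w) (mem_Com.1 hT _ (hP i))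
    refine ContinuousLinearMap.ext fun w => ?_
    show W.orthogonalProjectionOnto (adjoint F (amp T (F (w : K)))) = T w
    have h1 : amp T (F (w : K)) = F ((T w : W) : K) := by
      refine ext_pr fun i => ?_
      rw [pr_amp, hTP]
    rw [h1, Cov_id hF, Submodule.orthogonalProjectionOnto_mem_subspace_eq_self]

end Pool.Agent.MP_86f3ed.Fac
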