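import Pool.Agent.H.MP_86f3ed_an.Fac.TreeB
import Pool.Agent.H.MP_86f3ed_an.Fac.Arch

open scoped InnerProductSpace Topology
open Filter ContinuousLinearMap

namespace Pool.Agent.MP_86f3ed.Fac

open Pin Sf

variable {K : Type*} [NormedAddCommGroup K] [InnerProductSpace ℂ K] [CompleteSpace K]
  {𝔓 : StarSubalgebra ℂ (K →L[ℂ] K)}

open Classical in
/-- There is a choice of halves. -/
theorem exists_halver (hF : Factor 𝔓) {e : K →L[ℂ] K} (hn : NoMin 𝔓 e) (he : Pr 𝔓 e) :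
    Nonempty (Halver 𝔓 e) := by
  have key : ∀ r : K →L[ℂ] K, ∃ v : K →L[ℂ] K, Pr 𝔓 r → e * r = r →
      v ∈ Com 𝔓 ∧ v * star v * v = v ∧ v * v = 0 ∧ star v * v + v * star v = r := by
    intro r
    by_cases hr : Pr 𝔓 r ∧ e * r = r
    · obtain ⟨v, hv, h1, h2, h3⟩ := halve hF hn he hr.1 hr.2
      exact ⟨v, fun _ _ => ⟨hv, h1, h2, h3⟩⟩
    · exact ⟨0, fun h1 h2 => absurd ⟨h1, h2⟩ hr⟩
  choose v hv using key
  exact ⟨⟨he, v, fun r h1 h2 => (hv r h1 h2).1, fun r h1 h2 => (hv r h1 h2).2.1,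
    fun r h1 h2 => (hv r h1 h2).2.2.1, fun r h1 h2 => (hv r h1 h2).2.2.2⟩⟩

/-- For large `k` the pieces of level `k` are smaller than a given nonzero projection. -/
theorem exists_small (hF : Factor 𝔓) {e r : K →L[ℂ] K} (hf : Fte 𝔓 e) (h : Halver 𝔓 e)
    (hr : Pr 𝔓 r) (her : e * r = r) (hr0 : r ≠ 0) :
    ∃ k : ℕ, ∀ l ∈ lev k, ∃ r', Pr 𝔓 r' ∧ r * r' = r' ∧ Eqv 𝔓 (h.T l) r' := by
  obtain ⟨n, hn⟩ := arch hF h.pr hf hr hr0
  refine ⟨n, fun l hl => ?_⟩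
  rcases comparison' hF (h.T_pr l) hr with h1 | ⟨p', hp', hp1, hp2⟩
  · exact h1
  exfalso
  have key : ∀ l' : {x // x ∈ lev n}, ∃ q', Pr 𝔓 q' ∧ h.T l'.1 * q' = q' ∧ Eqv 𝔓 r q' := by
    intro l'
    obtain ⟨q', hq1, hq2, hq3⟩ := Eqv.sub (h.T_pr l) (h.T_pr l'.1) hp'
      (h.lev_eqv hF hf hl l'.2) hp1
    exact ⟨q', hq1, hq2, Eqv.trans hr hp' hp2 hq3⟩
  choose q hq1 hq2 hq3 using key
  let φ := ((lev n).equivFinOfCardEq (card_lev n)).symm
  have := hn (2 ^ n) (fun i => q (φ i)) (fun i => hq1 _) (fun i => ?_) (fun i j hij => ?_)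
    (fun i => hq3 _)
  · exact absurd this (not_le.mpr Nat.lt_two_pow_self)
  · show e * q (φ i) = q (φ i)
    rw [← hq2 (φ i), ← mul_assoc, h.T_le]
  · show q (φ i) * q (φ j) = 0
    have hne : (φ i).1 ≠ (φ j).1 := fun hh => hij (φ.injective (Subtype.ext hh))
    have h1 := Pr.le_symm (h.T_pr (φ i).1) (hq1 (φ i)) (hq2 (φ i))
    calc q (φ i) * q (φ j) = (q (φ i) * h.T (φ i).1) * (h.T (φ j).1 * q (φ j)) := by
          rw [h1, hq2]
      _ = q (φ i) * (h.T (φ i).1 * h.T (φ j).1) * q (φ j) := by simp only [mul_assoc]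
      _ = 0 := by rw [h.lev_orth (φ i).2 (φ j).2 hne, mul_zero, zero_mul]

/-- Division of `e` into copies of a small projection. -/
theorem exists_div (hF : Factor 𝔓) {e r : K →L[ℂ] K} (hn : NoMin 𝔓 e) (he : Pr 𝔓 e)
    (hf : Fte 𝔓 e) (hr : Pr 𝔓 r) (her : e * r = r) (hr0 : r ≠ 0) :
    ∃ (p : K →L[ℂ] K) (n : ℕ) (v : Fin n → K →L[ℂ] K), Pr 𝔓 p ∧ r * p = p ∧ p ≠ 0 ∧
      (∀ i, v i ∈ Com 𝔓) ∧ (∀ i, v i * p = v i) ∧ (∀ i, star (v i) * v i = p) ∧
      ∑ i, v i * star (v i) = e := by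
  obtain ⟨h⟩ := exists_halver hF hn he
  obtain ⟨k, hk⟩ := exists_small hF hf h hr her hr0
  have hl0 : List.replicate k false ∈ lev k := mem_lev.mpr List.length_replicate
  obtain ⟨p, hp, hrp, hEq⟩ := hk _ hl0
  have he0 : e ≠ 0 := by
    intro hh
    apply hr0
    rw [← her, hh, zero_mul]
  have hp0 : p ≠ 0 := fun hh => h.T_ne he0 _ (hEq.zero_iff.mpr hh)
  obtain ⟨u, hu, hu1, hu2⟩ := hEq
  have key : ∀ l : {x // x ∈ lev k}, ∃ v : K →L[ℂ] K, v ∈ Com 𝔓 ∧ star v * v = p ∧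
      v * star v = h.T l.1 := by
    intro l
    obtain ⟨w, hw, hw1, hw2⟩ := h.lev_eqv hF hf hl0 l.2
    refine ⟨w * star u, mul_mem hw (star_mem hu), ?_, ?_⟩
    · calc star (w * star u) * (w * star u) = u * (star w * w) * star u := by
            rw [star_mul, star_star]; simp only [mul_assoc]
        _ = (u * star u) * (u * star u) := by rw [hw1, ← hu1]; simp only [mul_assoc]
        _ = p := by rw [hu2, hp.idem]
    · calc w * star u * star (w * star u) = w * (star u * u) * star w := by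
            rw [star_mul, star_star]; simp only [mul_assoc]
        _ = (w * star w) * (w * star w) := by rw [hu1, ← hw1]; simp only [mul_assoc]
        _ = h.T l.1 := by rw [hw2, (h.T_pr l.1).idem]
  choose v hv1 hv2 hv3 using key
  let φ := ((lev k).equivFin).symm
  refine ⟨p, (lev k).card, fun i => v (φ i), hp, hrp, hp0, fun i => hv1 _,
    fun i => (pi_of hp.idem (hv2 (φ i))).2, fun i => hv2 _, ?_⟩
  calc ∑ i, v (φ i) * star (v (φ i)) = ∑ i, h.T (φ i).1 :=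
        Finset.sum_congr rfl fun i _ => hv3 (φ i)
    _ = ∑ l : {x // x ∈ lev k}, h.T l.1 := φ.sum_comp (fun l => h.T l.1)
    _ = ∑ l ∈ lev k, h.T l := Finset.sum_coe_sort (lev k) (fun l => h.T l)
    _ = e := h.lev_sum k

end Pool.Agent.MP_86f3ed.Fac
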