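import Pool.Agent.H.MP_86f3ed_an.Fac.Base

open scoped InnerProductSpace Topology
open Filter ContinuousLinearMap

namespace Pool.Agent.MP_86f3ed.Fac

open Pin Sf

universe u

variable {K : Type u} [NormedAddCommGroup K] [InnerProductSpace ℂ K] [CompleteSpace K]
  {𝔓 : StarSubalgebra ℂ (K →L[ℂ] K)}

/-- families of partial isometries with orthogonal supports -/
def Exh_good (𝔓 : StarSubalgebra ℂ (K →L[ℂ] K)) (e : K →L[ℂ] K) (A : (K →L[ℂ] K) → Prop) :
    Set (Set (K →L[ℂ] K)) :=
  {F | (∀ w ∈ F, w ∈ Com 𝔓 ∧ A w ∧ w ≠ 0 ∧ w * star w * w = w ∧ e * w = w ∧ w * e = w ∧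
      w * w = 0) ∧
    ∀ w ∈ F, ∀ w' ∈ F, w ≠ w' → w * w' = 0 ∧ star w * w' = 0 ∧ w * star w' = 0}

theorem Exh_zorn (𝔓 : StarSubalgebra ℂ (K →L[ℂ] K)) (e : K →L[ℂ] K)
    (A : (K →L[ℂ] K) → Prop) : ∃ F, Maximal (· ∈ Exh_good 𝔓 e A) F := by
  refine zorn_subset _ fun c hc hch => ⟨⋃₀ c, ⟨?_, ?_⟩, fun s hs => Set.subset_sUnion_of_mem hs⟩
  · rintro w ⟨s, hs, hw⟩
    exact (hc hs).1 w hw
  · rintro w ⟨s, hs, hw⟩ w' ⟨s', hs', hw'⟩ hne
    rcases hch.total hs hs' with h | h
    · exact (hc hs').2 w (h hw) w' hw' hne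
    · exact (hc hs).2 w hw w' (h hw') hne

/-- Exhaustion: if every nonzero subprojection `r` of `e` contains a nonzero partial isometry `w`
with the property `A` between two orthogonal subprojections of `r` then `e` is the sum of the
initial and the final projection of an orthogonal sum of such partial isometries. -/
theorem exhaust {e : K →L[ℂ] K} (he : Pr 𝔓 e) (A : (K →L[ℂ] K) → Prop)
    (h : ∀ r, Pr 𝔓 r → e * r = r → r ≠ 0 → ∃ w ∈ Com 𝔓, A w ∧ w ≠ 0 ∧ w * star w * w = w ∧
      r * w = w ∧ w * r = w ∧ w * w = 0) :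
    ∃ (ι : Type u) (w : ι → K →L[ℂ] K), (∀ i, w i ∈ Com 𝔓 ∧ A (w i)) ∧
      ∃ v ∈ Com 𝔓, v * star v * v = v ∧ v * v = 0 ∧ star v * v + v * star v = e ∧
        (∀ x, HasSum (fun i => (star (w i) * w i) x) ((star v * v) x)) ∧
        ∀ x, HasSum (fun i => (w i * star (w i)) x) ((v * star v) x) := by
  obtain ⟨F, hF⟩ := Exh_zorn 𝔓 e A
  obtain ⟨hF1, hF2⟩ := hF.1
  obtain ⟨v, hv, hvs, hv1, hv2, hvv⟩ := exists_osum (fun i : F => (i : K →L[ℂ] K))
    (fun i => (hF1 i.1 i.2).2.2.2.1)
    (fun i j hij => (hF2 i.1 i.2 j.1 j.2 (fun h => hij (Subtype.ext h))).2.1)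
    (fun i j hij => (hF2 i.1 i.2 j.1 j.2 (fun h => hij (Subtype.ext h))).2.2)
  have hvm : v ∈ Com 𝔓 := osum_mem 𝔓 _ (fun i : F => (hF1 i.1 i.2).1) hv
  have hve : v * e = v := by
    ext x
    refine (hv (e x)).unique ?_
    have h1 : (fun i : F => (i : K →L[ℂ] K) (e x)) = fun i : F => (i : K →L[ℂ] K) x := by
      funext i
      exact congrArg (fun S : K →L[ℂ] K => S x) (hF1 i.1 i.2).2.2.2.2.2.1
    rw [h1]
    exact hv x
  have hev : e * v = v := by
    ext x
    have h2 := e.hasSum (hv x)
    have h1 : (fun i : F => e ((i : K →L[ℂ] K) x)) = fun i : F => (i : K →L[ℂ] K) x := by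
      funext i
      exact congrArg (fun S : K →L[ℂ] K => S x) (hF1 i.1 i.2).2.2.2.2.1
    rw [h1] at h2
    exact h2.unique (hv x)
  have hesv : e * star v = star v := by
    have := congrArg star hve
    rwa [star_mul, he.sa] at this
  have hsve : star v * e = star v := by
    have := congrArg star hev
    rwa [star_mul, he.sa] at this
  -- sums tested against members
  have hww : ∀ u ∈ F, ∀ i : F, (i : K →L[ℂ] K) * u = 0 := by
    intro u hu i
    by_cases hi : (i : K →L[ℂ] K) = u
    · rw [hi]; exact (hF1 u hu).2.2.2.2.2.2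
    · exact (hF2 i.1 i.2 u hu hi).1
  have k0 : ∀ u ∈ F, v * u = 0 := by
    intro u hu
    ext x
    have h1 : (fun i : F => (i : K →L[ℂ] K) (u x)) = fun _ => (0 : K) := by
      funext i
      exact congrArg (fun S : K →L[ℂ] K => S x) (hww u hu i)
    have h2 := hv (u x)
    rw [h1] at h2
    exact h2.unique hasSum_zero
  have k0' : ∀ u ∈ F, u * v = 0 := by
    intro u hu
    ext x
    have h2 := u.hasSum (hv x)
    have h1 : (fun i : F => u ((i : K →L[ℂ] K) x)) = fun _ => (0 : K) := by
      funext i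
      by_cases hi : u = (i : K →L[ℂ] K)
      · have h3 : u * (i : K →L[ℂ] K) = 0 := by
          rw [← hi]; exact (hF1 u hu).2.2.2.2.2.2
        exact congrArg (fun S : K →L[ℂ] K => S x) h3
      · exact congrArg (fun S : K →L[ℂ] K => S x) (hF2 u hu i.1 i.2 hi).1
    rw [h1] at h2
    exact h2.unique hasSum_zero
  have k1 : ∀ u ∈ F, v * star u = u * star u := by
    intro u hu
    ext x
    refine (hv (star u x)).unique ?_
    have h1 := hasSum_single (f := fun i : F => (i : K →L[ℂ] K) (star u x)) ⟨u, hu⟩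
      (fun i hi => by
        have := (hF2 i.1 i.2 u hu (fun h => hi (Subtype.ext h))).2.2
        exact congrArg (fun S : K →L[ℂ] K => S x) this)
    exact h1
  have k2 : ∀ u ∈ F, star v * u = star u * u := by
    intro u hu
    ext x
    refine (hvs (u x)).unique ?_
    have h1 := hasSum_single (f := fun i : F => star (i : K →L[ℂ] K) (u x)) ⟨u, hu⟩
      (fun i hi => by
        have := (hF2 i.1 i.2 u hu (fun h => hi (Subtype.ext h))).2.1
        exact congrArg (fun S : K →L[ℂ] K => S x) this)
    exact h1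
  have hv0 : v * v = 0 := by
    ext x
    have h2 := v.hasSum (hv x)
    have h1 : (fun i : F => v ((i : K →L[ℂ] K) x)) = fun _ => (0 : K) := by
      funext i
      exact congrArg (fun S : K →L[ℂ] K => S x) (k0 i.1 i.2)
    rw [h1] at h2
    exact h2.unique hasSum_zero
  have hsv0 : star v * star v = 0 := by
    have := congrArg star hv0
    rwa [star_mul, star_zero] at this
  refine ⟨F, fun i => (i : K →L[ℂ] K), fun i => ⟨(hF1 i.1 i.2).1, (hF1 i.1 i.2).2.1⟩, v, hvm,
    hvv, hv0, ?_, hv1, hv2⟩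
  have hvsm : star v ∈ Com 𝔓 := star_mem hvm
  have hsvv : star v * v * star v = star v := by
    have := congrArg star hvv
    rwa [star_mul, star_mul, star_star, ← mul_assoc] at this
  set r : K →L[ℂ] K := e - (star v * v + v * star v) with hr
  have rs : star r = r := by
    rw [hr, star_sub, star_add, he.sa, star_mul, star_mul, star_star]
  have rv : r * v = 0 := by
    rw [hr, sub_mul, add_mul, hev, mul_assoc (star v), hv0, mul_zero, zero_add, hvv, sub_self]
  have rsv : r * star v = 0 := by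
    rw [hr, sub_mul, add_mul, hesv, hsvv, mul_assoc v, hsv0, mul_zero, add_zero, sub_self]
  have re : r * e = r := by
    rw [hr, sub_mul, add_mul, he.idem, mul_assoc, hve, mul_assoc, hsve]
  have rr : r * r = r := by
    have h1 : r * (star v * v + v * star v) = 0 := by
      rw [mul_add, ← mul_assoc, rsv, zero_mul, ← mul_assoc, rv, zero_mul, add_zero]
    conv_lhs => rw [hr]
    rw [← hr, mul_sub, re, h1, sub_zero]
  have er : e * r = r := by
    have := congrArg star re
    rwa [star_mul, rs, he.sa] at this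
  by_cases hr0 : r = 0
  · exact (sub_eq_zero.1 hr0).symm
  exfalso
  obtain ⟨w, hwm, hAw, hw0, hwpi, hrw, hwr, hww0⟩ := h r
    ⟨sub_mem he.mem (add_mem (mul_mem hvsm hvm) (mul_mem hvm hvsm)), rs, rr⟩ er hr0
  have hswr : star w * r = star w := by
    have := congrArg star hrw
    rwa [star_mul, rs] at this
  have hrsw : r * star w = star w := by
    have := congrArg star hwr
    rwa [star_mul, rs] at this
  -- members are orthogonal to `r`
  have m1 : ∀ u ∈ F, r * u = 0 := by
    intro u hu
    have a1 : e * u = u := (hF1 u hu).2.2.2.2.1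
    have a2 : u * star u * u = u := (hF1 u hu).2.2.2.1
    have a3 : v * (star v * u) = u := by
      rw [k2 u hu, ← mul_assoc, k1 u hu, a2]
    rw [hr, sub_mul, add_mul, a1, mul_assoc, k0 u hu, mul_zero, zero_add, mul_assoc, a3, sub_self]
  have m2 : ∀ u ∈ F, r * star u = 0 := by
    intro u hu
    have a1 : e * star u = star u := by
      have := congrArg star (hF1 u hu).2.2.2.2.2.1
      rwa [star_mul, he.sa] at this
    have a2 : star u * u * star u = star u := by
      have := congrArg star (hF1 u hu).2.2.2.1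
      rwa [star_mul, star_mul, star_star, ← mul_assoc] at this
    have a3 : star v * (v * star u) = star u := by
      rw [k1 u hu, ← mul_assoc, k2 u hu, a2]
    have a4 : star v * star u = 0 := by
      have := congrArg star (k0' u hu)
      rwa [star_mul, star_zero] at this
    rw [hr, sub_mul, add_mul, a1, mul_assoc, a3, mul_assoc, a4, mul_zero, add_zero, sub_self]
  have m1' : ∀ u ∈ F, u * r = 0 := by
    intro u hu
    have := congrArg star (m2 u hu)
    rwa [star_mul, star_star, rs, star_zero] at this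
  have m2' : ∀ u ∈ F, star u * r = 0 := by
    intro u hu
    have := congrArg star (m1 u hu)
    rwa [star_mul, rs, star_zero] at this
  have c1 : ∀ u ∈ F, u * w = 0 := fun u hu => by
    rw [← hrw, ← mul_assoc, m1' u hu, zero_mul]
  have c2 : ∀ u ∈ F, w * u = 0 := fun u hu => by
    rw [← hwr, mul_assoc, m1 u hu, mul_zero]
  have c3 : ∀ u ∈ F, star u * w = 0 := fun u hu => by
    rw [← hrw, ← mul_assoc, m2' u hu, zero_mul]
  have c4 : ∀ u ∈ F, w * star u = 0 := fun u hu => by
    rw [← hwr, mul_assoc, m2 u hu, mul_zero]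
  have c5 : ∀ u ∈ F, star w * u = 0 := fun u hu => by
    have := congrArg star (c3 u hu)
    rwa [star_mul, star_star, star_zero] at this
  have c6 : ∀ u ∈ F, u * star w = 0 := fun u hu => by
    have := congrArg star (c4 u hu)
    rwa [star_mul, star_star, star_zero] at this
  have hwF : w ∉ F := by
    intro h'
    apply hw0
    rw [← hrw, m1 w h']
  have hew : e * w = w := by rw [← hrw, ← mul_assoc, er]
  have hwe : w * e = w := by rw [← hwr, mul_assoc, re]
  have hgood : insert w F ∈ Exh_good 𝔓 e A := by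
    refine ⟨?_, ?_⟩
    · rintro u (rfl | hu)
      · exact ⟨hwm, hAw, hw0, hwpi, hew, hwe, hww0⟩
      · exact hF1 u hu
    · rintro a (rfl | ha) b (rfl | hb) hab
      · exact absurd rfl hab
      · exact ⟨c2 b hb, c5 b hb, c4 b hb⟩
      · exact ⟨c1 a ha, c3 a ha, c6 a ha⟩
      · exact hF2 a ha b hb hab
  exact hwF (hF.2 hgood (Set.subset_insert w F) (Set.mem_insert w F))

end Pool.Agent.MP_86f3ed.Fac
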