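import Pool.Agent.H.MP_86f3ed_an.Fac.Base

open scoped InnerProductSpace Topology
open Filter ContinuousLinearMap

namespace Pool.Agent.MP_86f3ed.Fac

open Pin Sf

variable {K : Type*} [NormedAddCommGroup K] [InnerProductSpace ℂ K] [CompleteSpace K]
  {𝔓 : StarSubalgebra ℂ (K →L[ℂ] K)}

theorem HalfEq_orth {a b : K →L[ℂ] K} (ha : Pr 𝔓 a) (hb : Pr 𝔓 b) (h : a * b = 0) :
    b * a = 0 := by
  have h1 : star (a * b) = 0 := by rw [h, star_zero]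
  rwa [star_mul, ha.sa, hb.sa] at h1

theorem HalfEq_aux {e p q p₀ p₁ q₀ q₁ q' : K →L[ℂ] K} (he : Pr 𝔓 e)
    (hf : Fte 𝔓 e) (hp : Pr 𝔓 p) (hq : Pr 𝔓 q) (heq : e * q = q) (h : Eqv 𝔓 p q)
    (hp₀ : Pr 𝔓 p₀) (hp₁ : Pr 𝔓 p₁) (hq₀ : Pr 𝔓 q₀) (hq₁ : Pr 𝔓 q₁) (hpo : p₀ * p₁ = 0)
    (hqo : q₀ * q₁ = 0) (hps : p₀ + p₁ = p) (hqs : q₀ + q₁ = q) (hp' : Eqv 𝔓 p₀ p₁)
    (hq' : Eqv 𝔓 q₀ q₁) (hc : Pr 𝔓 q') (hle : q₀ * q' = q') (hE : Eqv 𝔓 p₀ q') :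
    Eqv 𝔓 p₀ q₀ := by
  have hfq : Fte 𝔓 q := Fte.sub he hf hq heq
  have hqo' : q₁ * q₀ = 0 := HalfEq_orth hq₀ hq₁ hqo
  have h1 : Eqv 𝔓 p₁ q' := Eqv.trans hp₁ hp₀ hp'.symm hE
  obtain ⟨q'', hc', hle', hE'⟩ := Eqv.sub hq₀ hq₁ hc hq' hle
  have h2 : Eqv 𝔓 p₁ q'' := Eqv.trans hp₁ hc h1 hE'
  have h3 : q' * q₀ = q' := Pr.le_symm hq₀ hc hle
  have h4 : q' * q'' = 0 := by
    rw [← h3, ← hle', mul_assoc, ← mul_assoc q₀, hqo, zero_mul, mul_zero]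
  have h5 : Eqv 𝔓 (p₀ + p₁) (q' + q'') := Eqv.add hp₀ hc hp₁ hc' hE h2 hpo h4
  have hs : Pr 𝔓 (q' + q'') := Pr.add hc hc' h4
  have h6 : q₀ * q'' = 0 := by
    rw [← hle', ← mul_assoc, hqo, zero_mul]
  have h7 : q₁ * q' = 0 := by
    rw [← hle, ← mul_assoc, hqo', zero_mul]
  have h8 : q * (q' + q'') = q' + q'' := by
    rw [← hqs, add_mul, mul_add, mul_add, hle, hle', h6, h7, add_zero, zero_add]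
  have h9 : Eqv 𝔓 q (q' + q'') := Eqv.trans hq hp h.symm (by rw [← hps]; exact h5)
  have h10 : q' + q'' = q := Fte.eq_of hq hfq hs h8 h9
  have h11 : q₀ * (q' + q'') = q₀ * q := by rw [h10]
  rw [mul_add, hle, h6, add_zero, ← hqs, mul_add, hq₀.idem, hqo, add_zero] at h11
  rw [← h11]
  exact hE

/-- Halves of equivalent projections are equivalent below a finite projection. -/
theorem half_eqv (hF : Factor 𝔓) {e p q p₀ p₁ q₀ q₁ : K →L[ℂ] K} (he : Pr 𝔓 e) (hf : Fte 𝔓 e)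
    (hp : Pr 𝔓 p) (hq : Pr 𝔓 q) (hep : e * p = p) (heq : e * q = q) (h : Eqv 𝔓 p q)
    (hp₀ : Pr 𝔓 p₀) (hp₁ : Pr 𝔓 p₁) (hq₀ : Pr 𝔓 q₀) (hq₁ : Pr 𝔓 q₁) (hpo : p₀ * p₁ = 0)
    (hqo : q₀ * q₁ = 0) (hps : p₀ + p₁ = p) (hqs : q₀ + q₁ = q) (hp' : Eqv 𝔓 p₀ p₁)
    (hq' : Eqv 𝔓 q₀ q₁) : Eqv 𝔓 p₀ q₀ := by
  rcases comparison' hF hp₀ hq₀ with ⟨c, hc, hle, hE⟩ | ⟨c, hc, hle, hE⟩
  · exact HalfEq_aux he hf hp hq heq h hp₀ hp₁ hq₀ hq₁ hpo hqo hps hqs hp' hq' hc hle hE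
  · exact (HalfEq_aux he hf hq hp hep h.symm hq₀ hq₁ hp₀ hp₁ hqo hpo hqs hps hq' hp' hc hle
      hE).symm

end Pool.Agent.MP_86f3ed.Fac
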