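import Pool.Agent.H.MP_86f3ed_an.Fac.Exh

open scoped InnerProductSpace Topology
open Filter ContinuousLinearMap

namespace Pool.Agent.MP_86f3ed.Fac

open Pin Sf

universe u

variable {K : Type u} [NormedAddCommGroup K] [InnerProductSpace ℂ K] [CompleteSpace K]
  {𝔓 : StarSubalgebra ℂ (K →L[ℂ] K)}

/-- There is no minimal projection below `e`. -/
def NoMin (𝔓 : StarSubalgebra ℂ (K →L[ℂ] K)) (e : K →L[ℂ] K) : Prop :=
  ∀ p, Pr 𝔓 p → e * p = p → p ≠ 0 → ∃ p', Pr 𝔓 p' ∧ p * p' = p' ∧ p' ≠ 0 ∧ p' ≠ p

/-- one step of halving -/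
private theorem Halve_step (hF : Factor 𝔓) {e r : K →L[ℂ] K} (hn : NoMin 𝔓 e)
    (her : e * r = r) (r' : K →L[ℂ] K) (hr' : Pr 𝔓 r') (hrr' : r * r' = r') (h0 : r' ≠ 0) :
    ∃ w ∈ Com 𝔓, True ∧ w ≠ 0 ∧ w * star w * w = w ∧ r' * w = w ∧ w * r' = w ∧ w * w = 0 := by
  have her' : e * r' = r' := by
    calc e * r' = e * (r * r') := by rw [hrr']
      _ = e * r * r' := by rw [mul_assoc]
      _ = r' := by rw [her, hrr']
  obtain ⟨p, hp, hrp, hp0, hpne⟩ := hn r' hr' her' h0
  have hpr : p * r' = p := hr'.le_symm hp hrp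
  have hq : Pr 𝔓 (r' - p) := hr'.sub hp hrp
  have hq0 : r' - p ≠ 0 := fun h => hpne (sub_eq_zero.1 h).symm
  obtain ⟨w, hw, hw0, hwi, hwp, hqw⟩ := exists_link 𝔓 hF hp.mem hp.sa hp.idem hp0 hq.mem hq.sa
    hq.idem hq0
  have hpq : p * (r' - p) = 0 := by rw [mul_sub, hpr, hp.idem, sub_self]
  refine ⟨w, hw, trivial, hw0, hwi, ?_, ?_, ?_⟩
  · have h1 : r' * (r' - p) = r' - p := by rw [mul_sub, hr'.idem, hrp]
    calc r' * w = r' * ((r' - p) * w) := by rw [hqw]
      _ = r' * (r' - p) * w := by rw [mul_assoc]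
      _ = w := by rw [h1, hqw]
  · calc w * r' = w * p * r' := by rw [hwp]
      _ = w * (p * r') := by rw [mul_assoc]
      _ = w := by rw [hpr, hwp]
  · calc w * w = w * p * ((r' - p) * w) := by rw [hwp, hqw]
      _ = w * (p * (r' - p)) * w := by simp only [mul_assoc]
      _ = 0 := by rw [hpq, mul_zero, zero_mul]

/-- Halving. -/
theorem halve (hF : Factor 𝔓) {e r : K →L[ℂ] K} (hn : NoMin 𝔓 e) (he : Pr 𝔓 e) (hr : Pr 𝔓 r)
    (her : e * r = r) :
    ∃ v ∈ Com 𝔓, v * star v * v = v ∧ v * v = 0 ∧ star v * v + v * star v = r := by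
  have h := exhaust hr (fun _ => True) (Halve_step hF hn her)
  obtain ⟨_, _, _, v, hv, h1, h2, h3, _, _⟩ : ∃ (ι : Type u) (w : ι → K →L[ℂ] K),
    (∀ i, w i ∈ Com 𝔓 ∧ True) ∧
      ∃ v ∈ Com 𝔓, v * star v * v = v ∧ v * v = 0 ∧ star v * v + v * star v = r ∧
        (∀ x, HasSum (fun i => (star (w i) * w i) x) ((star v * v) x)) ∧
        ∀ x, HasSum (fun i => (w i * star (w i)) x) ((v * star v) x) := h
  exact ⟨v, hv, h1, h2, h3⟩

/-- the mass of a projection as an inner product -/
private theorem Halve_mass {p : K →L[ℂ] K} (hs : star p = p) (hi : p * p = p) (η : K) :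
    (⟪η, p η⟫_ℂ).re = ‖p η‖ ^ 2 := by
  have h1 : ⟪η, p η⟫_ℂ = ⟪p η, p η⟫_ℂ := by
    calc ⟪η, p η⟫_ℂ = ⟪η, p (p η)⟫_ℂ := by
          rw [show p (p η) = (p * p) η from rfl, hi]
      _ = ⟪(adjoint p) η, p η⟫_ℂ := by rw [adjoint_inner_left]
      _ = ⟪p η, p η⟫_ℂ := by rw [← star_eq_adjoint, hs]
  rw [h1, inner_self_eq_norm_sq_to_K]
  norm_cast

/-- the mass of an orthogonal sum of projections -/
private theorem Halve_sum {ι : Type*} {p : ι → K →L[ℂ] K} {q : K →L[ℂ] K}
    (hp : ∀ i, star (p i) = p i ∧ p i * p i = p i) (hq : star q = q ∧ q * q = q)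
    (h : ∀ x, HasSum (fun i => p i x) (q x)) (η : K) :
    HasSum (fun i => ‖p i η‖ ^ 2) (‖q η‖ ^ 2) := by
  have h1 : HasSum (fun i => (⟪η, p i η⟫_ℂ).re) ((⟪η, q η⟫_ℂ).re) := by
    have h2 := Complex.reCLM.hasSum ((innerSL ℂ η).hasSum (h η))
    exact h2
  rw [Halve_mass hq.1 hq.2] at h1
  have h3 : (fun i => (⟪η, p i η⟫_ℂ).re) = fun i => ‖p i η‖ ^ 2 := by
    funext i
    exact Halve_mass (hp i).1 (hp i).2 η
  rwa [h3] at h1

private theorem Halve_pr {w : K →L[ℂ] K} (h : w * star w * w = w) :
    (star (star w * w) = star w * w ∧ star w * w * (star w * w) = star w * w) ∧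
      (star (w * star w) = w * star w ∧ w * star w * (w * star w) = w * star w) := by
  refine ⟨⟨by rw [star_mul, star_star], ?_⟩, ⟨by rw [star_mul, star_star], ?_⟩⟩
  · calc star w * w * (star w * w) = star w * (w * star w * w) := by simp only [mul_assoc]
      _ = star w * w := by rw [h]
  · calc w * star w * (w * star w) = w * star w * w * star w := by simp only [mul_assoc]
      _ = w * star w := by rw [h]

/-- one step of biased halving -/
private theorem Halve_bias (hF : Factor 𝔓) {e : K →L[ℂ] K} (hn : NoMin 𝔓 e) (he : Pr 𝔓 e) {η : K}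
    {a : ℝ} (ha : 1 < a)
    (hbad : ∀ r, Pr 𝔓 r → e * r = r → r ≠ 0 → ∃ w ∈ Com 𝔓, w * star w * w = w ∧ r * w = w ∧
      w * r = w ∧ a * ‖(w * star w) η‖ ^ 2 < ‖(star w * w) η‖ ^ 2)
    {r : K →L[ℂ] K} (her : e * r = r)
    (r' : K →L[ℂ] K) (hr' : Pr 𝔓 r') (hrr' : r * r' = r') (h0 : r' ≠ 0) :
    ∃ w ∈ Com 𝔓, Real.sqrt a * ‖(w * star w) η‖ ^ 2 ≤ ‖(star w * w) η‖ ^ 2 ∧ w ≠ 0 ∧
      w * star w * w = w ∧ r' * w = w ∧ w * r' = w ∧ w * w = 0 := by
  have her' : e * r' = r' := by
    calc e * r' = e * (r * r') := by rw [hrr']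
      _ = e * r * r' := by rw [mul_assoc]
      _ = r' := by rw [her, hrr']
  have hsq : Real.sqrt a * Real.sqrt a = a := Real.mul_self_sqrt (by linarith)
  have hsqp : 0 < Real.sqrt a := Real.sqrt_pos.2 (by linarith)
  obtain ⟨v, hv, hvi, hvv, hvr⟩ := halve hF hn he hr' her'
  have hvv' : star v * star v = 0 := by rw [← star_mul, hvv, star_zero]
  have hr'v : r' * v = v := by
    calc r' * v = (star v * v + v * star v) * v := by rw [hvr]
      _ = star v * (v * v) + v * star v * v := by rw [add_mul, mul_assoc (star v) v v]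
      _ = v := by rw [hvv, mul_zero, zero_add, hvi]
  have hvr' : star v * r' = star v := by
    have h := congrArg star hr'v
    rwa [star_mul, hr'.sa] at h
  have hr'1 : r' * (star v * v) = star v * v := by
    calc r' * (star v * v) = (star v * v + v * star v) * (star v * v) := by rw [hvr]
      _ = star v * (v * star v * v) + v * (star v * star v) * v := by
        rw [add_mul]
        simp only [mul_assoc]
      _ = star v * v := by rw [hvi, hvv', mul_zero, zero_mul, add_zero]
  have h1r' : star v * v * r' = star v * v := by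
    have h := congrArg star hr'1
    rw [star_mul, hr'.sa, star_mul, star_star] at h
    exact h
  have her1 : e * (star v * v) = star v * v := by
    calc e * (star v * v) = e * (r' * (star v * v)) := by rw [hr'1]
      _ = e * r' * (star v * v) := by rw [mul_assoc]
      _ = star v * v := by rw [her', hr'1]
  have hr10 : star v * v ≠ 0 := by
    intro h
    have hv0 : v = 0 := by
      calc v = v * star v * v := hvi.symm
        _ = v * (star v * v) := by rw [mul_assoc]
        _ = 0 := by rw [h, mul_zero]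
    apply h0
    rw [← hvr, hv0, mul_zero, star_zero, zero_mul, add_zero]
  obtain ⟨w, hw, hwi, h1w, hw1, hlt⟩ := hbad (star v * v) (Pr.of_pi hv hvi) her1 hr10
  have hwv : w * v = 0 := by
    calc w * v = w * (star v * v) * v := by rw [hw1]
      _ = w * star v * (v * v) := by simp only [mul_assoc]
      _ = 0 := by rw [hvv, mul_zero]
  have hr'w : r' * w = w := by
    calc r' * w = r' * (star v * v * w) := by rw [h1w]
      _ = r' * (star v * v) * w := by simp only [mul_assoc]
      _ = w := by rw [hr'1, h1w]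
  have hwr' : w * r' = w := by
    calc w * r' = w * (star v * v) * r' := by rw [hw1]
      _ = w * (star v * v * r') := by simp only [mul_assoc]
      _ = w := by rw [h1r', hw1]
  have hp0 : star w * w ≠ 0 := by
    intro h
    rw [h] at hlt
    have h2 : (0 : ℝ) ≤ a * ‖(w * star w) η‖ ^ 2 := by positivity
    have h3 : ‖(0 : K →L[ℂ] K) η‖ ^ 2 = (0 : ℝ) := by
      rw [_root_.zero_apply, norm_zero]
      norm_num
    rw [h3] at hlt
    linarith
  have h1q : star v * v * (w * star w) = w * star w := by rw [← mul_assoc, h1w]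
  have hqq := (Halve_pr hwi).2.2
  by_cases hcase : Real.sqrt a * ‖(v * (w * star w) * star v) η‖ ^ 2 ≤ ‖(star w * w) η‖ ^ 2
  · -- the partial isometry `v * w`
    have e1 : star (v * w) * (v * w) = star w * w := by
      calc star (v * w) * (v * w) = star w * (star v * v * w) := by
            rw [star_mul]
            simp only [mul_assoc]
        _ = star w * w := by rw [h1w]
    have e2 : v * w * star (v * w) = v * (w * star w) * star v := by
      rw [star_mul]
      simp only [mul_assoc]
    refine ⟨v * w, mul_mem hv hw, ?_, ?_, ?_, ?_, ?_, ?_⟩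
    · rw [e1, e2]
      exact hcase
    · intro h
      rw [h, star_zero, zero_mul] at e1
      exact hp0 e1.symm
    · calc v * w * star (v * w) * (v * w) = v * w * (star (v * w) * (v * w)) := by
            rw [mul_assoc]
        _ = v * (w * star w * w) := by
            rw [e1]
            simp only [mul_assoc]
        _ = v * w := by rw [hwi]
    · rw [← mul_assoc, hr'v]
    · rw [mul_assoc, hwr']
    · calc v * w * (v * w) = v * (w * v) * w := by simp only [mul_assoc]
        _ = 0 := by rw [hwv, mul_zero, zero_mul]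
  · -- the partial isometry `w * star w * star v`
    push Not at hcase
    have e1 : star (w * star w * star v) * (w * star w * star v) =
        v * (w * star w) * star v := by
      calc star (w * star w * star v) * (w * star w * star v)
          = v * (w * star w * (w * star w)) * star v := by
            simp only [star_mul, star_star, mul_assoc]
        _ = v * (w * star w) * star v := by rw [hqq]
    have e2 : w * star w * star v * star (w * star w * star v) = w * star w := by
      calc w * star w * star v * star (w * star w * star v)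
          = w * star w * (star v * v * (w * star w)) := by
            simp only [star_mul, star_star, mul_assoc]
        _ = w * star w := by rw [h1q, hqq]
    have hvq : star v * (w * star w) = 0 := by
      calc star v * (w * star w) = star v * (star v * v * (w * star w)) := by rw [h1q]
        _ = star v * star v * (v * (w * star w)) := by simp only [mul_assoc]
        _ = 0 := by rw [hvv', zero_mul]
    refine ⟨w * star w * star v, mul_mem (mul_mem hw (star_mem hw)) (star_mem hv), ?_, ?_, ?_,
      ?_, ?_, ?_⟩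
    · rw [e1, e2]
      have h4 : Real.sqrt a * (Real.sqrt a * ‖(w * star w) η‖ ^ 2) <
          Real.sqrt a * ‖(v * (w * star w) * star v) η‖ ^ 2 := by
        rw [← mul_assoc, hsq]
        linarith
      exact (lt_of_mul_lt_mul_left h4 hsqp.le).le
    · intro h
      rw [h, star_zero, zero_mul] at e1
      rw [← e1] at hcase
      have h3 : ‖(0 : K →L[ℂ] K) η‖ ^ 2 = (0 : ℝ) := by
        rw [_root_.zero_apply, norm_zero]
        norm_num
      rw [h3, mul_zero] at hcase
      have h5 : (0 : ℝ) ≤ ‖(star w * w) η‖ ^ 2 := by positivity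
      linarith
    · rw [e2, ← mul_assoc, hqq]
    · calc r' * (w * star w * star v) = r' * w * (star w * star v) := by
            simp only [mul_assoc]
        _ = w * star w * star v := by
            rw [hr'w]
            simp only [mul_assoc]
    · rw [mul_assoc, hvr']
    · calc w * star w * star v * (w * star w * star v)
          = w * star w * (star v * (w * star w)) * star v := by simp only [mul_assoc]
        _ = 0 := by rw [hvq, mul_zero, zero_mul]

/-- Biased halving: if every nonzero subprojection `r` of `e` contains two equivalent projections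
`star w * w`, `w * star w` whose masses with respect to the separating vector `η` have a ratio
larger than `a` then the halves of every subprojection can be chosen with a ratio at least `√a`. -/
theorem bias (hF : Factor 𝔓) {e : K →L[ℂ] K} (hn : NoMin 𝔓 e) (he : Pr 𝔓 e) {η : K} {a : ℝ}
    (ha : 1 < a)
    (hbad : ∀ r, Pr 𝔓 r → e * r = r → r ≠ 0 → ∃ w ∈ Com 𝔓, w * star w * w = w ∧ r * w = w ∧
      w * r = w ∧ a * ‖(w * star w) η‖ ^ 2 < ‖(star w * w) η‖ ^ 2)
    {r : K →L[ℂ] K} (hr : Pr 𝔓 r) (her : e * r = r) :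
    ∃ v ∈ Com 𝔓, v * star v * v = v ∧ v * v = 0 ∧ star v * v + v * star v = r ∧
      Real.sqrt a * ‖(v * star v) η‖ ^ 2 ≤ ‖(star v * v) η‖ ^ 2 := by
  have h := exhaust hr (fun w => Real.sqrt a * ‖(w * star w) η‖ ^ 2 ≤ ‖(star w * w) η‖ ^ 2 ∧
    w * star w * w = w) (fun r' h1 h2 h3 => by
      obtain ⟨w, g1, g2, g3, g4, g5, g6, g7⟩ := Halve_bias hF hn he ha hbad her r' h1 h2 h3
      exact ⟨w, g1, ⟨g2, g4⟩, g3, g4, g5, g6, g7⟩)
  obtain ⟨ι, w, hw, v, hv, h1, h2, h3, h4, h5⟩ : ∃ (ι : Type u) (w : ι → K →L[ℂ] K),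
    (∀ i, w i ∈ Com 𝔓 ∧ (Real.sqrt a * ‖(w i * star (w i)) η‖ ^ 2 ≤
      ‖(star (w i) * w i) η‖ ^ 2 ∧ w i * star (w i) * w i = w i)) ∧
      ∃ v ∈ Com 𝔓, v * star v * v = v ∧ v * v = 0 ∧ star v * v + v * star v = r ∧
        (∀ x, HasSum (fun i => (star (w i) * w i) x) ((star v * v) x)) ∧
        ∀ x, HasSum (fun i => (w i * star (w i)) x) ((v * star v) x) := h
  refine ⟨v, hv, h1, h2, h3, ?_⟩
  have s1 := Halve_sum (fun i => (Halve_pr (hw i).2.2).1) (Halve_pr h1).1 h4 η
  have s2 := Halve_sum (fun i => (Halve_pr (hw i).2.2).2) (Halve_pr h1).2 h5 η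
  exact hasSum_le (fun i => (hw i).2.1) (s2.mul_left (Real.sqrt a)) s1

end Pool.Agent.MP_86f3ed.Fac
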