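import Pool.Agent.H.MP_86f3ed_an.Fac.TreeB

open scoped InnerProductSpace Topology
open Filter ContinuousLinearMap

namespace Pool.Agent.MP_86f3ed.Fac

open Pin Sf

variable {K : Type*} [NormedAddCommGroup K] [InnerProductSpace ℂ K] [CompleteSpace K]
  {𝔓 : StarSubalgebra ℂ (K →L[ℂ] K)}

/-- A numerical inequality. -/
theorem theta_aux {s : ℝ} (hs : 1 < s) :
    ∃ θ : ℝ, 0 < θ ∧ θ < 1 ∧ ∀ x y : ℝ, 0 ≤ x → 0 ≤ y → s * y ^ 2 ≤ x ^ 2 →
      x + y ≤ θ * (Real.sqrt 2 * Real.sqrt (x ^ 2 + y ^ 2)) := by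
  have hs0 : 0 ≤ s := by linarith
  obtain ⟨q, hq1, hq2⟩ : ∃ q : ℝ, 1 < q ∧ q ^ 2 = s :=
    ⟨Real.sqrt s, by rw [Real.lt_sqrt (by norm_num)]; linarith, Real.sq_sqrt hs0⟩
  have hd : (0 : ℝ) < 1 + q ^ 2 := by positivity
  obtain ⟨c, hc⟩ : ∃ c : ℝ, c = 2 * q / (1 + q ^ 2) := ⟨_, rfl⟩
  have hc0 : 0 < c := by rw [hc]; positivity
  have hc1 : c < 1 := by
    rw [hc, div_lt_one hd]
    nlinarith [sq_nonneg (q - 1), mul_pos (sub_pos.2 hq1) (sub_pos.2 hq1)]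
  refine ⟨Real.sqrt ((1 + c) / 2), Real.sqrt_pos.2 (by linarith), ?_, ?_⟩
  · rw [Real.sqrt_lt' (by norm_num)]
    linarith
  · intro x y hx hy hxy
    have hqy : q * y ≤ x := by
      have h1 : (q * y) ^ 2 ≤ x ^ 2 := by
        rw [mul_pow, hq2]
        exact hxy
      exact (sq_le_sq₀ (by positivity) hx).1 h1
    have h2 : 2 * (x * y) ≤ c * (x ^ 2 + y ^ 2) := by
      rw [hc, div_mul_eq_mul_div, le_div_iff₀ hd]
      have h3 : 0 ≤ (q * x - y) * (x - q * y) := by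
        apply mul_nonneg
        · nlinarith [mul_nonneg (sub_nonneg.2 hq1.le) hx, mul_nonneg (sub_nonneg.2 hq1.le) hy]
        · linarith
      nlinarith [h3]
    rw [← Real.sqrt_mul (by norm_num), ← Real.sqrt_mul (by linarith)]
    apply Real.le_sqrt_of_sq_le
    nlinarith [h2]

namespace Halver

variable {e : K →L[ℂ] K} (h : Halver 𝔓 e)

/-- The pieces of level `k` of large mass. -/
noncomputable def S (η : K) (k : ℕ) : Finset (List Bool) := by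
  classical exact (lev k).filter fun l => (2 : ℝ)⁻¹ ^ k ≤ ‖h.T l η‖ ^ 2

theorem S_sub (η : K) (k : ℕ) : h.S η k ⊆ lev k := by
  classical exact Finset.filter_subset _ _

theorem Hell_mem {η : K} {k : ℕ} {l : List Bool} :
    l ∈ h.S η k ↔ l ∈ lev k ∧ (2 : ℝ)⁻¹ ^ k ≤ ‖h.T l η‖ ^ 2 := by
  classical
  unfold S
  exact Finset.mem_filter

/-- The decay of the sum of the norms of the pieces. -/
theorem Hell_decay {η : K} {s θ : ℝ} (hθ0 : 0 < θ)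
    (hθ : ∀ x y : ℝ, 0 ≤ x → 0 ≤ y → s * y ^ 2 ≤ x ^ 2 →
      x + y ≤ θ * (Real.sqrt 2 * Real.sqrt (x ^ 2 + y ^ 2)))
    (hb : ∀ l, s * ‖h.T (true :: l) η‖ ^ 2 ≤ ‖h.T (false :: l) η‖ ^ 2) (k : ℕ) :
    (Real.sqrt 2)⁻¹ ^ k * ∑ l ∈ lev k, ‖h.T l η‖ ≤ θ ^ k * ‖e η‖ := by
  induction k with
  | zero =>
    rw [lev_zero, Finset.sum_singleton, h.T_nil, pow_zero, pow_zero]
  | succ k ih =>
    have h2 : (0 : ℝ) < Real.sqrt 2 := Real.sqrt_pos.2 (by norm_num)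
    have h1 : ∑ l ∈ lev (k + 1), ‖h.T l η‖ ≤ (θ * Real.sqrt 2) * ∑ l ∈ lev k, ‖h.T l η‖ := by
      rw [sum_lev_succ, Finset.mul_sum]
      refine Finset.sum_le_sum fun l _ => ?_
      have h3 := hθ ‖h.T (false :: l) η‖ ‖h.T (true :: l) η‖ (norm_nonneg _) (norm_nonneg _)
        (hb l)
      rw [h.norm_add l η, Real.sqrt_sq (norm_nonneg _), ← mul_assoc] at h3
      exact h3
    calc (Real.sqrt 2)⁻¹ ^ (k + 1) * ∑ l ∈ lev (k + 1), ‖h.T l η‖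
        ≤ (Real.sqrt 2)⁻¹ ^ (k + 1) * ((θ * Real.sqrt 2) * ∑ l ∈ lev k, ‖h.T l η‖) :=
          mul_le_mul_of_nonneg_left h1 (by positivity)
      _ = θ * ((Real.sqrt 2)⁻¹ ^ k * ∑ l ∈ lev k, ‖h.T l η‖) := by
          rw [pow_succ]
          field_simp
      _ ≤ θ * (θ ^ k * ‖e η‖) := mul_le_mul_of_nonneg_left ih hθ0.le
      _ = θ ^ (k + 1) * ‖e η‖ := by rw [pow_succ]; ring

/-- If the halves have a fixed bias then few pieces carry most of the mass. -/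
theorem hell {η : K} {s : ℝ} (hs : 1 < s)
    (hb : ∀ l, s * ‖h.T (true :: l) η‖ ^ 2 ≤ ‖h.T (false :: l) η‖ ^ 2) :
    ∃ θ : ℝ, 0 < θ ∧ θ < 1 ∧ ∀ k, ((h.S η k).card : ℝ) ≤ 2 ^ k * (θ ^ k * ‖e η‖) ∧
      ‖(e - ∑ l ∈ h.S η k, h.T l) η‖ ^ 2 ≤ θ ^ k * ‖e η‖ := by
  obtain ⟨θ, hθ0, hθ1, hθ⟩ := theta_aux hs
  refine ⟨θ, hθ0, hθ1, fun k => ?_⟩
  have hZ := h.Hell_decay hθ0 hθ hb k
  have h2 : (0 : ℝ) < Real.sqrt 2 := Real.sqrt_pos.2 (by norm_num)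
  obtain ⟨r, hr⟩ : ∃ r : ℝ, r = (Real.sqrt 2)⁻¹ ^ k := ⟨_, rfl⟩
  have hr0 : 0 < r := by rw [hr]; positivity
  have hrr : r * r = (2 : ℝ)⁻¹ ^ k := by
    rw [hr, ← mul_pow, ← mul_inv, Real.mul_self_sqrt (by norm_num)]
  rw [← hr] at hZ
  constructor
  · have h3 : ((h.S η k).card : ℝ) * (2 : ℝ)⁻¹ ^ k ≤ θ ^ k * ‖e η‖ := by
      refine le_trans ?_ hZ
      rw [← nsmul_eq_mul, ← Finset.sum_const, Finset.mul_sum]
      refine le_trans (Finset.sum_le_sum fun l hl => ?_)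
        (Finset.sum_le_sum_of_subset_of_nonneg (h.S_sub η k) fun l _ _ => by positivity)
      have h4 := ((h.Hell_mem).1 hl).2
      rw [← hrr] at h4 ⊢
      have h5 : r ≤ ‖h.T l η‖ := by
        refine (sq_le_sq₀ hr0.le (norm_nonneg _)).1 ?_
        rw [pow_two]
        exact h4
      exact mul_le_mul_of_nonneg_left h5 hr0.le
    rw [inv_pow, mul_inv_le_iff₀ (by positivity)] at h3
    rw [mul_comm]
    exact h3
  · have h3 : e - ∑ l ∈ h.S η k, h.T l = ∑ l ∈ lev k \ h.S η k, h.T l := by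
      have h4 := Finset.sum_sdiff (f := h.T) (h.S_sub η k)
      rw [h.lev_sum k] at h4
      exact (eq_sub_of_add_eq h4).symm
    rw [h3, (h.sum_pr _ Finset.sdiff_subset).2.2 η]
    refine le_trans ?_ hZ
    rw [Finset.mul_sum]
    refine le_trans (Finset.sum_le_sum fun l hl => ?_)
      (Finset.sum_le_sum_of_subset_of_nonneg (Finset.sdiff_subset (s := lev k) (t := h.S η k))
        fun l _ _ => by positivity)
    obtain ⟨hl1, hl2⟩ := Finset.mem_sdiff.1 hl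
    have h4 : ‖h.T l η‖ ^ 2 < (2 : ℝ)⁻¹ ^ k := by
      by_contra h5
      exact hl2 ((h.Hell_mem).2 ⟨hl1, not_lt.1 h5⟩)
    have h5 : ‖h.T l η‖ ≤ r := by
      refine (sq_le_sq₀ (norm_nonneg _) hr0.le).1 ?_
      rw [pow_two r, hrr]
      exact h4.le
    rw [pow_two]
    exact mul_le_mul_of_nonneg_right h5 (norm_nonneg _)

end Halver

end Pool.Agent.MP_86f3ed.Fac
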