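import Pool.Agent.H.MP_86f3ed_an.Fac.AmpInj
import Pool.Agent.H.MP_86f3ed_an.Sf.Pub
import Pool.Agent.H.MP_86f3ed_an.Sf.Cplt

open scoped InnerProductSpace Topology
open Filter ContinuousLinearMap

namespace Pool.Agent.MP_86f3ed.Fac

open Pin Sf

universe u v

variable {K : Type v} [NormedAddCommGroup K] [InnerProductSpace ℂ K] [CompleteSpace K]
  {A : Type u} [NonUnitalCStarAlgebra A]

/-- The data of a subrepresentation `σ` of `ρ` on the closed subspace `W`. -/
structure Sub (ρ : A →⋆ₙₐ[ℂ] (K →L[ℂ] K)) (W : Submodule ℂ K) [CompleteSpace W]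
    (σ : A →⋆ₙₐ[ℂ] (W →L[ℂ] W)) : Prop where
  coe : ∀ a w, ((σ a w : W) : K) = ρ a w

theorem Ind_mem_Com (π : A →⋆ₙₐ[ℂ] (K →L[ℂ] K)) {y : K →L[ℂ] K} :
    y ∈ Com (rangeAlg π) ↔ ∀ a x, π a (y x) = y (π a x) := by
  rw [mem_Com]
  constructor
  · intro h a x
    exact congrArg (fun S : K →L[ℂ] K => S x) (h (π a) (mem_rangeAlg.mpr ⟨0, a, by simp⟩))
  · intro h g hg
    obtain ⟨c, a, rfl⟩ := mem_rangeAlg.mp hg
    ext x
    show c • y x + π a (y x) = y (c • x + π a x)
    rw [map_add, map_smul, h a x]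

variable {ρ : A →⋆ₙₐ[ℂ] (K →L[ℂ] K)} {W : Submodule ℂ K} [CompleteSpace W]
  {σ : A →⋆ₙₐ[ℂ] (W →L[ℂ] W)}

/-- The projection onto `W` is in the commutant. -/
theorem Sub.proj_mem (h : Sub ρ W σ) : W.starProjection ∈ Com (rangeAlg ρ) := by
  refine proj_mem_Com _ W fun g hg v hv => ?_
  obtain ⟨c, a, rfl⟩ := mem_rangeAlg.mp hg
  have h1 : ρ a v = ((σ a ⟨v, hv⟩ : W) : K) := (h.coe a ⟨v, hv⟩).symm
  show c • v + ρ a v ∈ W
  rw [h1]
  exact add_mem (W.smul_mem c hv) (Submodule.coe_mem _)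

/-- The compression of an operator to `W`. -/
noncomputable def cmp (W : Submodule ℂ K) [CompleteSpace W] (S : K →L[ℂ] K) : W →L[ℂ] W :=
  (W.orthogonalProjectionOnto).comp (S.comp W.subtypeL)

/-- The extension of an operator of `W` by zero. -/
noncomputable def ext (W : Submodule ℂ K) [CompleteSpace W] (T : W →L[ℂ] W) : K →L[ℂ] K :=
  W.subtypeL.comp (T.comp W.orthogonalProjectionOnto)

theorem Ind_cmp_apply (S : K →L[ℂ] K) (w : W) :
    cmp W S w = W.orthogonalProjectionOnto (S w) := rfl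

theorem Ind_cmp_coe (S : K →L[ℂ] K) (w : W) :
    ((cmp W S w : W) : K) = W.starProjection (S w) := rfl

theorem Ind_ext_apply (T : W →L[ℂ] W) (x : K) :
    ext W T x = (T (W.orthogonalProjectionOnto x) : K) := rfl

theorem Ind_pro (w : W) : W.orthogonalProjectionOnto (w : K) = w :=
  Submodule.orthogonalProjectionOnto_mem_subspace_eq_self w

theorem Ind_ext_coe (T : W →L[ℂ] W) (w : W) : ext W T (w : K) = (T w : K) := by
  rw [Ind_ext_apply, Ind_pro]

theorem Sub.Ind_pro_rho (h : Sub ρ W σ) (a : A) (x : K) :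
    W.orthogonalProjectionOnto (ρ a x) = σ a (W.orthogonalProjectionOnto x) := by
  apply Subtype.ext
  rw [h.coe]
  exact ((Ind_mem_Com ρ).mp h.proj_mem a x).symm

theorem Sub.cmp_mem (h : Sub ρ W σ) {y : K →L[ℂ] K} (hy : y ∈ Com (rangeAlg ρ)) :
    cmp W y ∈ Com (rangeAlg σ) := by
  rw [Ind_mem_Com]
  intro a w
  rw [Ind_cmp_apply, Ind_cmp_apply, ← h.Ind_pro_rho, (Ind_mem_Com ρ).mp hy, h.coe]

theorem Sub.ext_mem (h : Sub ρ W σ) {T : W →L[ℂ] W} (hT : T ∈ Com (rangeAlg σ)) :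
    ext W T ∈ Com (rangeAlg ρ) := by
  rw [Ind_mem_Com]
  intro a x
  rw [Ind_ext_apply, Ind_ext_apply, ← h.coe, (Ind_mem_Com σ).mp hT, h.Ind_pro_rho]

/-- Elements of the bicommutant leave `W` invariant. -/
theorem Sub.bic_coe (h : Sub ρ W σ) {m : K →L[ℂ] K} (hm : m ∈ Com (Com (rangeAlg ρ))) (w : W) :
    ((cmp W m w : W) : K) = m w := by
  have h1 : W.starProjection (m w) = m (W.starProjection w) :=
    congrArg (fun S : K →L[ℂ] K => S (w : K)) (mem_Com.mp hm _ h.proj_mem)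
  rw [Ind_cmp_coe, h1, Submodule.starProjection_eq_self_iff.mpr w.2]

/-- The compression of the bicommutant is contained in the bicommutant. -/
theorem Sub.cmp_bic (h : Sub ρ W σ) {m : K →L[ℂ] K} (hm : m ∈ Com (Com (rangeAlg ρ))) :
    cmp W m ∈ Com (Com (rangeAlg σ)) := by
  rw [mem_Com]
  intro T hT
  ext w
  show ((T (cmp W m w) : W) : K) = ((cmp W m (T w) : W) : K)
  have h1 : ext W T (m w) = m (ext W T w) :=
    congrArg (fun S : K →L[ℂ] K => S (w : K)) (mem_Com.mp hm _ (h.ext_mem hT))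
  rw [h.bic_coe hm, ← Ind_ext_coe T w, ← h1, Ind_ext_apply]
  rfl

theorem Ind_cmp_ext (T : W →L[ℂ] W) : cmp W (ext W T) = T := by
  ext w
  rw [Ind_cmp_coe, Ind_ext_coe]
  exact Submodule.starProjection_eq_self_iff.mpr (T w).2

theorem Ind_ext_inj {T : W →L[ℂ] W} (hT : ext W T = 0) : T = 0 := by
  rw [← Ind_cmp_ext T, hT]
  ext w
  rw [Ind_cmp_coe]
  simp

/-- A factor has no zero divisors between its elements. -/
theorem Ind_prime (𝔓 : StarSubalgebra ℂ (K →L[ℂ] K)) (hfac : Factor 𝔓)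
    {p q : K →L[ℂ] K} (hp : p ∈ Com 𝔓) (hcon : ∀ x ∈ Com 𝔓, q * x * p = 0) (hp0 : p ≠ 0) :
    q = 0 := by
  let L₀ : Submodule ℂ K := Submodule.span ℂ {y | ∃ x ∈ Com 𝔓, ∃ v, y = x (p v)}
  let L : Submodule ℂ K := L₀.topologicalClosure
  haveI : CompleteSpace L := L₀.isClosed_topologicalClosure.completeSpace_coe
  have hinv : ∀ a : K →L[ℂ] K, (∀ x ∈ Com 𝔓, ∀ v, ∃ x' ∈ Com 𝔓, ∃ v', a (x (p v)) = x' (p v')) →
      ∀ v ∈ L, a v ∈ L := by
    intro a ha
    have h0 : ∀ v ∈ L₀, a v ∈ L₀ := by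
      intro v hv
      refine Submodule.span_induction (p := fun v _ => a v ∈ L₀) ?_ ?_ ?_ ?_ hv
      · rintro _ ⟨x, hx, v, rfl⟩
        obtain ⟨x', hx', v', h'⟩ := ha x hx v
        rw [h']
        exact Submodule.subset_span ⟨x', hx', v', rfl⟩
      · rw [map_zero]; exact zero_mem _
      · intro u v _ _ hu hv
        rw [map_add]; exact add_mem hu hv
      · intro c u _ hu
        rw [map_smul]; exact Submodule.smul_mem _ c hu
    have h1 : (L : Set K) ⊆ a ⁻¹' L := by
      refine closure_minimal ?_ (L₀.isClosed_topologicalClosure.preimage a.continuous)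
      intro v hv
      exact Submodule.le_topologicalClosure _ (h0 v hv)
    exact fun v hv => h1 hv
  have hz1 : L.starProjection ∈ Com 𝔓 := by
    refine proj_mem_Com 𝔓 L fun m hm v hv => hinv m (fun x hx v => ⟨x, hx, m v, ?_⟩) v hv
    have h1 : m * x = x * m := mem_Com.mp hx m hm
    have h2 : m * p = p * m := mem_Com.mp hp m hm
    have h3 : m * (x * p) = x * p * m := by
      rw [← mul_assoc, h1, mul_assoc, h2, mul_assoc]
    exact congrArg (fun T : K →L[ℂ] K => T v) h3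
  have hz2 : L.starProjection ∈ Com (Com 𝔓) := by
    refine proj_mem_Com (Com 𝔓) L fun a ha v hv => hinv a (fun x hx v => ⟨a * x, ?_, v, rfl⟩) v hv
    exact mul_mem ha hx
  obtain ⟨c, hc⟩ := hfac _ hz1 hz2
  have hpne : ∃ v, p v ≠ 0 := by
    by_contra hno
    push Not at hno
    exact hp0 (ContinuousLinearMap.ext hno)
  obtain ⟨v, hv⟩ := hpne
  have h1 : L.starProjection (p v) = p v := by
    rw [Submodule.starProjection_eq_self_iff]
    exact Submodule.le_topologicalClosure _ (Submodule.subset_span ⟨1, one_mem _, v, rfl⟩)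
  rw [hc] at h1
  have h2 : (c - 1) • p v = 0 := by
    rw [sub_smul, one_smul, sub_eq_zero]
    exact h1
  have hc1 : c = 1 := by
    rcases smul_eq_zero.mp h2 with h3 | h3
    · exact sub_eq_zero.mp h3
    · exact absurd h3 hv
  rw [hc1, one_smul] at hc
  have hq1 : (L : Set K) ⊆ {y | q y = 0} := by
    refine closure_minimal ?_ (isClosed_eq q.continuous continuous_const)
    intro y hy
    refine Submodule.span_induction (p := fun y _ => q y = 0) ?_ ?_ ?_ ?_ hy
    · rintro _ ⟨x, hx, v, rfl⟩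
      exact congrArg (fun T : K →L[ℂ] K => T v) (hcon x hx)
    · exact map_zero q
    · intro u v _ _ hu hv
      rw [map_add, hu, hv, add_zero]
    · intro c u _ hu
      rw [map_smul, hu, smul_zero]
  ext y
  have h3 : L.starProjection y = y := by rw [hc]; rfl
  have h4 : y ∈ L := by rw [← h3]; exact Submodule.starProjection_apply_mem L y
  exact hq1 h4

/-- The center of the reduced algebra has no zero divisors. -/
theorem Sub.Ind_dom (h : Sub ρ W σ) (hF : Factor (rangeAlg ρ)) {f g : W →L[ℂ] W}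
    (hf : f ∈ Com (rangeAlg σ)) (hfc : f ∈ Com (Com (rangeAlg σ))) (hfg : g * f = 0)
    (hf0 : f ≠ 0) : g = 0 := by
  apply Ind_ext_inj
  refine Ind_prime (rangeAlg ρ) hF (h.ext_mem hf) (fun y hy => ?_)
    (fun h0 => hf0 (Ind_ext_inj h0))
  ext x
  set w : W := W.orthogonalProjectionOnto x with hw
  have h1 : cmp W y (f w) = f (cmp W y w) :=
    congrArg (fun S : W →L[ℂ] W => S w) (mem_Com.mp hfc _ (h.cmp_mem hy))
  have h2 : g (f (cmp W y w)) = 0 :=
    congrArg (fun S : W →L[ℂ] W => S (cmp W y w)) hfg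
  show ((g (W.orthogonalProjectionOnto (y (f w : K))) : W) : K) = 0
  rw [← Ind_cmp_apply, h1, h2]
  rfl

/-- A commutative von Neumann algebra without zero divisors is trivial: selfadjoint elements. -/
theorem Ind_sa {H : Type*} [NormedAddCommGroup H] [InnerProductSpace ℂ H] [CompleteSpace H]
    {𝔔 : StarSubalgebra ℂ (H →L[ℂ] H)}
    (hdom : ∀ f ∈ Com 𝔔, f ∈ Com (Com 𝔔) → ∀ g : H →L[ℂ] H, g * f = 0 → f ≠ 0 → g = 0)
    {x : H →L[ℂ] H} (hx : x ∈ Com 𝔔) (hxc : x ∈ Com (Com 𝔔)) (hsa : IsSelfAdjoint x) :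
    ∃ c : ℂ, x = c • (1 : H →L[ℂ] H) := by
  have hmem : ∀ f : ℝ → ℝ, cfc f x ∈ Com 𝔔 := by
    intro f
    rw [mem_Com]
    intro a ha
    have h1 : Commute x a := (mem_Com.1 hx a ha).symm
    have : Commute (cfc f x) a := h1.cfc_real _
    exact this.symm
  have hmemc : ∀ f : ℝ → ℝ, cfc f x ∈ Com (Com 𝔔) := by
    intro f
    rw [mem_Com]
    intro a ha
    have h1 : Commute x a := (mem_Com.1 hxc a ha).symm
    have : Commute (cfc f x) a := h1.cfc_real _
    exact this.symm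
  have key : ∀ s ∈ spectrum ℝ x, ∀ t ∈ spectrum ℝ x, ¬ s < t := by
    intro s hs t ht hst
    set m : ℝ := (s + t) / 2 with hm
    have h1 : cfc (fun y : ℝ => max (y - m) 0) x * cfc (fun y : ℝ => max (m - y) 0) x = 0 := by
      rw [← cfc_mul (fun y : ℝ => max (y - m) 0) (fun y : ℝ => max (m - y) 0) x (by fun_prop)
        (by fun_prop), ← cfc_zero ℝ x]
      refine cfc_congr fun y _ => ?_
      rcases le_total y m with hy | hy
      · show max (y - m) 0 * max (m - y) 0 = 0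
        rw [max_eq_right (by linarith), zero_mul]
      · show max (y - m) 0 * max (m - y) 0 = 0
        rw [max_eq_right (a := m - y) (by linarith), mul_zero]
    have h2 : cfc (fun y : ℝ => max (m - y) 0) x ≠ 0 := by
      intro h0
      rw [← cfc_zero ℝ x] at h0
      have h3 := eqOn_of_cfc_eq_cfc h0 (by fun_prop) (by fun_prop) hsa hs
      have h4 : max (m - s) 0 = (0 : ℝ) := h3
      rw [max_eq_left (by linarith)] at h4
      linarith
    have h5 := hdom _ (hmem _) (hmemc _) _ h1 h2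
    rw [← cfc_zero ℝ x] at h5
    have h3 := eqOn_of_cfc_eq_cfc h5 (by fun_prop) (by fun_prop) hsa ht
    have h4 : max (t - m) 0 = (0 : ℝ) := h3
    rw [max_eq_left (by linarith)] at h4
    linarith
  by_cases hne : (spectrum ℝ x).Nonempty
  · obtain ⟨s, hs⟩ := hne
    refine ⟨(s : ℂ), ?_⟩
    have h1 : cfc (fun y : ℝ => y) x = cfc (fun _ : ℝ => s) x := by
      refine cfc_congr fun t ht => ?_
      exact le_antisymm (not_lt.mp (key s hs t ht)) (not_lt.mp (key t ht s hs))
    rw [cfc_id' ℝ x, cfc_const s x] at h1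
    rw [h1, Algebra.algebraMap_eq_smul_one]
    ext w
    simp
  · rw [Set.not_nonempty_iff_eq_empty] at hne
    refine ⟨0, ?_⟩
    have h1 : cfc (fun y : ℝ => y) x = cfc (fun _ : ℝ => (0 : ℝ)) x := by
      refine cfc_congr fun t ht => ?_
      rw [hne] at ht
      exact absurd ht (Set.notMem_empty t)
    rw [cfc_id' ℝ x] at h1
    rw [h1, zero_smul]
    exact cfc_zero ℝ x

/-- A commutative von Neumann algebra without zero divisors is trivial. -/
theorem Ind_scalar {H : Type*} [NormedAddCommGroup H] [InnerProductSpace ℂ H] [CompleteSpace H]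
    {𝔔 : StarSubalgebra ℂ (H →L[ℂ] H)}
    (hdom : ∀ f ∈ Com 𝔔, f ∈ Com (Com 𝔔) → ∀ g : H →L[ℂ] H, g * f = 0 → f ≠ 0 → g = 0)
    {x : H →L[ℂ] H} (hx : x ∈ Com 𝔔) (hxc : x ∈ Com (Com 𝔔)) :
    ∃ c : ℂ, x = c • (1 : H →L[ℂ] H) := by
  have hI : ∀ (𝔔 : StarSubalgebra ℂ (H →L[ℂ] H)), x ∈ 𝔔 →
      Complex.I • (x - star x) ∈ 𝔔 := fun 𝔔 h1 =>
    𝔔.smul_mem (sub_mem h1 (star_mem h1)) Complex.I
  obtain ⟨α, hα⟩ := Ind_sa hdom (add_mem hx (star_mem hx)) (add_mem hxc (star_mem hxc))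
    (by rw [IsSelfAdjoint, star_add, star_star, add_comm])
  obtain ⟨β, hβ⟩ := Ind_sa hdom (hI _ hx) (hI _ hxc) (by
    rw [IsSelfAdjoint, star_smul, star_sub, star_star]
    have h1 : star Complex.I = - Complex.I := Complex.conj_I
    rw [h1, neg_smul, ← smul_neg, neg_sub])
  refine ⟨(1 / 2) * (α - Complex.I * β), ?_⟩
  have h1 : x - star x = (-Complex.I * β) • (1 : H →L[ℂ] H) := by
    rw [mul_smul, ← hβ, smul_smul]
    simp
  have h2 : (2 : ℂ) • x = (α - Complex.I * β) • (1 : H →L[ℂ] H) := by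
    have h3 : (2 : ℂ) • x = (x + star x) + (x - star x) := by
      rw [two_smul]
      abel
    rw [h3, hα, h1, ← add_smul]
    ring_nf
  rw [mul_smul, ← h2, smul_smul]
  norm_num

theorem Ind_factor {𝔓 : StarSubalgebra ℂ (K →L[ℂ] K)} (hF : Factor (Com 𝔓)) : Factor 𝔓 := by
  intro y hy hyc
  refine hF y hyc ?_
  rw [Com_Com_Com]
  exact hy

/-- The commutant of a subrepresentation of a factor representation is a factor. -/
theorem Sub.factor (h : Sub ρ W σ) (hF : Factor (Com (rangeAlg ρ))) :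
    ∀ x ∈ Com (rangeAlg σ), x ∈ Com (Com (rangeAlg σ)) → ∃ c : ℂ, x = c • (1 : W →L[ℂ] W) := by
  intro x hx hxc
  exact Ind_scalar (fun f hf hfc g hgf hf0 => h.Ind_dom (Ind_factor hF) hf hfc hgf hf0) hx hxc

theorem Ind_sq {V : ℕ → K →L[ℂ] K} (hs : ∀ x, HasSum (fun i => (V i * star (V i)) x) x) (x : K) :
    HasSum (fun i => ‖star (V i) x‖ ^ 2) (‖x‖ ^ 2) := by
  have h1 : HasSum (fun i => RCLike.re ⟪x, (V i * star (V i)) x⟫_ℂ) (RCLike.re ⟪x, x⟫_ℂ) :=
    RCLike.hasSum_re ℂ ((hs x).mapL (innerSL ℂ x))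
  have h2 : ∀ i, RCLike.re ⟪x, (V i * star (V i)) x⟫_ℂ = ‖star (V i) x‖ ^ 2 := by
    intro i
    have h3 : ⟪x, (V i * star (V i)) x⟫_ℂ = ⟪star (V i) x, star (V i) x⟫_ℂ := by
      conv_rhs => rw [star_eq_adjoint, adjoint_inner_left]
      rfl
    rw [h3, inner_self_eq_norm_sq]
  simp_rw [h2] at h1
  rw [inner_self_eq_norm_sq] at h1
  exact h1

/-- A factor representation is contained in a multiple of each of its nonzero
subrepresentations. -/
theorem Sub.exists_cover [TopologicalSpace.SeparableSpace K] (h : Sub ρ W σ)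
    (hF : Factor (Com (rangeAlg ρ))) (hW : W ≠ ⊥) :
    ∃ F : K →L[ℂ] HH W, (adjoint F).comp F = 1 ∧ ∀ a x, F (ρ a x) = amp (σ a) (F x) := by
  have hps : star W.starProjection = W.starProjection := by
    rw [ContinuousLinearMap.star_eq_adjoint]
    exact (ContinuousLinearMap.eq_adjoint_iff _ _).mpr
      (fun x y => (W.inner_starProjection_left_eq_right x y)) |>.symm
  have hpp : W.starProjection * W.starProjection = W.starProjection := by
    ext x
    exact Submodule.starProjection_eq_self_iff.mpr (Submodule.starProjection_apply_mem W x)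
  have hp0 : W.starProjection ≠ 0 := by
    obtain ⟨x, hx, hx0⟩ := W.ne_bot_iff.mp hW
    intro h0
    apply hx0
    have h1 : W.starProjection x = x := Submodule.starProjection_eq_self_iff.mpr hx
    rw [← h1, h0]
    rfl
  obtain ⟨V, hVm, -, hVp, -, hVs⟩ := exists_complete (rangeAlg ρ) (Ind_factor hF) h.proj_mem
    hps hpp hp0
  have hmem : ∀ i x, ((W.orthogonalProjectionOnto (star (V i) x) : W) : K) = star (V i) x := by
    intro i x
    have h1 : W.starProjection * star (V i) = star (V i) := by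
      have h2 := congrArg star (hVp i)
      rwa [star_mul, hps] at h2
    exact congrArg (fun S : K →L[ℂ] K => S x) h1
  obtain ⟨F, -, hFj⟩ := exists_of_coord (K := W) (H := K)
    (fun i => (W.orthogonalProjectionOnto).comp (star (V i))) (C := 1) zero_le_one (by
      intro x s
      rw [one_pow, one_mul]
      refine le_trans (Finset.sum_le_sum fun i _ => ?_)
        (sum_le_hasSum s (fun i _ => sq_nonneg _) (Ind_sq hVs x))
      show ‖((W.orthogonalProjectionOnto (star (V i) x) : W) : K)‖ ^ 2 ≤ _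
      rw [hmem i x])
  refine ⟨F, ?_, ?_⟩
  · have h1 : ∀ x, ‖F x‖ = ‖x‖ := by
      intro x
      have h2 := hasSum_norm_pr (F x)
      have h3 : (fun j => ‖pr j (F x)‖ ^ 2) = fun j => ‖star (V j) x‖ ^ 2 := by
        funext j
        rw [hFj]
        show ‖((W.orthogonalProjectionOnto (star (V j) x) : W) : K)‖ ^ 2 = _
        rw [hmem j x]
      rw [h3] at h2
      exact (sq_eq_sq₀ (norm_nonneg _) (norm_nonneg _)).mp (h2.unique (Ind_sq hVs x))
    exact (ContinuousLinearMap.norm_map_iff_adjoint_comp_self F).mp h1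
  · intro a x
    refine ext_pr fun j => ?_
    rw [pr_amp, hFj, hFj]
    show W.orthogonalProjectionOnto (star (V j) (ρ a x)) =
      σ a (W.orthogonalProjectionOnto (star (V j) x))
    rw [← (Ind_mem_Com ρ).mp (star_mem (hVm j)) a x, h.Ind_pro_rho]

end Pool.Agent.MP_86f3ed.Fac
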