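import Pool.Agent.H.MP_86f3ed_an.Fac.Ind
import Pool.Agent.H.MP_86f3ed_an.Fac.Cov
import Pool.Agent.H.MP_86f3ed_an.Sf.Gns

/-!
# Fac/Nd: separability of `HH K`, factors under amplification, nondegeneracy
-/

open scoped InnerProductSpace Topology
open Filter ContinuousLinearMap

namespace Pool.Agent.MP_86f3ed.Fac

open Pin Sf

universe u v

variable {K : Type v} [NormedAddCommGroup K] [InnerProductSpace ℂ K] [CompleteSpace K]
  {A : Type u} [NonUnitalCStarAlgebra A]

theorem separable_HH [TopologicalSpace.SeparableSpace K] :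
    TopologicalSpace.SeparableSpace (HH K) := by
  have h1 : TopologicalSpace.IsSeparable (⋃ j, Set.range (inc (K := K) j)) :=
    TopologicalSpace.IsSeparable.iUnion fun j => TopologicalSpace.isSeparable_range (inc j).continuous
  have h2 := (h1.span (R := ℂ)).closure
  rw [← TopologicalSpace.isSeparable_univ_iff]
  refine h2.mono fun f _ => ?_
  refine mem_closure_of_tendsto (hasSum_inc_pr f) (Eventually.of_forall fun s => ?_)
  exact sum_mem fun j _ => Submodule.subset_span (Set.mem_iUnion.2 ⟨j, _, rfl⟩)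

theorem factor_com {𝔅 : StarSubalgebra ℂ (K →L[ℂ] K)} (h : Factor 𝔅) : Factor (Com 𝔅) := by
  intro x hx hx'
  rw [Com_Com_Com] at hx'
  exact h x hx' hx

theorem factor_ampl {𝔅 : StarSubalgebra ℂ (K →L[ℂ] K)} (h : Factor 𝔅) : Factor (Ampl 𝔅) := by
  intro x hx hx'
  obtain ⟨m, hm, rfl⟩ := mem_Com_Com_amp.mp hx'
  have h1 : m ∈ Com 𝔅 := by
    have h2 := mem_Com_amp.mp hx 0 0
    have h3 : ent 0 0 (amp m) = m := by
      refine ContinuousLinearMap.ext fun x => ?_
      rw [ent_apply, amp_inc, pr_inc_same]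
    rwa [h3] at h2
  obtain ⟨c, hc⟩ := h m h1 hm
  exact ⟨c, by rw [hc, amp_smul, amp_one]⟩

/-- A nonzero factor representation is nondegenerate. -/
theorem nondeg {π : A →⋆ₙₐ[ℂ] (K →L[ℂ] K)} (hfac : Factor (rangeAlg π)) (hπ : ∃ a, π a ≠ 0)
    {x : K} (hx : ∀ a, π a x = 0) : x = 0 := by
  let N : Submodule ℂ K :=
    { carrier := {x | ∀ a, π a x = 0}
      add_mem' := fun {x y} hx hy a => by rw [map_add, hx a, hy a, add_zero]
      zero_mem' := fun a => map_zero _
      smul_mem' := fun c x hx a => by rw [map_smul, hx a, smul_zero] }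
  have hN : ∀ x, x ∈ N ↔ ∀ a, π a x = 0 := fun x => Iff.rfl
  have hcl : IsClosed (N : Set K) := by
    have h1 : (N : Set K) = ⋂ a, {x | π a x = 0} := by
      ext x
      simp only [SetLike.mem_coe, hN, Set.mem_iInter, Set.mem_setOf_eq]
    rw [h1]
    exact isClosed_iInter fun a => isClosed_eq (π a).continuous continuous_const
  haveI : CompleteSpace N := hcl.completeSpace_coe
  have h1 : N.starProjection ∈ Com (rangeAlg π) := by
    refine proj_mem_Com _ N fun g hg v hv => ?_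
    obtain ⟨c, a, rfl⟩ := mem_rangeAlg.mp hg
    show c • v + π a v ∈ N
    rw [hv a, add_zero]
    exact N.smul_mem c hv
  have h2 : N.starProjection ∈ Com (Com (rangeAlg π)) := by
    refine proj_mem_Com _ N fun y hy v hv a => ?_
    rw [(Ind_mem_Com π).mp hy, hv a, map_zero]
  obtain ⟨c, hc⟩ := hfac _ h1 h2
  obtain ⟨a, ha⟩ := hπ
  obtain ⟨y, hy⟩ : ∃ y, π a y ≠ 0 := by
    by_contra hcon
    push Not at hcon
    exact ha (ContinuousLinearMap.ext fun y => by rw [hcon y]; rfl)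
  have h3 : N.starProjection y ∈ N := Submodule.starProjection_apply_mem N y
  rw [hc] at h3
  have h4 : π a (c • y) = 0 := h3 a
  rw [map_smul] at h4
  have hc0 : c = 0 := (smul_eq_zero.mp h4).resolve_right hy
  have h5 : N.starProjection x = x := Submodule.starProjection_eq_self_iff.mpr hx
  rw [hc, hc0, zero_smul] at h5
  exact h5.symm

theorem nondeg_amp {π : A →⋆ₙₐ[ℂ] (K →L[ℂ] K)} (h : ∀ x : K, (∀ a, π a x = 0) → x = 0) {x : HH K}
    (hx : ∀ a, ampRep π a x = 0) : x = 0 := by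
  refine ext_pr fun j => ?_
  rw [map_zero]
  refine h _ fun a => ?_
  have h1 := hx a
  rw [ampRep_apply] at h1
  rw [← pr_amp, h1, map_zero]

/-- The cyclic subrepresentation of a vector for a nondegenerate representation. -/
theorem exists_cyclic_sub (ρ : A →⋆ₙₐ[ℂ] (K →L[ℂ] K)) (h : ∀ x : K, (∀ a, ρ a x = 0) → x = 0)
    (ζ : K) :
    ∃ (W : Submodule ℂ K) (_ : CompleteSpace W) (σ : A →⋆ₙₐ[ℂ] (W →L[ℂ] W)) (η : W),
      Sub ρ W σ ∧ (η : K) = ζ ∧ DenseRange fun c => σ c η := by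
  obtain ⟨W, hWc, σ, η, hσ, hση, hcyc, -⟩ := exists_gns ρ ζ
  refine ⟨W, hWc, σ, η, ⟨hσ⟩, ?_, hcyc⟩
  rw [← sub_eq_zero]
  refine h _ fun a => ?_
  rw [map_sub, ← hσ, hση, sub_self]

theorem injective_zero {π : A →⋆ₙₐ[ℂ] (K →L[ℂ] K)} (hπ : ∀ a, π a = 0) :
    IsInjective (Com (rangeAlg π) : Set (K →L[ℂ] K)) := by
  refine ⟨LinearMap.id, fun S => le_rfl, fun S => ?_, fun S _ => rfl⟩
  show S ∈ Com (rangeAlg π)
  rw [Ind_mem_Com]
  intro a x
  rw [hπ a]
  show (0 : K) = S 0
  rw [map_zero]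

end Pool.Agent.MP_86f3ed.Fac
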