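import Pool.Agent.H.MP_86f3ed_an.Fac.Layer

open scoped InnerProductSpace Topology
open Filter ContinuousLinearMap

namespace Pool.Agent.MP_86f3ed.Fac

open Pin Sf

variable {K : Type*} [NormedAddCommGroup K] [InnerProductSpace ℂ K] [CompleteSpace K]
  {𝔓 : StarSubalgebra ℂ (K →L[ℂ] K)}

/-- The left estimate: for orthogonal self-adjoint operators `p, q`. -/
theorem Tomi_left {p q S Y : K →L[ℂ] K} (hp : star p = p) (hpq : p * q = 0)
    (hS : p * S = S) (hY : q * Y = Y) (t : ℝ) :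
    ‖S + (t : ℂ) • Y‖ ^ 2 ≤ ‖S‖ ^ 2 + t ^ 2 * ‖Y‖ ^ 2 := by
  have hnn : 0 ≤ ‖S‖ ^ 2 + t ^ 2 * ‖Y‖ ^ 2 := by positivity
  have key : ‖S + (t : ℂ) • Y‖ ≤ Real.sqrt (‖S‖ ^ 2 + t ^ 2 * ‖Y‖ ^ 2) := by
    refine ContinuousLinearMap.opNorm_le_bound _ (Real.sqrt_nonneg _) fun x => ?_
    have hin : ⟪S x, Y x⟫_ℂ = 0 := by
      have h1 : S x = p (S x) := by
        conv_lhs => rw [← hS]
        rfl
      have h2 : Y x = q (Y x) := by
        conv_lhs => rw [← hY]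
        rfl
      have h3 : ⟪p (S x), q (Y x)⟫_ℂ = ⟪S x, (p * q) (Y x)⟫_ℂ := by
        have h4 : ContinuousLinearMap.adjoint p = p := hp
        conv_lhs => rw [← h4]
        rw [ContinuousLinearMap.adjoint_inner_left]
        rfl
      rw [h1, h2, h3, hpq]
      simp
    have hin' : ⟪S x, (t : ℂ) • Y x⟫_ℂ = 0 := by rw [inner_smul_right, hin, mul_zero]
    have hpy : ‖(S + (t : ℂ) • Y) x‖ ^ 2 = ‖S x‖ ^ 2 + t ^ 2 * ‖Y x‖ ^ 2 := by
      have h5 : (S + (t : ℂ) • Y) x = S x + (t : ℂ) • Y x := rfl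
      have h6 := norm_add_sq_eq_norm_sq_add_norm_sq_of_inner_eq_zero (𝕜 := ℂ) (S x)
        ((t : ℂ) • Y x) hin'
      rw [h5, sq, h6, norm_smul, Complex.norm_real, Real.norm_eq_abs]
      have h7 : |t| * |t| = t ^ 2 := by rw [abs_mul_abs_self, sq]
      nlinarith [h7]
    have h8 : ‖S x‖ ≤ ‖S‖ * ‖x‖ := S.le_opNorm x
    have h9 : ‖Y x‖ ≤ ‖Y‖ * ‖x‖ := Y.le_opNorm x
    have h10 : ‖(S + (t : ℂ) • Y) x‖ ^ 2 ≤ (‖S‖ ^ 2 + t ^ 2 * ‖Y‖ ^ 2) * ‖x‖ ^ 2 := by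
      rw [hpy]
      have h11 : ‖S x‖ ^ 2 ≤ (‖S‖ * ‖x‖) ^ 2 := pow_le_pow_left₀ (norm_nonneg _) h8 2
      have h12 : ‖Y x‖ ^ 2 ≤ (‖Y‖ * ‖x‖) ^ 2 := pow_le_pow_left₀ (norm_nonneg _) h9 2
      nlinarith [sq_nonneg t, mul_le_mul_of_nonneg_left h12 (sq_nonneg t)]
    have h13 : (Real.sqrt (‖S‖ ^ 2 + t ^ 2 * ‖Y‖ ^ 2) * ‖x‖) ^ 2 =
        (‖S‖ ^ 2 + t ^ 2 * ‖Y‖ ^ 2) * ‖x‖ ^ 2 := by
      rw [mul_pow, Real.sq_sqrt hnn]
    refine le_of_sq_le_sq ?_ (by positivity)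
    rw [h13]
    exact h10
  calc ‖S + (t : ℂ) • Y‖ ^ 2 ≤ (Real.sqrt (‖S‖ ^ 2 + t ^ 2 * ‖Y‖ ^ 2)) ^ 2 :=
        pow_le_pow_left₀ (norm_nonneg _) key 2
    _ = _ := Real.sq_sqrt hnn

/-- The right estimate, by taking adjoints. -/
theorem Tomi_right {p q S Y : K →L[ℂ] K} (hp : star p = p) (hq : star q = q) (hpq : p * q = 0)
    (hS : S * p = S) (hY : Y * q = Y) (t : ℝ) :
    ‖S + (t : ℂ) • Y‖ ^ 2 ≤ ‖S‖ ^ 2 + t ^ 2 * ‖Y‖ ^ 2 := by
  have h1 : p * star S = star S := by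
    conv_rhs => rw [← hS]
    rw [star_mul, hp]
  have h2 : q * star Y = star Y := by
    conv_rhs => rw [← hY]
    rw [star_mul, hq]
  have h3 := Tomi_left hp hpq h1 h2 t
  have h4 : star S + (t : ℂ) • star Y = star (S + (t : ℂ) • Y) := by
    rw [star_add, star_smul]
    simp
  rw [h4, norm_star, norm_star, norm_star] at h3
  exact h3

/-- The scalar argument. -/
theorem Tomi_zero {a b : ℝ} (h : ∀ t : ℝ, (1 + t) ^ 2 * a ^ 2 ≤ b ^ 2 + t ^ 2 * a ^ 2) :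
    a = 0 := by
  by_contra ha
  have ha2 : 0 < a ^ 2 := by positivity
  have h1 := h (b ^ 2 / a ^ 2)
  have h2 : b ^ 2 / a ^ 2 * a ^ 2 = b ^ 2 := by field_simp
  nlinarith [sq_nonneg b, h1, h2, ha2]

/-- The vanishing of the off-diagonal corner, left side. -/
theorem Tomi_corner_left (E : (K →L[ℂ] K) →ₗ[ℂ] (K →L[ℂ] K)) (h1 : ∀ S, ‖E S‖ ≤ ‖S‖)
    (h2 : ∀ S, E S ∈ Com 𝔓) (h3 : ∀ S ∈ Com 𝔓, E S = S) {p q : K →L[ℂ] K} (hp : Pr 𝔓 p)
    (hq : Pr 𝔓 q) (hpq : p * q = 0) (S : K →L[ℂ] K) : q * E (p * S) = 0 := by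
  set Y := q * E (p * S) with hYdef
  have hYm : Y ∈ Com 𝔓 := mul_mem hq.mem (h2 _)
  have hqY : q * Y = Y := by rw [hYdef, ← mul_assoc, hq.idem]
  have hpS : p * (p * S) = p * S := by rw [← mul_assoc, hp.idem]
  have hn : ‖q‖ ≤ 1 := by
    have h4 : ‖q‖ * ‖q‖ = ‖q‖ := by
      rw [← CStarRing.norm_star_mul_self, hq.sa, hq.idem]
    by_contra hc
    push Not at hc
    nlinarith [norm_nonneg q]
  have key : ∀ t : ℝ, (1 + t) ^ 2 * ‖Y‖ ^ 2 ≤ ‖p * S‖ ^ 2 + t ^ 2 * ‖Y‖ ^ 2 := by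
    intro t
    have h5 : E (p * S + (t : ℂ) • Y) = E (p * S) + (t : ℂ) • Y := by
      rw [map_add, map_smul, h3 Y hYm]
    have h6 : q * E (p * S + (t : ℂ) • Y) = ((1 + t : ℝ) : ℂ) • Y := by
      rw [h5, mul_add, mul_smul_comm, hqY, ← hYdef]
      push_cast
      rw [add_smul, one_smul]
    have h7 : ‖((1 + t : ℝ) : ℂ) • Y‖ ≤ ‖p * S + (t : ℂ) • Y‖ := by
      rw [← h6]
      calc ‖q * E (p * S + (t : ℂ) • Y)‖ ≤ ‖q‖ * ‖E (p * S + (t : ℂ) • Y)‖ := norm_mul_le _ _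
        _ ≤ 1 * ‖p * S + (t : ℂ) • Y‖ := by
            gcongr
            exact h1 _
        _ = _ := one_mul _
    have h8 := Tomi_left hp.sa hpq hpS hqY t
    have h9 : ‖((1 + t : ℝ) : ℂ) • Y‖ ^ 2 = (1 + t) ^ 2 * ‖Y‖ ^ 2 := by
      rw [norm_smul, Complex.norm_real, Real.norm_eq_abs, mul_pow, sq_abs]
    calc (1 + t) ^ 2 * ‖Y‖ ^ 2 = ‖((1 + t : ℝ) : ℂ) • Y‖ ^ 2 := h9.symm
      _ ≤ ‖p * S + (t : ℂ) • Y‖ ^ 2 := pow_le_pow_left₀ (norm_nonneg _) h7 2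
      _ ≤ _ := h8
  exact norm_eq_zero.mp (Tomi_zero key)

/-- The vanishing of the off-diagonal corner, right side. -/
theorem Tomi_corner_right (E : (K →L[ℂ] K) →ₗ[ℂ] (K →L[ℂ] K)) (h1 : ∀ S, ‖E S‖ ≤ ‖S‖)
    (h2 : ∀ S, E S ∈ Com 𝔓) (h3 : ∀ S ∈ Com 𝔓, E S = S) {p q : K →L[ℂ] K} (hp : Pr 𝔓 p)
    (hq : Pr 𝔓 q) (hpq : p * q = 0) (S : K →L[ℂ] K) : E (S * p) * q = 0 := by
  set Y := E (S * p) * q with hYdef
  have hYm : Y ∈ Com 𝔓 := mul_mem (h2 _) hq.mem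
  have hqY : Y * q = Y := by rw [hYdef, mul_assoc, hq.idem]
  have hpS : (S * p) * p = S * p := by rw [mul_assoc, hp.idem]
  have hn : ‖q‖ ≤ 1 := by
    have h4 : ‖q‖ * ‖q‖ = ‖q‖ := by
      rw [← CStarRing.norm_star_mul_self, hq.sa, hq.idem]
    by_contra hc
    push Not at hc
    nlinarith [norm_nonneg q]
  have key : ∀ t : ℝ, (1 + t) ^ 2 * ‖Y‖ ^ 2 ≤ ‖S * p‖ ^ 2 + t ^ 2 * ‖Y‖ ^ 2 := by
    intro t
    have h5 : E (S * p + (t : ℂ) • Y) = E (S * p) + (t : ℂ) • Y := by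
      rw [map_add, map_smul, h3 Y hYm]
    have h6 : E (S * p + (t : ℂ) • Y) * q = ((1 + t : ℝ) : ℂ) • Y := by
      rw [h5, add_mul, smul_mul_assoc, hqY, ← hYdef]
      push_cast
      rw [add_smul, one_smul]
    have h7 : ‖((1 + t : ℝ) : ℂ) • Y‖ ≤ ‖S * p + (t : ℂ) • Y‖ := by
      rw [← h6]
      calc ‖E (S * p + (t : ℂ) • Y) * q‖ ≤ ‖E (S * p + (t : ℂ) • Y)‖ * ‖q‖ := norm_mul_le _ _
        _ ≤ ‖S * p + (t : ℂ) • Y‖ * 1 := by
            gcongr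
            exact h1 _
        _ = _ := mul_one _
    have h8 := Tomi_right hp.sa hq.sa hpq hpS hqY t
    have h9 : ‖((1 + t : ℝ) : ℂ) • Y‖ ^ 2 = (1 + t) ^ 2 * ‖Y‖ ^ 2 := by
      rw [norm_smul, Complex.norm_real, Real.norm_eq_abs, mul_pow, sq_abs]
    calc (1 + t) ^ 2 * ‖Y‖ ^ 2 = ‖((1 + t : ℝ) : ℂ) • Y‖ ^ 2 := h9.symm
      _ ≤ ‖S * p + (t : ℂ) • Y‖ ^ 2 := pow_le_pow_left₀ (norm_nonneg _) h7 2
      _ ≤ _ := h8
  exact norm_eq_zero.mp (Tomi_zero key)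

/-- A projection of norm one and projections of the algebra. -/
theorem tomiyama_proj (E : (K →L[ℂ] K) →ₗ[ℂ] (K →L[ℂ] K)) (h1 : ∀ S, ‖E S‖ ≤ ‖S‖)
    (h2 : ∀ S, E S ∈ Com 𝔓) (h3 : ∀ S ∈ Com 𝔓, E S = S) {p : K →L[ℂ] K} (hp : Pr 𝔓 p)
    (S : K →L[ℂ] K) : E (p * S) = p * E S ∧ E (S * p) = E S * p := by
  have hq : Pr 𝔓 (1 - p) := by
    refine ⟨sub_mem (one_mem _) hp.mem, ?_, ?_⟩
    · rw [star_sub, star_one, hp.sa]
    · have e0 : (1 - p) * (1 - p) = 1 - p - p + p * p := by noncomm_ring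
      rw [e0, hp.idem]
      abel
  have hpq : p * (1 - p) = 0 := by rw [mul_sub, mul_one, hp.idem, sub_self]
  have hqp : (1 - p) * p = 0 := by rw [sub_mul, one_mul, hp.idem, sub_self]
  constructor
  · have a1 := Tomi_corner_left E h1 h2 h3 hp hq hpq S
    have a2 := Tomi_corner_left E h1 h2 h3 hq hp hqp S
    have a3 : E S = E (p * S) + E ((1 - p) * S) := by
      rw [← map_add, ← add_mul]
      congr 1
      rw [add_sub_cancel, one_mul]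
    rw [a3, mul_add, a2, add_zero]
    rw [sub_mul, one_mul, sub_eq_zero] at a1
    exact a1
  · have a1 := Tomi_corner_right E h1 h2 h3 hp hq hpq S
    have a2 := Tomi_corner_right E h1 h2 h3 hq hp hqp S
    have a3 : E S = E (S * p) + E (S * (1 - p)) := by
      rw [← map_add, ← mul_add]
      congr 1
      rw [add_sub_cancel, mul_one]
    rw [a3, add_mul, a2, add_zero]
    rw [mul_sub, mul_one, sub_eq_zero] at a1
    exact a1

/-- The bimodule property for `star x * x`. -/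
theorem Tomi_pos (E : (K →L[ℂ] K) →ₗ[ℂ] (K →L[ℂ] K)) (h1 : ∀ S, ‖E S‖ ≤ ‖S‖)
    (h2 : ∀ S, E S ∈ Com 𝔓) (h3 : ∀ S ∈ Com 𝔓, E S = S) {x : K →L[ℂ] K} (hx : x ∈ Com 𝔓)
    (S : K →L[ℂ] K) : E (star x * x * S) = star x * x * E S ∧
      E (S * (star x * x)) = E S * (star x * x) := by
  have main : ∀ ε : ℝ, 0 < ε →
      ‖E (star x * x * S) - star x * x * E S‖ ≤ ε * (2 * ‖S‖) ∧
      ‖E (S * (star x * x)) - E S * (star x * x)‖ ≤ ε * (2 * ‖S‖) := by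
    intro ε hε
    obtain ⟨n, w, hw, hpi, hn, -, -, -⟩ := exists_layer hx hε
    set P : K →L[ℂ] K := (ε : ℂ) • ∑ j, star (w j) * w j with hP
    have hPl : E (P * S) = P * E S := by
      rw [hP, smul_mul_assoc, smul_mul_assoc, map_smul, Finset.sum_mul, Finset.sum_mul, map_sum]
      congr 1
      refine Finset.sum_congr rfl fun j _ => ?_
      exact (tomiyama_proj E h1 h2 h3 (Pr.of_pi (hw j) (hpi j)) S).1
    have hPr : E (S * P) = E S * P := by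
      rw [hP, mul_smul_comm, mul_smul_comm, map_smul, Finset.mul_sum, Finset.mul_sum, map_sum]
      congr 1
      refine Finset.sum_congr rfl fun j _ => ?_
      exact (tomiyama_proj E h1 h2 h3 (Pr.of_pi (hw j) (hpi j)) S).2
    have hSE := h1 S
    constructor
    · have e1 : E (star x * x * S) - star x * x * E S =
          E ((star x * x - P) * S) - (star x * x - P) * E S := by
        rw [sub_mul, map_sub, hPl, sub_mul]
        abel
      rw [e1]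
      calc ‖E ((star x * x - P) * S) - (star x * x - P) * E S‖
          ≤ ‖E ((star x * x - P) * S)‖ + ‖(star x * x - P) * E S‖ := norm_sub_le _ _
        _ ≤ ‖(star x * x - P) * S‖ + ‖star x * x - P‖ * ‖E S‖ :=
            add_le_add (h1 _) (norm_mul_le _ _)
        _ ≤ ‖star x * x - P‖ * ‖S‖ + ‖star x * x - P‖ * ‖S‖ :=
            add_le_add (norm_mul_le _ _) (mul_le_mul_of_nonneg_left hSE (norm_nonneg _))
        _ ≤ ε * ‖S‖ + ε * ‖S‖ := by gcongr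
        _ = ε * (2 * ‖S‖) := by ring
    · have e1 : E (S * (star x * x)) - E S * (star x * x) =
          E (S * (star x * x - P)) - E S * (star x * x - P) := by
        rw [mul_sub, map_sub, hPr, mul_sub]
        abel
      rw [e1]
      calc ‖E (S * (star x * x - P)) - E S * (star x * x - P)‖
          ≤ ‖E (S * (star x * x - P))‖ + ‖E S * (star x * x - P)‖ := norm_sub_le _ _
        _ ≤ ‖S * (star x * x - P)‖ + ‖E S‖ * ‖star x * x - P‖ :=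
            add_le_add (h1 _) (norm_mul_le _ _)
        _ ≤ ‖S‖ * ‖star x * x - P‖ + ‖S‖ * ‖star x * x - P‖ :=
            add_le_add (norm_mul_le _ _) (mul_le_mul_of_nonneg_right hSE (norm_nonneg _))
        _ ≤ ‖S‖ * ε + ‖S‖ * ε := by gcongr
        _ = ε * (2 * ‖S‖) := by ring
  have lim : ∀ a : ℝ, (∀ ε : ℝ, 0 < ε → a ≤ ε * (2 * ‖S‖)) → a ≤ 0 := by
    intro a ha
    by_contra hc
    push Not at hc
    have hS : 0 ≤ ‖S‖ := norm_nonneg S
    have h5 := ha (a / (2 * (2 * ‖S‖ + 1))) (by positivity)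
    have h6 : a / (2 * (2 * ‖S‖ + 1)) * (2 * ‖S‖) ≤ a / 2 := by
      rw [div_mul_eq_mul_div, div_le_div_iff₀ (by positivity) (by norm_num)]
      nlinarith
    linarith
  constructor
  · exact sub_eq_zero.mp (norm_le_zero_iff.mp (lim _ fun ε hε => (main ε hε).1))
  · exact sub_eq_zero.mp (norm_le_zero_iff.mp (lim _ fun ε hε => (main ε hε).2))

/-- The bimodule property is linear. -/
theorem Tomi_lin (E : (K →L[ℂ] K) →ₗ[ℂ] (K →L[ℂ] K)) {y z : K →L[ℂ] K} (a b : ℂ)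
    {S : K →L[ℂ] K} (hy : E (y * S) = y * E S ∧ E (S * y) = E S * y)
    (hz : E (z * S) = z * E S ∧ E (S * z) = E S * z) :
    E ((a • y + b • z) * S) = (a • y + b • z) * E S ∧
      E (S * (a • y + b • z)) = E S * (a • y + b • z) := by
  constructor
  · have e1 : (a • y + b • z) * S = a • (y * S) + b • (z * S) := by
      rw [add_mul, smul_mul_assoc, smul_mul_assoc]
    have e2 : (a • y + b • z) * E S = a • (y * E S) + b • (z * E S) := by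
      rw [add_mul, smul_mul_assoc, smul_mul_assoc]
    rw [e1, e2, map_add, map_smul, map_smul, hy.1, hz.1]
  · have e1 : S * (a • y + b • z) = a • (S * y) + b • (S * z) := by
      rw [mul_add, mul_smul_comm, mul_smul_comm]
    have e2 : E S * (a • y + b • z) = a • (E S * y) + b • (E S * z) := by
      rw [mul_add, mul_smul_comm, mul_smul_comm]
    rw [e1, e2, map_add, map_smul, map_smul, hy.2, hz.2]

/-- The bimodule property for self-adjoint elements. -/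
theorem Tomi_sa (E : (K →L[ℂ] K) →ₗ[ℂ] (K →L[ℂ] K)) (h1 : ∀ S, ‖E S‖ ≤ ‖S‖)
    (h2 : ∀ S, E S ∈ Com 𝔓) (h3 : ∀ S ∈ Com 𝔓, E S = S) {z : K →L[ℂ] K} (hz : z ∈ Com 𝔓)
    (hsa : star z = z) (S : K →L[ℂ] K) : E (z * S) = z * E S ∧ E (S * z) = E S * z := by
  have ha := Tomi_pos E h1 h2 h3 (add_mem hz (one_mem _)) S
  have hb := Tomi_pos E h1 h2 h3 (sub_mem hz (one_mem _)) S
  have e1 : (4⁻¹ : ℂ) • (star (z + 1) * (z + 1)) + (-4⁻¹ : ℂ) • (star (z - 1) * (z - 1)) = z := by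
    rw [star_add, star_sub, hsa, star_one, neg_smul, ← sub_eq_add_neg, ← smul_sub]
    have e2 : (z + 1) * (z + 1) - (z - 1) * (z - 1) = (4 : ℂ) • z := by
      have e3 : (z + 1) * (z + 1) - (z - 1) * (z - 1) = z + z + (z + z) := by noncomm_ring
      rw [e3]
      have : (4 : ℂ) = 1 + 1 + (1 + 1) := by norm_num
      rw [this, add_smul, add_smul, one_smul]
    rw [e2, smul_smul]
    norm_num
  have h := Tomi_lin E (4⁻¹ : ℂ) (-4⁻¹ : ℂ) ha hb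
  rwa [e1] at h

/-- Tomiyama: a projection of norm one onto a von Neumann algebra is a bimodule map. -/
theorem tomiyama (E : (K →L[ℂ] K) →ₗ[ℂ] (K →L[ℂ] K)) (h1 : ∀ S, ‖E S‖ ≤ ‖S‖)
    (h2 : ∀ S, E S ∈ Com 𝔓) (h3 : ∀ S ∈ Com 𝔓, E S = S) {y : K →L[ℂ] K} (hy : y ∈ Com 𝔓)
    (S : K →L[ℂ] K) : E (y * S) = y * E S ∧ E (S * y) = E S * y := by
  have hys : star y ∈ Com 𝔓 := star_mem hy
  have ha := Tomi_sa E h1 h2 h3 (z := y + star y) (add_mem hy hys)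
    (by rw [star_add, star_star, add_comm]) S
  have hb := Tomi_sa E h1 h2 h3 (z := Complex.I • (y - star y))
    (SMulMemClass.smul_mem _ (sub_mem hy hys))
    (by
      rw [star_smul, star_sub, star_star]
      simp only [Complex.star_def, Complex.conj_I, neg_smul]
      rw [← smul_neg, neg_sub]) S
  have e1 : (2⁻¹ : ℂ) • (y + star y) + (-(2⁻¹ : ℂ) * Complex.I) •
      (Complex.I • (y - star y)) = y := by
    rw [smul_smul, mul_assoc, Complex.I_mul_I]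
    have : -(2⁻¹ : ℂ) * -1 = 2⁻¹ := by norm_num
    rw [this, ← smul_add]
    have e2 : y + star y + (y - star y) = (2 : ℂ) • y := by
      rw [two_smul]
      abel
    rw [e2, smul_smul]
    norm_num
  have h := Tomi_lin E (2⁻¹ : ℂ) (-(2⁻¹ : ℂ) * Complex.I) ha hb
  rwa [e1] at h

end Pool.Agent.MP_86f3ed.Fac
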