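import Pool.Agent.H.MP_86f3ed_an.Fac.Halve

open scoped InnerProductSpace Topology
open Filter ContinuousLinearMap

namespace Pool.Agent.MP_86f3ed.Fac

open Pin Sf

variable {K : Type*} [NormedAddCommGroup K] [InnerProductSpace ℂ K] [CompleteSpace K]
  {𝔓 : StarSubalgebra ℂ (K →L[ℂ] K)}

/-- A choice of halves below `e`. -/
structure Halver (𝔓 : StarSubalgebra ℂ (K →L[ℂ] K)) (e : K →L[ℂ] K) where
  pr : Pr 𝔓 e
  v : (K →L[ℂ] K) → (K →L[ℂ] K)
  mem : ∀ r, Pr 𝔓 r → e * r = r → v r ∈ Com 𝔓
  pi : ∀ r, Pr 𝔓 r → e * r = r → v r * star (v r) * v r = v r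
  sq : ∀ r, Pr 𝔓 r → e * r = r → v r * v r = 0
  sum : ∀ r, Pr 𝔓 r → e * r = r → star (v r) * v r + v r * star (v r) = r

/-- The lists of length `k`. -/
def lev : ℕ → Finset (List Bool)
  | 0 => {[]}
  | k + 1 => (lev k).image (List.cons false) ∪ (lev k).image (List.cons true)

theorem lev_zero : lev 0 = {[]} := rfl

theorem mem_lev {k : ℕ} {l : List Bool} : l ∈ lev k ↔ l.length = k := by
  induction k generalizing l with
  | zero => simp [lev]
  | succ k ih =>
    rw [lev, Finset.mem_union, Finset.mem_image, Finset.mem_image]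
    constructor
    · rintro (⟨a, ha, rfl⟩ | ⟨a, ha, rfl⟩)
      · rw [List.length_cons, ih.1 ha]
      · rw [List.length_cons, ih.1 ha]
    · intro h
      cases l with
      | nil => simp at h
      | cons b l =>
        have h' : l.length = k := by simpa using h
        cases b
        · exact Or.inl ⟨l, ih.2 h', rfl⟩
        · exact Or.inr ⟨l, ih.2 h', rfl⟩

private theorem Tree_cons_inj (b : Bool) : Function.Injective (List.cons b) :=
  fun _ _ h => (List.cons.inj h).2

private theorem Tree_disj (k : ℕ) :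
    Disjoint ((lev k).image (List.cons false)) ((lev k).image (List.cons true)) := by
  rw [Finset.disjoint_left]
  intro a ha hb
  obtain ⟨x, -, rfl⟩ := Finset.mem_image.1 ha
  obtain ⟨y, -, hy⟩ := Finset.mem_image.1 hb
  have := (List.cons.inj hy).1
  exact absurd this (by decide)

theorem card_lev (k : ℕ) : (lev k).card = 2 ^ k := by
  induction k with
  | zero => rfl
  | succ k ih =>
    rw [lev, Finset.card_union_of_disjoint (Tree_disj k),
      Finset.card_image_of_injective _ (Tree_cons_inj false),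
      Finset.card_image_of_injective _ (Tree_cons_inj true), ih, pow_succ]
    ring

theorem sum_lev_succ {E : Type*} [AddCommMonoid E] (k : ℕ) (f : List Bool → E) :
    ∑ l ∈ lev (k + 1), f l = ∑ l ∈ lev k, (f (false :: l) + f (true :: l)) := by
  rw [lev, Finset.sum_union (Tree_disj k),
    Finset.sum_image (fun x _ y _ hxy => Tree_cons_inj false hxy),
    Finset.sum_image (fun x _ y _ hxy => Tree_cons_inj true hxy), ← Finset.sum_add_distrib]

namespace Halver

variable {e : K →L[ℂ] K} (h : Halver 𝔓 e)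

/-- The pieces. -/
noncomputable def T : List Bool → K →L[ℂ] K
  | [] => e
  | b :: l => if b then h.v (T l) * star (h.v (T l)) else star (h.v (T l)) * h.v (T l)

theorem T_nil : h.T [] = e := rfl

theorem T_false (l : List Bool) : h.T (false :: l) = star (h.v (h.T l)) * h.v (h.T l) := rfl

theorem T_true (l : List Bool) : h.T (true :: l) = h.v (h.T l) * star (h.v (h.T l)) := rfl

private theorem Tree_r {r v : K →L[ℂ] K} (hpi : v * star v * v = v) (hsq : v * v = 0)
    (hs : star v * v + v * star v = r) :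
    r * (star v * v) = star v * v ∧ r * (v * star v) = v * star v ∧
      star v * v * (v * star v) = 0 := by
  have h1 : star v * star v = 0 := by rw [← star_mul, hsq, star_zero]
  have h2 : star v * v * (star v * v) = star v * v := by
    rw [mul_assoc, ← mul_assoc v, hpi]
  have h3 : v * star v * (star v * v) = 0 := by
    rw [mul_assoc, ← mul_assoc (star v), h1, zero_mul, mul_zero]
  have h4 : star v * v * (v * star v) = 0 := by
    rw [mul_assoc, ← mul_assoc v, hsq, zero_mul, mul_zero]
  have h5 : v * star v * (v * star v) = v * star v := by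
    rw [← mul_assoc, hpi]
  refine ⟨?_, ?_, h4⟩
  · rw [← hs, add_mul, h2, h3, add_zero]
  · rw [← hs, add_mul, h4, h5, zero_add]

theorem T_pr_le (l : List Bool) : Pr 𝔓 (h.T l) ∧ e * h.T l = h.T l := by
  induction l with
  | nil => exact ⟨h.pr, h.pr.idem⟩
  | cons b l ih =>
    obtain ⟨h1, h2⟩ := ih
    have hm := h.mem _ h1 h2
    have hp := h.pi _ h1 h2
    have hq := h.sq _ h1 h2
    have hs := h.sum _ h1 h2
    obtain ⟨a1, a2, -⟩ := Tree_r hp hq hs
    cases b
    · rw [T_false]
      refine ⟨Pr.of_pi hm hp, ?_⟩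
      rw [← a1, ← mul_assoc, h2]
    · rw [T_true]
      refine ⟨Pr.of_pi' hm hp, ?_⟩
      rw [← a2, ← mul_assoc, h2]

theorem T_pr (l : List Bool) : Pr 𝔓 (h.T l) := (h.T_pr_le l).1

theorem T_le (l : List Bool) : e * h.T l = h.T l := (h.T_pr_le l).2

theorem T_add (l : List Bool) : h.T (false :: l) + h.T (true :: l) = h.T l := by
  rw [T_false, T_true]
  exact h.sum _ (h.T_pr l) (h.T_le l)

theorem T_orth (l : List Bool) : h.T (false :: l) * h.T (true :: l) = 0 := by
  rw [T_false, T_true]
  exact (Tree_r (h.pi _ (h.T_pr l) (h.T_le l)) (h.sq _ (h.T_pr l) (h.T_le l))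
    (h.sum _ (h.T_pr l) (h.T_le l))).2.2

theorem T_eqv (l : List Bool) : Eqv 𝔓 (h.T (false :: l)) (h.T (true :: l)) :=
  ⟨h.v (h.T l), h.mem _ (h.T_pr l) (h.T_le l), (h.T_false l).symm, (h.T_true l).symm⟩

theorem T_cons_le (b : Bool) (l : List Bool) : h.T l * h.T (b :: l) = h.T (b :: l) := by
  obtain ⟨a1, a2, -⟩ := Tree_r (h.pi _ (h.T_pr l) (h.T_le l)) (h.sq _ (h.T_pr l) (h.T_le l))
    (h.sum _ (h.T_pr l) (h.T_le l))
  cases b
  · rw [T_false]; exact a1
  · rw [T_true]; exact a2

theorem T_ne (h0 : e ≠ 0) (l : List Bool) : h.T l ≠ 0 := by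
  induction l with
  | nil => exact h0
  | cons b l ih =>
    intro hb
    have hz : h.T (false :: l) = 0 ∧ h.T (true :: l) = 0 := by
      cases b
      · exact ⟨hb, (h.T_eqv l).zero_iff.1 hb⟩
      · exact ⟨(h.T_eqv l).zero_iff.2 hb, hb⟩
    apply ih
    rw [← h.T_add l, hz.1, hz.2, add_zero]

private theorem Tree_orth_symm {p q : K →L[ℂ] K} (hp : Pr 𝔓 p) (hq : Pr 𝔓 q) (h0 : p * q = 0) :
    q * p = 0 := by
  have := congrArg star h0
  rwa [star_mul, hp.sa, hq.sa, star_zero] at this

theorem lev_orth {k : ℕ} {l l' : List Bool} (hl : l ∈ lev k) (hl' : l' ∈ lev k) (hne : l ≠ l') :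
    h.T l * h.T l' = 0 := by
  induction k generalizing l l' with
  | zero =>
    rw [mem_lev] at hl hl'
    exact absurd ((List.length_eq_zero_iff.1 hl).trans (List.length_eq_zero_iff.1 hl').symm) hne
  | succ k ih =>
    rw [mem_lev] at hl hl'
    cases l with
    | nil => simp at hl
    | cons b l =>
      cases l' with
      | nil => simp at hl'
      | cons b' l' =>
        have h1 : l ∈ lev k := mem_lev.2 (by simpa using hl)
        have h2 : l' ∈ lev k := mem_lev.2 (by simpa using hl')
        by_cases hll : l = l'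
        · subst hll
          have hbb : b ≠ b' := fun hb => hne (by rw [hb])
          cases b
          · cases b'
            · exact absurd rfl hbb
            · exact h.T_orth l
          · cases b'
            · exact Tree_orth_symm (h.T_pr _) (h.T_pr _) (h.T_orth l)
            · exact absurd rfl hbb
        · have h3 : h.T (b :: l) * h.T l = h.T (b :: l) :=
            (h.T_pr l).le_symm (h.T_pr _) (h.T_cons_le b l)
          calc h.T (b :: l) * h.T (b' :: l')
              = h.T (b :: l) * h.T l * (h.T l' * h.T (b' :: l')) := by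
                rw [h3, h.T_cons_le]
            _ = h.T (b :: l) * (h.T l * h.T l') * h.T (b' :: l') := by simp only [mul_assoc]
            _ = 0 := by rw [ih h1 h2 hll, mul_zero, zero_mul]

private theorem Tree_app (m l : List Bool) : h.T l * h.T (m ++ l) = h.T (m ++ l) := by
  induction m with
  | nil => exact (h.T_pr l).idem
  | cons b m ih =>
    rw [List.cons_append]
    calc h.T l * h.T (b :: (m ++ l)) = h.T l * (h.T (m ++ l) * h.T (b :: (m ++ l))) := by
          rw [h.T_cons_le]
      _ = h.T l * h.T (m ++ l) * h.T (b :: (m ++ l)) := by rw [mul_assoc]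
      _ = h.T (b :: (m ++ l)) := by rw [ih, h.T_cons_le]

private theorem Tree_comm (l l' : List Bool) (hle : l.length ≤ l'.length) :
    h.T l * h.T l' = h.T l' * h.T l := by
  obtain ⟨m, l'', hm, hlen⟩ : ∃ m l'', l' = m ++ l'' ∧ l''.length = l.length := by
    refine ⟨l'.take (l'.length - l.length), l'.drop (l'.length - l.length),
      (List.take_append_drop _ _).symm, ?_⟩
    rw [List.length_drop]
    omega
  subst hm
  have h1 := Tree_app h m l''
  have h2 : h.T (m ++ l'') * h.T l'' = h.T (m ++ l'') := (h.T_pr _).le_symm (h.T_pr _) h1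
  by_cases hl : l'' = l
  · subst hl
    rw [h1, h2]
  · have ho : h.T l * h.T l'' = 0 :=
      h.lev_orth (k := l.length) (mem_lev.2 rfl) (mem_lev.2 hlen) (fun hh => hl hh.symm)
    have ho' : h.T l'' * h.T l = 0 := Tree_orth_symm (h.T_pr _) (h.T_pr _) ho
    calc h.T l * h.T (m ++ l'') = h.T l * (h.T l'' * h.T (m ++ l'')) := by rw [h1]
      _ = h.T l * h.T l'' * h.T (m ++ l'') := by rw [mul_assoc]
      _ = h.T (m ++ l'') * (h.T l'' * h.T l) := by rw [ho, ho', zero_mul, mul_zero]
      _ = h.T (m ++ l'') * h.T l'' * h.T l := by rw [mul_assoc]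
      _ = h.T (m ++ l'') * h.T l := by rw [h2]

theorem T_comm (l l' : List Bool) : h.T l * h.T l' = h.T l' * h.T l := by
  rcases le_total l.length l'.length with hle | hle
  · exact Tree_comm h l l' hle
  · exact (Tree_comm h l' l hle).symm

theorem lev_sum (k : ℕ) : ∑ l ∈ lev k, h.T l = e := by
  induction k with
  | zero => rw [lev_zero, Finset.sum_singleton, T_nil]
  | succ k ih =>
    rw [sum_lev_succ]
    exact (Finset.sum_congr rfl fun l _ => h.T_add l).trans ih

private theorem Tree_mass {p : K →L[ℂ] K} (hs : star p = p) (hi : p * p = p) (η : K) :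
    ((‖p η‖ ^ 2 : ℝ) : ℂ) = ⟪η, p η⟫_ℂ := by
  have h1 : ⟪p η, p η⟫_ℂ = ⟪η, p η⟫_ℂ := by
    calc ⟪p η, p η⟫_ℂ = ⟪(star p) η, p η⟫_ℂ := by rw [hs]
      _ = ⟪η, p (p η)⟫_ℂ := by
          rw [ContinuousLinearMap.star_eq_adjoint, ContinuousLinearMap.adjoint_inner_left]
      _ = ⟪η, p η⟫_ℂ := by
          rw [← ContinuousLinearMap.mul_apply, hi]
  rw [← h1, inner_self_eq_norm_sq_to_K]
  simp

theorem norm_add (l : List Bool) (η : K) :
    ‖h.T (false :: l) η‖ ^ 2 + ‖h.T (true :: l) η‖ ^ 2 = ‖h.T l η‖ ^ 2 := by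
  have h1 := Tree_mass (h.T_pr (false :: l)).sa (h.T_pr (false :: l)).idem η
  have h2 := Tree_mass (h.T_pr (true :: l)).sa (h.T_pr (true :: l)).idem η
  have h3 := Tree_mass (h.T_pr l).sa (h.T_pr l).idem η
  have h4 : h.T l η = h.T (false :: l) η + h.T (true :: l) η := by
    rw [← h.T_add l]; rfl
  have h5 : (((‖h.T (false :: l) η‖ ^ 2 + ‖h.T (true :: l) η‖ ^ 2 : ℝ)) : ℂ) =
      ((‖h.T l η‖ ^ 2 : ℝ) : ℂ) := by
    rw [Complex.ofReal_add, h1, h2, h3, h4, inner_add_right]
  exact_mod_cast h5

end Halver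

end Pool.Agent.MP_86f3ed.Fac
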