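import Pool.Agent.H.MP_86f3ed_an.Fac.Tree
import Pool.Agent.H.MP_86f3ed_an.Fac.HalfEq

open scoped InnerProductSpace Topology
open Filter ContinuousLinearMap

namespace Pool.Agent.MP_86f3ed.Fac

open Pin Sf

variable {K : Type*} [NormedAddCommGroup K] [InnerProductSpace ℂ K] [CompleteSpace K]
  {𝔓 : StarSubalgebra ℂ (K →L[ℂ] K)}

theorem TreeB_norm {p q : K →L[ℂ] K} (hp : star p = p) (h : p * q = 0) (η : K) :
    ‖(p + q) η‖ ^ 2 = ‖p η‖ ^ 2 + ‖q η‖ ^ 2 := by
  have h1 : ⟪p η, q η⟫_ℂ = 0 := by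
    calc ⟪p η, q η⟫_ℂ = ⟪(adjoint p) η, q η⟫_ℂ := by rw [← star_eq_adjoint, hp]
      _ = ⟪η, p (q η)⟫_ℂ := by rw [adjoint_inner_left]
      _ = ⟪η, (p * q) η⟫_ℂ := rfl
      _ = 0 := by rw [h, _root_.zero_apply, inner_zero_right]
  have h2 := norm_add_sq_eq_norm_sq_add_norm_sq_of_inner_eq_zero (p η) (q η) h1
  rw [_root_.add_apply]
  nlinarith [h2]

namespace Halver

variable {e : K →L[ℂ] K} (h : Halver 𝔓 e)

theorem TreeB_orth {k : ℕ} {l : List Bool} {S : Finset (List Bool)} (hl : l ∈ lev k)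
    (hS : S ⊆ lev k) (hn : l ∉ S) : h.T l * ∑ l' ∈ S, h.T l' = 0 := by
  rw [Finset.mul_sum]
  refine Finset.sum_eq_zero fun l' hl' => ?_
  exact h.lev_orth hl (hS hl') (fun hh => hn (hh ▸ hl'))

/-- Partial sums of a level are projections. -/
theorem sum_pr {k : ℕ} (S : Finset (List Bool)) (hS : S ⊆ lev k) :
    Pr 𝔓 (∑ l ∈ S, h.T l) ∧ e * (∑ l ∈ S, h.T l) = ∑ l ∈ S, h.T l ∧
      ∀ η, ‖(∑ l ∈ S, h.T l) η‖ ^ 2 = ∑ l ∈ S, ‖h.T l η‖ ^ 2 := by
  induction S using Finset.induction_on with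
  | empty =>
    refine ⟨?_, ?_, ?_⟩
    · rw [Finset.sum_empty]
      exact Pr.zero
    · rw [Finset.sum_empty, mul_zero]
    · intro η
      simp
  | insert l S hl ih =>
    have hl1 : l ∈ lev k := hS (Finset.mem_insert_self l S)
    have hS1 : S ⊆ lev k := fun x hx => hS (Finset.mem_insert_of_mem hx)
    obtain ⟨ih1, ih2, ih3⟩ := ih hS1
    have ho := h.TreeB_orth hl1 hS1 hl
    rw [Finset.sum_insert hl]
    refine ⟨Pr.add (h.T_pr l) ih1 ho, ?_, ?_⟩
    · rw [mul_add, h.T_le l, ih2]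
    · intro η
      rw [TreeB_norm (h.T_pr l).sa ho, ih3 η, Finset.sum_insert hl]

theorem lev_eqv (hF : Factor 𝔓) (hf : Fte 𝔓 e) {k : ℕ} {l l' : List Bool} (hl : l ∈ lev k)
    (hl' : l' ∈ lev k) : Eqv 𝔓 (h.T l) (h.T l') := by
  induction k generalizing l l' with
  | zero =>
    rw [mem_lev, List.length_eq_zero_iff] at hl hl'
    rw [hl, hl']
    exact Eqv.refl (h.T_pr [])
  | succ k ih =>
    rw [mem_lev] at hl hl'
    cases l with
    | nil => simp at hl
    | cons b l =>
      cases l' with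
      | nil => simp at hl'
      | cons b' l' =>
        have hl1 : l ∈ lev k := by
          rw [mem_lev]
          simpa using hl
        have hl1' : l' ∈ lev k := by
          rw [mem_lev]
          simpa using hl'
        have h1 := ih hl1 hl1'
        have h2 : Eqv 𝔓 (h.T (false :: l)) (h.T (false :: l')) :=
          half_eqv hF h.pr hf (h.T_pr l) (h.T_pr l') (h.T_le l) (h.T_le l') h1
            (h.T_pr (false :: l)) (h.T_pr (true :: l)) (h.T_pr (false :: l'))
            (h.T_pr (true :: l')) (h.T_orth l) (h.T_orth l') (h.T_add l) (h.T_add l')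
            (h.T_eqv l) (h.T_eqv l')
        have h3 : ∀ (c : Bool) (m : List Bool), Eqv 𝔓 (h.T (false :: m)) (h.T (c :: m)) := by
          intro c m
          cases c with
          | false => exact Eqv.refl (h.T_pr (false :: m))
          | true => exact h.T_eqv m
        exact Eqv.trans (h.T_pr (b :: l)) (h.T_pr (false :: l)) (h3 b l).symm
          (Eqv.trans (h.T_pr (false :: l)) (h.T_pr (false :: l')) h2 (h3 b' l'))

/-- Sums of equally many pieces of a level are equivalent. -/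
theorem sum_eqv (hF : Factor 𝔓) (hf : Fte 𝔓 e) {k : ℕ} {S S' : Finset (List Bool)}
    (hS : S ⊆ lev k) (hS' : S' ⊆ lev k) (hc : S.card = S'.card) :
    Eqv 𝔓 (∑ l ∈ S, h.T l) (∑ l ∈ S', h.T l) := by
  induction S using Finset.induction_on generalizing S' with
  | empty =>
    rw [Finset.card_empty] at hc
    rw [Finset.card_eq_zero.1 hc.symm, Finset.sum_empty]
    exact Eqv.refl Pr.zero
  | insert l S hl ih =>
    have hl1 : l ∈ lev k := hS (Finset.mem_insert_self l S)
    have hS1 : S ⊆ lev k := fun x hx => hS (Finset.mem_insert_of_mem hx)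
    rw [Finset.card_insert_of_notMem hl] at hc
    have hne : S'.Nonempty := Finset.card_pos.1 (by omega)
    obtain ⟨l', hl'⟩ := hne
    have hl1' : l' ∈ lev k := hS' hl'
    have hS1' : S'.erase l' ⊆ lev k := fun x hx => hS' (Finset.mem_of_mem_erase hx)
    have hcard : S.card = (S'.erase l').card := by
      rw [Finset.card_erase_of_mem hl']
      omega
    have h1 := ih hS1 hS1' hcard
    have hn' : l' ∉ S'.erase l' := Finset.notMem_erase l' S'
    rw [Finset.sum_insert hl, ← Finset.add_sum_erase S' (fun x => h.T x) hl']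
    exact Eqv.add (h.T_pr l) (h.T_pr l') (h.sum_pr S hS1).1 (h.sum_pr _ hS1').1
      (h.lev_eqv hF hf hl1 hl1') h1 (h.TreeB_orth hl1 hS1 hl) (h.TreeB_orth hl1' hS1' hn')

end Halver

end Pool.Agent.MP_86f3ed.Fac
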